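import Pool.Agent.Lib.MP_dee342_nt.Au.APath

/-!
Backward paths through units.
-/

set_option autoImplicit false

namespace Pool.Agent.Lib.MP_dee342_nt.Au

open Filter Finset

theorem p2_div {a n : ℤ} (h : a ∣ n - 1) : a * ((n - 1) / a) + 1 = n := by
  rw [Int.mul_ediv_cancel' h]
  ring

/-- One odd step back: there are `i ≥ 3` and `w` with `a w + 1 = 2 ^ i c` and `w` not divisible by
`a` (case check on `c` modulo `a ^ 2`; `i ≤ 10` suffices). -/
theorem anc_step {a : ℕ} (ha : a = 3 ∨ a = 5) {c : ℤ} (hc : ¬ (a : ℤ) ∣ c) :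
    ∃ (i : ℕ) (w : ℤ), 3 ≤ i ∧ a * w + 1 = 2 ^ i * c ∧ ¬ (a : ℤ) ∣ w := by
  rcases ha with rfl | rfl
  · obtain ⟨q, r, h0, h1, rfl⟩ : ∃ q r : ℤ, 0 ≤ r ∧ r < 9 ∧ c = 9 * q + r :=
      ⟨c / 9, c % 9, by omega, by omega, by omega⟩
    push_cast at hc ⊢
    interval_cases r <;>
    first
      | exact absurd (by omega) hc
      | exact ⟨3, _, by norm_num, p2_div (by omega), by omega⟩
      | exact ⟨4, _, by norm_num, p2_div (by omega), by omega⟩
      | exact ⟨5, _, by norm_num, p2_div (by omega), by omega⟩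
      | exact ⟨6, _, by norm_num, p2_div (by omega), by omega⟩
  · obtain ⟨q, r, h0, h1, rfl⟩ : ∃ q r : ℤ, 0 ≤ r ∧ r < 25 ∧ c = 25 * q + r :=
      ⟨c / 25, c % 25, by omega, by omega, by omega⟩
    push_cast at hc ⊢
    interval_cases r <;>
    first
      | exact absurd (by omega) hc
      | exact ⟨3, _, by norm_num, p2_div (by omega), by omega⟩
      | exact ⟨4, _, by norm_num, p2_div (by omega), by omega⟩
      | exact ⟨5, _, by norm_num, p2_div (by omega), by omega⟩
      | exact ⟨6, _, by norm_num, p2_div (by omega), by omega⟩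
      | exact ⟨7, _, by norm_num, p2_div (by omega), by omega⟩
      | exact ⟨8, _, by norm_num, p2_div (by omega), by omega⟩
      | exact ⟨9, _, by norm_num, p2_div (by omega), by omega⟩
      | exact ⟨10, _, by norm_num, p2_div (by omega), by omega⟩

theorem p2_iter (a : ℤ) {t s : ℕ} (h : t ≤ s) (y : ℤ) :
    (T a)^[t] (2 ^ s * y) = 2 ^ (s - t) * y := by
  obtain ⟨u, rfl⟩ := Nat.exists_eq_add_of_le h
  rw [Nat.add_sub_cancel_left, pow_add, mul_assoc, iter_two_pow]

theorem p2_odds (a : ℤ) (s : ℕ) (y : ℤ) : odds a s (2 ^ s * y) = 0 := by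
  rw [odds, Finset.card_eq_zero, Finset.filter_eq_empty_iff]
  intro t ht
  have ht' := Finset.mem_range.1 ht
  obtain ⟨u, hu⟩ : ∃ u, s - t = u + 1 := ⟨s - t - 1, by omega⟩
  rw [p2_iter a ht'.le, hu, pow_succ, mul_comm _ (2 : ℤ), mul_assoc]
  omega

theorem p2_unit {a : ℕ} (ha : a = 3 ∨ a = 5) {w : ℤ} (hw : ¬ (a : ℤ) ∣ w) (u : ℕ) :
    ¬ (a : ℤ) ∣ 2 ^ u * w := by
  induction u with
  | zero => simpa using hw
  | succ u ih =>
    rw [pow_succ, mul_comm _ (2 : ℤ), mul_assoc]
    rcases ha with rfl | rfl <;> push_cast at ih ⊢ <;> omega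

/-- Induction on `k`: from `(j, w)` for `c` take `(i, w')` of `anc_step` for `w`; `w'` is odd,
`T w' = 2 ^ (i - 1) w`, `|w'| ≥ |w|`; use `odds_add`, `iter_two_pow`. -/
theorem anc {a : ℕ} (ha : a = 3 ∨ a = 5) {c : ℤ} (hc : ¬ (a : ℤ) ∣ c) (k : ℕ) :
    ∃ (j : ℕ) (w : ℤ), (T a)^[j] w = c ∧ odds a j w = k ∧
      ∀ i, i ≤ j → ¬ (a : ℤ) ∣ (T a)^[i] w ∧ |c| ≤ |(T a)^[i] w| := by
  induction k with
  | zero =>
    refine ⟨0, c, rfl, odds_zero _ _, fun i hi => ?_⟩
    obtain rfl : i = 0 := by omega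
    exact ⟨hc, le_rfl⟩
  | succ k ih =>
    obtain ⟨j, w, h1, h2, h3⟩ := ih
    have hw : ¬ (a : ℤ) ∣ w := (h3 0 (Nat.zero_le _)).1
    have hcw : |c| ≤ |w| := (h3 0 (Nat.zero_le _)).2
    obtain ⟨i, v, hi, hv, hav⟩ := anc_step ha hw
    obtain ⟨s, rfl⟩ : ∃ s, i = s + 3 := ⟨i - 3, by omega⟩
    have hv2 : (a : ℤ) * v + 1 = 2 * (2 ^ (s + 2) * w) := by rw [hv]; ring
    have hodd : v % 2 = 1 := by
      rcases ha with rfl | rfl <;> push_cast at hv2 <;> omega
    have hT : T a v = 2 ^ (s + 2) * w := by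
      rw [T, if_neg (by omega), hv2]
      omega
    have hmid : ∀ m, m ≤ s + 2 → (T a)^[m + 1] v = 2 ^ (s + 2 - m) * w := by
      intro m hm
      rw [Function.iterate_succ_apply, hT, p2_iter _ hm]
    have hend : (T a)^[s + 3] v = w := by
      rw [hmid (s + 2) le_rfl, Nat.sub_self, pow_zero, one_mul]
    have hodds : odds a (s + 3) v = 1 := by
      have e : s + 3 = 1 + (s + 2) := by omega
      have h4 := odds_succ a 0 v
      rw [odds_zero, Function.iterate_zero_apply, if_pos hodd] at h4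
      rw [e, odds_add, Function.iterate_one, hT, p2_odds, h4]
    refine ⟨s + 3 + j, v, ?_, ?_, fun m hm => ?_⟩
    · rw [add_comm, Function.iterate_add_apply, hend, h1]
    · rw [odds_add, hodds, hend, h2, add_comm]
    · rcases Nat.lt_or_ge m (s + 3) with hlt | hge
      · cases m with
        | zero =>
          refine ⟨hav, hcw.trans ?_⟩
          have hw0 : w ≠ 0 := fun h => hw (h ▸ dvd_zero _)
          have hp : (1 : ℤ) ≤ 2 ^ s := one_le_pow₀ (by norm_num)
          have h5 : |(a : ℤ) * v + 1| = 8 * (2 ^ s * |w|) := by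
            rw [hv, abs_mul, abs_of_pos (by positivity)]
            ring
          have h6 : |w| ≤ 2 ^ s * |w| := le_mul_of_one_le_left (abs_nonneg _) hp
          have h7 : 1 ≤ |w| := Int.one_le_abs hw0
          have h8 : |(a : ℤ) * v + 1| ≤ 5 * |v| + 1 := by
            refine (abs_add_le _ _).trans ?_
            rw [abs_mul, abs_one]
            have h9 := abs_nonneg v
            rcases ha with rfl | rfl <;> norm_num <;> linarith
          rw [Function.iterate_zero_apply]
          linarith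
        | succ m =>
          rw [hmid m (by omega)]
          refine ⟨p2_unit ha hw _, hcw.trans ?_⟩
          rw [abs_mul, abs_of_pos (by positivity : (0 : ℤ) < 2 ^ (s + 2 - m))]
          exact le_mul_of_one_le_left (abs_nonneg _) (one_le_pow₀ (by norm_num))
      · obtain ⟨t, rfl⟩ : ∃ t, m = t + (s + 3) := ⟨m - (s + 3), by omega⟩
        rw [Function.iterate_add_apply, hend]
        exact h3 t (by omega)

end Pool.Agent.Lib.MP_dee342_nt.Au
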