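import Pool.Agent.Lib.MP_dee342_nt.Au.GEnd

/-!
Consequences for the set of periodic points and for basins of cycles.
-/

set_option autoImplicit false

namespace Pool.Agent.Lib.MP_dee342_nt.Au

open Function

theorem automatic_of_finite (b : ℕ) {S : Set ℤ} (h : S.Finite) : Automatic b S := by
  obtain ⟨B, hB⟩ : ∃ B : ℤ, ∀ x ∈ S, |x| ≤ B := by
    obtain ⟨B, hB⟩ := (h.image fun x => |x|).bddAbove
    exact ⟨B, fun x hx => hB ⟨x, hx, rfl⟩⟩
  refine (Set.finite_Icc (-B - 1) B).finite_subsets.subset ?_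
  rintro A ⟨k, r, h0, h1, rfl⟩ n hn
  have h2 := abs_le.1 (hB _ hn)
  have h3 : (1 : ℤ) ≤ (b : ℤ) ^ k := by omega
  have hB0 : 0 ≤ B := by linarith [h2.1, h2.2]
  constructor
  · by_contra h4
    nlinarith [h2.1, h2.2]
  · by_contra h4
    nlinarith [h2.1, h2.2]

theorem not_periodic {a : ℕ} (ha : a = 3 ∨ a = 5) {e : ℤ} (he : e = 1 ∨ e = -1) :
    ∃ m : ℤ, 0 < e * m ∧ ¬ (a : ℤ) ∣ m ∧ m ∉ periodicPts (T a) := by
  have key : ∀ (m y : ℤ) (p : ℕ), 0 < p → (T a)^[p] y = y → T a m = T a y → m ≠ y →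
      m ∉ periodicPts (T a) := fun m y p hp hy h hne hm =>
    hne ((bijOn_periodicPts _).injOn hm ⟨p, hp, hy⟩ h)
  rcases ha with rfl | rfl <;> rcases he with rfl | rfl
  · exact ⟨4, by norm_num, by norm_num, key 4 1 2 (by norm_num) (by decide) (by decide) (by decide)⟩
  · exact ⟨-2, by norm_num, by norm_num,
      key (-2) (-1) 1 (by norm_num) (by decide) (by decide) (by decide)⟩
  · exact ⟨16, by norm_num, by norm_num,
      key 16 3 5 (by norm_num) (by decide) (by decide) (by decide)⟩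
  · exact ⟨-4, by norm_num, by norm_num,
      key (-4) (-1) 2 (by norm_num) (by decide) (by decide) (by decide)⟩

theorem finite_iff {a : ℕ} (ha : a = 3 ∨ a = 5) {b : ℕ} (hb : 2 ≤ b) :
    (periodicPts (T a)).Finite ↔ Automatic b (periodicPts (T a)) := by
  refine ⟨automatic_of_finite _, fun h => ?_⟩
  have hT : ∀ x ∈ periodicPts (T a), T a x ∈ periodicPts (T a) := fun x hx =>
    (bijOn_periodicPts _).mapsTo hx
  have h1 : ∀ e : ℤ, e = 1 ∨ e = -1 → {x | x ∈ periodicPts (T a) ∧ 0 < e * x ∧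
      x ∈ periodicPts (T a)}.Finite := by
    intro e he
    obtain ⟨m, h1, h2, h3⟩ := not_periodic ha he
    rcases mainG ha hb h hT he with h4 | h4
    · exact absurd (h4 m h1 h2) h3
    · exact h4.1
  refine (((h1 1 (Or.inl rfl)).union (h1 (-1) (Or.inr rfl))).insert 0).subset fun x hx => ?_
  rcases lt_trichotomy x 0 with h2 | h2 | h2
  · exact Or.inr (Or.inr ⟨hx, by linarith, hx⟩)
  · exact Or.inl h2
  · exact Or.inr (Or.inl ⟨hx, by linarith, hx⟩)

theorem odds_mono (a : ℤ) {i j : ℕ} (h : i ≤ j) (x : ℤ) : odds a i x ≤ odds a j x :=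
  Finset.card_le_card (Finset.filter_subset_filter _ (Finset.range_mono h))

theorem iter_sign {a : ℕ} (ha : a = 3 ∨ a = 5) {e : ℤ} (he : e = 1 ∨ e = -1) (j : ℕ) (x : ℤ) :
    0 < e * (T a)^[j] x ↔ 0 < e * x := by
  induction j with
  | zero => rfl
  | succ j ih => rw [iterate_succ_apply', T_sign ha he, ih]

/-- If the orbits of two units `m`, `y` of the same sign never meet, the set of integers whose
orbit contains `m` is not automatic. -/
theorem basin {a : ℕ} (ha : a = 3 ∨ a = 5) {b : ℕ} (hb : 2 ≤ b) {e : ℤ}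
    (he : e = 1 ∨ e = -1) {m y : ℤ}
    (hm : 0 < e * m) (hma : ¬ (a : ℤ) ∣ m) (hy : 0 < e * y) (hya : ¬ (a : ℤ) ∣ y)
    (hym : ∀ i j, (T a)^[i] y ≠ (T a)^[j] m) :
    ¬ Automatic b {n | ∃ j, (T a)^[j] n = m} := by
  intro h
  set S : Set ℤ := {n | ∃ j, (T a)^[j] n = m}ᶜ with hS
  have hT : ∀ x ∈ S, T a x ∈ S := fun x hx ⟨j, hj⟩ => hx ⟨j + 1, hj⟩
  rcases mainG ha hb (auto_compl h) hT he with h1 | ⟨h1, ⟨K, h2⟩, -⟩
  · exact h1 m hm hma ⟨0, rfl⟩
  obtain ⟨B, hB⟩ := (h1.image fun x => |x|).bddAbove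
  obtain ⟨s, hs⟩ : ∃ s : ℕ, B < 2 ^ s := pow_unbounded_of_one_lt B (by norm_num)
  have hy0 : y ≠ 0 := by
    rintro rfl
    simp at hy
  have hc : ¬ (a : ℤ) ∣ 2 ^ s * y := by
    intro hd
    have hp : Prime (a : ℤ) := by
      rcases ha with rfl | rfl
      · exact Int.prime_three
      · exact Nat.prime_iff_prime_int.1 Nat.prime_five
    rcases hp.dvd_or_dvd hd with h3 | h3
    · have h4 := hp.dvd_of_dvd_pow h3
      rcases ha with rfl | rfl <;> omega
    · exact hya h3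
  obtain ⟨j, w, hw, hk, hu⟩ := anc ha hc (K + 1)
  have hsy : 0 < e * (2 ^ s * y) := by
    have : (0 : ℤ) < 2 ^ s := by positivity
    nlinarith
  have hwy : (T a)^[s + j] w = y := by rw [iterate_add_apply, hw, iter_two_pow]
  have hwS : ∀ i, (T a)^[i] w ∈ S := by
    rintro i ⟨l, hl⟩
    refine hym (l + i) (s + j) ?_
    rw [← hwy, ← hl, ← iterate_add_apply, ← iterate_add_apply, ← iterate_add_apply]
    congr 1
    ring
  have hwe : 0 < e * w := by rwa [← iter_sign ha he j, hw]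
  obtain ⟨i, hi, hiK⟩ := h2 w (hwS 0) hwe
  have hij : i ≤ j := by
    by_contra h3
    have := odds_mono a (le_of_not_ge h3) w
    omega
  have h3 := hB ⟨_, ⟨hwS i, (iter_sign ha he i w).2 hwe, hi⟩, rfl⟩
  have h4 := (hu i hij).2
  rw [abs_mul, abs_of_pos (by positivity : (0 : ℤ) < 2 ^ s)] at h4
  have h5 : 1 ≤ |y| := Int.one_le_abs hy0
  have h6 : (0 : ℤ) < 2 ^ s := by positivity
  simp only at h3
  nlinarith

end Pool.Agent.Lib.MP_dee342_nt.Au
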