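import Pool.Agent.Lib.MP_dee342_nt.Defs

/-!
Sets of integers recognised by a finite automaton in base `b`, and the number of odd steps.
-/

set_option autoImplicit false

namespace Pool.Agent.Lib.MP_dee342_nt

/-- `S` is `b`-automatic: its `b`-kernel, the family of the sets `{n | b ^ k * n + r ∈ S}` with
`0 ≤ r < b ^ k`, is finite. -/
def Automatic (b : ℕ) (S : Set ℤ) : Prop :=
  {A : Set ℤ | ∃ (k : ℕ) (r : ℤ), 0 ≤ r ∧ r < (b : ℤ) ^ k ∧
    A = {n | (b : ℤ) ^ k * n + r ∈ S}}.Finite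

/-- The number of odd terms among `x, T x, …, T^(j-1) x`. -/
def odds (a : ℤ) (j : ℕ) (x : ℤ) : ℕ :=
  ((Finset.range j).filter fun i => (T a)^[i] x % 2 = 1).card

end Pool.Agent.Lib.MP_dee342_nt
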