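import Pool.Agent.Lib.MP_dee342_nt.Au.APath

/-!
Leading digits along long pieces of orbits.
-/

set_option autoImplicit false

namespace Pool.Agent.Lib.MP_dee342_nt.Au

open Filter Finset

theorem t1_add {θ δ : ℝ} (hθ : 1 ≤ θ) (hδ : 0 < δ)
    (h : ∀ k n : ℕ, 0 < k → 0 < n → (k : ℝ) * θ ≠ n) :
    ∃ m n : ℕ, 1 ≤ m ∧ (n : ℝ) < m * θ ∧ m * θ < n + δ := by
  have key : ∀ k j : ℤ, 0 < k → (j : ℝ) ≤ k * θ → k * θ < j + min δ 1 →
      ∃ m n : ℕ, 1 ≤ m ∧ (n : ℝ) ≤ m * θ ∧ m * θ < n + δ ∧ 0 < n := by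
    intro k j hk h1 h2
    have h3 : (1 : ℝ) ≤ k := by exact_mod_cast hk
    have h4 : (0 : ℝ) < j := by nlinarith [min_le_right δ 1]
    have h5 : 0 < j := by exact_mod_cast h4
    lift k to ℕ using hk.le
    lift j to ℕ using h5.le
    refine ⟨k, j, by exact_mod_cast hk, by exact_mod_cast h1, ?_, by exact_mod_cast h5⟩
    have := min_le_left δ 1
    push_cast at h2
    linarith
  suffices ∃ m n : ℕ, 1 ≤ m ∧ (n : ℝ) ≤ m * θ ∧ m * θ < n + δ ∧ 0 < n by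
    obtain ⟨m, n, h1, h2, h3, h4⟩ := this
    exact ⟨m, n, h1, lt_of_le_of_ne h2 (h m n h1 h4).symm, h3⟩
  obtain ⟨N, hN⟩ := exists_nat_one_div_lt (lt_min hδ one_pos)
  obtain ⟨j, k, hk, -, hd⟩ := Real.exists_int_int_abs_mul_sub_le θ N.succ_pos
  have hd' : |(k : ℝ) * θ - j| < min δ 1 := by
    refine lt_of_le_of_lt (hd.trans ?_) hN
    gcongr
    exact N.le_succ
  obtain ⟨h1, h2⟩ := abs_lt.1 hd'
  rcases le_or_gt (j : ℝ) (k * θ) with h3 | h3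
  · exact key k j hk h3 (by linarith)
  have he : 0 < (j : ℝ) - k * θ := sub_pos.2 h3
  have h4 := Int.floor_le (1 / ((j : ℝ) - k * θ))
  have h5 := Int.lt_floor_add_one (1 / ((j : ℝ) - k * θ))
  have h6 : 0 < ⌊1 / ((j : ℝ) - k * θ)⌋ := by
    rw [Int.floor_pos, le_div_iff₀ he]
    linarith [min_le_right δ 1]
  generalize ⌊1 / ((j : ℝ) - k * θ)⌋ = i at h4 h5 h6
  rw [le_div_iff₀ he] at h4
  rw [div_lt_iff₀ he] at h5
  refine key (i * k) (i * j - 1) (mul_pos h6 hk) ?_ ?_ <;> push_cast <;> nlinarith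

/-- Dirichlet (`Real.exists_int_int_abs_mul_sub_le`) for `log a / log 2`; `a ^ m` is odd, so never
a power `2 ^ n`, `n > 0`; if the first approximation `ρ = a ^ k / 2 ^ j` is below `1`, take the
largest `i` with `2 ρ ^ i > 1`. -/
theorem approx {a : ℕ} (ha : a = 3 ∨ a = 5) {ε : ℝ} (hε : 0 < ε) :
    ∃ m n : ℕ, 1 ≤ m ∧ (2 : ℝ) ^ n < (a : ℝ) ^ m ∧ (a : ℝ) ^ m < (1 + ε) * 2 ^ n := by
  have h2 : (2 : ℝ) ≤ a := by rcases ha with rfl | rfl <;> norm_num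
  have h1 : ∀ m : ℕ, (2 : ℝ) ^ ((m : ℝ) * Real.logb 2 a) = (a : ℝ) ^ m := fun m => by
    rw [mul_comm, Real.rpow_mul_natCast two_pos.le,
      Real.rpow_logb two_pos (by norm_num) (by linarith)]
  obtain ⟨m, n, h3, h4, h5⟩ := t1_add (θ := Real.logb 2 a) (δ := Real.logb 2 (1 + ε))
    (by rw [Real.le_logb_iff_rpow_le one_lt_two (by linarith), Real.rpow_one]; exact h2)
    (Real.logb_pos one_lt_two (by linarith)) fun k n _ hn e => by
      have h6 := h1 k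
      rw [e, Real.rpow_natCast] at h6
      have h7 : 2 ^ n = a ^ k := by exact_mod_cast h6
      have h8 : Odd (a ^ k) := Odd.pow (by rcases ha with rfl | rfl <;> decide)
      rw [← h7] at h8
      exact Nat.not_odd_iff_even.2 (even_two.pow_of_ne_zero hn.ne') h8
  refine ⟨m, n, h3, ?_, ?_⟩
  · rw [← h1, ← Real.rpow_natCast]
    exact Real.rpow_lt_rpow_of_exponent_lt one_lt_two h4
  · have h6 := Real.rpow_lt_rpow_of_exponent_lt one_lt_two h5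
    rwa [h1, Real.rpow_add two_pos, Real.rpow_natCast,
      Real.rpow_logb two_pos (by norm_num) (by linarith), mul_comm] at h6

theorem t2_odd {a : ℕ} (ha : a = 3 ∨ a = 5) {M : ℝ} (hM : 1 ≤ M) {y : ℤ} (c : y % 2 = 1)
    (hy : M ≤ |(y : ℝ)|) : (1 - 1 / M) * a * |(y : ℝ)| ≤ 2 * |((T a y : ℤ) : ℝ)| ∧
      2 * |((T a y : ℤ) : ℝ)| ≤ (1 + 1 / M) * a * |(y : ℝ)| := by
  have h0 : 0 < M := by linarith
  have e : 2 * T a y = a * y + 1 := by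
    obtain ⟨z, rfl⟩ : ∃ z, y = 2 * z + 1 := ⟨y / 2, by omega⟩
    rw [T_odd ha]
    rcases ha with rfl | rfl <;> push_cast <;> ring
  have e2 : 2 * |((T a y : ℤ) : ℝ)| = |(a : ℝ) * y + 1| := by
    rw [← abs_two, ← abs_mul]
    exact congrArg abs (by exact_mod_cast e)
  have a1 : (1 : ℝ) ≤ a := by rcases ha with rfl | rfl <;> norm_num
  have h1 : 1 ≤ 1 / M * |(y : ℝ)| := by
    rw [one_div_mul_eq_div]
    exact (one_le_div h0).2 hy
  have h2 : 1 ≤ (a : ℝ) * (1 / M * |(y : ℝ)|) := one_le_mul_of_one_le_of_one_le a1 h1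
  have h3 := abs_add_le ((a : ℝ) * y) 1
  have h4 := abs_sub ((a : ℝ) * y + 1) 1
  rw [add_sub_cancel_right] at h4
  rw [abs_mul, abs_one, Nat.abs_cast] at h3 h4
  rw [e2]
  constructor <;> linarith

/-- Induction on `i`: an odd step multiplies `|x|` by `a / 2` up to `1 / 2`. -/
theorem growth {a : ℕ} (ha : a = 3 ∨ a = 5) {M : ℝ} (hM : 1 ≤ M) (x : ℤ) (i : ℕ)
    (h : ∀ l, l < i → M ≤ |(((T a)^[l] x : ℤ) : ℝ)|) :
    (1 - 1 / M) ^ odds a i x * ((a : ℝ) ^ odds a i x * |(x : ℝ)|) ≤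
        2 ^ i * |(((T a)^[i] x : ℤ) : ℝ)| ∧
      2 ^ i * |(((T a)^[i] x : ℤ) : ℝ)| ≤
        (1 + 1 / M) ^ odds a i x * ((a : ℝ) ^ odds a i x * |(x : ℝ)|) := by
  induction i with
  | zero => simp [odds_zero]
  | succ i ih =>
    obtain ⟨h1, h2⟩ := ih fun l hl => h l (by omega)
    have hy := h i (by omega)
    have h0 : 0 < M := by linarith
    have m1 : 0 ≤ 1 - 1 / M := sub_nonneg.2 ((div_le_one h0).2 hM)
    have m2 : 0 ≤ 1 + 1 / M := by positivity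
    have a0 : (0 : ℝ) ≤ a := Nat.cast_nonneg a
    have p2 : (0 : ℝ) ≤ 2 ^ i := by positivity
    rw [odds_succ, Function.iterate_succ_apply', pow_succ (2 : ℝ) i, mul_assoc ((2 : ℝ) ^ i)]
    generalize (T a)^[i] x = y at *
    split_ifs with c
    · obtain ⟨k1, k2⟩ := t2_odd ha hM c hy
      have k3 := mul_le_mul_of_nonneg_left h1 (mul_nonneg m1 a0)
      have k4 := mul_le_mul_of_nonneg_left h2 (mul_nonneg m2 a0)
      have k5 := mul_le_mul_of_nonneg_left k1 p2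
      have k6 := mul_le_mul_of_nonneg_left k2 p2
      simp only [pow_succ]
      constructor <;> linarith
    · obtain ⟨z, rfl⟩ : ∃ z, y = 2 * z := ⟨y / 2, by omega⟩
      rw [Int.cast_mul, abs_mul, Int.cast_ofNat, abs_two] at h1 h2
      rw [T_even, add_zero]
      exact ⟨h1, h2⟩

/-- If `1 < ρ`, `2 ≤ ρ ^ I` and `y, v > 0` there are `t ≤ I` and an integer `l` with
`v / ρ < y * ρ ^ t * 2 ^ l ≤ v` (`exists_mem_Ioc_zpow`, then the largest `t`). -/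
theorem rot {ρ y v : ℝ} (hρ : 1 < ρ) {I : ℕ} (hI : 2 ≤ ρ ^ I) (hy : 0 < y) (hv : 0 < v) :
    ∃ (t : ℕ) (l : ℤ), t ≤ I ∧ v / ρ < y * ρ ^ t * 2 ^ l ∧ y * ρ ^ t * 2 ^ l ≤ v := by
  obtain ⟨l, h1, h2⟩ := exists_mem_Ico_zpow (div_pos hv hy) (one_lt_two : (1 : ℝ) < 2)
  have h3 : (0 : ℝ) < 2 ^ l := zpow_pos two_pos l
  have h4 : 0 < y * 2 ^ l := mul_pos hy h3
  rw [le_div_iff₀ hy] at h1
  rw [zpow_add_one₀ two_ne_zero, div_lt_iff₀ hy] at h2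
  obtain ⟨t, h5, h6⟩ := exists_nat_pow_near (x := v / (y * 2 ^ l))
    (by rw [le_div_iff₀ h4]; linarith) hρ
  have h7 : v / (y * 2 ^ l) < 2 := by rw [div_lt_iff₀ h4]; linarith
  refine ⟨t, l, ((pow_lt_pow_iff_right₀ hρ).1 ((h5.trans_lt h7).trans_le hI)).le, ?_, ?_⟩
  · rw [div_lt_iff₀ h4, pow_succ] at h6
    rw [div_lt_iff₀ (by linarith)]
    linarith
  · rw [le_div_iff₀ h4] at h5
    linarith

/-- Discrete intermediate values: `odds` grows by at most one per step, and after an odd step all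
terms are units. -/
theorem odds_hit {a : ℕ} (ha : a = 3 ∨ a = 5) (x : ℤ) {j o : ℕ} (h1 : 1 ≤ o)
    (h2 : o ≤ odds a j x) : ∃ i, i ≤ j ∧ odds a i x = o ∧ ¬ (a : ℤ) ∣ (T a)^[i] x := by
  induction j with
  | zero =>
    rw [odds_zero] at h2
    omega
  | succ j ih =>
    by_cases c : o ≤ odds a j x
    · obtain ⟨i, hi, k⟩ := ih c
      exact ⟨i, by omega, k⟩
    · have e := odds_succ a j x
      split_ifs at e with d
      · refine ⟨j + 1, le_rfl, by omega, ?_⟩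
        rw [Function.iterate_succ_apply']
        exact T_unit_of_odd ha d
      · omega

theorem t3_pow {η M : ℝ} (hη : 0 < η) (hη1 : η ≤ 1) (hM : 1 ≤ M) {K o : ℕ} (ho : o ≤ K)
    (hK : 2 * (K : ℝ) ≤ η * M) : 1 - η ≤ (1 - 1 / M) ^ o ∧ (1 + 1 / M) ^ o ≤ 1 + η := by
  have hM0 : 0 < M := by linarith
  have h1 : 1 / M ≤ 1 := by rwa [div_le_one hM0]
  have h0 : 0 < 1 / M := by positivity
  have ho' : (o : ℝ) ≤ K := by exact_mod_cast ho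
  have h2 : 1 + (o : ℝ) * (-(1 / M)) ≤ (1 + -(1 / M)) ^ o :=
    one_add_mul_le_pow (by linarith) o
  have h3 : (o : ℝ) * (1 / M) ≤ η / 2 := by
    rw [mul_one_div, div_le_iff₀ hM0]
    linarith
  have h4 : 1 - η / 2 ≤ (1 - 1 / M) ^ o := by
    rw [sub_eq_add_neg 1 (1 / M)]
    linarith
  refine ⟨by linarith, ?_⟩
  have h5 : (1 + 1 / M) ^ o * (1 - 1 / M) ^ o ≤ 1 := by
    rw [← mul_pow]
    exact pow_le_one₀ (mul_nonneg (by linarith) (by linarith)) (by nlinarith)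
  have h6 : 0 ≤ (1 + 1 / M) ^ o := by positivity
  have h7 : (1 + 1 / M) ^ o * (1 - η / 2) ≤ 1 := (mul_le_mul_of_nonneg_left h4 h6).trans h5
  by_contra hc
  have h8 := not_le.mp hc
  nlinarith

theorem t3_num {V η ρ Y : ℝ} (hV : 1 ≤ V) (hη : η * (8 * (V + 1)) = 1) (hη0 : 0 < η)
    (hρ : 1 < ρ) (hρ2 : ρ < 1 + η) (h1 : (V + 1 / 2) / ρ < Y) (h2 : Y ≤ V + 1 / 2) :
    V < (1 - η) * Y ∧ (1 + η) * Y < V + 1 := by
  have h3 : V + 1 / 2 < Y * ρ := by rwa [div_lt_iff₀ (by linarith)] at h1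
  have hY : 0 < Y := lt_trans (by positivity) h1
  have h4 : Y * ρ < Y * (1 + η) := mul_lt_mul_of_pos_left hρ2 hY
  have h5 : η * Y ≤ η * (V + 1 / 2) := mul_le_mul_of_nonneg_left h2 hη0.le
  constructor <;> nlinarith

/-- `η = 1 / (8 (v + 1))`, `ρ = a ^ m / 2 ^ n ∈ (1, 1 + η)` from `approx`, `2 ≤ ρ ^ I`,
`K = 1 + m I`, `M ≥ v + 1` with `(1 + 1 / M) ^ K ≤ 1 + η`, `1 - η ≤ (1 - 1 / M) ^ K`; `rot` for
`y = a |x|` and `v + 1 / 2`, `odds_hit` for `o = 1 + m t`, `growth`; the exponent of `2` is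
nonnegative because the term is at least `M`. -/
theorem mant {a : ℕ} (ha : a = 3 ∨ a = 5) {v : ℤ} (hv : 1 ≤ v) :
    ∃ (K : ℕ) (M : ℤ), ∀ (x : ℤ) (j : ℕ), (∀ i, i ≤ j → M ≤ |(T a)^[i] x|) → K ≤ odds a j x →
      ∃ i l : ℕ, i ≤ j ∧ ¬ (a : ℤ) ∣ (T a)^[i] x ∧ 2 ^ l * v < |(T a)^[i] x| ∧
        |(T a)^[i] x| < 2 ^ l * (v + 1) := by
  have hV : (1 : ℝ) ≤ v := by exact_mod_cast hv
  have ha0 : (0 : ℝ) < a := by rcases ha with rfl | rfl <;> norm_num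
  obtain ⟨η, hη⟩ : ∃ η : ℝ, η = 1 / (8 * (v + 1)) := ⟨_, rfl⟩
  have hη0 : 0 < η := by rw [hη]; positivity
  have hη1 : η * (8 * (v + 1)) = 1 := by rw [hη]; field_simp
  have hη2 : η ≤ 1 := by nlinarith
  obtain ⟨m, n, -, h1, h2⟩ := approx ha hη0
  have hn : (0 : ℝ) < 2 ^ n := by positivity
  obtain ⟨ρ, hρ⟩ : ∃ ρ : ℝ, ρ = (a : ℝ) ^ m / 2 ^ n := ⟨_, rfl⟩
  have hρ1 : 1 < ρ := by rw [hρ, one_lt_div hn]; exact h1
  have hρ2 : ρ < 1 + η := by rw [hρ, div_lt_iff₀ hn]; exact h2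
  have hρ3 : (a : ℝ) ^ m = ρ * 2 ^ n := by rw [hρ]; field_simp
  obtain ⟨I, hI⟩ := pow_unbounded_of_one_lt (2 : ℝ) hρ1
  obtain ⟨N, hN⟩ := exists_nat_ge (max ((v : ℝ) + 1) (2 * ((1 + m * I : ℕ) : ℝ) / η))
  have hN1 : (v : ℝ) + 1 ≤ N := (le_max_left _ _).trans hN
  have hN2 : 2 * ((1 + m * I : ℕ) : ℝ) ≤ η * N := by
    have := (le_max_right _ _).trans hN
    rwa [div_le_iff₀ hη0, mul_comm (N : ℝ)] at this
  refine ⟨1 + m * I, N, fun x j hx hK => ?_⟩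
  have hx' : ∀ i, i ≤ j → (N : ℝ) ≤ |(((T a)^[i] x : ℤ) : ℝ)| := fun i hi => by
    exact_mod_cast hx i hi
  have hx0 : (0 : ℝ) < |(x : ℝ)| := by
    have := hx' 0 (Nat.zero_le j)
    simp only [Function.iterate_zero, id_eq] at this
    linarith
  obtain ⟨t, l, ht, h3, h4⟩ := rot (y := a * |(x : ℝ)|) (v := v + 1 / 2) hρ1 hI.le
    (by positivity) (by positivity)
  have ho : 1 + m * t ≤ 1 + m * I := Nat.add_le_add_left (Nat.mul_le_mul_left m ht) 1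
  obtain ⟨i, hi, h5, h6⟩ := odds_hit ha x (Nat.le_add_right 1 (m * t)) (ho.trans hK)
  obtain ⟨g1, g2⟩ := growth ha (M := N) (by linarith) x i fun k hk => hx' k (by omega)
  rw [h5] at g1 g2
  obtain ⟨p1, p2⟩ := t3_pow hη0 hη2 (M := N) (by linarith) ho hN2
  obtain ⟨q1, q2⟩ := t3_num hV hη1 hη0 hρ1 hρ2 h3 h4
  obtain ⟨Y, hY⟩ : ∃ Y : ℝ, Y = a * |(x : ℝ)| * ρ ^ t * 2 ^ l := ⟨_, rfl⟩
  rw [← hY] at q1 q2 h3 h4
  obtain ⟨e, he⟩ : ∃ e : ℤ, e = (n * t : ℕ) - l - (i : ℕ) := ⟨_, rfl⟩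
  have hE : (0 : ℝ) < 2 ^ e := by positivity
  have hi2 : (0 : ℝ) < 2 ^ i := by positivity
  have key : (a : ℝ) ^ (1 + m * t) * |(x : ℝ)| = 2 ^ i * (Y * 2 ^ e) := by
    rw [he, hY, zpow_sub₀ two_ne_zero, zpow_sub₀ two_ne_zero, zpow_natCast, zpow_natCast,
      pow_add, pow_one, pow_mul, pow_mul, hρ3, mul_pow]
    field_simp
  have hY0 : 0 < Y := lt_trans (by positivity) h3
  have hYe : 0 < 2 ^ i * (Y * 2 ^ e) := by positivity
  rw [key] at g1 g2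
  obtain ⟨z, hz⟩ : ∃ z : ℝ, z = |(((T a)^[i] x : ℤ) : ℝ)| := ⟨_, rfl⟩
  have hzN : (N : ℝ) ≤ z := hz ▸ hx' i hi
  rw [← hz] at g1 g2
  have r1 : (1 - η) * (Y * 2 ^ e) ≤ z := by
    refine le_of_mul_le_mul_left ?_ hi2
    refine le_trans (le_of_eq ?_) ((mul_le_mul_of_nonneg_right p1 hYe.le).trans g1)
    ring
  have r2 : z ≤ (1 + η) * (Y * 2 ^ e) := by
    refine le_of_mul_le_mul_left ?_ hi2
    refine (g2.trans (mul_le_mul_of_nonneg_right p2 hYe.le)).trans (le_of_eq ?_)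
    ring
  have s1 : 2 ^ e * (v : ℝ) < z := by
    refine lt_of_lt_of_le ?_ r1
    rw [← mul_assoc, mul_comm]
    exact mul_lt_mul_of_pos_right q1 hE
  have s2 : z < 2 ^ e * ((v : ℝ) + 1) := by
    refine lt_of_le_of_lt r2 ?_
    rw [← mul_assoc, mul_comm (2 ^ e : ℝ)]
    exact mul_lt_mul_of_pos_right q2 hE
  have he0 : 0 ≤ e := by
    by_contra hc
    have : (2 : ℝ) ^ e ≤ 1 := zpow_le_one_of_nonpos₀ one_le_two (not_le.mp hc).le
    nlinarith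
  obtain ⟨k, rfl⟩ := Int.eq_ofNat_of_zero_le he0
  rw [zpow_natCast, hz] at s1 s2
  exact ⟨i, k, hi, h6, by exact_mod_cast s1, by exact_mod_cast s2⟩

end Pool.Agent.Lib.MP_dee342_nt.Au
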