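import Pool.Agent.Lib.MP_dee342_nt.Au.AFil
import Pool.Agent.Lib.MP_dee342_nt.Au.AAnc
import Pool.Agent.Lib.MP_dee342_nt.Au.AMant

/-!
An almost everywhere period, by the comparison of the bases 2 and a.
-/

set_option autoImplicit false

namespace Pool.Agent.Lib.MP_dee342_nt.Au

open Filter Finset

theorem k1_unit {a : ℕ} (ha : a = 3 ∨ a = 5) (i : ℕ) {x : ℤ} (hx : ¬ (a : ℤ) ∣ x) :
    ¬ (a : ℤ) ∣ (T a)^[i] x := by
  induction i with
  | zero => exact hx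
  | succ i ih =>
    rw [Function.iterate_succ_apply']
    exact T_unit ha ih

/-- `AB` pulled back along `t ↦ T^i (2 ^ j (a t) + w) = a ^ odds i w * 2 ^ (j - i) * a t + T^i w`
(`iter_aff`, `Fil.aff`) for `i < j`. -/
theorem along {a : ℕ} (ha : a = 3 ∨ a = 5) {e : ℤ} {F : Filter ℤ} (hF : Fil a e F) {S : Set ℤ}
    (h : AB a F S) (j : ℕ) {w : ℤ} (hw : ¬ (a : ℤ) ∣ w) :
    ∀ᶠ t in F, ((T a)^[j] (2 ^ j * (a * t) + w) ∈ S ↔ 2 ^ j * (a * t) + w ∈ S) := by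
  have key : ∀ i, i ≤ j →
      ∀ᶠ t in F, ((T a)^[i] (2 ^ j * (a * t) + w) ∈ S ↔ 2 ^ j * (a * t) + w ∈ S) := by
    intro i
    induction i with
    | zero => exact fun _ => Eventually.of_forall fun _ => Iff.rfl
    | succ i ih =>
      intro hi
      obtain ⟨l, rfl⟩ := Nat.exists_eq_add_of_le (Nat.le_of_succ_le hi)
      have e1 : ∀ t : ℤ, 2 ^ l * (a : ℤ) ^ (odds a i w + 1) * t + (T a)^[i] w =
          (T a)^[i] (2 ^ (i + l) * (a * t) + w) := fun t => by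
        rw [pow_add 2, mul_assoc (2 ^ i), iter_aff ha]
        ring
      filter_upwards [ih (Nat.le_of_succ_le hi),
        (hF.aff l (odds a i w + 1) ((T a)^[i] w)).eventually h] with t h1 h2
      rw [e1] at h2
      rw [Function.iterate_succ_apply', h2 (k1_unit ha i fun hd => hw ?_), h1]
      exact (Int.dvd_add_right (Dvd.dvd.mul_left (dvd_mul_right _ _) _)).1 hd
  exact key j le_rfl

theorem k1_pos {a : ℕ} (ha : a = 3 ∨ a = 5) (i : ℕ) (x : ℤ) : 0 < (T a)^[i] x ↔ 0 < x := by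
  induction i with
  | zero => exact Iff.rfl
  | succ i ih =>
    rw [Function.iterate_succ_apply', ← ih]
    simpa using T_sign ha (Or.inl rfl) ((T a)^[i] x)

/-- For a unit `0 < c < 4 a ^ m` take `(j, w)` from `anc` with `m - 1` odd steps; `w > 0`
(`T_sign`), `w < 4 a 2 ^ j ≤ 20 * 2 ^ j` (`iter_lb`); `along`, `iter_aff`, `Aut.win`.
`G` is a finite intersection. For `a ∣ c` both sides are false. -/
theorem aside {a : ℕ} (ha : a = 3 ∨ a = 5) {e : ℤ} {F : Filter ℤ} (hF : Fil a e F) {S : Set ℤ}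
    (h : AB a F S) {Q : Type} {σ : ℤ → Q} (hσ : Aut a S σ) {m : ℕ} (hm : 1 ≤ m) :
    ∃ G ∈ F, ∀ t ∈ G, ∀ t' ∈ G, (∀ p, 0 ≤ p → p < 20 → σ (a * t + p) = σ (a * t' + p)) →
      ∀ c : ℤ, 0 ≤ c → c < 4 * (a : ℤ) ^ m →
        (Un a S ((a : ℤ) ^ m * t + c) ↔ Un a S ((a : ℤ) ^ m * t' + c)) := by
  obtain ⟨k, rfl⟩ := Nat.exists_eq_add_of_le' hm
  have hd : ∀ c t : ℤ, (a : ℤ) ∣ (a : ℤ) ^ (k + 1) * t + c ↔ (a : ℤ) ∣ c := fun c t =>
    Int.dvd_add_right (Dvd.dvd.mul_right (dvd_pow_self _ k.succ_ne_zero) _)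
  have key : ∀ c : ℤ, ∃ G ∈ F, ∀ t ∈ G, ∀ t' ∈ G,
      (∀ p, 0 ≤ p → p < 20 → σ (a * t + p) = σ (a * t' + p)) → 0 ≤ c → c < 4 * (a : ℤ) ^ (k + 1) →
        (Un a S ((a : ℤ) ^ (k + 1) * t + c) ↔ Un a S ((a : ℤ) ^ (k + 1) * t' + c)) := by
    intro c
    by_cases hc : (a : ℤ) ∣ c
    · exact ⟨Set.univ, univ_mem, fun t _ t' _ _ _ _ =>
        iff_of_false (fun u => u.2 ((hd c t).2 hc)) fun u => u.2 ((hd c t').2 hc)⟩
    obtain ⟨j, w, h1, h2, h3⟩ := anc ha hc k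
    refine ⟨_, along ha hF h j (h3 0 (Nat.zero_le j)).1, fun t ht t' ht' hs c0 c1 => ?_⟩
    have c2 : 0 < c := c0.lt_of_ne fun e0 => hc (e0 ▸ dvd_zero _)
    have w0 : 0 < w := (k1_pos ha j w).1 (h1 ▸ c2)
    have a0 : (0 : ℤ) < a ∧ (a : ℤ) ≤ 5 := by rcases ha with rfl | rfl <;> norm_num
    have w1 : w < 20 * 2 ^ j := by
      have h4 := iter_lb ha j w0
      rw [h1, h2] at h4
      refine lt_of_mul_lt_mul_left (h4.trans_lt ?_) (pow_pos a0.1 k).le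
      calc (2 : ℤ) ^ j * c < 2 ^ j * (4 * (a : ℤ) ^ (k + 1)) := by gcongr
        _ = (a : ℤ) ^ k * (4 * a * 2 ^ j) := by ring
        _ ≤ _ := by
          have := a0.1
          gcongr
          linarith [a0.2]
    have e1 : ∀ u : ℤ, (T a)^[j] (2 ^ j * (a * u) + w) = (a : ℤ) ^ (k + 1) * u + c := fun u => by
      rw [iter_aff ha, h1, h2]
      ring
    have h5 := hσ.win hs j w w0.le w1
    have h6 : (a : ℤ) ^ (k + 1) * t + c ∈ S ↔ 2 ^ j * (a * t) + w ∈ S := e1 t ▸ ht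
    have h7 : (a : ℤ) ^ (k + 1) * t' + c ∈ S ↔ 2 ^ j * (a * t') + w ∈ S := e1 t' ▸ ht'
    simp only [Un, hd, h6, h7]
    exact and_congr_left' ⟨hσ.mem _ _ h5, hσ.mem _ _ h5.symm⟩
  choose G hG hG' using key
  refine ⟨⋂ c ∈ Ico 0 (4 * (a : ℤ) ^ (k + 1)), G c, (biInter_finset_mem _).2 fun c _ => hG c,
    fun t ht t' ht' hs c c0 c1 => ?_⟩
  exact hG' c t (Set.mem_iInter₂.1 ht c (mem_Ico.2 ⟨c0, c1⟩)) t'
    (Set.mem_iInter₂.1 ht' c (mem_Ico.2 ⟨c0, c1⟩)) hs c0 c1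

/-- Arithmetic core. With `y = b y' / q`, `δ = b y' - q y ∈ [0, q)`, `D = q - b`,
`c = δ + z - h₁ D`, `p = (h₂ - h₁) D`: `b (y' + h₁) + z = q (y + h₁) + c` and
`q (y + h₂) + c = b (y' + h₂) + (z + p)`. So `z ↦ U (b (y' + h₁) + z)` has the period `p` on
`[H D, 3 b)`; `p` divides `H ! * D`; induction on the multiple. -/
theorem krebs_core (U : ℤ → Prop) {b q y' : ℤ} {H h₁ h₂ : ℕ} (hb : 0 < b) (hbq : b < q)
    (hD : ((H.factorial : ℤ) + H) * (q - b) ≤ b) (h12 : h₁ < h₂) (h2 : h₂ < H)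
    (h2s : ∀ z, 0 ≤ z → z < 3 * b → (U (b * (y' + h₁) + z) ↔ U (b * (y' + h₂) + z)))
    (has : ∀ c, 0 ≤ c → c < 4 * q →
      (U (q * (b * y' / q + h₁) + c) ↔ U (q * (b * y' / q + h₂) + c)))
    {z : ℤ} (hz : b ≤ z) (hz' : z < 2 * b) :
    U (b * (y' + h₁) + (z + H.factorial * (q - b))) ↔ U (b * (y' + h₁) + z) := by
  obtain ⟨k, rfl⟩ := Nat.exists_eq_add_of_le h12.le
  obtain ⟨N, hN⟩ := Nat.dvd_factorial (show 0 < k by omega) (show k ≤ H by omega)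
  have hq : 0 < q := hb.trans hbq
  have hD0 : 0 ≤ q - b := by omega
  have d0 := Int.emod_nonneg (b * y') hq.ne'
  have d1 := Int.emod_lt_of_pos (b * y') hq
  have d2 := Int.mul_ediv_add_emod (b * y') q
  have a1 : (h₁ : ℤ) * (q - b) ≤ H * (q - b) :=
    mul_le_mul_of_nonneg_right (by exact_mod_cast (by omega : h₁ ≤ H)) hD0
  have a2 : 0 ≤ (h₁ : ℤ) * (q - b) := by positivity
  have a3 : 0 ≤ (H.factorial : ℤ) * (q - b) := by positivity
  have a4 : 0 ≤ (k : ℤ) * (q - b) := by positivity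
  rw [add_mul] at hD
  have step : ∀ w, b ≤ w → w + k * (q - b) < 3 * b →
      (U (b * (y' + h₁) + (w + k * (q - b))) ↔ U (b * (y' + h₁) + w)) := by
    intro w hw hw'
    have e1 := has (b * y' % q + w - h₁ * (q - b)) (by linarith) (by linarith)
    rw [show q * (b * y' / q + h₁) + (b * y' % q + w - h₁ * (q - b)) = b * (y' + h₁) + w by
        linarith,
      show q * (b * y' / q + (h₁ + k : ℕ)) + (b * y' % q + w - h₁ * (q - b)) =
        b * (y' + (h₁ + k : ℕ)) + (w + k * (q - b)) by push_cast; linarith] at e1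
    exact (h2s _ (by linarith) hw').trans e1.symm
  have key : ∀ n : ℕ, n ≤ N →
      (U (b * (y' + h₁) + (z + (k * n : ℕ) * (q - b))) ↔ U (b * (y' + h₁) + z)) := by
    intro n
    induction n with
    | zero => simp
    | succ n ih =>
      intro hn
      have b1 : ((k * (n + 1) : ℕ) : ℤ) * (q - b) ≤ H.factorial * (q - b) :=
        mul_le_mul_of_nonneg_right (by rw [hN]; exact_mod_cast Nat.mul_le_mul_left k hn) hD0
      have b2 : 0 ≤ ((k * n : ℕ) : ℤ) * (q - b) := by positivity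
      have b3 : z + ((k * (n + 1) : ℕ) : ℤ) * (q - b) =
          z + (k * n : ℕ) * (q - b) + k * (q - b) := by push_cast; ring
      rw [b3]
      exact (step _ (by linarith) (by linarith)).trans (ih (by omega))
  rw [hN]
  exact key N le_rfl

/-- `H` bounds the `H` of `Fil.ret` (with `N = card Q₂`) for all fibres of `τ` that are met
frequently; `m, n` from `approx` with `ε = 1 / (H ! + H)`; for such a fibre pick `y'` with many
returns and `2 ^ n y' / a ^ m + h ∈ G` for `h < H`; pigeonhole for `Sg`; `krebs_core`. Almost every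
`x` is `2 ^ n (x / 2 ^ n - 1) + z`, `2 ^ n ≤ z < 2 * 2 ^ n`, with `x / 2 ^ n - 1` in such a
fibre. -/
theorem krebs {a : ℕ} (ha : a = 3 ∨ a = 5) {e : ℤ} {F : Filter ℤ} (hF : Fil a e F)
    (U : ℤ → Prop) {Q₁ Q₂ : Type} [Fintype Q₁] [Fintype Q₂] (τ : ℤ → Q₁) (Sg : ℤ → Q₂)
    (hτ : ∀ x y, τ x = τ y → ∀ (n : ℕ) (z : ℤ), 0 ≤ z → z < 3 * 2 ^ n →
      (U (2 ^ n * x + z) ↔ U (2 ^ n * y + z)))
    (hS : ∀ m : ℕ, 1 ≤ m → ∃ G ∈ F, ∀ t ∈ G, ∀ t' ∈ G, Sg t = Sg t' →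
      ∀ c : ℤ, 0 ≤ c → c < 4 * (a : ℤ) ^ m →
        (U ((a : ℤ) ^ m * t + c) ↔ U ((a : ℤ) ^ m * t' + c))) :
    ∃ P : ℤ, 0 < P ∧ Per F U P := by
  classical
  have h0 : ∀ s : Q₁, ∃ H : ℕ, (∃ᶠ x in F, τ x = s) →
      ∃ᶠ y in F, Nat.card Q₂ < {h : ℕ | h < H ∧ τ (y + (h : ℤ)) = s}.ncard := fun s => by
    by_cases hs : ∃ᶠ x in F, τ x = s
    · exact (hF.ret {x | τ x = s} hs _).imp fun _ e _ => e
    · exact ⟨0, fun e => absurd e hs⟩
  choose Hs hHs using h0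
  obtain ⟨H, hH⟩ : ∃ H, ∀ s, Hs s ≤ H := ⟨univ.sup Hs, fun s => le_sup (mem_univ s)⟩
  have h1 : (0 : ℝ) < (H.factorial : ℝ) + H := by
    have := H.factorial_pos
    positivity
  obtain ⟨m, n, hm, h2, h3⟩ := approx ha (one_div_pos.2 h1)
  have hbq : (2 : ℤ) ^ n < (a : ℤ) ^ m := by exact_mod_cast h2
  have hD : ((H.factorial : ℤ) + H) * ((a : ℤ) ^ m - 2 ^ n) ≤ 2 ^ n := by
    have h4 : ((H.factorial : ℝ) + H) * ((a : ℝ) ^ m - 2 ^ n) ≤ 2 ^ n := by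
      rw [← le_div_iff₀' h1, div_eq_mul_one_div]
      linarith
    exact_mod_cast h4
  have hb : (0 : ℤ) < 2 ^ n := by positivity
  have hf : (0 : ℤ) < H.factorial := by exact_mod_cast H.factorial_pos
  have hP : (H.factorial : ℤ) * ((a : ℤ) ^ m - 2 ^ n) ≤ 2 ^ n := by
    nlinarith [mul_nonneg (Int.natCast_nonneg H) (sub_pos.2 hbq).le]
  have hP0 := mul_pos hf (sub_pos.2 hbq)
  obtain ⟨G, hG, hS⟩ := hS m hm
  have h4 : ∀ᶠ y in F, ∀ h ∈ range H, 2 ^ n * y / (a : ℤ) ^ m + (h : ℤ) ∈ G :=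
    (eventually_all_finset _).2 fun h _ => by
      have h5 := ((hF.add h).comp ((hF.divapow m).comp (hF.aff n 0 0))).eventually
        (p := (· ∈ G)) hG
      simpa using h5
  have key : ∀ x, (∃ᶠ y in F, τ y = τ x) → ∀ z, 2 ^ n ≤ z → z < 2 * 2 ^ n →
      (U (2 ^ n * x + (z + H.factorial * ((a : ℤ) ^ m - 2 ^ n))) ↔ U (2 ^ n * x + z)) := by
    intro x hx z hz hz'
    obtain ⟨y, h5, h6⟩ := ((hHs _ hx).and_eventually h4).exists
    have h7 : ∀ i j : ℕ, i < j → j < Hs (τ x) → τ (y + i) = τ x → τ (y + j) = τ x →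
        Sg (2 ^ n * y / (a : ℤ) ^ m + i) = Sg (2 ^ n * y / (a : ℤ) ^ m + j) →
        (U (2 ^ n * x + (z + H.factorial * ((a : ℤ) ^ m - 2 ^ n))) ↔ U (2 ^ n * x + z)) := by
      intro i j hij hj e1 e2 e3
      have hj' := hj.trans_le (hH _)
      rw [← hτ _ _ e1 n _ (by omega) (by omega), ← hτ _ _ e1 n z (by omega) (by omega)]
      exact krebs_core U hb hbq hD hij hj' (hτ _ _ (e1.trans e2.symm) n)
        (hS _ (h6 i (mem_range.2 (hij.trans hj'))) _ (h6 j (mem_range.2 hj')) e3) hz hz'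
    rw [← Set.ncard_univ] at h5
    obtain ⟨i, hi, j, hj, hij, e⟩ := Set.exists_ne_map_eq_of_ncard_lt_of_maps_to h5
      (f := fun h : ℕ => Sg (2 ^ n * y / (a : ℤ) ^ m + h)) fun _ _ => trivial
    rcases lt_or_gt_of_ne hij with h | h
    · exact h7 i j h hj.1 hi.2 hj.2 e
    · exact h7 j i h hi.1 hj.2 hi.2 e.symm
  have h5 : ∀ᶠ x in F, ∀ s, τ x = s → ∃ᶠ y in F, τ y = s := eventually_all.2 fun s => by
    by_cases hs : ∃ᶠ y in F, τ y = s
    · exact Eventually.of_forall fun _ _ => hs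
    · exact (not_frequently.1 hs).mono fun _ e e' => absurd e' e
  refine ⟨_, hP0, (((hF.add (-1)).comp (hF.div2pow n)).eventually h5).mono fun x hx => ?_⟩
  have h6 := Int.emod_nonneg x hb.ne'
  have h7 := Int.emod_lt_of_pos x hb
  have h8 := key _ (hx _ rfl) (x % 2 ^ n + 2 ^ n) (by omega) (by omega)
  have h9 : 2 ^ n * (x / 2 ^ n + -1) + (x % 2 ^ n + 2 ^ n) = x := by
    linear_combination Int.mul_ediv_add_emod x (2 ^ n)
  simp only [Function.comp] at h8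
  rwa [← add_assoc, h9] at h8

theorem exists_per {a : ℕ} (ha : a = 3 ∨ a = 5) {e : ℤ} {F : Filter ℤ} (hF : Fil a e F)
    {S : Set ℤ} (h : AB a F S) {Q : Type} [Fintype Q] {σ : ℤ → Q} (hσ : Aut a S σ) :
    ∃ P : ℤ, 0 < P ∧ Per F (Un a S) P := by
  classical
  refine krebs ha hF (Un a S) (fun x (p : Fin 3) => σ (x + (p : ℕ)))
    (fun t (p : Fin 20) => σ (a * t + (p : ℕ))) ?_ ?_
  · intro x y hxy n z h0 h1
    refine hσ.un (hσ.win (C := 3) (fun p hp hp' => ?_) n z h0 h1)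
    have := congrFun hxy ⟨p.toNat, by omega⟩
    simpa [Int.toNat_of_nonneg hp] using this
  · intro m hm
    obtain ⟨G, hG, h1⟩ := aside ha hF h hσ hm
    refine ⟨G, hG, fun t ht t' ht' hs => h1 t ht t' ht' fun p hp hp' => ?_⟩
    have := congrFun hs ⟨p.toNat, by omega⟩
    simpa [Int.toNat_of_nonneg hp] using this

end Pool.Agent.Lib.MP_dee342_nt.Au
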