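import Pool.Agent.Lib.MP_dee342_nt.Au.AInt

/-!
Automatic sets are equidistributed in the classes modulo high powers of a.
-/

set_option autoImplicit false

namespace Pool.Agent.Lib.MP_dee342_nt.Au

open Filter Finset

/-- Reindexing of a sum over pairs by an affine bijection. -/
theorem e1_sum {G : Type} [CommRing G] [Fintype G] (h : G) (hh : 2 * h = 1) (t : G)
    (F : G × G → ℝ) : ∑ p : G × G, F (h * (p.1 - t), h * p.2) = ∑ p : G × G, F p := by
  refine Fintype.sum_bijective (fun p : G × G => (h * (p.1 - t), h * p.2)) ?_ _ _ fun _ => rfl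
  refine Function.bijective_iff_has_inverse.2 ⟨fun q => (2 * q.1 + t, 2 * q.2), ?_, ?_⟩
  · intro p
    refine Prod.ext ?_ ?_
    · show 2 * (h * (p.1 - t)) + t = p.1
      linear_combination (p.1 - t) * hh
    · show 2 * (h * p.2) = p.2
      linear_combination p.2 * hh
  · intro q
    refine Prod.ext ?_ ?_
    · show h * (2 * q.1 + t - t) = q.1
      linear_combination q.1 * hh
    · show h * (2 * q.2) = q.2
      linear_combination q.2 * hh

/-- Strict convexity: with `x, y` the two halves,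
`∑ ((x + y) / 2) ^ 2 = (∑ x ^ 2 + ∑ y ^ 2) / 2 - (∑ (x - y) ^ 2) / 4`; the maps
`(r, d) ↦ (h (r - i), h d)` are bijections of `G × G` since `2 h = 1`. -/
theorem flat_step {G K : Type} [CommRing G] [Fintype G] (act : K → ℕ → K) (V : K → G → ℝ)
    (h c : G) (hh : 2 * h = 1)
    (hV : ∀ A r, V A r = (V (act A 0) (h * r) + V (act A 1) (h * (r - 1))) / 2) (A : K)
    (hA : ∀ B, ∑ p : G × G, (V B (p.1 + c * p.2) - V B p.1) ^ 2 ≤
      ∑ p : G × G, (V A (p.1 + c * p.2) - V A p.1) ^ 2) (i : ℕ) (hi : i < 2) :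
    (∑ p : G × G, (V (act A i) (p.1 + c * p.2) - V (act A i) p.1) ^ 2 =
      ∑ p : G × G, (V A (p.1 + c * p.2) - V A p.1) ^ 2) ∧
    ∀ r d, V A (r + c * d) - V A r =
      V (act A i) (h * (r - i) + c * (h * d)) - V (act A i) (h * (r - i)) := by
  obtain ⟨x, hx⟩ : ∃ x : G × G → ℝ, ∀ p, x p =
      V (act A 0) (h * (p.1 - 0) + c * (h * p.2)) - V (act A 0) (h * (p.1 - 0)) := ⟨_, fun _ => rfl⟩
  obtain ⟨y, hy⟩ : ∃ y : G × G → ℝ, ∀ p, y p =
      V (act A 1) (h * (p.1 - 1) + c * (h * p.2)) - V (act A 1) (h * (p.1 - 1)) := ⟨_, fun _ => rfl⟩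
  have hU : ∀ p : G × G, V A (p.1 + c * p.2) - V A p.1 = (x p + y p) / 2 := fun p => by
    rw [hx, hy, hV A (p.1 + c * p.2), hV A p.1,
      show h * (p.1 - 0) + c * (h * p.2) = h * (p.1 + c * p.2) by ring,
      show h * (p.1 - 1) + c * (h * p.2) = h * (p.1 + c * p.2 - 1) by ring, sub_zero]
    ring
  have e0 : ∑ p, x p ^ 2 = ∑ p : G × G, (V (act A 0) (p.1 + c * p.2) - V (act A 0) p.1) ^ 2 := by
    simp only [hx]
    exact e1_sum h hh 0 fun p => (V (act A 0) (p.1 + c * p.2) - V (act A 0) p.1) ^ 2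
  have e1 : ∑ p, y p ^ 2 = ∑ p : G × G, (V (act A 1) (p.1 + c * p.2) - V (act A 1) p.1) ^ 2 := by
    simp only [hy]
    exact e1_sum h hh 1 fun p => (V (act A 1) (p.1 + c * p.2) - V (act A 1) p.1) ^ 2
  have e2 : ∑ p : G × G, (V A (p.1 + c * p.2) - V A p.1) ^ 2 =
      (∑ p, x p ^ 2 + ∑ p, y p ^ 2) / 2 - (∑ p, (x p - y p) ^ 2) / 4 := by
    rw [← sum_add_distrib, sum_div, sum_div, ← sum_sub_distrib]
    refine sum_congr rfl fun p _ => ?_
    rw [hU]
    ring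
  have h0 := hA (act A 0)
  have h1 := hA (act A 1)
  have h2 : 0 ≤ ∑ p, (x p - y p) ^ 2 := sum_nonneg fun p _ => sq_nonneg _
  have h3 : ∑ p, (x p - y p) ^ 2 = 0 := by linarith
  have h4 : ∀ p, x p = y p := fun p => sub_eq_zero.1 (pow_eq_zero_iff two_ne_zero |>.1
    ((sum_eq_zero_iff_of_nonneg fun p _ => sq_nonneg _).1 h3 p (mem_univ p)))
  obtain rfl | rfl : i = 0 ∨ i = 1 := by omega
  · refine ⟨by linarith, fun r d => ?_⟩
    have h5 := hU (r, d)
    rw [← h4, hx] at h5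
    rw [Nat.cast_zero]
    linarith
  · refine ⟨by linarith, fun r d => ?_⟩
    have h5 := hU (r, d)
    rw [h4, hy] at h5
    rw [Nat.cast_one]
    linarith

/-- If `u` on `ZMod (a ^ (k + 1))` has a period `0 < s < a ^ (k + 1)`, it has the period
`a ^ k * d` (write `s = a ^ i * f` with `f` prime to `a`, `i ≤ k`; `f` is a unit). -/
theorem per_pow {a k s : ℕ} (ha : a = 3 ∨ a = 5) (hs : 0 < s) (hlt : s < a ^ (k + 1))
    (u : ZMod (a ^ (k + 1)) → ℝ) (hu : ∀ r, u (r + s) = u r) (r d : ZMod (a ^ (k + 1))) :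
    u (r + (a : ZMod (a ^ (k + 1))) ^ k * d) = u r := by
  have hp : a.Prime := by rcases ha with rfl | rfl <;> norm_num
  have : NeZero (a ^ (k + 1)) := ⟨pow_ne_zero _ hp.ne_zero⟩
  have h1 : ∀ (m : ℕ) r, u (r + m * s) = u r := fun m r => by
    induction m with
    | zero => simp
    | succ m ih => rw [Nat.cast_succ, add_mul, one_mul, ← add_assoc, hu, ih]
  obtain ⟨i, f, hf, rfl⟩ := Nat.exists_eq_pow_mul_and_not_dvd hs.ne' a hp.ne_one
  have hi : i < k + 1 := (Nat.pow_lt_pow_iff_right hp.one_lt).1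
    ((Nat.le_mul_of_pos_right _ (Nat.pos_of_mul_pos_left hs)).trans_lt hlt)
  obtain ⟨l, rfl⟩ := Nat.exists_eq_add_of_le (Nat.lt_succ_iff.1 hi)
  obtain ⟨g, hg⟩ := ((ZMod.isUnit_iff_coprime f (a ^ (i + l + 1))).2
    (Nat.Coprime.pow_right _ ((Nat.Prime.coprime_iff_not_dvd hp).2 hf).symm)).exists_right_inv
  have h2 := h1 ((a : ZMod (a ^ (i + l + 1))) ^ l * d * g).val r
  rw [ZMod.natCast_zmod_val] at h2
  rw [← h2]
  congr 2
  push_cast
  linear_combination (-(a : ZMod (a ^ (i + l + 1))) ^ (i + l) * d) * hg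

/-- Take a maximiser `A` of the energy (`Finite.exists_max`). By induction on `j` with `flat_step`:
for `w < 2 ^ j` there is a maximiser `B` with
`U A r d = U B (h ^ j * (r - w)) (h ^ j * d)` (write `w = 2 ^ j * i + w'`, the new digit on top).
Pigeonhole on `w ≤ card K < 2 ^ j`, `per_pow`, then `V (r + i c d) - V r = i * U` and `i = a`. -/
theorem flat {a k : ℕ} (ha : a = 3 ∨ a = 5) {K : Type} [Fintype K]
    (hK : Fintype.card K < a ^ (k + 1)) (act : K → ℕ → K) (V : K → ZMod (a ^ (k + 1)) → ℝ)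
    (h : ZMod (a ^ (k + 1))) (hh : 2 * h = 1)
    (hV : ∀ A r, V A r = (V (act A 0) (h * r) + V (act A 1) (h * (r - 1))) / 2) (A : K)
    (r : ZMod (a ^ (k + 1))) : V A (r + (a : ZMod (a ^ (k + 1))) ^ k) = V A r := by
  have hp : a.Prime := by rcases ha with rfl | rfl <;> norm_num
  have : NeZero (a ^ (k + 1)) := ⟨pow_ne_zero _ hp.ne_zero⟩
  have : Nonempty K := ⟨A⟩
  have hc : (a : ZMod (a ^ (k + 1))) ^ k * a = 0 := by
    rw [← pow_succ, ← Nat.cast_pow, ZMod.natCast_self]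
  have hper := fun s hs hlt u hu r d => per_pow (k := k) (s := s) ha hs hlt u hu r d
  generalize (a : ZMod (a ^ (k + 1))) ^ k = c at hc hper ⊢
  obtain ⟨A₀, h0⟩ := Finite.exists_max fun B => ∑ p : ZMod (a ^ (k + 1)) × ZMod (a ^ (k + 1)),
    (V B (p.1 + c * p.2) - V B p.1) ^ 2
  have h1 : ∀ j : ℕ, ∀ w < 2 ^ j, ∃ B, (∀ B', ∑ p : ZMod (a ^ (k + 1)) × ZMod (a ^ (k + 1)),
      (V B' (p.1 + c * p.2) - V B' p.1) ^ 2 ≤ ∑ p : ZMod (a ^ (k + 1)) × ZMod (a ^ (k + 1)),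
      (V B (p.1 + c * p.2) - V B p.1) ^ 2) ∧ ∀ r d, V A₀ (r + c * d) - V A₀ r =
        V B (h ^ j * (r - (w : ℕ)) + c * (h ^ j * d)) - V B (h ^ j * (r - (w : ℕ))) := fun j => by
    induction j with
    | zero =>
      intro w hw
      obtain rfl : w = 0 := by omega
      exact ⟨A₀, h0, fun r d => by simp⟩
    | succ j ih =>
      intro w hw
      obtain ⟨B, b1, b2⟩ := ih (w % 2 ^ j) (Nat.mod_lt _ (by positivity))
      obtain ⟨b3, b4⟩ := flat_step act V h c hh hV B b1 (w / 2 ^ j)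
        (Nat.div_lt_of_lt_mul (by rwa [← pow_succ]))
      refine ⟨_, fun B' => (b1 B').trans b3.ge, fun r d => ?_⟩
      have e1 : (w : ZMod (a ^ (k + 1))) = 2 ^ j * (w / 2 ^ j : ℕ) + (w % 2 ^ j : ℕ) := by
        conv_lhs => rw [← Nat.div_add_mod w (2 ^ j)]
        push_cast
        rfl
      have e2 : (2 : ZMod (a ^ (k + 1))) ^ j * h ^ j = 1 := by rw [← mul_pow, hh, one_pow]
      have e3 : h * (h ^ j * (r - (w % 2 ^ j : ℕ)) - (w / 2 ^ j : ℕ)) = h ^ (j + 1) * (r - w) := by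
        linear_combination (h ^ (j + 1)) * e1 + (h * (w / 2 ^ j : ℕ)) * e2
      rw [b2, b4, e3, ← mul_assoc h, ← pow_succ']
  choose B b1 b2 using fun w : Fin (Fintype.card K + 1) =>
    h1 (Fintype.card K) w ((Nat.lt_succ_iff.1 w.2).trans_lt Nat.lt_two_pow_self)
  obtain ⟨x, y, hxy, e⟩ : ∃ x y, x < y ∧ B x = B y := by
    obtain ⟨x, y, h2, h3⟩ := Fintype.exists_ne_map_eq_of_card_lt B (by simp)
    exact h2.lt_or_gt.elim (fun h => ⟨x, y, h, h3⟩) fun h => ⟨y, x, h, h3.symm⟩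
  have h2 : ∀ r d, V A₀ (r + c * d) - V A₀ r = 0 := fun r d => by
    have h3 := hper (y - x) (Nat.sub_pos_of_lt hxy) (by omega)
      (fun r => V A₀ (r + c * d) - V A₀ r) (fun r => by
        rw [b2 y, b2 x, e, Nat.cast_sub (le_of_lt hxy), show ∀ u v : ZMod (a ^ (k + 1)),
          r + (u - v) - u = r - v from fun u v => by ring]) r
    have h4 : ∀ i : ℕ, V A₀ (r + c * (i * d)) - V A₀ r = i * (V A₀ (r + c * d) - V A₀ r) :=
      fun i => by
        induction i with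
        | zero => simp
        | succ i ih =>
          have h5 := h3 (i * d)
          rw [show r + c * ((i + 1 : ℕ) * d) = r + c * (i * d) + c * d by push_cast; ring]
          push_cast
          linarith
    have h5 := h4 a
    rw [← mul_assoc, hc, zero_mul, add_zero, sub_self, zero_eq_mul] at h5
    exact h5.resolve_left (Nat.cast_ne_zero.2 hp.ne_zero)
  have h3 := h0 A
  simp only [h2, ne_eq, OfNat.ofNat_ne_zero, not_false_eq_true, zero_pow, sum_const_zero] at h3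
  have h4 := (single_le_sum (f := fun p : ZMod (a ^ (k + 1)) × ZMod (a ^ (k + 1)) =>
    (V A (p.1 + c * p.2) - V A p.1) ^ 2) (fun p _ => sq_nonneg _) (mem_univ (r, 1))).trans h3
  rw [mul_one] at h4
  exact sub_eq_zero.1 (pow_eq_zero_iff two_ne_zero |>.1 (le_antisymm h4 (sq_nonneg _)))

/-- `flat` for `K = Set Q`, `act A i = {s | ∃ x, σ x = s ∧ σ (2 x + i) ∈ A}` and
`V A r = μ {n | σ (q n + r.cast) ∈ A}`, `q = a ^ (k + 1)`; `μ {n | σ (q n + r) ∈ A}` depends on the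
integer `r` only modulo `q` (`shift_int`); `hV` is `Mean.two`. -/
theorem equi_step {a : ℕ} (ha : a = 3 ∨ a = 5) {e : ℤ} (m : Mean a e) {S : Set ℤ} {Q : Type}
    [Fintype Q] {σ : ℤ → Q} (hσ : Aut a S σ) {k : ℕ} (hk : 2 ^ Fintype.card Q < a ^ (k + 1))
    (A : Set Q) (r : ℤ) :
    m.μ {n | σ ((a : ℤ) ^ (k + 1) * n + (r + (a : ℤ) ^ k)) ∈ A} =
      m.μ {n | σ ((a : ℤ) ^ (k + 1) * n + r) ∈ A} := by
  classical
  obtain ⟨u, hu⟩ : Odd ((a : ℤ) ^ (k + 1)) := Odd.pow (by rcases ha with rfl | rfl <;> decide)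
  have : NeZero (a ^ (k + 1)) := ⟨(Nat.zero_lt_of_lt hk).ne'⟩
  have hq : (2 * u + 1 : ZMod (a ^ (k + 1))) = 0 := by
    have h1 := congrArg (Int.cast : ℤ → ZMod (a ^ (k + 1))) hu
    have h2 := ZMod.natCast_self (a ^ (k + 1))
    push_cast at h1 h2
    exact h1.symm.trans h2
  let W : Set Q → ℤ → ℝ := fun A x => m.μ {n | σ ((a : ℤ) ^ (k + 1) * n + x) ∈ A}
  have hW : ∀ A (x y : ℤ), (x : ZMod (a ^ (k + 1))) = y → W A x = W A y := fun A x y e => by
    obtain ⟨t, ht⟩ := (ZMod.intCast_eq_intCast_iff_dvd_sub x y _).1 e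
    refine (m.shift_int _ t).symm.trans (congrArg m.μ (Set.ext fun n => ?_))
    push_cast at ht
    simp only [Set.mem_ofPred_eq]
    rw [show (a : ℤ) ^ (k + 1) * (n + t) + x = (a : ℤ) ^ (k + 1) * n + y by linarith]
  let act : Set Q → ℕ → Set Q := fun A i => {s | ∃ x, σ x = s ∧ σ (2 * x + i) ∈ A}
  have h0 : ∀ A x, σ x ∈ act A 0 ↔ σ (2 * x) ∈ A := fun A x =>
    ⟨fun ⟨y, e, k⟩ => (hσ.cg y x e).1 ▸ by simpa using k, fun k => ⟨x, rfl, by simpa using k⟩⟩
  have h1 : ∀ A x, σ x ∈ act A 1 ↔ σ (2 * x + 1) ∈ A := fun A x =>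
    ⟨fun ⟨y, e, k⟩ => (hσ.cg y x e).2 ▸ by simpa using k, fun k => ⟨x, rfl, by simpa using k⟩⟩
  have h2 : ∀ A s, W A (2 * s) = (W (act A 0) s + W (act A 1) (s + u)) / 2 := fun A s => by
    refine (m.two _).trans (congrArg (· / 2) (congrArg₂ (· + ·)
      (congrArg m.μ (Set.ext fun n => ?_)) (congrArg m.μ (Set.ext fun n => ?_))))
    · simp only [Set.mem_ofPred_eq, h0]
      rw [show (a : ℤ) ^ (k + 1) * (2 * n) + 2 * s = 2 * ((a : ℤ) ^ (k + 1) * n + s) by ring]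
    · simp only [Set.mem_ofPred_eq, h1]
      rw [show (a : ℤ) ^ (k + 1) * (2 * n + 1) + 2 * s =
        2 * ((a : ℤ) ^ (k + 1) * n + (s + u)) + 1 by linarith]
  have key := flat ha (K := Set Q) (by rwa [Fintype.card_set]) act (fun A x => W A x.val)
    (u + 1) (by linear_combination hq) (fun A x => by
      rw [hW A x.val (2 * ((u + 1) * x).val) (by
          push_cast
          simp only [ZMod.natCast_zmod_val]
          linear_combination -x * hq), h2,
        hW _ (((u + 1) * x).val + u) ((u + 1) * (x - 1)).val (by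
          push_cast
          simp only [ZMod.natCast_zmod_val]
          linear_combination hq)]) A r
  exact (hW A _ _ (by simp)).trans (key.trans (hW A _ _ (by simp)))

/-- `Mean.mula` for `{n | a ^ k n + r ∈ S}` and `equi_step` with `A = σ '' S`. -/
theorem equi {a : ℕ} (ha : a = 3 ∨ a = 5) {e : ℤ} (m : Mean a e) {S : Set ℤ} {Q : Type}
    [Fintype Q] {σ : ℤ → Q} (hσ : Aut a S σ) {k : ℕ} (hk : 2 ^ Fintype.card Q < a ^ (k + 1))
    (r : ℤ) :
    m.μ {n | (a : ℤ) * (a : ℤ) ^ k * n + r ∈ S} = m.μ {n | (a : ℤ) ^ k * n + r ∈ S} := by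
  have h1 : ∀ x, σ x ∈ σ '' S ↔ x ∈ S := fun x =>
    ⟨fun ⟨y, k, e⟩ => hσ.mem y x e k, fun k => ⟨x, k, rfl⟩⟩
  have h2 : ∀ i : ℕ, m.μ {n | (a : ℤ) ^ (k + 1) * n + (r + i * (a : ℤ) ^ k) ∈ S} =
      m.μ {n | (a : ℤ) * (a : ℤ) ^ k * n + r ∈ S} := fun i => by
    induction i with
    | zero => simp only [Nat.cast_zero, zero_mul, add_zero, pow_succ']
    | succ i ih =>
      have h3 := equi_step ha m hσ hk (σ '' S) (r + i * (a : ℤ) ^ k)
      simp only [h1] at h3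
      rw [← ih, ← h3, Nat.cast_succ, add_mul, one_mul, add_assoc]
  have h3 : ∀ i ∈ range a, m.μ {n | (a : ℤ) * n + i ∈ {n | (a : ℤ) ^ k * n + r ∈ S}} =
      m.μ {n | (a : ℤ) * (a : ℤ) ^ k * n + r ∈ S} := fun i _ => by
    refine Eq.trans (congrArg m.μ (Set.ext fun n => ?_)) (h2 i)
    simp only [Set.mem_ofPred_eq]
    rw [show (a : ℤ) ^ k * (a * n + i) + r = (a : ℤ) ^ (k + 1) * n + (r + i * (a : ℤ) ^ k) by ring]
  have h4 : (a : ℝ) ≠ 0 := by rcases ha with rfl | rfl <;> norm_num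
  rw [m.mula {n | (a : ℤ) ^ k * n + r ∈ S}, sum_congr rfl h3, sum_const, card_range, nsmul_eq_mul,
    mul_div_cancel_left₀ _ h4]

end Pool.Agent.Lib.MP_dee342_nt.Au
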