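import Pool.Agent.Lib.MP_dee342_nt.Au.AFil
import Pool.Agent.Lib.MP_dee342_nt.Au.AEqui
import Pool.Agent.Lib.MP_dee342_nt.Au.AAnc

/-!
The maximum principle.
-/

set_option autoImplicit false

namespace Pool.Agent.Lib.MP_dee342_nt.Au

open Filter Finset

theorem x1_T (a q n ρ : ℤ) :
    T a (2 * q * n + ρ) = (if ρ % 2 = 0 then q * n else a * q * n) + T a ρ := by
  have h1 : (2 * q * n + ρ) % 2 = ρ % 2 := by
    rw [mul_assoc, add_comm, Int.add_mul_emod_self_left]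
  unfold T
  rw [h1]
  split_ifs
  · rw [mul_assoc, add_comm, Int.add_mul_ediv_left _ _ two_ne_zero, add_comm]
  · rw [show a * (2 * q * n + ρ) + 1 = a * ρ + 1 + 2 * (a * q * n) by ring,
      Int.add_mul_ediv_left _ _ two_ne_zero, add_comm]

theorem x1_mu {a : ℕ} {e : ℤ} (m : Mean a e) {S : Set ℤ} {q : ℤ}
    (heq : ∀ r, m.μ {n | a * q * n + r ∈ S} = m.μ {n | q * n + r ∈ S}) (ρ : ℤ) :
    m.μ {n | T a (2 * q * n + ρ) ∈ S} = m.μ {n | q * n + T a ρ ∈ S} := by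
  simp only [x1_T]
  split_ifs
  · rfl
  · exact heq _

theorem x1_two {a : ℕ} {e : ℤ} (m : Mean a e) (p : ℤ → Prop) (q r : ℤ) :
    m.μ {n | p (q * n + r)} =
      (m.μ {n | p (2 * q * n + r)} + m.μ {n | p (2 * q * n + (r + q))}) / 2 := by
  have e0 : ∀ n : ℤ, q * (2 * n) + r = 2 * q * n + r := fun n => by ring
  have e1 : ∀ n : ℤ, q * (2 * n + 1) + r = 2 * q * n + (r + q) := fun n => by ring
  rw [m.two]
  simp only [Set.mem_ofPred_eq, e0, e1]

/-- For `ρ = r` and `ρ = r + q`: `{n | 2 q n + ρ ∈ S} ⊆ {n | T (2 q n + ρ) ∈ S}`, and the larger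
set is `{n | q n + T ρ ∈ S}` or `{n | a q n + T ρ ∈ S}`, of mean at most the maximum; `Mean.two`
forces equality twice; `Mean.diff`; `Mean.two` again for the exceptional set. -/
theorem half {a : ℕ} (ha : a = 3 ∨ a = 5) {e : ℤ} (m : Mean a e) {S : Set ℤ}
    (hT : ∀ x ∈ S, T a x ∈ S) {q : ℤ}
    (heq : ∀ r, m.μ {n | a * q * n + r ∈ S} = m.μ {n | q * n + r ∈ S}) {r : ℤ}
    (hr : ∀ r', m.μ {n | q * n + r' ∈ S} ≤ m.μ {n | q * n + r ∈ S}) :
    m.μ {n | q * n + T a r ∈ S} = m.μ {n | q * n + r ∈ S} ∧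
      ∀ᶠ n in m.ae, T a (q * n + r) ∈ S → q * n + r ∈ S := by
  have _ := ha
  have sub : ∀ ρ : ℤ, {n | 2 * q * n + ρ ∈ S} ⊆ {n | T a (2 * q * n + ρ) ∈ S} :=
    fun ρ n hn => hT _ hn
  have h0 := m.mono (sub r)
  have h1 := m.mono (sub (r + q))
  have d0 := m.diff (sub r)
  have d1 := m.diff (sub (r + q))
  have b0 := x1_mu m heq r
  have b1 := x1_mu m heq (r + q)
  have c0 := hr (T a r)
  have c1 := hr (T a (r + q))
  have t := x1_two m (· ∈ S) q r
  have u := x1_two m (fun x => ¬ (T a x ∈ S → x ∈ S)) q r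
  have k : ∀ ρ : ℤ, {n | ¬ (T a (2 * q * n + ρ) ∈ S → 2 * q * n + ρ ∈ S)} =
      {n | T a (2 * q * n + ρ) ∈ S} \ {n | 2 * q * n + ρ ∈ S} := fun ρ =>
    Set.ext fun n => Classical.not_imp
  rw [k, k] at u
  refine ⟨by linarith, m.eventually_ae.2 ?_⟩
  rw [u]
  linarith

/-- `q = a ^ k` with `2 ^ card Q < a ^ (k + 1)`, `k ≥ 1`. `s r = μ {n | q n + r ∈ S}` is
`q`-periodic (`shift_int`), so it has a maximiser; maximisers are closed under `T` (`half`, `equi`)
and under adding multiples of `q`. For a unit `c` take `(j, w)` from `anc` with `k` odd steps and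
`t` with `2 ^ j t + w` congruent to a maximiser; `iter_aff` shows that `c` is a maximiser. Pull the
finitely many statements for `0 ≤ c < q` back along `x ↦ x / q` (`Fil.divapow`). -/
theorem ab {a : ℕ} (ha : a = 3 ∨ a = 5) {e : ℤ} (m : Mean a e) {S : Set ℤ}
    (hT : ∀ x ∈ S, T a x ∈ S) {Q : Type} [Fintype Q] {σ : ℤ → Q} (hσ : Aut a S σ) :
    AB a m.ae S := by
  have a0 : 0 < a := by omega
  obtain ⟨k, hk⟩ : ∃ k, k = Fintype.card Q + 1 := ⟨_, rfl⟩
  have hk1 : 2 ^ Fintype.card Q < a ^ (k + 1) :=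
    (Nat.pow_le_pow_left (by omega) _).trans_lt (Nat.pow_lt_pow_right (by omega) (by omega))
  obtain ⟨q, hq⟩ : ∃ q, q = (a : ℤ) ^ k := ⟨_, rfl⟩
  have q0 : 0 < q := by rw [hq]; positivity
  have aq : (a : ℤ) ∣ q := hq ▸ dvd_pow_self _ (by omega)
  have heq : ∀ r, m.μ {n | a * q * n + r ∈ S} = m.μ {n | q * n + r ∈ S} :=
    fun r => hq ▸ equi ha m hσ hk1 r
  have per : ∀ r d, m.μ {n | q * n + (r + q * d) ∈ S} = m.μ {n | q * n + r ∈ S} := fun r d => by
    rw [← m.shift_int {n | q * n + r ∈ S} d]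
    congr 1
    ext n
    simp only [Set.mem_ofPred_eq]
    rw [show q * n + (r + q * d) = q * (n + d) + r by ring]
  have md : ∀ x : ℤ, x % q ∈ Ico 0 q := fun x =>
    mem_Ico.2 ⟨Int.emod_nonneg x q0.ne', Int.emod_lt_of_pos x q0⟩
  obtain ⟨r₀, -, hr₀⟩ := exists_max_image (Ico 0 q) (fun r => m.μ {n | q * n + r ∈ S})
    ⟨_, md 0⟩
  have top : ∀ r, m.μ {n | q * n + r ∈ S} ≤ m.μ {n | q * n + r₀ ∈ S} := fun r => by
    have h := hr₀ _ (md r)
    rwa [← per (r % q) (r / q), Int.emod_add_mul_ediv] at h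
  have it : ∀ (j : ℕ) (r : ℤ), m.μ {n | q * n + r ∈ S} = m.μ {n | q * n + r₀ ∈ S} →
      m.μ {n | q * n + (T a)^[j] r ∈ S} = m.μ {n | q * n + r₀ ∈ S} := fun j r h => by
    induction j with
    | zero => exact h
    | succ j ih =>
      rw [Function.iterate_succ_apply', ← ih]
      exact (half ha m hT heq fun r' => (top r').trans ih.ge).1
  have un : ∀ c : ℤ, ¬ (a : ℤ) ∣ c → ∀ᶠ n in m.ae, T a (q * n + c) ∈ S → q * n + c ∈ S := by
    intro c hc
    obtain ⟨j, w, h1, h2, -⟩ := anc ha hc k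
    have cop : IsCoprime ((2 : ℤ) ^ j) q := by
      rw [hq]
      refine IsCoprime.pow ?_
      rcases ha with rfl | rfl
      · exact ⟨-1, 1, by norm_num⟩
      · exact ⟨-2, 1, by norm_num⟩
    obtain ⟨u, v, huv⟩ := cop
    have h3 := it j (2 ^ j * (u * (r₀ - w)) + w) (by
      rw [← per r₀ (-(v * (r₀ - w))), show r₀ + q * -(v * (r₀ - w)) =
        2 ^ j * (u * (r₀ - w)) + w by linear_combination (w - r₀) * huv])
    rw [iter_aff ha, h1, h2, ← hq, add_comm _ c, per] at h3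
    exact (half ha m hT heq fun r' => (top r').trans h3.ge).2
  have all : ∀ᶠ n in m.ae, ∀ c ∈ Ico 0 q, ¬ (a : ℤ) ∣ c → T a (q * n + c) ∈ S → q * n + c ∈ S :=
    (eventually_all_finset _).2 fun c _ => by
      by_cases hc : (a : ℤ) ∣ c
      · exact Eventually.of_forall fun _ h => absurd hc h
      · exact (un c hc).mono fun _ h _ => h
  have dv := (m.fil a0).divapow k
  rw [← hq] at dv
  refine (dv.eventually all).mono fun x hx hu => ⟨?_, hT x⟩
  have h := hx _ (md x) fun h =>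
    hu (Int.mul_ediv_add_emod x q ▸ (aq.mul_right _).add h)
  rwa [Int.mul_ediv_add_emod] at h

end Pool.Agent.Lib.MP_dee342_nt.Au
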