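import Pool.Agent.Lib.MP_dee342_nt.Au.AInt

/-!
Orbits and backward paths.
-/

set_option autoImplicit false

namespace Pool.Agent.Lib.MP_dee342_nt.Au

open Filter Finset

theorem T_even (a y : ℤ) : T a (2 * y) = y := by
  unfold T
  rw [if_pos (by omega)]
  omega

theorem T_odd {a : ℕ} (ha : a = 3 ∨ a = 5) (y : ℤ) :
    T a (2 * y + 1) = a * y + ((a : ℤ) + 1) / 2 := by
  unfold T
  rw [if_neg (by omega)]
  rcases ha with rfl | rfl <;> push_cast <;> omega

theorem T_unit {a : ℕ} (ha : a = 3 ∨ a = 5) {x : ℤ} (hx : ¬ (a : ℤ) ∣ x) :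
    ¬ (a : ℤ) ∣ T a x := by
  unfold T
  rcases ha with rfl | rfl <;> split_ifs <;> push_cast at hx ⊢ <;> omega

theorem T_unit_of_odd {a : ℕ} (ha : a = 3 ∨ a = 5) {x : ℤ} (hx : x % 2 = 1) :
    ¬ (a : ℤ) ∣ T a x := by
  unfold T
  rw [if_neg (by omega)]
  rcases ha with rfl | rfl <;> push_cast <;> omega

theorem T_sign {a : ℕ} (ha : a = 3 ∨ a = 5) {e : ℤ} (he : e = 1 ∨ e = -1) (x : ℤ) :
    0 < e * T a x ↔ 0 < e * x := by
  unfold T
  rcases ha with rfl | rfl <;> rcases he with rfl | rfl <;> split_ifs <;> push_cast <;> omega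

theorem odds_zero (a x : ℤ) : odds a 0 x = 0 := by
  simp [odds]

theorem odds_succ (a : ℤ) (j : ℕ) (x : ℤ) :
    odds a (j + 1) x = odds a j x + if (T a)^[j] x % 2 = 1 then 1 else 0 := by
  rw [odds, odds, card_filter, card_filter, sum_range_succ]

theorem odds_add (a : ℤ) (i j : ℕ) (x : ℤ) :
    odds a (i + j) x = odds a i x + odds a j ((T a)^[i] x) := by
  induction j with
  | zero => rw [odds_zero, add_zero, add_zero]
  | succ j ih =>
    rw [← add_assoc, odds_succ, odds_succ, ih, add_comm i j, Function.iterate_add_apply,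
      add_assoc]

theorem iter_two_pow (a : ℤ) (s : ℕ) (y : ℤ) : (T a)^[s] (2 ^ s * y) = y := by
  induction s with
  | zero => simp
  | succ s ih => rw [Function.iterate_succ_apply, pow_succ', mul_assoc, T_even, ih]

/-- Induction on `i` with `odds_succ`. -/
theorem iter_aff {a : ℕ} (ha : a = 3 ∨ a = 5) (i : ℕ) (t w : ℤ) :
    (T a)^[i] (2 ^ i * t + w) = (a : ℤ) ^ odds a i w * t + (T a)^[i] w := by
  induction i generalizing t with
  | zero => simp [odds_zero]
  | succ i ih =>
    rw [Function.iterate_succ_apply', Function.iterate_succ_apply', pow_succ, mul_assoc, ih,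
      odds_succ]
    obtain ⟨z, h | h⟩ := Int.even_or_odd' ((T a)^[i] w)
    · rw [h, if_neg (by omega), T_even, add_zero, mul_left_comm, ← mul_add, T_even]
    · rw [h, if_pos (by omega), T_odd ha, mul_left_comm, ← add_assoc, ← mul_add, T_odd ha]
      ring

theorem iter_lb {a : ℕ} (ha : a = 3 ∨ a = 5) (j : ℕ) {w : ℤ} (hw : 0 < w) :
    (a : ℤ) ^ odds a j w * w ≤ 2 ^ j * (T a)^[j] w := by
  induction j with
  | zero => simp [odds_zero]
  | succ j ih =>
    rw [Function.iterate_succ_apply', odds_succ]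
    obtain ⟨z, h | h⟩ := Int.even_or_odd' ((T a)^[j] w)
    · rw [h] at ih
      rw [h, if_neg (by omega), T_even, add_zero, pow_succ, mul_assoc]
      exact ih
    · rw [h] at ih
      have h1 : (a : ℤ) * (2 * z + 1) ≤ 2 * (a * z + ((a : ℤ) + 1) / 2) := by
        rcases ha with rfl | rfl <;> push_cast <;> omega
      rw [h, if_pos (by omega), T_odd ha, pow_succ', pow_succ, mul_assoc, mul_assoc]
      calc _ ≤ (a : ℤ) * (2 ^ j * (2 * z + 1)) := by gcongr
        _ = 2 ^ j * (a * (2 * z + 1)) := by ring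
        _ ≤ _ := by gcongr

end Pool.Agent.Lib.MP_dee342_nt.Au
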