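import Pool.Agent.Lib.MP_dee342_nt.Au.AFil
import Pool.Agent.Lib.MP_dee342_nt.Au.APath

/-!
Removing the period.
-/

set_option autoImplicit false

namespace Pool.Agent.Lib.MP_dee342_nt.Au

open Filter Finset

variable {a : ℕ} {e : ℤ} {F : Filter ℤ} {S : Set ℤ}

theorem Per.add (hF : Fil a e F) {U : ℤ → Prop} {d d' : ℤ} (h : Per F U d) (h' : Per F U d') :
    Per F U (d + d') := by
  have h1 := (hF.add d).eventually h'
  filter_upwards [h, h1] with x hx h1x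
  rw [← add_assoc]
  exact h1x.trans hx

theorem r1_neg (hF : Fil a e F) {U : ℤ → Prop} {d : ℤ} (h : Per F U d) : Per F U (-d) := by
  have h1 := (hF.add (-d)).eventually h
  filter_upwards [h1] with x hx
  rw [neg_add_cancel_right] at hx
  exact hx.symm

/-- Induction on `t` (`Int.induction_on`), with `Per F U (-d)` from `Fil.add (-d)`. -/
theorem Per.mul (hF : Fil a e F) {U : ℤ → Prop} {d : ℤ} (h : Per F U d) (t : ℤ) :
    Per F U (d * t) := by
  induction t using Int.induction_on with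
  | zero => exact Filter.Eventually.of_forall fun x => by rw [mul_zero, add_zero]
  | succ i ih =>
    rw [mul_add, mul_one]
    exact ih.add hF h
  | pred i ih =>
    rw [mul_sub, mul_one, sub_eq_add_neg]
    exact ih.add hF (r1_neg hF h)

/-- `AB` in terms of `Un` (`T_unit`). -/
theorem AB.un (ha : a = 3 ∨ a = 5) (h : AB a F S) :
    ∀ᶠ x in F, ¬ (a : ℤ) ∣ x → (Un a S (T a x) ↔ Un a S x) := by
  filter_upwards [h] with x hx hu
  exact ⟨fun v => ⟨(hx hu).1 v.1, hu⟩, fun v => ⟨(hx hu).2 v.1, T_unit ha hu⟩⟩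

theorem r1_two (ha : a = 3 ∨ a = 5) (hF : Fil a e F) (h : AB a F S) :
    ∀ᶠ x in F, (Un a S (2 * x) ↔ Un a S x) := by
  have h1 := hF.two.eventually (h.un ha)
  filter_upwards [h1] with x hx
  by_cases hu : (a : ℤ) ∣ 2 * x
  · have hu' : (a : ℤ) ∣ x := by
      rcases ha with rfl | rfl <;> push_cast at hu ⊢ <;> omega
    exact ⟨fun v => absurd hu v.2, fun v => absurd hu' v.2⟩
  · have h2 := hx hu
    rw [T_even] at h2
    exact h2.symm

/-- `Un (2 x) ↔ Un x` almost everywhere (`AB.un` at `2 x`, `T_even`). -/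
theorem Per.half (ha : a = 3 ∨ a = 5) (hF : Fil a e F) (h : AB a F S) {d : ℤ}
    (hd : Per F (Un a S) (2 * d)) : Per F (Un a S) d := by
  have h0 := r1_two ha hF h
  have h1 := (hF.add d).eventually h0
  have h2 := hF.two.eventually hd
  filter_upwards [h0, h1, h2] with x a0 a1 a2
  rw [mul_add] at a1
  exact a1.symm.trans (a2.trans a0)

theorem r1_odd (ha : a = 3 ∨ a = 5) (hF : Fil a e F) (h : AB a F S) {d : ℤ}
    (hd : Per F (Un a S) (a * d)) :
    ∀ᶠ x in F, x % 2 = 1 → ¬ (a : ℤ) ∣ x → ¬ (a : ℤ) ∣ x + 2 * d →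
      (Un a S (x + 2 * d) ↔ Un a S x) := by
  have h0 := h.un ha
  have h1 := (hF.add (2 * d)).eventually h0
  have h2 := (hF.step ha).eventually hd
  filter_upwards [h0, h1, h2] with x a0 a1 a2 hx u0 u1
  have e1 : T a (x + 2 * d) = T a x + a * d := by
    obtain ⟨y, rfl⟩ : ∃ y, x = 2 * y + 1 := ⟨x / 2, by omega⟩
    rw [show 2 * y + 1 + 2 * d = 2 * (y + d) + 1 by ring, T_odd ha, T_odd ha]
    ring
  have b1 := a1 u1
  rw [e1] at b1
  exact b1.symm.trans (a2.trans (a0 u0))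

/-- Odd `x`: `T (x + 2 d) = T x + a d`, `AB.un` at `x` and `x + 2 d`, `Per (a d)` at `T x`
(`Fil.step`). Even `x`: the odd case at `x + P`, and `Per P` at `x` and at `x + 2 d`. -/
theorem rel_two (ha : a = 3 ∨ a = 5) (hF : Fil a e F) (h : AB a F S) {d P : ℤ}
    (hd : Per F (Un a S) (a * d)) (hP : Per F (Un a S) P) (hP2 : P % 2 = 1) (hPa : (a : ℤ) ∣ P) :
    Rel a F (Un a S) (2 * d) := by
  have h0 := r1_odd ha hF h hd
  have h1 := (hF.add P).eventually h0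
  have h2 := (hF.add (2 * d)).eventually hP
  filter_upwards [h0, h1, h2, hP] with x a0 a1 a2 a3 u0 u1
  rcases Int.emod_two_eq_zero_or_one x with hx | hx
  · have e1 : x + P + 2 * d = x + 2 * d + P := by ring
    have b1 := a1 (by omega) (fun v => u0 ((dvd_add_left hPa).1 v))
      (fun v => u1 ((dvd_add_left hPa).1 (e1 ▸ v)))
    rw [e1] at b1
    exact a2.symm.trans (b1.trans a3)
  · exact a0 hx u0 u1

/-- Strong induction on `P > 0` for the claim: `Per (a P)` gives such a `P'`. If `P = 2 P₁` use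
`Per.half`; if `P` is odd and `P = a P₁`, `rel_two` with `d = a P₁` gives `Per (2 a P₁)` (at
non-units both sides are false), then `Per.half`; otherwise `P' = P`. -/
theorem per_red (ha : a = 3 ∨ a = 5) (hF : Fil a e F) (h : AB a F S) {P : ℤ} (hP : 0 < P)
    (hd : Per F (Un a S) P) :
    ∃ P' : ℤ, P' % 2 = 1 ∧ ¬ (a : ℤ) ∣ P' ∧ Per F (Un a S) (a * P') := by
  have key : ∀ n : ℕ, ∀ P : ℤ, 0 < P → P < n → Per F (Un a S) (a * P) →
      ∃ P' : ℤ, P' % 2 = 1 ∧ ¬ (a : ℤ) ∣ P' ∧ Per F (Un a S) (a * P') := by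
    intro n
    induction n with
    | zero => intro P h1 h2; omega
    | succ n ih =>
      intro P h1 h2 h3
      rcases Int.emod_two_eq_zero_or_one P with e | e
      · obtain ⟨Q, rfl⟩ := Int.dvd_of_emod_eq_zero e
        exact ih Q (by omega) (by omega) (Per.half ha hF h (by rwa [mul_left_comm] at h3))
      by_cases e' : (a : ℤ) ∣ P
      swap
      · exact ⟨P, e, e', h3⟩
      obtain ⟨Q, rfl⟩ := e'
      have h4 := rel_two ha hF h h3 h3 (by rcases ha with rfl | rfl <;> push_cast at e ⊢ <;> omega)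
        (dvd_mul_right _ _)
      refine ih Q (by rcases ha with rfl | rfl <;> push_cast at h1 <;> omega)
        (by rcases ha with rfl | rfl <;> push_cast at h1 h2 <;> omega)
        (Per.half ha hF h (h4.mono fun x hx => ?_))
      have h5 : (a : ℤ) ∣ x + 2 * (a * Q) ↔ (a : ℤ) ∣ x :=
        dvd_add_left (dvd_mul_of_dvd_right (dvd_mul_right _ _) 2)
      by_cases h6 : (a : ℤ) ∣ x
      · exact ⟨fun u => absurd (h5.2 h6) u.2, fun u => absurd h6 u.2⟩
      · exact hx h6 fun u => h6 (h5.1 u)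
  exact key (P.toNat + 1) P hP (by omega) (mul_comm P a ▸ hd.mul hF a)

/-- Even `t`: `rel_two`. Odd `t`: `P' t = P' (t + a) - a P'`. -/
theorem rel_mul (ha : a = 3 ∨ a = 5) (hF : Fil a e F) (h : AB a F S) {P' : ℤ} (h2 : P' % 2 = 1)
    (hP : Per F (Un a S) (a * P')) (t : ℤ) : Rel a F (Un a S) (P' * t) := by
  have h3 : (a * P') % 2 = 1 := by rcases ha with rfl | rfl <;> push_cast <;> omega
  have key : ∀ u : ℤ, Rel a F (Un a S) (2 * (P' * u)) := fun u =>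
    rel_two ha hF h (mul_assoc (a : ℤ) P' u ▸ hP.mul hF u) hP h3 (dvd_mul_right _ _)
  rcases Int.emod_two_eq_zero_or_one t with e | e
  · obtain ⟨u, rfl⟩ := Int.dvd_of_emod_eq_zero e
    exact mul_left_comm 2 P' u ▸ key u
  obtain ⟨u, hu⟩ : (2 : ℤ) ∣ t + a := by rcases ha with rfl | rfl <;> push_cast <;> omega
  have e1 : ∀ x : ℤ, x + P' * t + a * P' = x + 2 * (P' * u) := fun x => by
    linear_combination P' * hu
  filter_upwards [key u, (hF.add (P' * t)).eventually hP] with x h4 h5 h6 h7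
  rw [← h5, e1]
  exact h4 h6 fun w => h7 ((dvd_add_left (dvd_mul_right _ P')).1 (e1 x ▸ w))

theorem r3_core (ha : a = 3 ∨ a = 5) (hF : Fil a e F) (h : AB a F S) {n₀ m₀ d d₀ : ℤ}
    (hn : ¬ (a : ℤ) ∣ n₀) (hd : (a : ℤ) ∣ d) (hP : Per F (Un a S) d)
    (h1 : ∀ t : ℤ, T a (T a (2 ^ 2 * (a : ℤ) ^ 1 * t + n₀)) = (a : ℤ) ^ 2 * t + m₀)
    (h2 : ∀ t : ℤ, T a (T a (2 ^ 2 * (a : ℤ) ^ 1 * t + n₀ + d)) = (a : ℤ) ^ 2 * t + m₀ + d₀) :
    ∀ᶠ x in F, (a : ℤ) ^ 2 ∣ x - m₀ → (Un a S (x + d₀) ↔ Un a S x) := by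
  have hu := AB.un ha h
  have hφ : Tendsto (fun x : ℤ => 2 ^ 2 * (a : ℤ) ^ 1 * ((x + -m₀) / (a : ℤ) ^ 2) + n₀) F F :=
    (hF.aff 2 1 n₀).comp ((hF.divapow 2).comp (hF.add (-m₀)))
  have hall : ∀ᶠ n in F, ¬ (a : ℤ) ∣ n →
      (Un a S (T a (T a (n + d))) ↔ Un a S (T a (T a n))) := by
    filter_upwards [hu, (hF.step ha).eventually hu, (hF.add d).eventually hu,
      ((hF.step ha).comp (hF.add d)).eventually hu, hP] with n e1 e2 e3 e4 e5 hn'
    have hnd : ¬ (a : ℤ) ∣ n + d := fun v => hn' ((dvd_add_left hd).1 v)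
    exact ((e4 (T_unit ha hnd)).trans ((e3 hnd).trans e5)).trans
      ((e2 (T_unit ha hn')).trans (e1 hn')).symm
  filter_upwards [hφ.eventually hall] with x hx hdv
  obtain ⟨t, ht⟩ := hdv
  have ha0 : ((a : ℤ)) ^ 2 ≠ 0 := by rcases ha with rfl | rfl <;> norm_num
  have e1 : (x + -m₀) / (a : ℤ) ^ 2 = t := by
    rw [← sub_eq_add_neg, ht, Int.mul_ediv_cancel_left _ ha0]
  rw [e1, h1, h2] at hx
  have e2 : x = (a : ℤ) ^ 2 * t + m₀ := by linarith
  rw [e2]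
  refine hx fun v => hn ((dvd_add_right ?_).1 v)
  exact ⟨2 ^ 2 * t, by ring⟩

theorem r3_three (t k : ℤ) : T 3 (T 3 (12 * t + 1)) = 9 * t + 1 ∧
    T 3 (T 3 (12 * t + 1 + (4 * k + 1))) = 9 * t + 1 + (3 * k + 1) := by
  have e1 : T 3 (12 * t + 1) = 18 * t + 2 := by unfold T; split_ifs <;> omega
  have e2 : T 3 (12 * t + 1 + (4 * k + 1)) = 6 * t + 2 * k + 1 := by
    unfold T; split_ifs <;> omega
  rw [e1, e2]
  constructor <;> (unfold T; split_ifs <;> omega)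

theorem r3_five (t k : ℤ) : T 5 (T 5 (20 * t + 3)) = 25 * t + 4 ∧
    T 5 (T 5 (20 * t + 3 + (4 * k + 3))) = 25 * t + 4 + (5 * k + 4) := by
  have e1 : T 5 (20 * t + 3) = 50 * t + 8 := by unfold T; split_ifs <;> omega
  have e2 : T 5 (20 * t + 3 + (4 * k + 3)) = 10 * t + 2 * k + 3 := by
    unfold T; split_ifs <;> omega
  rw [e1, e2]
  constructor <;> (unfold T; split_ifs <;> omega)

/-- `n₀ = 1, m₀ = 1` for `a = 3`; `n₀ = 3, m₀ = 4` for `a = 5`; `d = a P' u`, `u ∈ {1, 3}`, with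
`n₀ + d ≡ 2 mod 4`, `4 d₀ = a d + 1`. For `x = a ^ 2 t + m₀` put `n = 4 a t + n₀`
(`t = (x - m₀) / a ^ 2`): `T (T n) = x`, `T (T (n + d)) = x + d₀`. -/
theorem comm_step (ha : a = 3 ∨ a = 5) (hF : Fil a e F) (h : AB a F S) {P' : ℤ}
    (h2 : P' % 2 = 1) (hP : Per F (Un a S) (a * P')) :
    ∃ d₀ m₀ : ℤ, IsCoprime d₀ P' ∧ ¬ (a : ℤ) ∣ m₀ ∧ ¬ (a : ℤ) ∣ m₀ + d₀ ∧
      ∀ᶠ x in F, (a : ℤ) ^ 2 ∣ x - m₀ → (Un a S (x + d₀) ↔ Un a S x) := by
  obtain ⟨u, hu⟩ : ∃ u : ℤ, (P' * u) % 4 = 3 := by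
    rcases (by omega : P' % 4 = 1 ∨ P' % 4 = 3) with h4 | h4
    · exact ⟨3, by omega⟩
    · exact ⟨1, by omega⟩
  have hQ := Per.mul hF hP u
  obtain ⟨q, hq⟩ : ∃ q : ℤ, P' * u = 4 * q + 3 := ⟨P' * u / 4, by omega⟩
  have ha' := ha
  rcases ha' with rfl | rfl
  · have hd : ((3 : ℕ) : ℤ) * P' * u = 4 * (3 * q + 2) + 1 := by
      push_cast; linarith
    rw [hd] at hQ
    refine ⟨3 * (3 * q + 2) + 1, 1, ⟨4, -(9 * u), by linarith⟩, by norm_num,
      by push_cast; omega, ?_⟩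
    refine r3_core ha hF h (n₀ := 1) (by norm_num) (by push_cast; omega) hQ
      (fun t => ?_) (fun t => ?_)
    · have := (r3_three t 0).1
      push_cast
      exact this
    · have := (r3_three t (3 * q + 2)).2
      push_cast
      exact this
  · have hd : ((5 : ℕ) : ℤ) * P' * u = 4 * (5 * q + 3) + 3 := by
      push_cast; linarith
    rw [hd] at hQ
    refine ⟨5 * (5 * q + 3) + 4, 4, ⟨4, -(25 * u), by linarith⟩, by norm_num,
      by push_cast; omega, ?_⟩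
    refine r3_core ha hF h (n₀ := 3) (by norm_num) (by push_cast; omega) hQ
      (fun t => ?_) (fun t => ?_)
    · have := (r3_five t 0).1
      push_cast
      exact this
    · have := (r3_five t (5 * q + 3)).2
      push_cast
      exact this

/-- Induction on `i : ℕ`: `Rel (i d₀ + P' t)` for all `t`. Step: for `x` choose `0 ≤ u < a ^ 2`
with `a ^ 2 ∣ x + P' u - m₀` and go `x, x + P' u, x + P' u + d₀, x + (i + 1) d₀ + P' t` (finitely
many `u`: `Filter.eventually_all_finset`). Every `d` is of this form by coprimality. -/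
theorem rel_of (ha : a = 3 ∨ a = 5) (hF : Fil a e F) {U : ℤ → Prop} {P' d₀ m₀ : ℤ}
    (hP : ¬ (a : ℤ) ∣ P') (hE : ∀ t, Rel a F U (P' * t)) (hc : IsCoprime d₀ P')
    (h₀ : ¬ (a : ℤ) ∣ m₀) (h₁ : ¬ (a : ℤ) ∣ m₀ + d₀)
    (hG : ∀ᶠ x in F, (a : ℤ) ^ 2 ∣ x - m₀ → (U (x + d₀) ↔ U x)) (d : ℤ) : Rel a F U d := by
  have hp : Prime (a : ℤ) := by
    rcases ha with rfl | rfl
    · exact Int.prime_three
    · exact Nat.prime_iff_prime_int.1 Nat.prime_five
  have ha2 : (0 : ℤ) < (a : ℤ) ^ 2 := pow_pos (by rcases ha with rfl | rfl <;> norm_num) 2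
  obtain ⟨k, v, hv⟩ : IsCoprime ((a : ℤ) ^ 2) P' :=
    IsCoprime.pow_left ((hp.irreducible.coprime_iff_not_dvd).2 hP)
  have hu : ∀ x : ℤ, ∃ u ∈ Finset.Ico (0 : ℤ) ((a : ℤ) ^ 2), (a : ℤ) ^ 2 ∣ x + P' * u - m₀ := by
    intro x
    refine ⟨(m₀ - x) * v % (a : ℤ) ^ 2,
      Finset.mem_Ico.2 ⟨Int.emod_nonneg _ ha2.ne', Int.emod_lt_of_pos _ ha2⟩,
      (x - m₀) * k - P' * ((m₀ - x) * v / (a : ℤ) ^ 2), ?_⟩
    have h1 := Int.mul_ediv_add_emod ((m₀ - x) * v) ((a : ℤ) ^ 2)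
    linear_combination P' * h1 + (m₀ - x) * hv
  have key : ∀ i : ℕ, ∀ t, Rel a F U (i * d₀ + P' * t) := by
    intro i
    induction i with
    | zero => intro t; simpa using hE t
    | succ i ih =>
      intro t
      have h1 : ∀ᶠ x in F, ∀ u ∈ Finset.Ico (0 : ℤ) ((a : ℤ) ^ 2), ¬ (a : ℤ) ∣ x →
          ¬ (a : ℤ) ∣ x + (((i + 1 : ℕ) : ℤ) * d₀ + P' * t) → (a : ℤ) ^ 2 ∣ x + P' * u - m₀ →
          (U (x + (((i + 1 : ℕ) : ℤ) * d₀ + P' * t)) ↔ U x) := by
        refine (Filter.eventually_all_finset _).2 fun u _ => ?_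
        filter_upwards [hE u, (hF.add (P' * u)).eventually hG,
          (hF.add (P' * u + d₀)).eventually (ih (t - u))] with x e1 e2 e3 hx hy hd
        have hd' : (a : ℤ) ∣ x + P' * u - m₀ := (dvd_pow_self _ two_ne_zero).trans hd
        have n1 : ¬ (a : ℤ) ∣ x + P' * u := fun c => h₀ (by simpa using c.sub hd')
        have n2 : ¬ (a : ℤ) ∣ x + (P' * u + d₀) := fun c => h₁ (by
          have := c.sub hd'
          rwa [show x + (P' * u + d₀) - (x + P' * u - m₀) = m₀ + d₀ by ring] at this)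
        have e4 : x + (P' * u + d₀) + (i * d₀ + P' * (t - u)) =
            x + (((i + 1 : ℕ) : ℤ) * d₀ + P' * t) := by
          push_cast
          ring
        rw [e4] at e3
        rw [e3 n2 hy, ← add_assoc, e2 hd, e1 hx n1]
      filter_upwards [h1] with x e1 hx hy
      obtain ⟨u, h2, h3⟩ := hu x
      exact e1 u h2 hx hy h3
  obtain ⟨α, β, hab⟩ := hc
  have hP0 : P' ≠ 0 := fun c => hP (c ▸ dvd_zero _)
  have h2 := key (d * α % P').toNat (d * α / P' * d₀ + d * β)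
  rw [Int.toNat_of_nonneg (Int.emod_nonneg _ hP0)] at h2
  have h3 := Int.mul_ediv_add_emod (d * α) P'
  rwa [show d * α % P' * d₀ + P' * (d * α / P' * d₀ + d * β) = d by
    linear_combination d₀ * h3 + d * hab] at h2

theorem rel_all (ha : a = 3 ∨ a = 5) (hF : Fil a e F) (h : AB a F S) {P : ℤ} (hP : 0 < P)
    (hd : Per F (Un a S) P) (d : ℤ) : Rel a F (Un a S) d := by
  obtain ⟨P', h2, h3, h4⟩ := per_red ha hF h hP hd
  obtain ⟨d₀, m₀, hc, h₀, h₁, hG⟩ := comm_step ha hF h h2 h4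
  exact rel_of ha hF h3 (rel_mul ha hF h h2 h4) hc h₀ h₁ hG d

end Pool.Agent.Lib.MP_dee342_nt.Au
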