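import Pool.Agent.Lib.MP_dee342_nt.Au.AMean
import Pool.Agent.Lib.MP_dee342_nt.Au.AMax
import Pool.Agent.Lib.MP_dee342_nt.Au.AKrebs
import Pool.Agent.Lib.MP_dee342_nt.Au.APer

/-!
From almost everywhere to everywhere.
-/

set_option autoImplicit false

namespace Pool.Agent.Lib.MP_dee342_nt.Au

open Filter Finset

/-- `K` the kernel as a finite type, `σ x = (fun A : K => x ∈ A, (x : ZMod 15))`;
`{n | 2 n + i ∈ A}` is again in the kernel: `2 ^ k (2 n + i) + r = 2 ^ (k + 1) n + (2 ^ k i + r)`;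
`S` itself is in the kernel (`k = 0`). -/
theorem exists_aut {a : ℕ} (ha : a = 3 ∨ a = 5) {S : Set ℤ} (hS : Auto2 S) :
    ∃ (Q : Type) (_ : Fintype Q) (σ : ℤ → Q), Aut a S σ := by
  classical
  obtain ⟨K, hK⟩ : ∃ K : Set (Set ℤ),
      K = {A : Set ℤ | ∃ (k : ℕ) (r : ℤ), 0 ≤ r ∧ r < 2 ^ k ∧ A = {n | 2 ^ k * n + r ∈ S}} :=
    ⟨_, rfl⟩
  have hfin : K.Finite := hK ▸ hS
  have h0 : S ∈ K := by
    rw [hK]
    exact ⟨0, 0, le_rfl, by simp, by simp⟩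
  have hstep : ∀ A ∈ K, ∀ i : ℤ, 0 ≤ i → i ≤ 1 → {n | 2 * n + i ∈ A} ∈ K := by
    rw [hK]
    rintro A ⟨k, r, h1, h2, rfl⟩ i h3 h4
    have h5 : (0 : ℤ) < 2 ^ k := by positivity
    refine ⟨k + 1, 2 ^ k * i + r, by positivity, ?_, ?_⟩
    · have := mul_le_mul_of_nonneg_left h4 h5.le
      rw [pow_succ]
      linarith
    · ext n
      simp only [Set.mem_ofPred_eq]
      rw [show (2 : ℤ) ^ k * (2 * n + i) + r = 2 ^ (k + 1) * n + (2 ^ k * i + r) by ring]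
  let _ : Fintype K := hfin.fintype
  refine ⟨(K → Prop) × ZMod 15, inferInstance,
    fun x => (fun A => x ∈ A.1, (x : ZMod 15)), fun x y h => ?_, fun x y h hx => ?_,
    fun x y h hx => ?_⟩
  · obtain ⟨h1, h2⟩ := Prod.ext_iff.1 h
    have key : ∀ i : ℤ, 0 ≤ i → i ≤ 1 →
        ((fun A : K => 2 * x + i ∈ A.1), ((2 * x + i : ℤ) : ZMod 15)) =
          ((fun A : K => 2 * y + i ∈ A.1), ((2 * y + i : ℤ) : ZMod 15)) := by
      intro i h3 h4
      refine Prod.ext (funext fun A => congrFun h1 ⟨_, hstep A.1 A.2 i h3 h4⟩) ?_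
      have h5 : (x : ZMod 15) = y := h2
      push_cast
      rw [h5]
    exact ⟨by simpa only [add_zero] using key 0 le_rfl zero_le_one, key 1 zero_le_one le_rfl⟩
  · have h1 : (x ∈ S) = (y ∈ S) := congrFun (Prod.ext_iff.1 h).1 ⟨S, h0⟩
    exact h1 ▸ hx
  · have h1 : (x : ZMod 15) = y := (Prod.ext_iff.1 h).2
    have h2 := (ZMod.intCast_eq_intCast_iff_dvd_sub x y 15).1 h1
    rcases ha with rfl | rfl <;> omega

/-- Otherwise each `u` with `2 ≤ e u` has `(j, w)` with `2 ^ j u + w ∈ E`, so the fibre of `τ u`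
lies in `{x | 2 ^ j x + w ∈ E}`, which is avoided eventually (`Fil.aff`); finitely many fibres and
`Fil.large` contradict `Fil.ne`. -/
theorem miss {a : ℕ} {e : ℤ} (he : e = 1 ∨ e = -1) {F : Filter ℤ} (hF : Fil a e F) {Q : Type}
    [Fintype Q] (τ : ℤ → Q) (E : Set ℤ)
    (hτ : ∀ x y, τ x = τ y → ∀ (j : ℕ) (w : ℤ), 0 ≤ w → w < 2 ^ j →
      2 ^ j * x + w ∈ E → 2 ^ j * y + w ∈ E)
    (hE : ∀ᶠ x in F, x ∉ E) :
    ∃ u : ℤ, 2 ≤ e * u ∧ ∀ (j : ℕ) (w : ℤ), 0 ≤ w → w < 2 ^ j → 2 ^ j * u + w ∉ E := by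
  by_contra hno
  have h1 : ∀ᶠ x in F, ∀ q : Q, 2 ≤ e * x → τ x ≠ q := by
    rw [eventually_all]
    intro q
    by_cases hq : ∃ u, 2 ≤ e * u ∧ τ u = q
    · obtain ⟨u, hu, rfl⟩ := hq
      obtain ⟨j, w, h2, h3, h4⟩ : ∃ (j : ℕ) (w : ℤ), 0 ≤ w ∧ w < 2 ^ j ∧ 2 ^ j * u + w ∈ E := by
        by_contra hc
        exact hno ⟨u, hu, fun j w h2 h3 h4 => hc ⟨j, w, h2, h3, h4⟩⟩
      refine ((hF.aff j 0 w).eventually hE).mono fun x hx _ h5 => hx ?_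
      rw [pow_zero, mul_one]
      exact hτ u x h5.symm j w h2 h3 h4
    · exact Eventually.of_forall fun x hx h2 => hq ⟨x, hx, h2⟩
  have := hF.ne
  obtain ⟨x, h2, h3⟩ := (h1.and (hF.large he 2)).exists
  exact h2 _ h3 rfl

/-- `miss` for `τ x = (σ x, σ (x + 1), σ (x + 2))` (`Aut.win` with `C = 3`) and
`E = {x | ∃ d ∈ {1, 2}, x, x + d units, ¬ (Un (x + d) ↔ Un x)}`; then induction on `y - x`: the
unit after a unit `x` is `x + 1` or `x + 2`. -/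
theorem flat_cyl {a : ℕ} (ha : a = 3 ∨ a = 5) {e : ℤ} (he : e = 1 ∨ e = -1) {F : Filter ℤ}
    (hF : Fil a e F) {S : Set ℤ} {Q : Type} [Fintype Q] {σ : ℤ → Q} (hσ : Aut a S σ)
    (h : ∀ d, Rel a F (Un a S) d) :
    ∃ u : ℤ, 2 ≤ e * u ∧ ∀ (l : ℕ) (x y : ℤ), 2 ^ l * u ≤ x → x ≤ y → y < 2 ^ l * (u + 1) →
      ¬ (a : ℤ) ∣ x → ¬ (a : ℤ) ∣ y → (x ∈ S ↔ y ∈ S) := by
  obtain ⟨u, hu, hE⟩ := miss he hF (fun x => (σ x, σ (x + 1), σ (x + 2)))
    {x | ∃ d : ℤ, (d = 1 ∨ d = 2) ∧ ¬ (a : ℤ) ∣ x ∧ ¬ (a : ℤ) ∣ x + d ∧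
      ¬ (Un a S (x + d) ↔ Un a S x)}
    (fun x y hxy j w h0 h1 ⟨d, hd, h2, h3, h4⟩ => by
      simp only [Prod.mk.injEq] at hxy
      have h5 := hσ.win (C := 3) (x := x) (y := y) (fun p p0 p1 => by
        obtain rfl | rfl | rfl : p = 0 ∨ p = 1 ∨ p = 2 := by omega
        exacts [by simpa using hxy.1, hxy.2.1, hxy.2.2]) j
      have e1 := h5 w h0 (by omega)
      have e2 := h5 (w + d) (by omega) (by omega)
      rw [← add_assoc, ← add_assoc] at e2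
      exact ⟨d, hd, fun v => h2 (hσ.dvd _ _ e1.symm v), fun v => h3 (hσ.dvd _ _ e2.symm v),
        by rwa [← hσ.un e1, ← hσ.un e2]⟩)
    (((h 1).and (h 2)).mono fun x hx ⟨d, hd, h2, h3, h4⟩ => by
      rcases hd with rfl | rfl
      exacts [h4 (hx.1 h2 h3), h4 (hx.2 h2 h3)])
  refine ⟨u, hu, fun l x y h1 h2 h3 hx hy => ?_⟩
  rw [mul_add_one] at h3
  have key : ∀ z d : ℤ, 2 ^ l * u ≤ z → z ≤ y → d = 1 ∨ d = 2 → ¬ (a : ℤ) ∣ z →
      ¬ (a : ℤ) ∣ z + d → (z ∈ S ↔ z + d ∈ S) := fun z d z1 z2 hd hz hz' => by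
    have h4 := hE l (z - 2 ^ l * u) (by omega) (by omega)
    rw [add_sub_cancel] at h4
    have h5 : Un a S (z + d) ↔ Un a S z := by_contra fun v => h4 ⟨d, hd, hz, hz', v⟩
    exact ⟨fun v => (h5.2 ⟨v, hz⟩).1, fun v => (h5.1 ⟨v, hz'⟩).1⟩
  obtain ⟨n, hn⟩ : ∃ n : ℕ, y - x ≤ n := ⟨_, Int.self_le_toNat _⟩
  induction n generalizing x with
  | zero => rw [show x = y by omega]
  | succ n ih =>
    rcases h2.eq_or_lt with rfl | h4
    · rfl
    by_cases h5 : (a : ℤ) ∣ x + 1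
    · have h6 : x + 1 ≠ y := fun v => hy (v ▸ h5)
      have h7 : ¬ (a : ℤ) ∣ x + 2 := by rcases ha with rfl | rfl <;> omega
      exact (key x 2 h1 h2 (Or.inr rfl) hx h7).trans
        (ih (x + 2) (by omega) (by omega) h7 (by omega))
    · exact (key x 1 h1 h2 (Or.inl rfl) hx h5).trans
        (ih (x + 1) (by omega) (by omega) h5 (by omega))

theorem n3_sign {a : ℕ} (ha : a = 3 ∨ a = 5) {e : ℤ} (he : e = 1 ∨ e = -1) (n : ℕ) (x : ℤ) :
    0 < e * (T a)^[n] x ↔ 0 < e * x := by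
  induction n with
  | zero => rfl
  | succ n ih => rw [Function.iterate_succ_apply', T_sign ha he, ih]

theorem n3_iter {a : ℤ} {S : Set ℤ} (hT : ∀ x ∈ S, T a x ∈ S) (n : ℕ) {x : ℤ} (hx : x ∈ S) :
    (T a)^[n] x ∈ S := by
  induction n with
  | zero => exact hx
  | succ n ih => rw [Function.iterate_succ_apply']; exact hT _ ih

theorem n3_unit {a : ℕ} (ha : a = 3 ∨ a = 5) (n : ℕ) {x : ℤ} (hx : ¬ (a : ℤ) ∣ x) :
    ¬ (a : ℤ) ∣ 2 ^ n * x := by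
  induction n with
  | zero => rwa [pow_zero, one_mul]
  | succ n ih =>
    rw [pow_succ', mul_assoc]
    rcases ha with rfl | rfl <;> omega

theorem n3_lev {e : ℤ} (he : e = 1 ∨ e = -1) {u : ℤ} (hu : 2 ≤ e * u) : ∃ v : ℤ, 1 ≤ v ∧
    ∀ P x : ℤ, 0 < e * x → P * v < |x| → |x| < P * (v + 1) → P * u ≤ x ∧ x < P * (u + 1) := by
  rcases he with rfl | rfl
  · refine ⟨u, by omega, fun P x h1 h2 h3 => ?_⟩
    rw [abs_of_pos (by omega)] at h2 h3
    exact ⟨h2.le, h3⟩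
  · refine ⟨-u - 1, by omega, fun P x h1 h2 h3 => ?_⟩
    rw [abs_of_neg (by omega)] at h2 h3
    constructor <;> linarith

/-- `v = u` for `e = 1`, `v = -u - 1` for `e = -1`. `mant v` on the path of `anc` for `2 ^ s m`
(`|2 ^ s m| ≥ M`) gives a unit `z` of sign `e` at a level `l` whose orbit contains `m`;
`mant (2 ^ l v)` on a piece from `hlong` gives a unit of `S` at a level `l + l'`; so
`2 ^ l' z ∈ S`, and `S` is closed under `T` (`iter_two_pow`). -/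
theorem full {a : ℕ} (ha : a = 3 ∨ a = 5) {e : ℤ} (he : e = 1 ∨ e = -1) {S : Set ℤ}
    (hT : ∀ x ∈ S, T a x ∈ S) {u : ℤ} (hu : 2 ≤ e * u)
    (hc : ∀ (l : ℕ) (x y : ℤ), 2 ^ l * u ≤ x → x ≤ y → y < 2 ^ l * (u + 1) →
      ¬ (a : ℤ) ∣ x → ¬ (a : ℤ) ∣ y → (x ∈ S ↔ y ∈ S))
    (hlong : ∀ (K : ℕ) (M : ℤ), ∃ x ∈ S, 0 < e * x ∧ ∃ j : ℕ,
      (∀ i, i ≤ j → M ≤ |(T a)^[i] x|) ∧ K ≤ odds a j x)
    {m : ℤ} (hm : 0 < e * m) (hma : ¬ (a : ℤ) ∣ m) : m ∈ S := by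
  obtain ⟨v, hv, hlev⟩ := n3_lev he hu
  have hp : ∀ n : ℕ, (0 : ℤ) < 2 ^ n := fun n => by positivity
  have hs : ∀ (n : ℕ) {x : ℤ}, 0 < e * x → 0 < e * (2 ^ n * x) := fun n x hx => by
    rw [mul_left_comm]
    exact mul_pos (hp n) hx
  obtain ⟨K, M, h1⟩ := mant ha hv
  obtain ⟨s, hM⟩ : ∃ s : ℕ, M ≤ |2 ^ s * m| := by
    obtain ⟨s, h⟩ := pow_unbounded_of_one_lt M (one_lt_two (α := ℤ))
    have h0 : m ≠ 0 := by
      rintro rfl
      simp at hm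
    refine ⟨s, h.le.trans ?_⟩
    rw [abs_mul, abs_of_pos (hp s)]
    exact le_mul_of_one_le_right (hp s).le (Int.one_le_abs h0)
  obtain ⟨j, w, a1, a2, a3⟩ := anc ha (n3_unit ha s hma) K
  obtain ⟨i, l, b1, b2, b3, b4⟩ := h1 w j (fun i hi => hM.trans (a3 i hi).2) a2.ge
  have b5 : (T a)^[j - i] ((T a)^[i] w) = 2 ^ s * m := by
    rw [← Function.iterate_add_apply, Nat.sub_add_cancel b1, a1]
  have b6 : 0 < e * (T a)^[i] w := (n3_sign ha he (j - i) _).1 (b5.symm ▸ hs s hm)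
  generalize (T a)^[i] w = z at b2 b3 b4 b5 b6
  obtain ⟨K', M', h2⟩ := mant ha (v := 2 ^ l * v) (mul_pos (hp l) hv)
  obtain ⟨x, c1, c2, j', c3, c4⟩ := hlong K' M'
  obtain ⟨i', l', -, d2, d3, d4⟩ := h2 x j' c3 c4
  have d5 := n3_iter hT i' c1
  have d6 := (n3_sign ha he i' x).2 c2
  generalize (T a)^[i'] x = y at d2 d3 d4 d5 d6
  have e1 := hlev (2 ^ (l' + l)) y d6 (by rwa [pow_add, mul_assoc]) (d4.trans_le (by
    rw [pow_add, mul_assoc]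
    refine mul_le_mul_of_nonneg_left ?_ (hp l').le
    have := hp l
    linarith))
  have e2 := hlev (2 ^ (l' + l)) (2 ^ l' * z) (hs l' b6)
    (by rw [pow_add, mul_assoc, abs_mul, abs_of_pos (hp l')]
        exact mul_lt_mul_of_pos_left b3 (hp l'))
    (by rw [pow_add, mul_assoc, abs_mul, abs_of_pos (hp l')]
        exact mul_lt_mul_of_pos_left b4 (hp l'))
  have e3 : 2 ^ l' * z ∈ S := by
    rcases le_total y (2 ^ l' * z) with h | h
    · exact (hc _ _ _ e1.1 h e2.2 d2 (n3_unit ha l' b2)).1 d5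
    · exact (hc _ _ _ e2.1 h e1.2 (n3_unit ha l' b2) d2).2 d5
  have e4 := n3_iter hT l' e3
  rw [iter_two_pow] at e4
  have e5 := n3_iter hT s (b5 ▸ n3_iter hT (j - i) e4)
  rwa [iter_two_pow] at e5

theorem n4_sign {a : ℕ} (ha : a = 3 ∨ a = 5) {e : ℤ} (he : e = 1 ∨ e = -1) {x : ℤ}
    (hx : 0 < e * x) (j : ℕ) : 0 < e * (T a)^[j] x := by
  induction j with
  | zero => exact hx
  | succ j ih =>
    rw [Function.iterate_succ_apply']
    exact (T_sign ha he _).2 ih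

theorem n4_ne {a : ℕ} (ha : a = 3 ∨ a = 5) {x : ℤ} (hx : x ≠ 0) (j : ℕ) : (T a)^[j] x ≠ 0 := by
  intro h
  rcases hx.lt_or_gt with h1 | h1
  · have := n4_sign ha (e := -1) (x := x) (.inr rfl) (by omega) j
    omega
  · have := n4_sign ha (e := 1) (x := x) (.inl rfl) (by omega) j
    omega

theorem n4_odd (a : ℤ) (n : ℕ) : ∀ x : ℤ, x ≠ 0 → x.natAbs ≤ n → ∃ i, (T a)^[i] x % 2 = 1 := by
  induction n with
  | zero => intro x h0 h1; omega
  | succ n ih =>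
    intro x h0 h1
    rcases Int.emod_two_eq_zero_or_one x with h | h
    · obtain ⟨i, hi⟩ := ih (x / 2) (by omega) (by omega)
      exact ⟨i + 1, by rwa [Function.iterate_succ_apply, T, if_pos h]⟩
    · exact ⟨0, h⟩

/-- A nonzero orbit has infinitely many odd terms: `odds a j x` is unbounded (an even step halves
`|x| ≥ 1`; `odds_add`). -/
theorem odds_unbdd {a : ℕ} (ha : a = 3 ∨ a = 5) {x : ℤ} (hx : x ≠ 0) (K : ℕ) :
    ∃ j, K ≤ odds a j x := by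
  induction K with
  | zero => exact ⟨0, Nat.zero_le _⟩
  | succ K ih =>
    obtain ⟨j, hj⟩ := ih
    obtain ⟨i, hi⟩ := n4_odd a _ _ (n4_ne ha hx j) le_rfl
    refine ⟨j + (i + 1), ?_⟩
    rw [odds_add, odds_succ, if_pos hi]
    omega

/-- The first `j` with `|T^j x| < M` exists by `odds_unbdd` and has `odds j x ≤ K`. -/
theorem drop {a : ℕ} (ha : a = 3 ∨ a = 5) {x : ℤ} (hx : x ≠ 0) {K : ℕ} {M : ℤ}
    (h : ∀ j : ℕ, (∀ i, i ≤ j → M ≤ |(T a)^[i] x|) → odds a j x < K) :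
    ∃ j, |(T a)^[j] x| < M ∧ odds a j x ≤ K := by
  have ex : ∃ j, |(T a)^[j] x| < M := by
    by_contra hc
    obtain ⟨j, hj⟩ := odds_unbdd ha hx K
    exact (h j fun i _ => not_lt.1 fun hi => hc ⟨i, hi⟩).not_ge hj
  refine ⟨Nat.find ex, Nat.find_spec ex, ?_⟩
  have hm := fun i => Nat.find_min ex (m := i)
  generalize Nat.find ex = j at hm ⊢
  cases j with
  | zero => rw [odds_zero]; exact Nat.zero_le _
  | succ j =>
    have h1 := h j fun i hi => not_lt.1 (hm i (Nat.lt_succ_of_le hi))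
    rw [odds_succ]
    split_ifs <;> omega

/-- `B = {y ∈ S | 0 < e y, |y| < M}` is finite and every orbit in `S` of sign `e` returns to it
for ever, so it is eventually periodic (pigeonhole); take the largest preperiod on `B`
(`odds a j y ≤ j`); periodic points lie on the finitely many cycles through `B`. -/
theorem bounded {a : ℕ} (ha : a = 3 ∨ a = 5) {e : ℤ} (he : e = 1 ∨ e = -1) {S : Set ℤ}
    (hT : ∀ x ∈ S, T a x ∈ S) {K : ℕ} {M : ℤ}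
    (h : ∀ x ∈ S, 0 < e * x → ∃ j, |(T a)^[j] x| < M ∧ odds a j x ≤ K) :
    {x | x ∈ S ∧ 0 < e * x ∧ x ∈ Function.periodicPts (T a)}.Finite ∧
      ∃ K' : ℕ, ∀ x ∈ S, 0 < e * x →
        ∃ j, (T a)^[j] x ∈ Function.periodicPts (T a) ∧ odds a j x ≤ K' := by
  have hS : ∀ x ∈ S, ∀ j, (T a)^[j] x ∈ S := fun x hx j => (Set.MapsTo.iterate hT j) hx
  obtain ⟨B, hB⟩ : ∃ B : Set ℤ, B = {y | y ∈ S ∧ 0 < e * y ∧ |y| < M} := ⟨_, rfl⟩
  have fB : B.Finite := (Set.finite_Ioo (-M) M).subset fun y hy => by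
    rw [hB] at hy
    exact abs_lt.1 hy.2.2
  have ret : ∀ x ∈ S, 0 < e * x → ∃ j, (T a)^[j] x ∈ B ∧ odds a j x ≤ K := fun x hx h0 => by
    obtain ⟨j, h1, h2⟩ := h x hx h0
    exact ⟨j, hB ▸ ⟨hS x hx j, n4_sign ha he h0 j, h1⟩, h2⟩
  have ev : ∀ y ∈ B, ∃ j, (T a)^[j] y ∈ Function.periodicPts (T a) := fun y hy => by
    rw [hB] at hy
    have h1 : {j | (T a)^[j] y ∈ B}.Infinite := Set.infinite_of_forall_exists_gt fun n => by
      obtain ⟨j, h1, -⟩ := ret _ (hS y hy.1 (n + 1)) (n4_sign ha he hy.2.1 _)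
      rw [← Function.iterate_add_apply] at h1
      exact ⟨_, h1, by omega⟩
    obtain ⟨i, -, j, -, h2, h3⟩ := h1.exists_lt_map_eq_of_mapsTo (f := fun j => (T a)^[j] y)
      (fun _ hj => hj) fB
    refine ⟨i, Function.mk_mem_periodicPts (Nat.sub_pos_of_lt h2) ?_⟩
    rw [Function.IsPeriodicPt, Function.IsFixedPt, ← Function.iterate_add_apply,
      Nat.sub_add_cancel h2.le]
    exact h3.symm
  choose! p hp using ev
  obtain ⟨N, hN⟩ := (fB.image p).bddAbove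
  refine ⟨(fB.biUnion fun y _ => (Set.finite_lt_nat (Function.minimalPeriod (T a) y)).image
    fun i => (T a)^[i] y).subset ?_, K + N, fun x hx h0 => ?_⟩
  · rintro x ⟨hx, h0, n, hn, h1⟩
    obtain ⟨j, h2, -⟩ := ret x hx h0
    refine Set.mem_biUnion h2 ⟨(n * j - j) % Function.minimalPeriod (T a) ((T a)^[j] x),
      Nat.mod_lt _ (Function.minimalPeriod_pos_of_mem_periodicPts ⟨n, hn, h1.apply_iterate j⟩), ?_⟩
    beta_reduce
    rw [Function.iterate_mod_minimalPeriod_eq, ← Function.iterate_add_apply,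
      Nat.sub_add_cancel (Nat.le_mul_of_pos_left j hn)]
    exact h1.mul_const j
  · obtain ⟨j, h1, h2⟩ := ret x hx h0
    refine ⟨j + p ((T a)^[j] x), ?_, ?_⟩
    · rw [add_comm, Function.iterate_add_apply]
      exact hp _ h1
    · have h3 : odds a (p ((T a)^[j] x)) ((T a)^[j] x) ≤ p ((T a)^[j] x) :=
        (card_filter_le _ _).trans (card_range _).le
      have h4 := hN ⟨_, h1, rfl⟩
      rw [odds_add]
      omega

theorem main2 {a : ℕ} (ha : a = 3 ∨ a = 5) {S : Set ℤ} (hS : Auto2 S)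
    (hT : ∀ x ∈ S, T a x ∈ S) {e : ℤ} (he : e = 1 ∨ e = -1) :
    (∀ m : ℤ, 0 < e * m → ¬ (a : ℤ) ∣ m → m ∈ S) ∨
      ({x | x ∈ S ∧ 0 < e * x ∧ x ∈ Function.periodicPts (T a)}.Finite ∧
        ∃ K : ℕ, ∀ x ∈ S, 0 < e * x →
          ∃ j, (T a)^[j] x ∈ Function.periodicPts (T a) ∧ odds a j x ≤ K) := by
  have ha0 : 0 < a := by omega
  by_cases hlong : ∀ (K : ℕ) (M : ℤ), ∃ x ∈ S, 0 < e * x ∧ ∃ j : ℕ,
      (∀ i, i ≤ j → M ≤ |(T a)^[i] x|) ∧ K ≤ odds a j x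
  · obtain ⟨m⟩ := exists_mean ha0 he
    obtain ⟨Q, _, σ, hσ⟩ := exists_aut ha hS
    have hF := m.fil ha0
    have hab := ab ha m hT hσ
    obtain ⟨P, hP, hP'⟩ := exists_per ha hF hab hσ
    obtain ⟨u, hu, hc⟩ := flat_cyl ha he hF hσ (rel_all ha hF hab hP hP')
    exact Or.inl fun y hy hya => full ha he hT hu hc hlong hy hya
  · push Not at hlong
    obtain ⟨K, M, h⟩ := hlong
    refine Or.inr (bounded ha he hT (K := K) (M := M) fun x hx hx' => ?_)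
    refine drop ha ?_ (h x hx hx')
    rintro rfl
    simp at hx'

end Pool.Agent.Lib.MP_dee342_nt.Au
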