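import Pool.Agent.Lib.MP_dee342_nt.Au.AInt

/-!
The filter of a mean.
-/

set_option autoImplicit false

namespace Pool.Agent.Lib.MP_dee342_nt.Au

open Filter Finset

theorem f1_tendsto {a : ℕ} {e : ℤ} (m : Mean a e) {f : ℤ → ℤ}
    (h : ∀ A, m.μ A = 0 → m.μ {n | f n ∈ A} = 0) : Tendsto f m.ae m.ae :=
  fun s hs => h sᶜ hs

/-- Null sets pull back to null sets: `two`, `mula` (a sum of nonnegative terms vanishes),
`shift_int`; for `x / 2`: both halves of the preimage of `A` are `A` itself. -/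
theorem Mean.tendsto {a : ℕ} (ha : 0 < a) {e : ℤ} (m : Mean a e) :
    (∀ d : ℤ, Tendsto (fun x => x + d) m.ae m.ae) ∧ Tendsto (fun x => 2 * x) m.ae m.ae ∧
      Tendsto (fun x => (a : ℤ) * x) m.ae m.ae ∧ Tendsto (fun x => x / 2) m.ae m.ae ∧
      Tendsto (fun x => x / (a : ℤ)) m.ae m.ae := by
  have ha' : (a : ℝ) ≠ 0 := by exact_mod_cast ha.ne'
  refine ⟨fun d => f1_tendsto m fun A hA => by rw [m.shift_int, hA],
    f1_tendsto m fun A hA => ?_, f1_tendsto m fun A hA => ?_, f1_tendsto m fun A hA => ?_,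
    f1_tendsto m fun A hA => ?_⟩
  · have h1 := m.two A
    have h2 := m.nonneg {n | 2 * n ∈ A}
    have h3 := m.nonneg {n | 2 * n + 1 ∈ A}
    linarith
  · have h1 := m.mula A
    rw [hA, eq_comm, div_eq_zero_iff, or_iff_left ha',
      sum_eq_zero_iff_of_nonneg fun r _ => m.nonneg _] at h1
    simpa using h1 0 (mem_range.2 ha)
  · have h1 : ∀ n : ℤ, 2 * n / 2 = n := fun n => by omega
    have h2 : ∀ n : ℤ, (2 * n + 1) / 2 = n := fun n => by omega
    rw [m.two]
    simp only [Set.mem_ofPred_eq, h1, h2, Set.ofPred_mem_eq, hA]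
    norm_num
  · rw [m.mula, sum_eq_zero, zero_div]
    intro r hr
    have h1 : ∀ n : ℤ, ((a : ℤ) * n + r) / a = n := fun n => by
      rw [add_comm, Int.add_mul_ediv_left _ _ (by exact_mod_cast ha.ne'),
        Int.ediv_eq_zero_of_lt (Int.natCast_nonneg r) (by exact_mod_cast mem_range.1 hr), zero_add]
    simp only [Set.mem_ofPred_eq, h1, Set.ofPred_mem_eq, hA]

/-- `ne` from `univ`, `sgn` from `sgn`, `ret` from `count` with `A h = {y | y + h ∈ X}`:
`H * μ X ≤ N + H * μ B` and `μ X > 0`. -/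
theorem Mean.fil {a : ℕ} (ha : 0 < a) {e : ℤ} (m : Mean a e) : Fil a e m.ae := by
  obtain ⟨h1, h2, h3, h4, h5⟩ := m.tendsto ha
  refine ⟨⟨fun h => ?_⟩, h1, h2, h3, h4, h5, m.eventually_ae.2 ?_, fun X hX N => ?_⟩
  · have h6 := m.mem_ae.1 (empty_mem_iff_bot.2 h)
    rw [Set.compl_empty, m.univ] at h6
    exact one_ne_zero h6
  · simpa only [not_lt] using m.sgn
  · have h6 : 0 < m.μ X := lt_of_le_of_ne (m.nonneg X) fun c =>
      hX (m.eventually_ae.2 (by simpa only [not_not, Set.ofPred_mem_eq] using c.symm))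
    obtain ⟨H, hH⟩ := exists_nat_gt ((N : ℝ) / m.μ X)
    refine ⟨H, fun c => ?_⟩
    have h7 := m.count H N (fun h => {y | y + (h : ℤ) ∈ X}) _
      (fun x (hx : ¬¬ N < {h : ℕ | h < H ∧ x + (h : ℤ) ∈ X}.ncard → False) =>
        not_lt.1 fun c' => hx (not_not.2 c'))
    rw [div_lt_iff₀ h6] at hH
    have h8 := m.eventually_ae.1 c
    simp only [m.shift_int, sum_const, card_range, nsmul_eq_mul] at h7
    erw [h8] at h7
    linarith

namespace Fil

variable {a : ℕ} {e : ℤ} {F : Filter ℤ}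

theorem f2_pow {b : ℤ} (hb : Tendsto (fun x => b * x) F F) (n : ℕ) :
    Tendsto (fun x : ℤ => b ^ n * x) F F := by
  induction n with
  | zero => exact tendsto_id.congr fun x => by simp
  | succ n ih =>
    refine (hb.comp ih).congr fun x => ?_
    simp only [Function.comp_apply, pow_succ]
    ring

theorem aff (h : Fil a e F) (i j : ℕ) (c : ℤ) :
    Tendsto (fun x : ℤ => 2 ^ i * (a : ℤ) ^ j * x + c) F F := by
  have h1 := (h.add c).comp ((f2_pow h.two i).comp (f2_pow h.mula j))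
  refine h1.congr fun x => ?_
  simp only [Function.comp_apply, mul_assoc]

theorem f2_div {b : ℤ} (h0 : 0 ≤ b) (hb : Tendsto (fun x => x / b) F F) (n : ℕ) :
    Tendsto (fun x : ℤ => x / b ^ n) F F := by
  induction n with
  | zero => exact tendsto_id.congr fun x => by simp
  | succ n ih =>
    refine (hb.comp ih).congr fun x => ?_
    simp only [Function.comp_apply, pow_succ]
    exact Int.ediv_ediv_of_nonneg (pow_nonneg h0 n)

theorem div2pow (h : Fil a e F) (n : ℕ) : Tendsto (fun x : ℤ => x / 2 ^ n) F F := by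
  exact f2_div (by norm_num) h.div2 n

theorem divapow (h : Fil a e F) (n : ℕ) : Tendsto (fun x : ℤ => x / (a : ℤ) ^ n) F F := by
  exact f2_div (Int.natCast_nonneg a) h.diva n

/-- `T a x` is `x / 2` or `a * (x / 2) + (a + 1) / 2`. -/
theorem step (h : Fil a e F) (ha : a = 3 ∨ a = 5) : Tendsto (T a) F F := by
  intro s hs
  have h1 := h.div2 hs
  have h2 := ((h.add (((a : ℤ) + 1) / 2)).comp (h.mula.comp h.div2)) hs
  rw [Filter.mem_map] at h1 h2 ⊢
  filter_upwards [h1, h2] with x hx1 hx2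
  simp only [Set.mem_preimage, Function.comp_apply, T] at hx1 hx2 ⊢
  split_ifs with hx
  · exact hx1
  · have h3 : ((a : ℤ) * x + 1) / 2 = (a : ℤ) * (x / 2) + ((a : ℤ) + 1) / 2 := by
      rcases ha with rfl | rfl <;> push_cast <;> omega
    rw [h3]
    exact hx2

/-- By `sgn` and `add`. -/
theorem large (h : Fil a e F) (he : e = 1 ∨ e = -1) (N : ℤ) : ∀ᶠ x in F, N ≤ e * x := by
  filter_upwards [(h.add (-(e * N))).eventually h.sgn] with x hx
  rcases he with rfl | rfl <;> omega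

end Fil

end Pool.Agent.Lib.MP_dee342_nt.Au
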