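import Pool.Agent.Lib.MP_dee342_nt.Au.ADefs

/-!
Internal notions: invariant means, their filter of large sets, automata.
-/

set_option autoImplicit false

namespace Pool.Agent.Lib.MP_dee342_nt.Au

open Filter Finset

/-- `Automatic 2` with the base written as an integer. -/
def Auto2 (S : Set ℤ) : Prop :=
  {A : Set ℤ | ∃ (k : ℕ) (r : ℤ), 0 ≤ r ∧ r < 2 ^ k ∧ A = {n | 2 ^ k * n + r ∈ S}}.Finite

/-- A finitely additive probability on all sets of integers, carried by the integers of sign `e`,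
invariant under shifts and under averaging over the last digit in bases `2` and `a`. -/
structure Mean (a : ℕ) (e : ℤ) where
  μ : Set ℤ → ℝ
  nonneg : ∀ A, 0 ≤ μ A
  univ : μ Set.univ = 1
  add : ∀ A B, Disjoint A B → μ (A ∪ B) = μ A + μ B
  count : ∀ (H N : ℕ) (A : ℕ → Set ℤ) (B : Set ℤ),
    (∀ x, x ∉ B → {h | h < H ∧ x ∈ A h}.ncard ≤ N) → ∑ h ∈ range H, μ (A h) ≤ N + H * μ B
  two : ∀ A, μ A = (μ {n | 2 * n ∈ A} + μ {n | 2 * n + 1 ∈ A}) / 2
  mula : ∀ A, μ A = (∑ r ∈ range a, μ {n | (a : ℤ) * n + r ∈ A}) / a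
  shift : ∀ A, μ {n | n + 1 ∈ A} = μ A
  sgn : μ {n | e * n ≤ 0} = 0

/-- What is used of the filter of sets of full mean. -/
structure Fil (a : ℕ) (e : ℤ) (F : Filter ℤ) : Prop where
  ne : F.NeBot
  add : ∀ d : ℤ, Tendsto (fun x => x + d) F F
  two : Tendsto (fun x => 2 * x) F F
  mula : Tendsto (fun x => (a : ℤ) * x) F F
  div2 : Tendsto (fun x => x / 2) F F
  diva : Tendsto (fun x => x / (a : ℤ)) F F
  sgn : ∀ᶠ x in F, 0 < e * x
  ret : ∀ X : Set ℤ, (∃ᶠ x in F, x ∈ X) → ∀ N : ℕ, ∃ H : ℕ,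
    ∃ᶠ y in F, N < {h : ℕ | h < H ∧ y + (h : ℤ) ∈ X}.ncard

/-- `σ` is the state map of an automaton that reads the binary digits from the top, recognises `S`
and knows divisibility by `a`. -/
structure Aut (a : ℕ) (S : Set ℤ) {Q : Type} (σ : ℤ → Q) : Prop where
  cg : ∀ x y, σ x = σ y → σ (2 * x) = σ (2 * y) ∧ σ (2 * x + 1) = σ (2 * y + 1)
  mem : ∀ x y, σ x = σ y → x ∈ S → y ∈ S
  dvd : ∀ x y, σ x = σ y → (a : ℤ) ∣ x → (a : ℤ) ∣ y

/-- Members of `S` not divisible by `a`. -/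
def Un (a : ℕ) (S : Set ℤ) (x : ℤ) : Prop := x ∈ S ∧ ¬ (a : ℤ) ∣ x

/-- `S` is invariant under `T` in both directions at almost all units. -/
def AB (a : ℕ) (F : Filter ℤ) (S : Set ℤ) : Prop :=
  ∀ᶠ x in F, ¬ (a : ℤ) ∣ x → (T a x ∈ S ↔ x ∈ S)

/-- `d` is a period of `U` almost everywhere. -/
def Per (F : Filter ℤ) (U : ℤ → Prop) (d : ℤ) : Prop := ∀ᶠ x in F, (U (x + d) ↔ U x)

/-- `U` agrees at almost all pairs of units at distance `d`. -/
def Rel (a : ℕ) (F : Filter ℤ) (U : ℤ → Prop) (d : ℤ) : Prop :=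
  ∀ᶠ x in F, ¬ (a : ℤ) ∣ x → ¬ (a : ℤ) ∣ x + d → (U (x + d) ↔ U x)

namespace Mean

variable {a : ℕ} {e : ℤ} (m : Mean a e)

theorem empty : m.μ ∅ = 0 := by
  have h := m.add ∅ ∅ (by simp)
  rw [Set.union_self] at h
  linarith

theorem diff {A B : Set ℤ} (h : A ⊆ B) : m.μ (B \ A) = m.μ B - m.μ A := by
  have h1 := m.add A (B \ A) Set.disjoint_sdiff_right
  rw [Set.union_sdiff_cancel h] at h1
  linarith

theorem mono {A B : Set ℤ} (h : A ⊆ B) : m.μ A ≤ m.μ B := by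
  have h1 := m.diff h
  have h2 := m.nonneg (B \ A)
  linarith

theorem union_le (A B : Set ℤ) : m.μ (A ∪ B) ≤ m.μ A + m.μ B := by
  have h1 := m.add A (B \ A) Set.disjoint_sdiff_right
  rw [Set.union_sdiff_self] at h1
  have h2 : m.μ (B \ A) ≤ m.μ B := m.mono Set.sdiff_subset
  linarith

theorem shift_int (A : Set ℤ) (d : ℤ) : m.μ {n | n + d ∈ A} = m.μ A := by
  induction d using Int.induction_on with
  | zero => simp
  | succ i ih =>
    rw [← ih, ← m.shift {n | n + (i : ℤ) ∈ A}]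
    congr 1
    ext n
    simp only [Set.mem_ofPred_eq]
    rw [show n + ((i : ℤ) + 1) = n + 1 + i by ring]
  | pred i ih =>
    rw [← ih, ← m.shift {n | n + (-(i : ℤ) - 1) ∈ A}]
    congr 1
    ext n
    simp only [Set.mem_ofPred_eq]
    rw [show n + 1 + (-(i : ℤ) - 1) = n + -i by ring]

/-- The filter of sets whose complement has mean zero. -/
def ae : Filter ℤ :=
  Filter.comk (fun A => m.μ A = 0) m.empty
    (fun _ ht _ hs => le_antisymm (ht ▸ m.mono hs) (m.nonneg _))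
    (fun s hs t ht => le_antisymm (by have := m.union_le s t; linarith) (m.nonneg _))

theorem mem_ae {A : Set ℤ} : A ∈ m.ae ↔ m.μ Aᶜ = 0 := Iff.rfl

theorem eventually_ae {p : ℤ → Prop} : (∀ᶠ x in m.ae, p x) ↔ m.μ {x | ¬ p x} = 0 := Iff.rfl

end Mean

/-- Equal states on a window of `C` integers give equal states on the windows below. -/
theorem Aut.win {a : ℕ} {S : Set ℤ} {Q : Type} {σ : ℤ → Q} (h : Aut a S σ) {C x y : ℤ}
    (hxy : ∀ p, 0 ≤ p → p < C → σ (x + p) = σ (y + p)) (j : ℕ) :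
    ∀ w, 0 ≤ w → w < C * 2 ^ j → σ (2 ^ j * x + w) = σ (2 ^ j * y + w) := by
  induction j with
  | zero => intro w h0 h1; simpa using hxy w h0 (by simpa using h1)
  | succ j ih =>
    intro w h0 h1
    rw [pow_succ, ← mul_assoc] at h1
    have h2 := h.cg _ _ (ih (w / 2) (by omega) (by omega))
    have e1 : ∀ z : ℤ, 2 ^ (j + 1) * z + w = 2 * (2 ^ j * z + w / 2) + w % 2 := by
      intro z
      have := Int.mul_ediv_add_emod w 2
      rw [pow_succ]
      linarith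
    rw [e1, e1]
    rcases Int.emod_two_eq_zero_or_one w with h3 | h3 <;> rw [h3]
    · simpa using h2.1
    · exact h2.2

theorem Aut.un {a : ℕ} {S : Set ℤ} {Q : Type} {σ : ℤ → Q} (h : Aut a S σ) {x y : ℤ}
    (hxy : σ x = σ y) : Un a S x ↔ Un a S y :=
  ⟨fun u => ⟨h.mem _ _ hxy u.1, fun v => u.2 (h.dvd _ _ hxy.symm v)⟩,
    fun u => ⟨h.mem _ _ hxy.symm u.1, fun v => u.2 (h.dvd _ _ hxy v)⟩⟩

end Pool.Agent.Lib.MP_dee342_nt.Au
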