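import Pool.Agent.Lib.MP_dee342_nt.Au.AWin

/-!
Existence of an invariant mean.
-/

set_option autoImplicit false

namespace Pool.Agent.Lib.MP_dee342_nt.Au

open Filter Finset

/-- `av` is linear, monotone, and `1` on the constant `1`. -/
theorem av_add (κ : ℤ) (a L : ℕ) (f g : ℤ → ℝ) :
    av κ a L (fun n => f n + g n) = av κ a L f + av κ a L g := by
  simp only [av, Wf, sum_add_distrib, add_div]

theorem av_smul (κ : ℤ) (a L : ℕ) (c : ℝ) (f : ℤ → ℝ) :
    av κ a L (fun n => c * f n) = c * av κ a L f := by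
  simp only [av, Wf, ← mul_sum, mul_div_assoc]

theorem av_sum (κ : ℤ) (a L : ℕ) (s : Finset ℕ) (f : ℕ → ℤ → ℝ) :
    av κ a L (fun n => ∑ i ∈ s, f i n) = ∑ i ∈ s, av κ a L (f i) := by
  induction s using Finset.induction_on with
  | empty => simp [av, Wf]
  | insert i s hi ih =>
    rw [sum_insert hi, ← ih, ← av_add]
    simp only [sum_insert hi]

theorem av_mono (κ : ℤ) (a L : ℕ) {f g : ℤ → ℝ} (h : ∀ x, f x ≤ g x) :
    av κ a L f ≤ av κ a L g := by
  refine div_le_div_of_nonneg_right (sum_le_sum fun i _ => sum_le_sum fun j _ => ?_)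
    (by positivity)
  exact div_le_div_of_nonneg_right (sum_le_sum fun r _ => h _) (by positivity)

theorem av_const (κ : ℤ) {a L : ℕ} (ha : 0 < a) (hL : 0 < L) (c : ℝ) :
    av κ a L (fun _ => c) = c := by
  have h1 : ∀ i j : ℕ, Wf κ (2 ^ i * a ^ j) (fun _ => c) = c := fun i j => by
    have h2 : ((2 ^ i * a ^ j : ℕ) : ℝ) ≠ 0 := by positivity
    rw [Wf, sum_const, card_range, nsmul_eq_mul, mul_div_cancel_left₀ _ h2]
  have h3 : (L : ℝ) ≠ 0 := by positivity
  simp only [av, h1, sum_const, card_range, nsmul_eq_mul]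
  field_simp

/-- With `κ = 1` for `e = 1` and `κ = -2` for `e = -1` all windows consist of integers of
sign `e`. -/
theorem av_sgn {e κ : ℤ} (h : (e = 1 ∧ κ = 1) ∨ (e = -1 ∧ κ = -2)) {a : ℕ} (ha : 0 < a) (L : ℕ)
    {f : ℤ → ℝ} (hf : ∀ x, 0 < e * x → f x = 0) : av κ a L f = 0 := by
  have h1 : ∀ i j : ℕ, Wf κ (2 ^ i * a ^ j) f = 0 := fun i j => by
    have h2 : 0 < 2 ^ i * a ^ j := by positivity
    generalize 2 ^ i * a ^ j = q at h2
    rw [Wf, sum_eq_zero, zero_div]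
    intro r hr
    have h3 := mem_range.1 hr
    apply hf
    rcases h with ⟨rfl, rfl⟩ | ⟨rfl, rfl⟩ <;> omega
  simp [av, h1]

open Classical in
/-- The indicator function. -/
noncomputable def m2_ind (A : Set ℤ) (x : ℤ) : ℝ := if x ∈ A then 1 else 0

theorem m2_mem (A : Set ℤ) (x : ℤ) : 0 ≤ m2_ind A x ∧ m2_ind A x ≤ 1 := by
  unfold m2_ind
  split_ifs <;> norm_num

theorem m2_lim (u : ℕ → ℝ) (hu : ∀ L, u L ∈ Set.Icc (0 : ℝ) 1) :
    ∃ l, Tendsto u (hyperfilter ℕ : Filter ℕ) (nhds l) := by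
  obtain ⟨l, -, hl⟩ := isCompact_Icc.ultrafilter_le_nhds ((hyperfilter ℕ).map u)
    (le_principal_iff.2 (Filter.mem_map.2 (Eventually.of_forall hu)))
  exact ⟨l, hl⟩

theorem m2_eq {u v : ℕ → ℝ} {x y : ℝ} (hu : Tendsto u (hyperfilter ℕ : Filter ℕ) (nhds x))
    (hv : Tendsto v (hyperfilter ℕ : Filter ℕ) (nhds y))
    (h : ∀ L, |u L - v L| ≤ 2 / ((L + 1 : ℕ) : ℝ)) : x = y := by
  have h0 : Tendsto (fun L : ℕ => 2 / ((L + 1 : ℕ) : ℝ)) (hyperfilter ℕ : Filter ℕ) (nhds 0) :=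
    ((tendsto_const_div_atTop_nhds_zero_nat (2 : ℝ)).comp (tendsto_add_atTop_nat 1)).mono_left
      Nat.hyperfilter_le_atTop
  exact sub_eq_zero.1 (abs_nonpos_iff.1 (le_of_tendsto_of_tendsto' (hu.sub hv).abs h0 h))

theorem m2_count {H N : ℕ} {A : ℕ → Set ℤ} {B : Set ℤ}
    (h : ∀ x, x ∉ B → {h | h < H ∧ x ∈ A h}.ncard ≤ N) (x : ℤ) :
    ∑ i ∈ range H, m2_ind (A i) x ≤ N + H * m2_ind B x := by
  classical
  by_cases hx : x ∈ B
  · have h1 : ∑ i ∈ range H, m2_ind (A i) x ≤ ∑ _i ∈ range H, (1 : ℝ) :=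
      sum_le_sum fun i _ => (m2_mem _ _).2
    rw [sum_const, card_range, nsmul_eq_mul] at h1
    rw [m2_ind, if_pos hx]
    linarith [Nat.cast_nonneg (α := ℝ) N]
  · have h1 := h x hx
    rw [show {h | h < H ∧ x ∈ A h} = ↑((range H).filter fun i => x ∈ A i) by ext; simp,
      Set.ncard_coe_finset] at h1
    have h2 : ∑ i ∈ range H, m2_ind (A i) x = ((range H).filter fun i => x ∈ A i).card := by
      rw [card_filter]
      push_cast
      refine sum_congr rfl fun i _ => ?_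
      unfold m2_ind
      split_ifs <;> rfl
    rw [h2, m2_ind, if_neg hx, mul_zero, add_zero]
    exact_mod_cast h1

/-- `μ A` is the limit of `av κ a L (A.indicator 1)` along `hyperfilter ℕ` (it exists:
`isCompact_Icc.ultrafilter_le_nhds`, the values lie in `[0, 1]` for `L > 0`); every field is
an identity or inequality for `av` up to `2 / L`, passed to the limit. -/
theorem exists_mean {a : ℕ} (ha : 0 < a) {e : ℤ} (he : e = 1 ∨ e = -1) : Nonempty (Mean a e) := by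
  obtain ⟨κ, hκ⟩ : ∃ κ : ℤ, (e = 1 ∧ κ = 1) ∨ (e = -1 ∧ κ = -2) := by
    rcases he with h | h
    exacts [⟨1, Or.inl ⟨h, rfl⟩⟩, ⟨-2, Or.inr ⟨h, rfl⟩⟩]
  have hL : ∀ L : ℕ, 0 < L + 1 := Nat.succ_pos
  have h01 : ∀ A L, av κ a (L + 1) (m2_ind A) ∈ Set.Icc (0 : ℝ) 1 := fun A L =>
    ⟨(av_const κ ha (hL L) 0).ge.trans (av_mono κ a _ fun x => (m2_mem A x).1),
      (av_mono κ a _ fun x => (m2_mem A x).2).trans (av_const κ ha (hL L) 1).le⟩
  choose μ hμ using fun A => m2_lim (fun L => av κ a (L + 1) (m2_ind A)) (h01 A)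
  have h12 : ∀ L : ℕ, 1 / ((L + 1 : ℕ) : ℝ) ≤ 2 / ((L + 1 : ℕ) : ℝ) := fun L =>
    div_le_div_of_nonneg_right (by norm_num) (Nat.cast_nonneg _)
  refine ⟨⟨μ, fun A => ge_of_tendsto' (hμ A) fun L => (h01 A L).1, ?_, fun A B hAB => ?_,
    fun H N A B h => ?_, fun A => ?_, fun A => ?_, fun A => ?_, ?_⟩⟩
  · refine tendsto_nhds_unique (hμ _) (tendsto_const_nhds.congr fun L => ?_)
    rw [show m2_ind Set.univ = fun _ => 1 from funext fun x => if_pos (Set.mem_univ x),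
      av_const κ ha (hL L)]
  · refine tendsto_nhds_unique (hμ _) (((hμ A).add (hμ B)).congr fun L => ?_)
    rw [← av_add]
    congr 1
    funext x
    unfold m2_ind
    by_cases h1 : x ∈ A
    · simp [h1, Set.disjoint_left.1 hAB h1]
    · by_cases h2 : x ∈ B <;> simp [h1, h2]
  · refine le_of_tendsto_of_tendsto' (tendsto_finsetSum _ fun i _ => hμ (A i))
      (((hμ B).const_mul (H : ℝ)).const_add (N : ℝ)) fun L => ?_
    rw [← av_sum, ← av_smul, ← av_const κ ha (hL L) (N : ℝ), ← av_add]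
    exact av_mono κ a _ (m2_count h)
  · refine (m2_eq (((hμ _).add (hμ _)).div_const 2) (hμ A) fun L => ?_).symm
    refine le_trans (le_of_eq ?_) ((av_two κ ha (hL L) (m2_mem A)).trans (h12 L))
    rw [← av_add, div_eq_inv_mul, ← av_smul]
    simp only [div_eq_inv_mul]
    rfl
  · refine (m2_eq ((tendsto_finsetSum _ fun r _ => hμ _).div_const (a : ℝ)) (hμ A)
      fun L => ?_).symm
    refine le_trans (le_of_eq ?_) ((av_mula κ ha (hL L) (m2_mem A)).trans (h12 L))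
    rw [← av_sum, div_eq_inv_mul, ← av_smul]
    simp only [div_eq_inv_mul]
    rfl
  · refine m2_eq (hμ _) (hμ A) fun L => ?_
    rw [show m2_ind {n | n + 1 ∈ A} = fun n => m2_ind A (n + 1) from rfl]
    exact av_shift κ ha (hL L) (m2_mem A)
  · refine tendsto_nhds_unique (hμ _) (tendsto_const_nhds.congr fun L => ?_)
    refine (av_sgn hκ ha (L + 1) (f := m2_ind {n | e * n ≤ 0}) fun x hx => ?_).symm
    rw [m2_ind, if_neg]
    exact not_le.2 hx

end Pool.Agent.Lib.MP_dee342_nt.Au
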