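import Pool.Agent.Lib.MP_dee342_nt.Au.AInt

/-!
Averages over windows.
-/

set_option autoImplicit false

namespace Pool.Agent.Lib.MP_dee342_nt.Au

open Filter Finset

/-- The average of `f` over the window `[κ q, κ q + q)`. -/
noncomputable def Wf (κ : ℤ) (q : ℕ) (f : ℤ → ℝ) : ℝ := (∑ r ∈ range q, f (κ * q + r)) / q

/-- The average of the window averages over `q = 2 ^ i * a ^ j`, `i, j < L`. -/
noncomputable def av (κ : ℤ) (a L : ℕ) (f : ℤ → ℝ) : ℝ :=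
  (∑ i ∈ range L, ∑ j ∈ range L, Wf κ (2 ^ i * a ^ j) f) / (L : ℝ) ^ 2

theorem w1_sum (c : ℤ) (q b : ℕ) (f : ℤ → ℝ) :
    ∑ r ∈ range (q * b), f (b * c + r) = ∑ s ∈ range q, ∑ r ∈ range b, f (b * (c + s) + r) := by
  induction q with
  | zero => simp
  | succ q ih =>
    rw [Nat.succ_mul, sum_range_add, ih, sum_range_succ]
    refine congrArg _ (sum_congr rfl fun r _ => congrArg f ?_)
    push_cast
    ring

/-- Induction on `q` with `Finset.sum_range_add` (for the numerators, with a fixed base point):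
`κ (q b) + (b s + r) = b (κ q + s) + r`. -/
theorem Wf_mul (κ : ℤ) {q b : ℕ} (hq : 0 < q) (hb : 0 < b) (f : ℤ → ℝ) :
    Wf κ (q * b) f = Wf κ q (fun n => (∑ r ∈ range b, f (b * n + r)) / b) := by
  have h : κ * ((q * b : ℕ) : ℤ) = b * (κ * q) := by
    push_cast
    ring
  rw [Wf, Wf, h, w1_sum, ← sum_div, div_div, Nat.cast_mul, mul_comm (q : ℝ)]

/-- Telescoping: the difference is `(f (κ q + q) - f (κ q)) / q`. -/
theorem Wf_shift (κ : ℤ) {q : ℕ} (hq : 0 < q) {f : ℤ → ℝ} (hf : ∀ x, 0 ≤ f x ∧ f x ≤ 1) :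
    |Wf κ q (fun n => f (n + 1)) - Wf κ q f| ≤ 1 / q := by
  have hq' : (0 : ℝ) < q := Nat.cast_pos.2 hq
  have h := sum_range_sub (fun r : ℕ => f (κ * q + r)) q
  simp only [Nat.cast_add, Nat.cast_one, ← add_assoc, sum_sub_distrib] at h
  rw [Wf, Wf, ← sub_div, h, abs_div, abs_of_pos hq']
  refine div_le_div_of_nonneg_right (abs_le.2 ⟨?_, ?_⟩) hq'.le
  · linarith [(hf (κ * q + q)).1, (hf (κ * q + (0 : ℕ))).2]
  · linarith [(hf (κ * q + q)).2, (hf (κ * q + (0 : ℕ))).1]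

theorem Wf_mem (κ : ℤ) {q : ℕ} (hq : 0 < q) {f : ℤ → ℝ} (hf : ∀ x, 0 ≤ f x ∧ f x ≤ 1) :
    0 ≤ Wf κ q f ∧ Wf κ q f ≤ 1 := by
  have hq' : (0 : ℝ) < q := Nat.cast_pos.2 hq
  refine ⟨div_nonneg (sum_nonneg fun r _ => (hf _).1) hq'.le, (div_le_one hq').2 ?_⟩
  simpa using sum_le_card_nsmul (range q) (fun r : ℕ => f (κ * q + r)) 1 fun r _ => (hf _).2

theorem w2_bound {L : ℕ} (hL : 0 < L) {A B c : ℝ} (h : |A - B| ≤ c * L) :
    |A / (L : ℝ) ^ 2 - B / (L : ℝ) ^ 2| ≤ c / L := by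
  have h0 : (0 : ℝ) < L := by exact_mod_cast hL
  rw [← sub_div, abs_div, abs_of_pos (pow_pos h0 2), div_le_div_iff₀ (pow_pos h0 2) h0]
  nlinarith

theorem w2_tel {L : ℕ} {u : ℕ → ℕ → ℝ} (hu : ∀ i j, 0 ≤ u i j ∧ u i j ≤ 1) :
    |∑ i ∈ range L, ∑ j ∈ range L, u i (j + 1) - ∑ i ∈ range L, ∑ j ∈ range L, u i j| ≤
      1 * L := by
  rw [← sum_sub_distrib]
  refine (abs_sum_le_sum_abs _ _).trans ((sum_le_card_nsmul _ _ 1 fun i _ => ?_).trans (by simp))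
  rw [← sum_sub_distrib, sum_range_sub (u i), abs_le]
  constructor <;> linarith [hu i L, hu i 0]

/-- `Wf_mul` with `q * b = 2 ^ i * a ^ j * 2 = 2 ^ (i + 1) * a ^ j`; the sum over `i` telescopes,
error at most `L / L ^ 2`. -/
theorem av_two (κ : ℤ) {a L : ℕ} (ha : 0 < a) (hL : 0 < L) {f : ℤ → ℝ}
    (hf : ∀ x, 0 ≤ f x ∧ f x ≤ 1) :
    |av κ a L (fun n => (f (2 * n) + f (2 * n + 1)) / 2) - av κ a L f| ≤ 1 / L := by
  refine w2_bound hL ?_
  have h : ∀ i j : ℕ, Wf κ (2 ^ i * a ^ j) (fun n => (f (2 * n) + f (2 * n + 1)) / 2) =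
      Wf κ (2 ^ (i + 1) * a ^ j) f := fun i j => by
    rw [show 2 ^ (i + 1) * a ^ j = 2 ^ i * a ^ j * 2 by ring,
      Wf_mul κ (by positivity) Nat.two_pos]
    simp [sum_range_succ]
  simp only [h]
  rw [sum_comm, sum_comm (f := fun i j => Wf κ (2 ^ i * a ^ j) f)]
  exact w2_tel (u := fun j i => Wf κ (2 ^ i * a ^ j) f) fun j i => Wf_mem κ (by positivity) hf

/-- The same with `b = a`; the sum over `j` telescopes. -/
theorem av_mula (κ : ℤ) {a L : ℕ} (ha : 0 < a) (hL : 0 < L) {f : ℤ → ℝ}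
    (hf : ∀ x, 0 ≤ f x ∧ f x ≤ 1) :
    |av κ a L (fun n => (∑ r ∈ range a, f (a * n + r)) / a) - av κ a L f| ≤ 1 / L := by
  refine w2_bound hL ?_
  have h : ∀ i j : ℕ, Wf κ (2 ^ i * a ^ j) (fun n => (∑ r ∈ range a, f (a * n + r)) / a) =
      Wf κ (2 ^ i * a ^ (j + 1)) f := fun i j => by
    rw [pow_succ, ← mul_assoc, Wf_mul κ (by positivity) ha]
  simp only [h]
  exact w2_tel (u := fun i j => Wf κ (2 ^ i * a ^ j) f) fun i j => Wf_mem κ (by positivity) hf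

/-- `Wf_shift` and `∑ i < L, ∑ j < L, 1 / (2 ^ i * a ^ j) ≤ ∑ i < L, L / 2 ^ i ≤ 2 L`. -/
theorem av_shift (κ : ℤ) {a L : ℕ} (ha : 0 < a) (hL : 0 < L) {f : ℤ → ℝ}
    (hf : ∀ x, 0 ≤ f x ∧ f x ≤ 1) :
    |av κ a L (fun n => f (n + 1)) - av κ a L f| ≤ 2 / L := by
  refine w2_bound hL ?_
  rw [← sum_sub_distrib]
  refine (abs_sum_le_sum_abs _ _).trans ((sum_le_sum (g := fun i => (1 / 2 : ℝ) ^ i * L)
    fun i _ => ?_).trans ?_)
  · rw [← sum_sub_distrib]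
    refine (abs_sum_le_sum_abs _ _).trans ((sum_le_card_nsmul _ _ ((1 / 2 : ℝ) ^ i)
      fun j _ => (Wf_shift κ (by positivity) hf).trans ?_).trans (by simp [mul_comm]))
    have h1 : (1 : ℝ) ≤ (a : ℝ) ^ j := one_le_pow₀ (by exact_mod_cast ha)
    rw [one_div_pow]
    push_cast
    exact one_div_le_one_div_of_le (by positivity) (le_mul_of_one_le_right (by positivity) h1)
  · rw [← sum_mul]
    exact mul_le_mul_of_nonneg_right (sum_geometric_two_le L) (by positivity)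

end Pool.Agent.Lib.MP_dee342_nt.Au
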