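import Pool.Agent.Lib.MP_dee342_nt.Au.BInt

/-!
Leading digits in base b.
-/

set_option autoImplicit false

namespace Pool.Agent.Lib.MP_dee342_nt.Au

open Filter Finset

/-- From `approx` for a smaller `ε`: `b ^ m / 2 ^ (α m + β n) = (a ^ m / 2 ^ n) ^ β`. -/
theorem approxB {a : ℕ} (ha : a = 3 ∨ a = 5) (α : ℕ) {β : ℕ} (hβ : 0 < β) {ε : ℝ} (hε : 0 < ε) :
    ∃ m n : ℕ, (2 : ℝ) ^ n < ((2 : ℝ) ^ α * (a : ℝ) ^ β) ^ m ∧
      ((2 : ℝ) ^ α * (a : ℝ) ^ β) ^ m < (1 + ε) * 2 ^ n := by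
  have hc : ContinuousAt (fun x : ℝ => (1 + x) ^ β) 0 := by fun_prop
  obtain ⟨δ, hδ, h1⟩ := Metric.eventually_nhds_iff.1
    (hc.eventually (gt_mem_nhds (show (1 + (0 : ℝ)) ^ β < 1 + ε by simpa using hε)))
  have h2 : (1 + δ / 2) ^ β < 1 + ε := h1 (by
    rw [Real.dist_eq, sub_zero, abs_of_pos (half_pos hδ)]
    exact half_lt_self hδ)
  obtain ⟨m, n, -, h3, h4⟩ := approx ha (half_pos hδ)
  have e1 : ((2 : ℝ) ^ α * (a : ℝ) ^ β) ^ m = 2 ^ (α * m) * ((a : ℝ) ^ m) ^ β := by ring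
  have e2 : (2 : ℝ) ^ (α * m + n * β) = 2 ^ (α * m) * ((2 : ℝ) ^ n) ^ β := by ring
  refine ⟨m, α * m + n * β, ?_, ?_⟩
  · rw [e1, e2]
    exact mul_lt_mul_of_pos_left (pow_lt_pow_left₀ h3 (by positivity) hβ.ne') (by positivity)
  · rw [e1, e2, mul_left_comm]
    refine mul_lt_mul_of_pos_left ((pow_lt_pow_left₀ h4 (by positivity) hβ.ne').trans ?_)
      (by positivity)
    rw [mul_pow]
    exact mul_lt_mul_of_pos_right h2 (by positivity)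

/-- As `rot`, with `B` for `2`. -/
theorem rotB {B ρ y v : ℝ} (hB : 1 < B) (hρ : 1 < ρ) {I : ℕ} (hI : B ≤ ρ ^ I) (hy : 0 < y)
    (hv : 0 < v) :
    ∃ (t : ℕ) (l : ℤ), t ≤ I ∧ v / ρ < y * ρ ^ t * B ^ l ∧ y * ρ ^ t * B ^ l ≤ v := by
  have hB0 : 0 < B := by linarith
  have hρ0 : 0 < ρ := by linarith
  obtain ⟨l, h1, h2⟩ := exists_mem_Ico_zpow (div_pos hv hy) hB
  have h3 : (0 : ℝ) < B ^ l := zpow_pos hB0 l
  have h4 : 0 < y * B ^ l := mul_pos hy h3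
  rw [le_div_iff₀ hy] at h1
  rw [zpow_add_one₀ hB0.ne', div_lt_iff₀ hy] at h2
  obtain ⟨t, h5, h6⟩ := exists_nat_pow_near (x := v / (y * B ^ l))
    ((one_le_div h4).2 (by linarith)) hρ
  rw [le_div_iff₀ h4] at h5
  rw [div_lt_iff₀ h4, pow_succ] at h6
  refine ⟨t, l, ?_, ?_, by linarith⟩
  · refine (pow_le_pow_iff_right₀ hρ).1 (le_trans ?_ hI)
    exact le_of_mul_le_mul_right (by linarith) h4
  · rw [div_lt_iff₀ hρ0]
    linarith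

/-- `N i = i + α * (odds a i y / β)` starts at `0`, grows by at most `1 + α` per step and is at
least `i`; take the largest `i ≤ N₀` with `N i ≤ N₀`. -/
theorem hitB (a : ℤ) (α : ℕ) {β : ℕ} (hβ : 0 < β) (y : ℤ) (N₀ : ℕ) :
    ∃ i s : ℕ, i ≤ N₀ ∧ s ≤ α ∧ i + α * (odds a i y / β) + s = N₀ := by
  induction N₀ with
  | zero => exact ⟨0, 0, le_rfl, Nat.zero_le _, by simp [odds_zero]⟩
  | succ N ih =>
    obtain ⟨i, s, h1, h2, h3⟩ := ih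
    have h4 : odds a i y ≤ odds a (i + 1) y ∧ odds a (i + 1) y ≤ odds a i y + β := by
      rw [odds_succ]
      split_ifs <;> omega
    have h5 : odds a i y / β ≤ odds a (i + 1) y / β := Nat.div_le_div_right h4.1
    have h6 : odds a (i + 1) y / β ≤ odds a i y / β + 1 :=
      (Nat.div_le_div_right h4.2).trans (Nat.add_div_right _ hβ).le
    rcases h2.lt_or_eq with h7 | rfl
    · exact ⟨i, s + 1, by omega, h7, by omega⟩
    rcases h5.lt_or_eq with h8 | h8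
    · refine ⟨i + 1, 0, by omega, Nat.zero_le _, ?_⟩
      rw [show odds a (i + 1) y / β = odds a i y / β + 1 by omega, mul_add]
      omega
    · exact ⟨i + 1, s, by omega, le_rfl, by rw [← h8]; omega⟩

theorem c2_odds (a x : ℤ) (i : ℕ) : odds a i x ≤ i :=
  (card_filter_le _ _).trans_eq (card_range i)

/-- `B = 2 ^ α a ^ β`, `η = 1 / (8 (v + 1))`, `ρ = B ^ m / 2 ^ n ∈ (1, 1 + η)` (`approxB`),
`B ≤ ρ ^ I`, `K = n I`, `M ≥ B ^ L (v + 1)` large as in `mant` (`t3_pow`, `t3_num`). `rotB` for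
`|y|` and `v + 1 / 2` gives `t, l`; `hitB` for `N₀ = n t` gives `i, s`; with `o = odds a i y`,
`k = o / β`, `ρ' = o % β`: `a ^ o |y| / 2 ^ i = (|y| ρ ^ t B ^ l) a ^ ρ' 2 ^ s B ^ (k - m t - l)`;
`growth` (`o ≤ i ≤ K`); the exponent is at least `L` because the term is at least `M` and
`a ^ ρ' 2 ^ s ≤ B`. -/
theorem mantB0 {a : ℕ} (ha : a = 3 ∨ a = 5) (α : ℕ) {β : ℕ} (hβ : 0 < β) {v : ℤ} (hv : 1 ≤ v)
    (L : ℕ) : ∃ (K : ℕ) (M : ℤ), ∀ y : ℤ, (∀ i, i ≤ K → M ≤ |(T a)^[i] y|) →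
      ∃ i ρ s l : ℕ, i ≤ K ∧ ρ < β ∧ s ≤ α ∧ L ≤ l ∧
        (a : ℤ) ^ ρ * 2 ^ s * (2 ^ α * (a : ℤ) ^ β) ^ l * v < |(T a)^[i] y| ∧
        |(T a)^[i] y| < (a : ℤ) ^ ρ * 2 ^ s * (2 ^ α * (a : ℤ) ^ β) ^ l * (v + 1) := by
  have hV : (1 : ℝ) ≤ v := by exact_mod_cast hv
  have ha1 : (1 : ℝ) < a := by rcases ha with rfl | rfl <;> norm_num
  have ha0 : (0 : ℝ) < a := by linarith
  obtain ⟨B, hB⟩ : ∃ B : ℝ, B = (2 : ℝ) ^ α * (a : ℝ) ^ β := ⟨_, rfl⟩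
  have hB1 : 1 < B := by
    rw [hB]
    exact one_lt_mul_of_le_of_lt (one_le_pow₀ one_le_two) (one_lt_pow₀ ha1 hβ.ne')
  have hB0 : 0 < B := by linarith
  obtain ⟨η, hη⟩ : ∃ η : ℝ, η = 1 / (8 * (v + 1)) := ⟨_, rfl⟩
  have hη0 : 0 < η := by rw [hη]; positivity
  have hη1 : η * (8 * (v + 1)) = 1 := by rw [hη]; field_simp
  have hη2 : η ≤ 1 := by nlinarith
  obtain ⟨m, n, h1, h2⟩ := approxB ha α hβ hη0
  rw [← hB] at h1 h2
  have hn : (0 : ℝ) < 2 ^ n := by positivity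
  obtain ⟨ρ, hρ⟩ : ∃ ρ : ℝ, ρ = B ^ m / 2 ^ n := ⟨_, rfl⟩
  have hρ1 : 1 < ρ := by rw [hρ, one_lt_div hn]; exact h1
  have hρ2 : ρ < 1 + η := by rw [hρ, div_lt_iff₀ hn]; exact h2
  obtain ⟨I, hI⟩ := pow_unbounded_of_one_lt B hρ1
  obtain ⟨N, hN⟩ := exists_nat_ge (max (B ^ L * ((v : ℝ) + 1)) (2 * ((n * I : ℕ) : ℝ) / η))
  have hN1 : B ^ L * ((v : ℝ) + 1) ≤ N := (le_max_left _ _).trans hN
  have hN0 : (1 : ℝ) ≤ N :=
    (one_le_mul_of_one_le_of_one_le (one_le_pow₀ hB1.le) (by linarith)).trans hN1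
  have hN2 : 2 * ((n * I : ℕ) : ℝ) ≤ η * N := by
    have := (le_max_right _ _).trans hN
    rwa [div_le_iff₀ hη0, mul_comm (N : ℝ)] at this
  refine ⟨n * I, N, fun x hx => ?_⟩
  have hx' : ∀ i, i ≤ n * I → (N : ℝ) ≤ |(((T a)^[i] x : ℤ) : ℝ)| := fun i hi => by
    exact_mod_cast hx i hi
  have hx0 : (0 : ℝ) < |(x : ℝ)| := by
    have := hx' 0 (Nat.zero_le _)
    simp only [Function.iterate_zero, id_eq] at this
    linarith
  obtain ⟨t, l, ht, h3, h4⟩ := rotB (y := |(x : ℝ)|) (v := v + 1 / 2) hB1 hρ1 hI.le hx0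
    (by positivity)
  obtain ⟨i, s, hi, hs, h5⟩ := hitB a α hβ x (n * t)
  have hiK : i ≤ n * I := hi.trans (Nat.mul_le_mul_left n ht)
  obtain ⟨g1, g2⟩ := growth ha hN0 x i fun k hk => hx' k (by omega)
  obtain ⟨p1, p2⟩ := t3_pow hη0 hη2 hN0 ((c2_odds a x i).trans hiK) hN2
  obtain ⟨q1, q2⟩ := t3_num hV hη1 hη0 hρ1 hρ2 h3 h4
  have hr := Nat.mod_lt (odds a i x) hβ
  have ho := Nat.div_add_mod (odds a i x) β
  generalize odds a i x / β = k at h5 ho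
  generalize odds a i x % β = r at hr ho
  generalize odds a i x = o at ho g1 g2 p1 p2
  obtain ⟨Y, hY⟩ : ∃ Y : ℝ, Y = |(x : ℝ)| * ρ ^ t * B ^ l := ⟨_, rfl⟩
  rw [← hY] at q1 q2 h3 h4
  obtain ⟨e, he⟩ : ∃ e : ℤ, e = (k : ℕ) - (m * t : ℕ) - l := ⟨_, rfl⟩
  obtain ⟨D, hD⟩ : ∃ D : ℝ, D = (a : ℝ) ^ r * 2 ^ s * B ^ e := ⟨_, rfl⟩
  have hE : (0 : ℝ) < D := by rw [hD]; positivity
  have hi2 : (0 : ℝ) < 2 ^ i := by positivity
  have key : (a : ℝ) ^ o * |(x : ℝ)| = 2 ^ i * (Y * D) := by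
    have e1 : ρ ^ t = B ^ (m * t) / (2 ^ i * (2 ^ α) ^ k * 2 ^ s) := by
      rw [hρ, div_pow, ← pow_mul, ← pow_mul, ← h5, pow_add, pow_add, pow_mul (2 : ℝ) α]
    have e2 : B ^ k = ((2 : ℝ) ^ α) ^ k * ((a : ℝ) ^ β) ^ k := by rw [hB, mul_pow]
    rw [hD, he, hY, zpow_sub₀ hB0.ne', zpow_sub₀ hB0.ne', zpow_natCast, zpow_natCast, e1, e2,
      ← ho, pow_add, pow_mul (a : ℝ) β]
    field_simp
  have hY0 : 0 < Y := lt_trans (by positivity) h3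
  have hYe : 0 < 2 ^ i * (Y * D) := by positivity
  rw [key] at g1 g2
  obtain ⟨z, hz⟩ : ∃ z : ℝ, z = |(((T a)^[i] x : ℤ) : ℝ)| := ⟨_, rfl⟩
  have hzN : (N : ℝ) ≤ z := hz ▸ hx' i hiK
  rw [← hz] at g1 g2
  have r1 : (1 - η) * (Y * D) ≤ z := by
    refine le_of_mul_le_mul_left ?_ hi2
    refine le_trans (le_of_eq ?_) ((mul_le_mul_of_nonneg_right p1 hYe.le).trans g1)
    ring
  have r2 : z ≤ (1 + η) * (Y * D) := by
    refine le_of_mul_le_mul_left ?_ hi2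
    refine (g2.trans (mul_le_mul_of_nonneg_right p2 hYe.le)).trans (le_of_eq ?_)
    ring
  have s1 : D * (v : ℝ) < z := by
    refine lt_of_lt_of_le ?_ r1
    rw [← mul_assoc, mul_comm]
    exact mul_lt_mul_of_pos_right q1 hE
  have s2 : z < D * ((v : ℝ) + 1) := by
    refine lt_of_le_of_lt r2 ?_
    rw [← mul_assoc, mul_comm D]
    exact mul_lt_mul_of_pos_right q2 hE
  have heL : (L : ℤ) ≤ e := by
    by_contra hc
    have c1 : (a : ℝ) ^ r * 2 ^ s ≤ B := by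
      rw [hB, mul_comm]
      exact mul_le_mul (pow_le_pow_right₀ one_le_two hs) (pow_le_pow_right₀ ha1.le hr.le)
        (by positivity) (by positivity)
    have c2 : B ^ (e + 1) ≤ B ^ (L : ℤ) := zpow_le_zpow_right₀ hB1.le (by omega)
    rw [zpow_add_one₀ hB0.ne', zpow_natCast, mul_comm] at c2
    have c3 : D ≤ B ^ L :=
      hD ▸ (mul_le_mul_of_nonneg_right c1 (zpow_pos hB0 e).le).trans c2
    have c4 := mul_le_mul_of_nonneg_right c3 (by linarith : (0 : ℝ) ≤ (v : ℝ) + 1)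
    linarith
  obtain ⟨j, rfl⟩ := Int.eq_ofNat_of_zero_le ((Int.natCast_nonneg L).trans heL)
  rw [hD, zpow_natCast, hz, hB] at s1 s2
  exact ⟨i, r, s, j, hiK, hr, hs, by exact_mod_cast heL, by exact_mod_cast s1,
    by exact_mod_cast s2⟩

theorem c3_one {a : ℕ} (ha : a = 3 ∨ a = 5) {m : ℤ} (hm : ¬ (a : ℤ) ∣ m) {v : ℤ} (hv : 1 ≤ v) :
    ∀ᶠ l : ℕ in atTop, ∃ (z : ℤ) (j : ℕ), (T a)^[j] z = m ∧ ¬ (a : ℤ) ∣ z ∧
      2 ^ l * v < |z| ∧ |z| < 2 ^ l * (v + 1) := by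
  have hp : ∀ n : ℕ, (0 : ℤ) < 2 ^ n := fun n => by positivity
  obtain ⟨K, M, h1⟩ := mant ha hv
  obtain ⟨s, hM⟩ : ∃ s : ℕ, M ≤ |2 ^ s * m| := by
    obtain ⟨s, h⟩ := pow_unbounded_of_one_lt M (one_lt_two (α := ℤ))
    have h0 : m ≠ 0 := by
      rintro rfl
      simp at hm
    refine ⟨s, h.le.trans ?_⟩
    rw [abs_mul, abs_of_pos (hp s)]
    exact le_mul_of_one_le_right (hp s).le (Int.one_le_abs h0)
  obtain ⟨j, w, a1, a2, a3⟩ := anc ha (n3_unit ha s hm) K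
  obtain ⟨i, l, b1, b2, b3, b4⟩ := h1 w j (fun i hi => hM.trans (a3 i hi).2) a2.ge
  have b5 : (T a)^[j - i] ((T a)^[i] w) = 2 ^ s * m := by
    rw [← Function.iterate_add_apply, Nat.sub_add_cancel b1, a1]
  generalize (T a)^[i] w = z at b2 b3 b4 b5
  filter_upwards [eventually_ge_atTop l] with k hk
  obtain ⟨n, rfl⟩ := Nat.exists_eq_add_of_le' hk
  refine ⟨2 ^ n * z, s + (j - i) + n, ?_, n3_unit ha n b2, ?_, ?_⟩
  · rw [Function.iterate_add_apply, iter_two_pow, Function.iterate_add_apply, b5, iter_two_pow]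
  · rw [pow_add, mul_assoc, abs_mul, abs_of_pos (hp n)]
    exact mul_lt_mul_of_pos_left b3 (hp n)
  · rw [pow_add, mul_assoc, abs_mul, abs_of_pos (hp n)]
    exact mul_lt_mul_of_pos_left b4 (hp n)

/-- `V = 2 v + 2`. For each `w ∈ [V, 2 V]`, `mant w` on the path of `anc` for `2 ^ s m` gives a
unit `z w` with `2 ^ l w < |z w| < 2 ^ l (w + 1)`, `l = l w`, whose orbit contains `m` (as in
`full`). For `X ≥ 2 ^ (max l) * 2 V` take `l` with `2 ^ l V ≤ X < 2 ^ (l + 1) V`,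
`w = X / 2 ^ l + 1`, `z = 2 ^ (l - l w) z w`; then `X < |z| < X + 2 * 2 ^ l`. -/
theorem anc_dense {a : ℕ} (ha : a = 3 ∨ a = 5) {m : ℤ} (hm : ¬ (a : ℤ) ∣ m) {v : ℤ}
    (hv : 1 ≤ v) : ∃ X₀ : ℤ, ∀ X, X₀ ≤ X → ∃ (z : ℤ) (j : ℕ), (T a)^[j] z = m ∧ ¬ (a : ℤ) ∣ z ∧
      X < |z| ∧ v * |z| < (v + 1) * X := by
  have hp : ∀ n : ℕ, (0 : ℤ) < 2 ^ n := fun n => by positivity
  obtain ⟨L, hL⟩ := eventually_atTop.1 ((eventually_all_finset (Finset.Icc 1 (4 * v))).2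
    fun w hw => c3_one ha hm (Finset.mem_Icc.1 hw).1)
  have h0 : 0 < 2 ^ L * (2 * v) := mul_pos (hp L) (by omega)
  refine ⟨2 ^ L * (2 * v), fun X hX => ?_⟩
  obtain ⟨n, h1, h2⟩ := exists_nat_pow_near (x := X / (2 ^ L * (2 * v)))
    ((Int.le_ediv_iff_mul_le h0).2 (by rwa [one_mul])) (one_lt_two (α := ℤ))
  rw [Int.le_ediv_iff_mul_le h0, ← mul_assoc, ← pow_add] at h1
  rw [Int.ediv_lt_iff_lt_mul h0, pow_succ', mul_assoc, ← mul_assoc (2 ^ n), ← pow_add] at h2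
  have h3 := hp (n + L)
  have h4 : 2 * v ≤ X / 2 ^ (n + L) := (Int.le_ediv_iff_mul_le h3).2 (by rwa [mul_comm])
  have h5 : X / 2 ^ (n + L) < 4 * v := (Int.ediv_lt_iff_lt_mul h3).2 (by linarith)
  obtain ⟨z, j, c1, c2, c3, c4⟩ := hL (n + L) (Nat.le_add_left L n) (X / 2 ^ (n + L) + 1)
    (Finset.mem_Icc.2 ⟨by omega, by omega⟩)
  have h6 := Int.lt_mul_ediv_self_add (x := X) h3
  have h7 := Int.mul_ediv_self_le (x := X) h3.ne'
  refine ⟨z, j, c1, c2, by linarith, ?_⟩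
  have h8 : |z| < X + 2 * 2 ^ (n + L) := by linarith
  have h9 := mul_lt_mul_of_pos_left h8 (show 0 < v by omega)
  linarith

end Pool.Agent.Lib.MP_dee342_nt.Au
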