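import Pool.Agent.Lib.MP_dee342_nt.Au.BInt

/-!
The period when a divides the base.
-/

set_option autoImplicit false

namespace Pool.Agent.Lib.MP_dee342_nt.Au

open Filter Finset

/-- The proof of `krebs`, with `y + h ∈ G'` for `h < H` and `x / 2 ^ n - 1 ∈ G'` added. -/
theorem krebs' {a : ℕ} (ha : a = 3 ∨ a = 5) {e : ℤ} {F : Filter ℤ} (hF : Fil a e F)
    (U : ℤ → Prop) {Q₁ Q₂ : Type} [Fintype Q₁] [Fintype Q₂] (τ : ℤ → Q₁) (Sg : ℤ → Q₂)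
    (hτ : ∀ n : ℕ, ∃ G' ∈ F, ∀ x ∈ G', ∀ y ∈ G', τ x = τ y → ∀ z : ℤ, 0 ≤ z → z < 3 * 2 ^ n →
      (U (2 ^ n * x + z) ↔ U (2 ^ n * y + z)))
    (hS : ∀ m : ℕ, 1 ≤ m → ∃ G ∈ F, ∀ t ∈ G, ∀ t' ∈ G, Sg t = Sg t' →
      ∀ c : ℤ, 0 ≤ c → c < 4 * (a : ℤ) ^ m →
        (U ((a : ℤ) ^ m * t + c) ↔ U ((a : ℤ) ^ m * t' + c))) :
    ∃ P : ℤ, 0 < P ∧ Per F U P := by
  classical
  have h0 : ∀ s : Q₁, ∃ H : ℕ, (∃ᶠ x in F, τ x = s) →
      ∃ᶠ y in F, Nat.card Q₂ < {h : ℕ | h < H ∧ τ (y + (h : ℤ)) = s}.ncard := fun s => by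
    by_cases hs : ∃ᶠ x in F, τ x = s
    · exact (hF.ret {x | τ x = s} hs _).imp fun _ e _ => e
    · exact ⟨0, fun e => absurd e hs⟩
  choose Hs hHs using h0
  obtain ⟨H, hH⟩ : ∃ H, ∀ s, Hs s ≤ H := ⟨univ.sup Hs, fun s => le_sup (mem_univ s)⟩
  have h1 : (0 : ℝ) < (H.factorial : ℝ) + H := by
    have := H.factorial_pos
    positivity
  obtain ⟨m, n, hm, h2, h3⟩ := approx ha (one_div_pos.2 h1)
  have hbq : (2 : ℤ) ^ n < (a : ℤ) ^ m := by exact_mod_cast h2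
  have hD : ((H.factorial : ℤ) + H) * ((a : ℤ) ^ m - 2 ^ n) ≤ 2 ^ n := by
    have h4 : ((H.factorial : ℝ) + H) * ((a : ℝ) ^ m - 2 ^ n) ≤ 2 ^ n := by
      rw [← le_div_iff₀' h1, div_eq_mul_one_div]
      linarith
    exact_mod_cast h4
  have hb : (0 : ℤ) < 2 ^ n := by positivity
  have hf : (0 : ℤ) < H.factorial := by exact_mod_cast H.factorial_pos
  have hP : (H.factorial : ℤ) * ((a : ℤ) ^ m - 2 ^ n) ≤ 2 ^ n := by
    nlinarith [mul_nonneg (Int.natCast_nonneg H) (sub_pos.2 hbq).le]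
  have hP0 := mul_pos hf (sub_pos.2 hbq)
  obtain ⟨G, hG, hS⟩ := hS m hm
  obtain ⟨G', hG', hτ⟩ := hτ n
  have h4' : ∀ᶠ y in F, ∀ h ∈ range H, y + (h : ℤ) ∈ G' :=
    (eventually_all_finset _).2 fun h _ => (hF.add h).eventually (p := (· ∈ G')) hG'
  have h4 : ∀ᶠ y in F, ∀ h ∈ range H, 2 ^ n * y / (a : ℤ) ^ m + (h : ℤ) ∈ G :=
    (eventually_all_finset _).2 fun h _ => by
      have h5 := ((hF.add h).comp ((hF.divapow m).comp (hF.aff n 0 0))).eventually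
        (p := (· ∈ G)) hG
      simpa using h5
  have key : ∀ x ∈ G', (∃ᶠ y in F, τ y = τ x) → ∀ z, 2 ^ n ≤ z → z < 2 * 2 ^ n →
      (U (2 ^ n * x + (z + H.factorial * ((a : ℤ) ^ m - 2 ^ n))) ↔ U (2 ^ n * x + z)) := by
    intro x hx' hx z hz hz'
    obtain ⟨y, h5, h6, h6'⟩ := ((hHs _ hx).and_eventually (h4.and h4')).exists
    have h7 : ∀ i j : ℕ, i < j → j < Hs (τ x) → τ (y + i) = τ x → τ (y + j) = τ x →
        Sg (2 ^ n * y / (a : ℤ) ^ m + i) = Sg (2 ^ n * y / (a : ℤ) ^ m + j) →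
        (U (2 ^ n * x + (z + H.factorial * ((a : ℤ) ^ m - 2 ^ n))) ↔ U (2 ^ n * x + z)) := by
      intro i j hij hj e1 e2 e3
      have hj' := hj.trans_le (hH _)
      have g1 := h6' i (mem_range.2 (hij.trans hj'))
      rw [← hτ _ g1 _ hx' e1 _ (by omega) (by omega), ← hτ _ g1 _ hx' e1 z (by omega) (by omega)]
      exact krebs_core U hb hbq hD hij hj' (hτ _ g1 _ (h6' j (mem_range.2 hj')) (e1.trans e2.symm))
        (hS _ (h6 i (mem_range.2 (hij.trans hj'))) _ (h6 j (mem_range.2 hj')) e3) hz hz'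
    rw [← Set.ncard_univ] at h5
    obtain ⟨i, hi, j, hj, hij, e⟩ := Set.exists_ne_map_eq_of_ncard_lt_of_maps_to h5
      (f := fun h : ℕ => Sg (2 ^ n * y / (a : ℤ) ^ m + h)) fun _ _ => trivial
    rcases lt_or_gt_of_ne hij with h | h
    · exact h7 i j h hj.1 hi.2 hj.2 e
    · exact h7 j i h hi.1 hj.2 hi.2 e.symm
  have h5 : ∀ᶠ x in F, ∀ s, τ x = s → ∃ᶠ y in F, τ y = s := eventually_all.2 fun s => by
    by_cases hs : ∃ᶠ y in F, τ y = s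
    · exact Eventually.of_forall fun _ _ => hs
    · exact (not_frequently.1 hs).mono fun _ e e' => absurd e' e
  refine ⟨_, hP0, (((hF.add (-1)).comp (hF.div2pow n)).eventually
    (h5.and (show ∀ᶠ x in F, x ∈ G' from hG'))).mono fun x hx => ?_⟩
  have h6 := Int.emod_nonneg x hb.ne'
  have h7 := Int.emod_lt_of_pos x hb
  have h8 := key _ hx.2 (hx.1 _ rfl) (x % 2 ^ n + 2 ^ n) (by omega) (by omega)
  have h9 : 2 ^ n * (x / 2 ^ n + -1) + (x % 2 ^ n + 2 ^ n) = x := by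
    linear_combination Int.mul_ediv_add_emod x (2 ^ n)
  simp only [Function.comp] at h8
  rwa [← add_assoc, h9] at h8

theorem b7_two {a : ℕ} (ha : a = 3 ∨ a = 5) {e : ℤ} {F : Filter ℤ} (hF : Fil a e F) {S : Set ℤ}
    (h : AB a F S) (m : ℕ) (c : ℤ) (s : ℕ) :
    ∀ᶠ t in F, (Un a S (2 ^ s * ((a : ℤ) ^ m * t + c)) ↔ Un a S ((a : ℤ) ^ m * t + c)) := by
  induction s with
  | zero => exact Eventually.of_forall fun t => by rw [pow_zero, one_mul]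
  | succ s ih =>
    filter_upwards [ih, (hF.aff s m (2 ^ s * c)).eventually (r1_two ha hF h)] with t h1 h2
    rw [← h1, show (2 : ℤ) ^ (s + 1) * ((a : ℤ) ^ m * t + c) =
      2 * (2 ^ s * (a : ℤ) ^ m * t + 2 ^ s * c) by ring, h2,
      show (2 : ℤ) ^ s * (a : ℤ) ^ m * t + 2 ^ s * c = 2 ^ s * ((a : ℤ) ^ m * t + c) by ring]

/-- `m = β k + ρ`, `ρ < β`. Almost everywhere `Un (2 ^ s x) ↔ Un x` (induction on `s`, `AB.un` at
`2 x`, `T_even`); with `s = α k`: `2 ^ s (a ^ m t + c) = b ^ k (a ^ ρ t) + 2 ^ s c` and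
`2 ^ s c < 4 a ^ β b ^ k`; `AutB.win`, `AutB.un`; `G` is a finite intersection over `c`. -/
theorem aside' {a : ℕ} (ha : a = 3 ∨ a = 5) {e : ℤ} {F : Filter ℤ} (hF : Fil a e F) {S : Set ℤ}
    (h : AB a F S) {α β : ℕ} (hβ : 0 < β) {Q : Type} {σ : ℤ → Q}
    (hσ : AutB a (2 ^ α * a ^ β) S σ) (m : ℕ) :
    ∃ G ∈ F, ∀ t ∈ G, ∀ t' ∈ G, (∀ (ρ : ℕ) (p : ℤ), ρ < β → 0 ≤ p → p < 4 * (a : ℤ) ^ β →
        σ ((a : ℤ) ^ ρ * t + p) = σ ((a : ℤ) ^ ρ * t' + p)) →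
      ∀ c : ℤ, 0 ≤ c → c < 4 * (a : ℤ) ^ m →
        (Un a S ((a : ℤ) ^ m * t + c) ↔ Un a S ((a : ℤ) ^ m * t' + c)) := by
  have a0 : 0 < a := by omega
  have a1 : (1 : ℤ) ≤ a := by exact_mod_cast a0
  obtain ⟨k, ρ, hρ, rfl⟩ : ∃ k ρ, ρ < β ∧ m = β * k + ρ :=
    ⟨m / β, m % β, Nat.mod_lt _ hβ, (Nat.div_add_mod m β).symm⟩
  refine ⟨_, (biInter_finset_mem (Ico 0 (4 * (a : ℤ) ^ (β * k + ρ)))).2
    fun c _ => b7_two ha hF h (β * k + ρ) c (α * k), fun t ht t' ht' hs c c0 c1 => ?_⟩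
  have h1 := Set.mem_iInter₂.1 ht c (mem_Ico.2 ⟨c0, c1⟩)
  have h2 := Set.mem_iInter₂.1 ht' c (mem_Ico.2 ⟨c0, c1⟩)
  have e1 : ∀ u : ℤ, (2 : ℤ) ^ (α * k) * ((a : ℤ) ^ (β * k + ρ) * u + c) =
      ((2 ^ α * a ^ β : ℕ) : ℤ) ^ k * ((a : ℤ) ^ ρ * u) + 2 ^ (α * k) * c := fun u => by
    push_cast
    ring
  have h3 : (2 : ℤ) ^ (α * k) * c < 4 * (a : ℤ) ^ β * ((2 ^ α * a ^ β : ℕ) : ℤ) ^ k :=
    calc (2 : ℤ) ^ (α * k) * c < 2 ^ (α * k) * (4 * (a : ℤ) ^ (β * k + ρ)) := by gcongr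
      _ ≤ 2 ^ (α * k) * (4 * (a : ℤ) ^ (β * k + β)) := by gcongr
      _ = _ := by
        push_cast
        ring
  have h4 := hσ.un (hσ.win (by positivity) (fun p p0 p1 => hs ρ p hρ p0 p1) k _
    (by positivity) h3)
  rw [← e1, ← e1] at h4
  exact h1.symm.trans (h4.trans h2)

theorem b8_neg {a : ℕ} (ha : a = 3 ∨ a = 5) (i : ℕ) (x : ℤ) : (T a)^[i] x < 0 ↔ x < 0 := by
  induction i with
  | zero => exact Iff.rfl
  | succ i ih =>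
    rw [Function.iterate_succ_apply', ← ih]
    simpa using T_sign ha (Or.inr rfl) ((T a)^[i] x)

/-- `iter_aff` with `t = -C` and `T_sign`. -/
theorem iter_ub {a : ℕ} (ha : a = 3 ∨ a = 5) (n : ℕ) {C z : ℤ} (h0 : 0 ≤ z) (h1 : z < C * 2 ^ n) :
    0 ≤ (T a)^[n] z ∧ (T a)^[n] z < C * (a : ℤ) ^ odds a n z := by
  refine ⟨not_lt.1 fun h => absurd ((b8_neg ha n z).1 h) (not_lt.2 h0), ?_⟩
  have h := (b8_neg ha n (2 ^ n * -C + z)).2 (by linarith)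
  rw [iter_aff ha] at h
  linarith

theorem b8_it {a : ℕ} (ha : a = 3 ∨ a = 5) {e : ℤ} {F : Filter ℤ} (hF : Fil a e F) {S : Set ℤ}
    (h : AB a F S) (i : ℕ) : ∀ᶠ x in F, ¬ (a : ℤ) ∣ x → (Un a S ((T a)^[i] x) ↔ Un a S x) := by
  have key : ∀ᶠ x in F, ¬ (a : ℤ) ∣ x → ((T a)^[i] x ∈ S ↔ x ∈ S) := by
    induction i with
    | zero => exact Eventually.of_forall fun _ _ => Iff.rfl
    | succ i ih =>
      filter_upwards [h, (hF.step ha).eventually ih] with x h1 h2 hx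
      rw [Function.iterate_succ_apply, h2 (T_unit ha hx), h1 hx]
  exact key.mono fun x h1 hx => ⟨fun u => ⟨(h1 hx).1 u.1, hx⟩,
    fun u => ⟨(h1 hx).2 u.1, k1_unit ha i hx⟩⟩

/-- For almost all `t`: if `2 ^ n t + z` is a unit then `Un` agrees at it and at
`T^n (2 ^ n t + z) = a ^ κ t + T^n z` (as in `along`, with `AB.un`); `iter_ub`; `hS` for the
finitely many `κ = odds a n z ≤ n`. If it is not a unit both sides are false by `hd`. -/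
theorem side2 {a : ℕ} (ha : a = 3 ∨ a = 5) {e : ℤ} {F : Filter ℤ} (hF : Fil a e F) {S : Set ℤ}
    (h : AB a F S) (R : ℤ → ℤ → Prop) (hd : ∀ t t', R t t' → (a : ℤ) ∣ t - t')
    (hS : ∀ m : ℕ, ∃ G ∈ F, ∀ t ∈ G, ∀ t' ∈ G, R t t' →
      ∀ c : ℤ, 0 ≤ c → c < 4 * (a : ℤ) ^ m →
        (Un a S ((a : ℤ) ^ m * t + c) ↔ Un a S ((a : ℤ) ^ m * t' + c))) (n : ℕ) :
    ∃ G' ∈ F, ∀ x ∈ G', ∀ y ∈ G', R x y → ∀ z : ℤ, 0 ≤ z → z < 3 * 2 ^ n →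
      (Un a S (2 ^ n * x + z) ↔ Un a S (2 ^ n * y + z)) := by
  choose G hG hS using hS
  have key : ∀ᶠ t in F, ∀ z ∈ Ico (0 : ℤ) (3 * 2 ^ n), t ∈ G (odds a n z) ∧
      (¬ (a : ℤ) ∣ 2 ^ n * t + z →
        (Un a S ((T a)^[n] (2 ^ n * t + z)) ↔ Un a S (2 ^ n * t + z))) :=
    (eventually_all_finset _).2 fun z _ => Eventually.and (hG _) (by
      simpa only [pow_zero, mul_one] using (hF.aff n 0 z).eventually (b8_it ha hF h n))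
  refine ⟨_, key, fun x hx y hy hR z h0 h1 => ?_⟩
  obtain ⟨x1, x2⟩ := hx z (mem_Ico.2 ⟨h0, h1⟩)
  obtain ⟨y1, y2⟩ := hy z (mem_Ico.2 ⟨h0, h1⟩)
  have hdv : (a : ℤ) ∣ 2 ^ n * x + z ↔ (a : ℤ) ∣ 2 ^ n * y + z := by
    rw [show 2 ^ n * x + z = 2 ^ n * (x - y) + (2 ^ n * y + z) by ring]
    exact Int.dvd_add_right ((hd x y hR).mul_left _)
  by_cases hu : (a : ℤ) ∣ 2 ^ n * x + z
  · exact iff_of_false (fun u => u.2 hu) fun u => u.2 (hdv.1 hu)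
  obtain ⟨u1, u2⟩ := iter_ub ha n h0 h1
  rw [← x2 hu, ← y2 fun v => hu (hdv.2 v), iter_aff ha, iter_aff ha]
  have a0 : (0 : ℤ) ≤ (a : ℤ) ^ odds a n z := by positivity
  exact hS _ x x1 y y1 hR _ u1 (by linarith)

theorem exists_per' {a : ℕ} (ha : a = 3 ∨ a = 5) {e : ℤ} {F : Filter ℤ} (hF : Fil a e F)
    {S : Set ℤ} (h : AB a F S) {α β : ℕ} (hβ : 0 < β) {Q : Type} [Fintype Q] {σ : ℤ → Q}
    (hσ : AutB a (2 ^ α * a ^ β) S σ) : ∃ P : ℤ, 0 < P ∧ Per F (Un a S) P := by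
  classical
  set Sg : ℤ → Fin β → Fin (4 * a ^ β) → Q :=
    fun t ρ p => σ ((a : ℤ) ^ (ρ : ℕ) * t + (p : ℕ)) with hSg
  have h1 : ∀ m : ℕ, ∃ G ∈ F, ∀ t ∈ G, ∀ t' ∈ G, Sg t = Sg t' →
      ∀ c : ℤ, 0 ≤ c → c < 4 * (a : ℤ) ^ m →
        (Un a S ((a : ℤ) ^ m * t + c) ↔ Un a S ((a : ℤ) ^ m * t' + c)) := by
    intro m
    obtain ⟨G, hG, h1⟩ := aside' ha hF h hβ hσ m
    refine ⟨G, hG, fun t ht t' ht' hs => h1 t ht t' ht' fun ρ p hρ hp hp' => ?_⟩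
    have h2 : p.toNat < 4 * a ^ β := by
      have : ((p.toNat : ℕ) : ℤ) < ((4 * a ^ β : ℕ) : ℤ) := by
        rw [Int.toNat_of_nonneg hp]
        exact_mod_cast hp'
      exact_mod_cast this
    have := congrFun (congrFun hs ⟨ρ, hρ⟩) ⟨p.toNat, h2⟩
    simpa [hSg, Int.toNat_of_nonneg hp] using this
  refine krebs' ha hF (Un a S) Sg Sg (side2 ha hF h (fun t t' => Sg t = Sg t') ?_ h1)
    fun m _ => h1 m
  intro t t' hs
  have ha0 : 0 < a := by omega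
  have := congrFun (congrFun hs ⟨0, hβ⟩) ⟨0, by positivity⟩
  exact hσ.dvd _ _ (by simpa [hSg] using this)

end Pool.Agent.Lib.MP_dee342_nt.Au
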