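import Pool.Agent.Lib.MP_dee342_nt.Au.BMax
import Pool.Agent.Lib.MP_dee342_nt.Au.BSide
import Pool.Agent.Lib.MP_dee342_nt.Au.BMant

/-!
The theorem for all bases built from 2 and a.
-/

set_option autoImplicit false

namespace Pool.Agent.Lib.MP_dee342_nt.Au

open Filter Finset

/-- As `miss` (`Fil.aff (α j) (β j)`). -/
theorem missB {a : ℕ} {e : ℤ} (he : e = 1 ∨ e = -1) {F : Filter ℤ} (hF : Fil a e F) (α β : ℕ)
    {Q : Type} [Fintype Q] (τ : ℤ → Q) (E : Set ℤ)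
    (hτ : ∀ x y, τ x = τ y → ∀ (j : ℕ) (w : ℤ), 0 ≤ w → w < (2 ^ α * (a : ℤ) ^ β) ^ j →
      (2 ^ α * (a : ℤ) ^ β) ^ j * x + w ∈ E → (2 ^ α * (a : ℤ) ^ β) ^ j * y + w ∈ E)
    (hE : ∀ᶠ x in F, x ∉ E) :
    ∃ u : ℤ, 2 ≤ e * u ∧ ∀ (j : ℕ) (w : ℤ), 0 ≤ w → w < (2 ^ α * (a : ℤ) ^ β) ^ j →
      (2 ^ α * (a : ℤ) ^ β) ^ j * u + w ∉ E := by
  by_contra hno
  have h1 : ∀ᶠ x in F, ∀ q : Q, 2 ≤ e * x → τ x ≠ q := by
    rw [eventually_all]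
    intro q
    by_cases hq : ∃ u, 2 ≤ e * u ∧ τ u = q
    · obtain ⟨u, hu, rfl⟩ := hq
      obtain ⟨j, w, h2, h3, h4⟩ : ∃ (j : ℕ) (w : ℤ), 0 ≤ w ∧ w < (2 ^ α * (a : ℤ) ^ β) ^ j ∧
          (2 ^ α * (a : ℤ) ^ β) ^ j * u + w ∈ E := by
        by_contra hc
        exact hno ⟨u, hu, fun j w h2 h3 h4 => hc ⟨j, w, h2, h3, h4⟩⟩
      refine ((hF.aff (α * j) (β * j) w).eventually hE).mono fun x hx _ h5 => hx ?_
      rw [pow_mul, pow_mul, ← mul_pow]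
      exact hτ u x h5.symm j w h2 h3 h4
    · exact Eventually.of_forall fun x hx h2 => hq ⟨x, hx, h2⟩
  have := hF.ne
  obtain ⟨x, h2, h3⟩ := (h1.and (hF.large he 2)).exists
  exact h2 _ h3 rfl

theorem c4_chain {a : ℕ} (ha : a = 3 ∨ a = 5) {S : Set ℤ} {A x y : ℤ}
    (key : ∀ z d : ℤ, A ≤ z → z ≤ y → d = 1 ∨ d = 2 → ¬ (a : ℤ) ∣ z → ¬ (a : ℤ) ∣ z + d →
      (z ∈ S ↔ z + d ∈ S)) (h1 : A ≤ x) (h2 : x ≤ y) (hx : ¬ (a : ℤ) ∣ x) (hy : ¬ (a : ℤ) ∣ y) :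
    x ∈ S ↔ y ∈ S := by
  obtain ⟨n, hn⟩ : ∃ n : ℕ, y - x ≤ n := ⟨_, Int.self_le_toNat _⟩
  induction n generalizing x with
  | zero => rw [show x = y by omega]
  | succ n ih =>
    rcases h2.eq_or_lt with rfl | h4
    · rfl
    by_cases h5 : (a : ℤ) ∣ x + 1
    · have h6 : x + 1 ≠ y := fun v => hy (v ▸ h5)
      have h7 : ¬ (a : ℤ) ∣ x + 2 := by rcases ha with rfl | rfl <;> omega
      exact (key x 2 h1 h2 (Or.inr rfl) hx h7).trans (ih (by omega) (by omega) h7 (by omega))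
    · exact (key x 1 h1 h2 (Or.inl rfl) hx h5).trans (ih (by omega) (by omega) h5 (by omega))

theorem c4_dvd {a b : ℕ} {S : Set ℤ} {Q : Type} {σ : ℤ → Q} (h : AutB a b S σ) {x y : ℤ}
    (hxy : σ x = σ y) (hy : (a : ℤ) ∣ y) : (a : ℤ) ∣ x := by
  simpa using (h.dvd _ _ hxy).add hy

/-- `E` as in `flat_cyl`; `missB` for `E' = {x | ∃ ρ < β, s ≤ α, 0 ≤ p < c, c x + p ∈ E}`,
`c = a ^ ρ 2 ^ s ≤ b` (avoided eventually: finitely many pullbacks by `Fil.aff`), and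
`τ x = fun ρ s p => σ (c x + p)`, `p < b + 2`:
`c (b ^ j x + w) + p + d = b ^ j (c x) + (c w + p + d)` with `c w + p + d < (b + 2) b ^ j`
(`AutB.win`; divisibility by `a` from `AutB.dvd`). A point `x` of the interval is
`c (x / c) + x % c`. Then induction on `y - x` as in `flat_cyl`. -/
theorem flatB {a : ℕ} (ha : a = 3 ∨ a = 5) {e : ℤ} (he : e = 1 ∨ e = -1) {F : Filter ℤ}
    (hF : Fil a e F) {S : Set ℤ} {α β : ℕ} (hβ : 0 < β) {Q : Type} [Fintype Q] {σ : ℤ → Q}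
    (hσ : AutB a (2 ^ α * a ^ β) S σ) (h : ∀ d, Rel a F (Un a S) d) :
    ∃ u : ℤ, 2 ≤ e * u ∧ ∀ (ρ s l : ℕ) (x y : ℤ), ρ < β → s ≤ α →
      (a : ℤ) ^ ρ * 2 ^ s * (2 ^ α * (a : ℤ) ^ β) ^ l * u ≤ x → x ≤ y →
      y < (a : ℤ) ^ ρ * 2 ^ s * (2 ^ α * (a : ℤ) ^ β) ^ l * (u + 1) →
      ¬ (a : ℤ) ∣ x → ¬ (a : ℤ) ∣ y → (x ∈ S ↔ y ∈ S) := by
  have ha0 : 0 < a := by omega
  have ha1 : (1 : ℤ) ≤ a := by omega
  obtain ⟨E, hE0⟩ : ∃ E : Set ℤ, ∀ x, x ∈ E ↔ ∃ d : ℤ, (d = 1 ∨ d = 2) ∧ ¬ (a : ℤ) ∣ x ∧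
      ¬ (a : ℤ) ∣ x + d ∧ ¬ (Un a S (x + d) ↔ Un a S x) := ⟨{x | _}, fun _ => Iff.rfl⟩
  have hE1 : ∀ᶠ x in F, x ∉ E := ((h 1).and (h 2)).mono fun x hx hx' => by
    obtain ⟨d, hd, h2, h3, h4⟩ := (hE0 x).1 hx'
    rcases hd with rfl | rfl
    exacts [h4 (hx.1 h2 h3), h4 (hx.2 h2 h3)]
  obtain ⟨u, hu, hE⟩ := missB he hF α β
    (fun x (ρ : Fin β) (s : Fin (α + 1)) (p : Fin (2 ^ α * a ^ β + 2)) =>
      σ ((a : ℤ) ^ (ρ : ℕ) * 2 ^ (s : ℕ) * x + (p : ℕ)))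
    {x | ∃ ρ ∈ range β, ∃ s ∈ range (α + 1), ∃ p ∈ Ico (0 : ℤ) ((a : ℤ) ^ ρ * 2 ^ s),
      (a : ℤ) ^ ρ * 2 ^ s * x + p ∈ E}
    (fun x y hxy j w h0 h1 ⟨ρ, hρ, s, hs, p, hp, hm⟩ => by
      refine ⟨ρ, hρ, s, hs, p, hp, ?_⟩
      rw [mem_range] at hρ hs
      rw [mem_Ico] at hp
      have h5 := hσ.win (by positivity) (C := ((2 ^ α * a ^ β + 2 : ℕ) : ℤ))
        (x := (a : ℤ) ^ ρ * 2 ^ s * x) (y := (a : ℤ) ^ ρ * 2 ^ s * y) (fun q q0 q1 => by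
          lift q to ℕ using q0
          exact congrFun (congrFun (congrFun hxy ⟨ρ, hρ⟩) ⟨s, hs⟩) ⟨q, Int.ofNat_lt.1 q1⟩) j
      push_cast at h5
      have hc : (a : ℤ) ^ ρ * 2 ^ s ≤ 2 ^ α * (a : ℤ) ^ β := by
        rw [mul_comm]
        exact mul_le_mul (pow_le_pow_right₀ one_le_two (by omega))
          (pow_le_pow_right₀ ha1 hρ.le) (by positivity) (by positivity)
      have hc0 : (0 : ℤ) < (a : ℤ) ^ ρ * 2 ^ s := by positivity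
      generalize (a : ℤ) ^ ρ * 2 ^ s = c at *
      generalize 2 ^ α * (a : ℤ) ^ β = b at *
      generalize b ^ j = B at *
      have h6 : c * (w + 1) ≤ b * B := mul_le_mul hc h1 (by omega) (by omega)
      have h7 := mul_nonneg hc0.le h0
      obtain ⟨d, hd, h2, h3, h4⟩ := (hE0 _).1 hm
      have e0 : ∀ z t : ℤ, B * (c * z) + (c * w + t) = c * (B * z + w) + t := fun z t => by ring
      have e1 := h5 (c * w + p) (by omega) (by linarith)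
      have e2 := h5 (c * w + (p + d)) (by omega) (by rcases hd with rfl | rfl <;> linarith)
      rw [e0, e0] at e1 e2
      rw [← add_assoc, ← add_assoc] at e2
      exact (hE0 _).2 ⟨d, hd, fun v => h2 (c4_dvd hσ e1 v), fun v => h3 (c4_dvd hσ e2 v),
        by rwa [← hσ.un e1, ← hσ.un e2]⟩)
    (by
      have h1 : ∀ᶠ x in F, ∀ ρ ∈ range β, ∀ s ∈ range (α + 1),
          ∀ p ∈ Ico (0 : ℤ) ((a : ℤ) ^ ρ * 2 ^ s), (a : ℤ) ^ ρ * 2 ^ s * x + p ∉ E := by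
        simp only [eventually_all_finset]
        intro ρ _ s _ p _
        rw [mul_comm ((a : ℤ) ^ ρ)]
        exact (hF.aff s ρ p).eventually hE1
      exact h1.mono fun x hx ⟨ρ, hρ, s, hs, p, hp, hm⟩ => hx ρ hρ s hs p hp hm)
  refine ⟨u, hu, fun ρ s l x y hρ hs h1 h2 h3 hx hy => c4_chain ha ?_ h1 h2 hx hy⟩
  intro z d z1 z2 hd hz hz'
  have hc0 : (0 : ℤ) < (a : ℤ) ^ ρ * 2 ^ s := by positivity
  have h4 := fun w w0 w1 p hp hm =>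
    hE l w w0 w1 ⟨ρ, mem_range.2 hρ, s, mem_range.2 (Nat.lt_succ_of_le hs), p, hp, hm⟩
  generalize (a : ℤ) ^ ρ * 2 ^ s = c at *
  generalize (2 ^ α * (a : ℤ) ^ β) ^ l = B at *
  have h5 : Un a S (z + d) ↔ Un a S z := by_contra fun v => by
    refine h4 ((z - c * B * u) / c) (Int.ediv_nonneg (by omega) hc0.le)
      (Int.ediv_lt_of_lt_mul hc0 (by linarith)) ((z - c * B * u) % c)
      (mem_Ico.2 ⟨Int.emod_nonneg _ hc0.ne', Int.emod_lt_of_pos _ hc0⟩) ?_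
    have e1 := Int.mul_ediv_add_emod (z - c * B * u) c
    rw [show c * (B * u + (z - c * B * u) / c) + (z - c * B * u) % c = z by linarith]
    exact (hE0 z).2 ⟨d, hd, hz, hz', v⟩
  exact ⟨fun v => (h5.2 ⟨v, hz⟩).1, fun v => (h5.1 ⟨v, hz'⟩).1⟩

/-- `v = u` or `v = -u - 1` (`n3_lev`). `X₀` from `anc_dense`, `L` with `X₀ ≤ 2 ^ L`, `K, M` from
`mantB0`; `hlong (K + 1) M` and `odds_hit` with `o = 1` give a unit `y ∈ S` with `K` further terms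
above `M` (`odds_add`, `odds a j y ≤ j`); `mantB0` gives a unit of `S` in an interval,
`anc_dense` with `X` its lower end gives a unit `z` of sign `e` in it whose orbit contains `m`. -/
theorem fullB {a : ℕ} (ha : a = 3 ∨ a = 5) {e : ℤ} (he : e = 1 ∨ e = -1) {S : Set ℤ}
    (hT : ∀ x ∈ S, T a x ∈ S) {α β : ℕ} (hβ : 0 < β) {u : ℤ} (hu : 2 ≤ e * u)
    (hc : ∀ (ρ s l : ℕ) (x y : ℤ), ρ < β → s ≤ α →
      (a : ℤ) ^ ρ * 2 ^ s * (2 ^ α * (a : ℤ) ^ β) ^ l * u ≤ x → x ≤ y →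
      y < (a : ℤ) ^ ρ * 2 ^ s * (2 ^ α * (a : ℤ) ^ β) ^ l * (u + 1) →
      ¬ (a : ℤ) ∣ x → ¬ (a : ℤ) ∣ y → (x ∈ S ↔ y ∈ S))
    (hlong : ∀ (K : ℕ) (M : ℤ), ∃ x ∈ S, 0 < e * x ∧ ∃ j : ℕ,
      (∀ i, i ≤ j → M ≤ |(T a)^[i] x|) ∧ K ≤ odds a j x)
    {m : ℤ} (hm : 0 < e * m) (hma : ¬ (a : ℤ) ∣ m) : m ∈ S := by
  obtain ⟨v, hv, hlev⟩ := n3_lev he hu
  obtain ⟨X₀, hX⟩ := anc_dense ha hma hv
  obtain ⟨L, hL⟩ := pow_unbounded_of_one_lt X₀ (one_lt_two (α := ℤ))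
  obtain ⟨K, M, h1⟩ := mantB0 ha α hβ hv L
  obtain ⟨x, c1, c2, j, c3, c4⟩ := hlong (K + 1) M
  obtain ⟨i₀, d1, d2, d3⟩ := odds_hit ha x (j := j) (o := 1) le_rfl (by omega)
  have d4 : K + i₀ ≤ j := by
    have h2 := odds_add a i₀ (j - i₀) x
    have h3 : odds a (j - i₀) ((T a)^[i₀] x) ≤ j - i₀ :=
      (card_filter_le _ _).trans (card_range _).le
    rw [Nat.add_sub_cancel' d1] at h2
    omega
  obtain ⟨i, ρ, s, l, -, e2, e3, e4, e5, e6⟩ := h1 ((T a)^[i₀] x) fun i hi => by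
    rw [← Function.iterate_add_apply]
    exact c3 _ (by omega)
  have d5 := n3_iter hT i (n3_iter hT i₀ c1)
  have d6 := (n3_sign ha he i _).2 ((n3_sign ha he i₀ x).2 c2)
  have d7 : ¬ (a : ℤ) ∣ (T a)^[i] ((T a)^[i₀] x) :=
    Function.Iterate.rec (fun y => ¬ (a : ℤ) ∣ y) d3 (fun _ => T_unit ha) i
  generalize (T a)^[i] ((T a)^[i₀] x) = y at e5 e6 d5 d6 d7
  have hP : 2 ^ L ≤ (a : ℤ) ^ ρ * 2 ^ s * (2 ^ α * (a : ℤ) ^ β) ^ l := by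
    have a2 : (2 : ℤ) ≤ a := by omega
    have a1 : (1 : ℤ) ≤ a := by omega
    have b1 : (2 : ℤ) ≤ 2 ^ α * (a : ℤ) ^ β := (a2.trans (le_self_pow₀ a1 hβ.ne')).trans
      (le_mul_of_one_le_left (by positivity) (one_le_pow₀ one_le_two))
    exact ((pow_le_pow_right₀ one_le_two e4).trans (pow_le_pow_left₀ zero_le_two b1 l)).trans
      (le_mul_of_one_le_left (by positivity)
        (one_le_mul_of_one_le_of_one_le (one_le_pow₀ a1) (one_le_pow₀ one_le_two)))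
  replace hc := fun x y => hc ρ s l x y e2 e3
  generalize (a : ℤ) ^ ρ * 2 ^ s * (2 ^ α * (a : ℤ) ^ β) ^ l = P at e5 e6 hP hc
  have hP0 : 0 < P := (pow_pos two_pos L).trans_le hP
  obtain ⟨z, n, f1, f2, f3, f4⟩ := hX (P * v)
    ((hL.le.trans hP).trans (le_mul_of_one_le_right hP0.le hv))
  have g1 := hlev P y d6 e5 e6
  have g2 := hlev P z ((n3_sign ha he n z).1 (f1.symm ▸ hm)) f3
    (lt_of_mul_lt_mul_left (a := v) (f4.trans_eq (by ring)) (by omega))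
  have g3 : z ∈ S := by
    rcases le_total y z with h | h
    · exact (hc _ _ g1.1 h g2.2 d7 f2).1 d5
    · exact (hc _ _ g2.1 h g1.2 f2 d7).2 d5
  exact f1 ▸ n3_iter hT n g3

theorem main {a : ℕ} (ha : a = 3 ∨ a = 5) {α β : ℕ} (hb : 0 < α + β) {S : Set ℤ}
    (hS : Automatic (2 ^ α * a ^ β) S) (hT : ∀ x ∈ S, T a x ∈ S) {e : ℤ} (he : e = 1 ∨ e = -1) :
    (∀ m : ℤ, 0 < e * m → ¬ (a : ℤ) ∣ m → m ∈ S) ∨
      ({x | x ∈ S ∧ 0 < e * x ∧ x ∈ Function.periodicPts (T a)}.Finite ∧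
        ∃ K : ℕ, ∀ x ∈ S, 0 < e * x →
          ∃ j, (T a)^[j] x ∈ Function.periodicPts (T a) ∧ odds a j x ≤ K) := by
  rcases Nat.eq_zero_or_pos β with rfl | hβ
  · exact main2 ha (auto2_of hb (by simpa using hS)) hT he
  have ha0 : 0 < a := by omega
  by_cases hlong : ∀ (K : ℕ) (M : ℤ), ∃ x ∈ S, 0 < e * x ∧ ∃ j : ℕ,
      (∀ i, i ≤ j → M ≤ |(T a)^[i] x|) ∧ K ≤ odds a j x
  · obtain ⟨m⟩ := exists_mean ha0 he
    obtain ⟨Q, _, σ, hσ⟩ := exists_autB ha hS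
    have hF := m.fil ha0
    obtain ⟨j, r, hmax⟩ := exists_max ha m hT hβ hS
    have hab := ab' ha m hT hmax
    obtain ⟨P, hP, hP'⟩ := exists_per' ha hF hab hβ hσ
    obtain ⟨u, hu, hc⟩ := flatB ha he hF hβ hσ (rel_all ha hF hab hP hP')
    exact Or.inl fun y hy hya => fullB ha he hT hβ hu hc hlong hy hya
  · push Not at hlong
    obtain ⟨K, M, h⟩ := hlong
    refine Or.inr (bounded ha he hT (K := K) (M := M) fun x hx hx' => ?_)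
    refine drop ha ?_ (h x hx hx')
    rintro rfl
    simp at hx'

end Pool.Agent.Lib.MP_dee342_nt.Au
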