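import Pool.Agent.Lib.MP_dee342_nt.Au.AEnd

/-!
Automata in base b.
-/

set_option autoImplicit false

namespace Pool.Agent.Lib.MP_dee342_nt.Au

open Filter Finset

/-- The state map of an automaton reading the digits in base `b` from the top. -/
structure AutB (a b : ℕ) (S : Set ℤ) {Q : Type} (σ : ℤ → Q) : Prop where
  cg : ∀ x y, σ x = σ y → ∀ i : ℤ, 0 ≤ i → i < b → σ (b * x + i) = σ (b * y + i)
  mem : ∀ x y, σ x = σ y → x ∈ S → y ∈ S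
  dvd : ∀ x y, σ x = σ y → (a : ℤ) ∣ x - y

/-- Write `k = α m + s`, `s < α`, `r = 2 ^ (α m) r₁ + r₀`, `r₁ < 2 ^ s`: the set is
`{n | 2 ^ s n + r₁ ∈ A}` with `A` in the kernel for the base `2 ^ α`; finitely many
`(A, s, r₁)` (`Set.Finite.biUnion`, or the image of a finite product). -/
theorem auto2_of {α : ℕ} (hα : 0 < α) {S : Set ℤ} (hS : Automatic (2 ^ α) S) : Auto2 S := by
  refine (((Set.Finite.prod hS ((Set.finite_Iio α).prod
    (Set.finite_Ico (0 : ℤ) (2 ^ α))))).image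
      fun p => {n : ℤ | 2 ^ p.2.1 * n + p.2.2 ∈ p.1}).subset ?_
  rintro _ ⟨k, r, h0, h1, rfl⟩
  have hs := Nat.mod_lt k hα
  have hb : (((2 ^ α : ℕ) : ℤ)) ^ (k / α) = 2 ^ (α * (k / α)) := by
    push_cast
    rw [← pow_mul]
  have hp : (0 : ℤ) < 2 ^ (α * (k / α)) := by positivity
  have hk : (2 : ℤ) ^ k = 2 ^ (α * (k / α)) * 2 ^ (k % α) := by
    rw [← pow_add, Nat.div_add_mod]
  refine ⟨({n | ((2 ^ α : ℕ) : ℤ) ^ (k / α) * n + r % 2 ^ (α * (k / α)) ∈ S}, k % α,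
    r / 2 ^ (α * (k / α))), ⟨⟨k / α, _, Int.emod_nonneg _ hp.ne',
    (Int.emod_lt_of_pos _ hp).trans_eq hb.symm, rfl⟩, hs, Int.ediv_nonneg h0 hp.le, ?_⟩, ?_⟩
  · refine (Int.ediv_lt_of_lt_mul hp ?_).trans_le (pow_le_pow_right₀ one_le_two hs.le)
    rwa [mul_comm, ← hk]
  · ext n
    simp only [Set.mem_ofPred_eq]
    rw [hb, mul_add, ← mul_assoc, ← hk, add_assoc, Int.mul_ediv_add_emod]

/-- As `exists_aut`: `σ x = (fun A : K => x ∈ A, (x : ZMod 15))`. -/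
theorem exists_autB {a : ℕ} (ha : a = 3 ∨ a = 5) {b : ℕ} {S : Set ℤ} (hS : Automatic b S) :
    ∃ (Q : Type) (_ : Fintype Q) (σ : ℤ → Q), AutB a b S σ := by
  classical
  obtain ⟨K, hK⟩ : ∃ K : Set (Set ℤ), K = {A : Set ℤ | ∃ (k : ℕ) (r : ℤ), 0 ≤ r ∧
      r < (b : ℤ) ^ k ∧ A = {n | (b : ℤ) ^ k * n + r ∈ S}} := ⟨_, rfl⟩
  have hfin : K.Finite := hK ▸ hS
  have h0 : S ∈ K := by
    rw [hK]
    exact ⟨0, 0, le_rfl, by simp, by simp⟩
  have hstep : ∀ A ∈ K, ∀ i : ℤ, 0 ≤ i → i < b → {n | (b : ℤ) * n + i ∈ A} ∈ K := by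
    rw [hK]
    rintro A ⟨k, r, h1, h2, rfl⟩ i h3 h4
    have h5 : (0 : ℤ) < (b : ℤ) ^ k := by omega
    refine ⟨k + 1, (b : ℤ) ^ k * i + r, by positivity, ?_, ?_⟩
    · have := mul_le_mul_of_nonneg_left (Int.add_one_le_of_lt h4) h5.le
      rw [pow_succ]
      linarith
    · ext n
      simp only [Set.mem_ofPred_eq]
      rw [show (b : ℤ) ^ k * (b * n + i) + r = (b : ℤ) ^ (k + 1) * n + ((b : ℤ) ^ k * i + r) by
        ring]
  let _ : Fintype K := hfin.fintype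
  refine ⟨(K → Prop) × ZMod 15, inferInstance,
    fun x => (fun A => x ∈ A.1, (x : ZMod 15)), fun x y h i h3 h4 => ?_, fun x y h hx => ?_,
    fun x y h => ?_⟩
  · obtain ⟨h1, h2⟩ := Prod.ext_iff.1 h
    refine Prod.ext (funext fun A => congrFun h1 ⟨_, hstep A.1 A.2 i h3 h4⟩) ?_
    have h5 : (x : ZMod 15) = y := h2
    push_cast
    rw [h5]
  · have h1 : (x ∈ S) = (y ∈ S) := congrFun (Prod.ext_iff.1 h).1 ⟨S, h0⟩
    exact h1 ▸ hx
  · have h1 : (x : ZMod 15) = y := (Prod.ext_iff.1 h).2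
    have h2 := (ZMod.intCast_eq_intCast_iff_dvd_sub x y 15).1 h1
    rcases ha with rfl | rfl <;> omega

/-- As `Aut.win`, with `w / b` and `w % b`. -/
theorem AutB.win {a b : ℕ} (hb : 0 < b) {S : Set ℤ} {Q : Type} {σ : ℤ → Q} (h : AutB a b S σ)
    {C x y : ℤ} (hxy : ∀ p, 0 ≤ p → p < C → σ (x + p) = σ (y + p)) (j : ℕ) :
    ∀ w, 0 ≤ w → w < C * (b : ℤ) ^ j → σ ((b : ℤ) ^ j * x + w) = σ ((b : ℤ) ^ j * y + w) := by
  have hb' : (0 : ℤ) < b := by exact_mod_cast hb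
  induction j with
  | zero => intro w h0 h1; simpa using hxy w h0 (by simpa using h1)
  | succ j ih =>
    intro w h0 h1
    rw [pow_succ, ← mul_assoc] at h1
    have h2 := h.cg _ _ (ih (w / b) (Int.ediv_nonneg h0 hb'.le) (Int.ediv_lt_of_lt_mul hb' h1))
      (w % b) (Int.emod_nonneg _ hb'.ne') (Int.emod_lt_of_pos _ hb')
    have e1 : ∀ z : ℤ, (b : ℤ) ^ (j + 1) * z + w = b * ((b : ℤ) ^ j * z + w / b) + w % b := by
      intro z
      have := Int.mul_ediv_add_emod w b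
      rw [pow_succ]
      linear_combination -this
    rwa [e1, e1]

theorem AutB.un {a b : ℕ} {S : Set ℤ} {Q : Type} {σ : ℤ → Q} (h : AutB a b S σ) {x y : ℤ}
    (hxy : σ x = σ y) : Un a S x ↔ Un a S y := by
  have h1 : (a : ℤ) ∣ x ↔ (a : ℤ) ∣ y := (dvd_iff_dvd_of_dvd_sub (h.dvd _ _ hxy))
  exact ⟨fun u => ⟨h.mem _ _ hxy u.1, fun v => u.2 (h1.2 v)⟩,
    fun u => ⟨h.mem _ _ hxy.symm u.1, fun v => u.2 (h1.1 v)⟩⟩

end Pool.Agent.Lib.MP_dee342_nt.Au
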