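import Pool.Agent.Lib.MP_dee342_nt.Au.BInt

/-!
The maximum principle when a divides the base.
-/

set_option autoImplicit false

namespace Pool.Agent.Lib.MP_dee342_nt.Au

open Filter Finset

theorem b2_two {a : ℕ} {e : ℤ} (m : Mean a e) {S : Set ℤ} {M : ℝ} {q : ℤ}
    (h : ∀ r, m.μ {n | 2 * q * n + r ∈ S} ≤ M) (r : ℤ) : m.μ {n | q * n + r ∈ S} ≤ M := by
  have t := x1_two m (· ∈ S) q r
  have h0 := h r
  have h1 := h (r + q)
  linarith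

theorem b2_mula {a : ℕ} (ha : 0 < a) {e : ℤ} (m : Mean a e) {S : Set ℤ} {M : ℝ} {q : ℤ}
    (h : ∀ r, m.μ {n | a * q * n + r ∈ S} ≤ M) (r : ℤ) : m.μ {n | q * n + r ∈ S} ≤ M := by
  have a0 : (0 : ℝ) < a := by exact_mod_cast ha
  have e0 : ∀ n t : ℤ, q * (a * n + t) + r = a * q * n + (q * t + r) := fun n t => by ring
  rw [m.mula, div_le_iff₀ a0]
  simp only [Set.mem_ofPred_eq, e0]
  refine (sum_le_sum fun t _ => h _).trans_eq ?_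
  rw [sum_const, card_range, nsmul_eq_mul, mul_comm]

/-- Induction on `i` and `j` with `Mean.two`, `Mean.mula`. -/
theorem refine_le {a : ℕ} (ha : 0 < a) {e : ℤ} (m : Mean a e) {S : Set ℤ} {M : ℝ} (i j : ℕ)
    {q : ℤ} (h : ∀ r, m.μ {n | 2 ^ i * (a : ℤ) ^ j * q * n + r ∈ S} ≤ M) (r : ℤ) :
    m.μ {n | q * n + r ∈ S} ≤ M := by
  induction i with
  | succ i ih =>
    rw [show (2 : ℤ) ^ (i + 1) * (a : ℤ) ^ j * q = 2 * (2 ^ i * (a : ℤ) ^ j * q) by ring] at h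
    exact ih (b2_two m h)
  | zero =>
    induction j with
    | succ j ih =>
      rw [show (2 : ℤ) ^ 0 * (a : ℤ) ^ (j + 1) * q = a * (2 ^ 0 * (a : ℤ) ^ j * q) by ring] at h
      exact ih (b2_mula ha m h)
    | zero =>
      rw [show (2 : ℤ) ^ 0 * (a : ℤ) ^ 0 * q = q by ring] at h
      exact h r

theorem b2_mod {a : ℕ} {e : ℤ} (m : Mean a e) (S : Set ℤ) (q r : ℤ) :
    m.μ {n | q * n + r ∈ S} = m.μ {n | q * n + r % q ∈ S} := by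
  rw [← m.shift_int {n | q * n + r % q ∈ S} (r / q)]
  congr 1
  ext n
  simp only [Set.mem_ofPred_eq]
  rw [show q * (n + r / q) + r % q = q * n + (q * (r / q) + r % q) by ring,
    Int.mul_ediv_add_emod]

theorem b2_desc {a : ℕ} {e : ℤ} (m : Mean a e) {S : Set ℤ} (hT : ∀ x ∈ S, T a x ∈ S) {M : ℝ}
    (i : ℕ) : ∀ (j : ℕ) (r : ℤ), M ≤ m.μ {n | 2 ^ i * (a : ℤ) ^ j * n + r ∈ S} →
      ∃ (j' : ℕ) (r' : ℤ), M ≤ m.μ {n | (a : ℤ) ^ j' * n + r' ∈ S} := by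
  induction i with
  | zero =>
    intro j r h
    rw [pow_zero, one_mul] at h
    exact ⟨j, r, h⟩
  | succ i ih =>
    intro j r h
    rw [show (2 : ℤ) ^ (i + 1) * (a : ℤ) ^ j = 2 * (2 ^ i * (a : ℤ) ^ j) by ring] at h
    have sub : {n | 2 * (2 ^ i * (a : ℤ) ^ j) * n + r ∈ S} ⊆
        {n | T a (2 * (2 ^ i * (a : ℤ) ^ j) * n + r) ∈ S} := fun n hn => hT _ hn
    have h1 := h.trans (m.mono sub)
    simp only [x1_T] at h1
    split_ifs at h1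
    · exact ih j _ h1
    · rw [show (a : ℤ) * (2 ^ i * (a : ℤ) ^ j) = 2 ^ i * (a : ℤ) ^ (j + 1) by ring] at h1
      exact ih _ _ h1

/-- `b = 2 ^ α a ^ β`. The values `μ {n | b ^ k n + r ∈ S}` are finitely many (kernel; any integer
`r` by `shift_int`); let `M` be the largest, at `(k₀, r₀)`. By `refine_le`,
`μ {n | 2 ^ i a ^ j n + r ∈ S} ≤ M` whenever `2 ^ i a ^ j` divides a power of `b`. `T` maps
`2 ^ (i + 1) a ^ j n + r` to `2 ^ i a ^ j n + T r` or `2 ^ i a ^ (j + 1) n + T r` (`x1_T`), so by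
descending induction on `i` from `α k₀` the value `M` is attained with `i = 0`. -/
theorem exists_max {a : ℕ} (ha : a = 3 ∨ a = 5) {e : ℤ} (m : Mean a e) {S : Set ℤ}
    (hT : ∀ x ∈ S, T a x ∈ S) {α β : ℕ} (hβ : 0 < β) (hS : Automatic (2 ^ α * a ^ β) S) :
    ∃ (j : ℕ) (r : ℤ), ∀ (j' : ℕ) (r' : ℤ),
      m.μ {n | (a : ℤ) ^ j' * n + r' ∈ S} ≤ m.μ {n | (a : ℤ) ^ j * n + r ∈ S} := by
  have a0 : 0 < a := by omega
  obtain ⟨_, ⟨k, r, -, -, rfl⟩, hmax⟩ := Set.exists_max_image _ m.μ hS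
    ⟨_, 0, 0, le_rfl, by simp, rfl⟩
  have hb : ∀ k : ℕ, (((2 ^ α * a ^ β : ℕ) : ℤ)) ^ k = 2 ^ (α * k) * (a : ℤ) ^ (β * k) :=
    fun k => by
      push_cast
      rw [mul_pow, ← pow_mul, ← pow_mul]
  have h0 := (congrArg (fun q : ℤ => m.μ {n | q * n + r ∈ S}) (hb k)).le
  obtain ⟨j, s, h1⟩ := b2_desc m hT _ _ _ h0
  refine ⟨j, s, fun j' r' => le_trans ?_ h1⟩
  refine refine_le a0 m (α * j') (β * j' - j') (fun t => ?_) r'
  have q0 : (0 : ℤ) < ((2 ^ α * a ^ β : ℕ) : ℤ) ^ j' := by positivity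
  rw [mul_assoc (2 ^ (α * j')), ← pow_add, Nat.sub_add_cancel (Nat.le_mul_of_pos_left _ hβ),
    ← hb, b2_mod]
  exact hmax _ ⟨j', _, Int.emod_nonneg _ q0.ne', Int.emod_lt_of_pos _ q0, rfl⟩

/-- As `half` (lemmas `x1_T`, `x1_mu`, `x1_two`). -/
theorem half' {a : ℕ} (ha : a = 3 ∨ a = 5) {e : ℤ} (m : Mean a e) {S : Set ℤ}
    (hT : ∀ x ∈ S, T a x ∈ S) {q : ℤ} {M : ℝ} (h1 : ∀ r, m.μ {n | q * n + r ∈ S} ≤ M)
    (h2 : ∀ r, m.μ {n | a * q * n + r ∈ S} ≤ M) {r : ℤ} (hr : m.μ {n | q * n + r ∈ S} = M) :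
    (∀ ρ, ρ = r ∨ ρ = r + q → (ρ % 2 = 0 → m.μ {n | q * n + T a ρ ∈ S} = M) ∧
      (ρ % 2 = 1 → m.μ {n | a * q * n + T a ρ ∈ S} = M)) ∧
      ∀ᶠ n in m.ae, T a (q * n + r) ∈ S → q * n + r ∈ S := by
  have _ := ha
  have sub : ∀ ρ : ℤ, {n | 2 * q * n + ρ ∈ S} ⊆ {n | T a (2 * q * n + ρ) ∈ S} :=
    fun ρ n hn => hT _ hn
  have ev : ∀ ρ : ℤ, ρ % 2 = 0 →
      m.μ {n | T a (2 * q * n + ρ) ∈ S} = m.μ {n | q * n + T a ρ ∈ S} := fun ρ h => by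
    simp only [x1_T, if_pos h]
  have od : ∀ ρ : ℤ, ρ % 2 = 1 →
      m.μ {n | T a (2 * q * n + ρ) ∈ S} = m.μ {n | a * q * n + T a ρ ∈ S} := fun ρ h => by
    simp only [x1_T, if_neg (show ¬ ρ % 2 = 0 by omega)]
  have le : ∀ ρ : ℤ, m.μ {n | T a (2 * q * n + ρ) ∈ S} ≤ M := fun ρ => by
    rcases Int.emod_two_eq_zero_or_one ρ with h | h
    · exact (ev ρ h).trans_le (h1 _)
    · exact (od ρ h).trans_le (h2 _)
  have m0 := m.mono (sub r)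
  have m1 := m.mono (sub (r + q))
  have d0 := m.diff (sub r)
  have d1 := m.diff (sub (r + q))
  have c0 := le r
  have c1 := le (r + q)
  have t := x1_two m (· ∈ S) q r
  have u := x1_two m (fun x => ¬ (T a x ∈ S → x ∈ S)) q r
  have k : ∀ ρ : ℤ, {n | ¬ (T a (2 * q * n + ρ) ∈ S → 2 * q * n + ρ ∈ S)} =
      {n | T a (2 * q * n + ρ) ∈ S} \ {n | 2 * q * n + ρ ∈ S} := fun ρ =>
    Set.ext fun n => Classical.not_imp
  rw [k, k] at u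
  refine ⟨fun ρ hρ => ?_, m.eventually_ae.2 ?_⟩
  · have w : m.μ {n | T a (2 * q * n + ρ) ∈ S} = M := by
      rcases hρ with rfl | rfl <;> linarith
    exact ⟨fun h => (ev ρ h).symm.trans w, fun h => (od ρ h).symm.trans w⟩
  · rw [u]
    linarith

theorem b4_lift {a : ℕ} (ha : a = 3 ∨ a = 5) (j : ℕ) :
    ∃ (N : ℕ) (u : ℤ), 2 ^ N = 1 + (a : ℤ) ^ (j + 1) * u ∧ ¬ (a : ℤ) ∣ u := by
  induction j with
  | zero =>
    rcases ha with rfl | rfl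
    · exact ⟨2, 1, by norm_num, by norm_num⟩
    · exact ⟨4, 3, by norm_num, by norm_num⟩
  | succ j ih =>
    obtain ⟨N, u, h1, h2⟩ := ih
    rcases ha with rfl | rfl
    · refine ⟨N * 3, u + ((3 : ℕ) : ℤ) * (3 ^ j * u ^ 2 + (3 ^ j) ^ 2 * u ^ 3), ?_,
        fun h => h2 ((dvd_add_left (dvd_mul_right _ _)).1 h)⟩
      rw [pow_mul, h1]
      push_cast
      ring
    · refine ⟨N * 5, u + ((5 : ℕ) : ℤ) * (2 * 5 ^ j * u ^ 2 + 10 * (5 ^ j) ^ 2 * u ^ 3 +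
        25 * (5 ^ j) ^ 3 * u ^ 4 + 25 * (5 ^ j) ^ 4 * u ^ 5), ?_,
        fun h => h2 ((dvd_add_left (dvd_mul_right _ _)).1 h)⟩
      rw [pow_mul, h1]
      push_cast
      ring

theorem b4_pow (x : ℤ) (t : ℕ) : ∃ w : ℤ, (1 + x) ^ t = 1 + t * x + x ^ 2 * w := by
  induction t with
  | zero => exact ⟨0, by simp⟩
  | succ t ih =>
    obtain ⟨w, h⟩ := ih
    refine ⟨w + t + x * w, ?_⟩
    rw [pow_succ, h]
    push_cast
    ring

theorem b4_solve {a : ℕ} (ha : a = 3 ∨ a = 5) (s : ℤ) {v : ℤ} (hv : ¬ (a : ℤ) ∣ v) :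
    ∃ t : ℕ, (a : ℤ) ∣ s + t * v := by
  rcases ha with rfl | rfl
  · push_cast at hv ⊢
    have h : (3 : ℤ) ∣ s + 0 * v ∨ (3 : ℤ) ∣ s + 1 * v ∨ (3 : ℤ) ∣ s + 2 * v := by
      have h1 : s % 3 = 0 ∨ s % 3 = 1 ∨ s % 3 = 2 := by omega
      have h2 : v % 3 = 1 ∨ v % 3 = 2 := by omega
      rcases h1 with h | h | h <;> rcases h2 with k | k <;> omega
    rcases h with h | h | h
    exacts [⟨0, h⟩, ⟨1, h⟩, ⟨2, h⟩]
  · push_cast at hv ⊢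
    have h : (5 : ℤ) ∣ s + 0 * v ∨ (5 : ℤ) ∣ s + 1 * v ∨ (5 : ℤ) ∣ s + 2 * v ∨
        (5 : ℤ) ∣ s + 3 * v ∨ (5 : ℤ) ∣ s + 4 * v := by
      have h1 : s % 5 = 0 ∨ s % 5 = 1 ∨ s % 5 = 2 ∨ s % 5 = 3 ∨ s % 5 = 4 := by omega
      have h2 : v % 5 = 1 ∨ v % 5 = 2 ∨ v % 5 = 3 ∨ v % 5 = 4 := by omega
      rcases h1 with h | h | h | h | h <;> rcases h2 with k | k | k | k <;> omega
    rcases h with h | h | h | h | h
    exacts [⟨0, h⟩, ⟨1, h⟩, ⟨2, h⟩, ⟨3, h⟩, ⟨4, h⟩]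

theorem b4_base {a : ℕ} (ha : a = 3 ∨ a = 5) {c r : ℤ} (hc : ¬ (a : ℤ) ∣ c)
    (hr : ¬ (a : ℤ) ∣ r) : ∃ i : ℕ, (a : ℤ) ∣ 2 ^ i * c - r := by
  rcases ha with rfl | rfl
  · push_cast at hc hr ⊢
    have h : (3 : ℤ) ∣ 1 * c - r ∨ (3 : ℤ) ∣ 2 * c - r := by
      have h1 : c % 3 = 1 ∨ c % 3 = 2 := by omega
      have h2 : r % 3 = 1 ∨ r % 3 = 2 := by omega
      rcases h1 with h | h <;> rcases h2 with k | k <;> omega
    rcases h with h | h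
    exacts [⟨0, h⟩, ⟨1, h⟩]
  · push_cast at hc hr ⊢
    have h : (5 : ℤ) ∣ 1 * c - r ∨ (5 : ℤ) ∣ 2 * c - r ∨ (5 : ℤ) ∣ 4 * c - r ∨
        (5 : ℤ) ∣ 8 * c - r := by
      have h1 : c % 5 = 1 ∨ c % 5 = 2 ∨ c % 5 = 3 ∨ c % 5 = 4 := by omega
      have h2 : r % 5 = 1 ∨ r % 5 = 2 ∨ r % 5 = 3 ∨ r % 5 = 4 := by omega
      rcases h1 with h | h | h | h <;> rcases h2 with k | k | k | k <;> omega
    rcases h with h | h | h | h
    exacts [⟨0, h⟩, ⟨1, h⟩, ⟨2, h⟩, ⟨3, h⟩]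

/-- `2` generates the units modulo `a ^ j`. First: for `j ≥ 1` there are `N, u` with
`2 ^ N = 1 + a ^ j u`, `¬ a ∣ u` (induction, `N ↦ a N`). Then induction on `j`:
`2 ^ (i + N t) c ≡ 2 ^ i c + t a ^ j u 2 ^ i c` modulo `a ^ (j + 1)`. -/
theorem prim {a : ℕ} (ha : a = 3 ∨ a = 5) (j : ℕ) {c r : ℤ} (hc : ¬ (a : ℤ) ∣ c)
    (hr : ¬ (a : ℤ) ∣ r) : ∃ i : ℕ, (a : ℤ) ^ j ∣ 2 ^ i * c - r := by
  have hp : Prime (a : ℤ) := by
    rcases ha with rfl | rfl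
    · exact Int.prime_three
    · exact Nat.prime_iff_prime_int.1 (by norm_num)
  have h2 : ¬ (a : ℤ) ∣ 2 := by rcases ha with rfl | rfl <;> norm_num
  rcases j with _ | j
  · exact ⟨0, by simp⟩
  induction j with
  | zero => simpa using b4_base ha hc hr
  | succ j ih =>
    obtain ⟨i, s, hs⟩ := ih
    obtain ⟨N, u, h1, hu⟩ := b4_lift ha j
    have hv : ¬ (a : ℤ) ∣ u * (2 ^ i * c) := fun h => by
      rcases hp.dvd_or_dvd h with h | h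
      · exact hu h
      · exact (hp.dvd_or_dvd h).elim (fun h => h2 (hp.dvd_of_dvd_pow h)) hc
    obtain ⟨t, z, hz⟩ := b4_solve ha s hv
    obtain ⟨w, hw⟩ := b4_pow ((a : ℤ) ^ (j + 1) * u) t
    refine ⟨N * t + i, z + (a : ℤ) ^ j * u ^ 2 * w * (2 ^ i * c), ?_⟩
    rw [pow_add, pow_mul, h1, hw]
    linear_combination hs + (a : ℤ) ^ (j + 1) * hz

/-- From the maximiser `(j, r)`, `half'` at the odd one of `r`, `r + a ^ j` gives a maximiser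
`(j + 1, r₁)` with `r₁` a unit. For `q = a ^ (j + 1)` maximisers are closed under adding multiples
of `q` and under halving modulo `q` (`half'` at the even one of `r`, `r + q`), so by `prim` (and
induction on `i`) every unit is a maximiser. End as in `ab`. -/
theorem ab' {a : ℕ} (ha : a = 3 ∨ a = 5) {e : ℤ} (m : Mean a e) {S : Set ℤ}
    (hT : ∀ x ∈ S, T a x ∈ S) {j : ℕ} {r : ℤ} (h : ∀ (j' : ℕ) (r' : ℤ),
      m.μ {n | (a : ℤ) ^ j' * n + r' ∈ S} ≤ m.μ {n | (a : ℤ) ^ j * n + r ∈ S}) :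
    AB a m.ae S := by
  have a0 : 0 < a := by omega
  obtain ⟨M, hM⟩ : ∃ M, m.μ {n | (a : ℤ) ^ j * n + r ∈ S} = M := ⟨_, rfl⟩
  rw [hM] at h
  have h' : ∀ (i : ℕ) (c : ℤ), m.μ {n | a * (a : ℤ) ^ i * n + c ∈ S} ≤ M := fun i c => by
    rw [← pow_succ']
    exact h _ _
  have od : ∀ i : ℕ, (a : ℤ) ^ i % 2 = 1 := fun i => by
    refine Int.odd_iff.1 (Odd.pow ?_)
    rcases ha with rfl | rfl <;> decide
  obtain ⟨r₁, u₁, m₁⟩ : ∃ r₁ : ℤ, ¬ (a : ℤ) ∣ r₁ ∧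
      m.μ {n | (a : ℤ) ^ (j + 1) * n + r₁ ∈ S} = M := by
    obtain ⟨ρ, e1, e2⟩ : ∃ ρ : ℤ, (ρ = r ∨ ρ = r + (a : ℤ) ^ j) ∧ ρ % 2 = 1 := by
      have := od j
      rcases Int.emod_two_eq_zero_or_one r with e0 | e0
      · exact ⟨_, Or.inr rfl, by omega⟩
      · exact ⟨_, Or.inl rfl, e0⟩
    refine ⟨T a ρ, ?_, ?_⟩
    · unfold T
      rw [if_neg (by omega)]
      rcases ha with rfl | rfl <;> push_cast <;> omega
    · rw [pow_succ']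
      exact (((half' ha m hT (h j) (h' j) hM).1 ρ e1).2 e2)
  obtain ⟨q, hq⟩ : ∃ q, q = (a : ℤ) ^ (j + 1) := ⟨_, rfl⟩
  have q0 : 0 < q := by rw [hq]; positivity
  have aq : (a : ℤ) ∣ q := hq ▸ dvd_pow_self _ (by omega)
  have qo : q % 2 = 1 := hq ▸ od _
  have t1 : ∀ c, m.μ {n | q * n + c ∈ S} ≤ M := fun c => hq ▸ h _ c
  have t2 : ∀ c, m.μ {n | a * q * n + c ∈ S} ≤ M := fun c => hq ▸ h' _ c
  rw [← hq] at m₁
  have per : ∀ r d, m.μ {n | q * n + (r + q * d) ∈ S} = m.μ {n | q * n + r ∈ S} := fun r d => by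
    rw [← m.shift_int {n | q * n + r ∈ S} d]
    congr 1
    ext n
    simp only [Set.mem_ofPred_eq]
    rw [show q * n + (r + q * d) = q * (n + d) + r by ring]
  have md : ∀ x : ℤ, x % q ∈ Ico 0 q := fun x =>
    mem_Ico.2 ⟨Int.emod_nonneg x q0.ne', Int.emod_lt_of_pos x q0⟩
  have cop : IsCoprime q 2 := ⟨1, -(q / 2), by omega⟩
  have it : ∀ (i : ℕ) (c c₀ : ℤ), m.μ {n | q * n + c₀ ∈ S} = M → q ∣ 2 ^ i * c - c₀ →
      m.μ {n | q * n + c ∈ S} = M := by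
    intro i c
    induction i with
    | zero =>
      rintro c₀ h0 ⟨d, hd⟩
      rw [show c = c₀ + q * d by linear_combination hd, per, h0]
    | succ i ih =>
      intro c₀ h0 hd
      obtain ⟨ρ, e1, e2⟩ : ∃ ρ : ℤ, (ρ = c₀ ∨ ρ = c₀ + q) ∧ ρ % 2 = 0 := by
        rcases Int.emod_two_eq_zero_or_one c₀ with e0 | e0
        · exact ⟨_, Or.inl rfl, e0⟩
        · exact ⟨_, Or.inr rfl, by omega⟩
      refine ih (T a ρ) (((half' ha m hT t1 t2 h0).1 ρ e1).1 e2) (cop.dvd_of_dvd_mul_left ?_)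
      have e3 : 2 * T a ρ = ρ := by
        unfold T
        rw [if_pos e2]
        omega
      rw [mul_sub, e3, ← mul_assoc, ← pow_succ']
      rcases e1 with rfl | rfl
      · exact hd
      · rw [← sub_sub]
        exact hd.sub dvd_rfl
  have un : ∀ c : ℤ, ¬ (a : ℤ) ∣ c → ∀ᶠ n in m.ae, T a (q * n + c) ∈ S → q * n + c ∈ S := by
    intro c hc
    obtain ⟨i, hi⟩ := prim ha (j + 1) hc u₁
    exact (half' ha m hT t1 t2 (it i c r₁ m₁ (hq ▸ hi))).2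
  have all : ∀ᶠ n in m.ae, ∀ c ∈ Ico 0 q, ¬ (a : ℤ) ∣ c → T a (q * n + c) ∈ S → q * n + c ∈ S :=
    (eventually_all_finset _).2 fun c _ => by
      by_cases hc : (a : ℤ) ∣ c
      · exact Eventually.of_forall fun _ h => absurd hc h
      · exact (un c hc).mono fun _ h _ => h
  have dv := (m.fil a0).divapow (j + 1)
  rw [← hq] at dv
  refine (dv.eventually all).mono fun x hx hu => ⟨?_, hT x⟩
  have h := hx _ (md x) fun h =>
    hu (Int.mul_ediv_add_emod x q ▸ (aq.mul_right _).add h)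
  rwa [Int.mul_ediv_add_emod] at h

end Pool.Agent.Lib.MP_dee342_nt.Au
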