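import Pool.Agent.Lib.MP_dee342_nt.Au.BEnd

/-!
Closure properties of automatic sets.
-/

set_option autoImplicit false

namespace Pool.Agent.Lib.MP_dee342_nt.Au

open Filter Finset

variable {b : ℕ} {S S' : Set ℤ}

/-- Units outside `S` whose image lies in `S`. -/
def Dset (a : ℕ) (S : Set ℤ) : Set ℤ := {x | ¬ (a : ℤ) ∣ x ∧ T a x ∈ S ∧ x ∉ S}

/-- Units `x` with `x + d` a unit and exactly one of them in `S`. -/
def Eset (a : ℕ) (S : Set ℤ) (d : ℤ) : Set ℤ :=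
  {x | ¬ (a : ℤ) ∣ x ∧ ¬ (a : ℤ) ∣ x + d ∧ ¬ (x + d ∈ S ↔ x ∈ S)}

theorem auto_compl (h : Automatic b S) : Automatic b Sᶜ := by
  refine (h.image compl).subset ?_
  rintro _ ⟨k, r, h0, h1, rfl⟩
  exact ⟨_, ⟨k, r, h0, h1, rfl⟩, rfl⟩

theorem auto_inter (h : Automatic b S) (h' : Automatic b S') : Automatic b (S ∩ S') := by
  refine (Set.Finite.image2 (· ∩ ·) h h').subset ?_
  rintro _ ⟨k, r, h0, h1, rfl⟩
  exact ⟨_, ⟨k, r, h0, h1, rfl⟩, _, ⟨k, r, h0, h1, rfl⟩, rfl⟩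

theorem auto_union (h : Automatic b S) (h' : Automatic b S') : Automatic b (S ∪ S') := by
  refine (Set.Finite.image2 (· ∪ ·) h h').subset ?_
  rintro _ ⟨k, r, h0, h1, rfl⟩
  exact ⟨_, ⟨k, r, h0, h1, rfl⟩, _, ⟨k, r, h0, h1, rfl⟩, rfl⟩

/-- `m (b ^ k n + r) + c = b ^ k (m n + c') + r'` with `r' = (m r + c) % b ^ k`,
`c' = (m r + c) / b ^ k ∈ [-|c|, m + |c|]`: finitely many pairs (kernel set, `c'`). -/
theorem auto_aff (h : Automatic b S) (m : ℕ) (c : ℤ) :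
    Automatic b {n | (m : ℤ) * n + c ∈ S} := by
  refine (Set.Finite.image2 (fun (K : Set ℤ) (e : ℤ) => {n : ℤ | (m : ℤ) * n + e ∈ K}) h
    (Set.finite_Icc (-|c|) (m + |c|))).subset ?_
  rintro _ ⟨k, r, h0, h1, rfl⟩
  have hB : (0 : ℤ) < (b : ℤ) ^ k := h0.trans_lt h1
  have hm : (0 : ℤ) ≤ m := Int.natCast_nonneg m
  have hc : |c| ≤ |c| * (b : ℤ) ^ k := le_mul_of_one_le_right (abs_nonneg c) hB
  have hr : (m : ℤ) * r ≤ m * (b : ℤ) ^ k := mul_le_mul_of_nonneg_left h1.le hm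
  refine ⟨_, ⟨k, (m * r + c) % (b : ℤ) ^ k, Int.emod_nonneg _ hB.ne', Int.emod_lt_of_pos _ hB,
    rfl⟩, (m * r + c) / (b : ℤ) ^ k, ⟨Int.le_ediv_of_mul_le hB ?_, Int.ediv_le_of_le_mul hB ?_⟩, ?_⟩
  · have := mul_nonneg hm h0
    have := neg_abs_le c
    linarith
  · have := le_abs_self c
    linarith
  · ext n
    have e : (b : ℤ) ^ k * (m * n + (m * r + c) / (b : ℤ) ^ k) + (m * r + c) % (b : ℤ) ^ k =
        m * ((b : ℤ) ^ k * n + r) + c := by
      have := Int.mul_ediv_add_emod (m * r + c) ((b : ℤ) ^ k)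
      linarith
    change (b : ℤ) ^ k * (m * n + (m * r + c) / (b : ℤ) ^ k) + (m * r + c) % (b : ℤ) ^ k ∈ S ↔
      m * ((b : ℤ) ^ k * n + r) + c ∈ S
    rw [e]

/-- For `n = 2 n' + i`: `(b ^ k n + r) / 2 = b ^ k n' + (b ^ k i + r) / 2` with
`(b ^ k i + r) / 2 < b ^ k`; a kernel set is determined by two kernel sets of `S`. -/
theorem auto_half (h : Automatic b S) : Automatic b {n | n / 2 ∈ S} := by
  refine ((Set.Finite.prod h h).image fun p : Set ℤ × Set ℤ =>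
    {n : ℤ | (n % 2 = 0 ∧ n / 2 ∈ p.1) ∨ (n % 2 = 1 ∧ n / 2 ∈ p.2)}).subset ?_
  rintro _ ⟨k, r, h0, h1, rfl⟩
  refine ⟨({n | (b : ℤ) ^ k * n + r / 2 ∈ S}, {n | (b : ℤ) ^ k * n + ((b : ℤ) ^ k + r) / 2 ∈ S}),
    ⟨⟨k, r / 2, by omega, by omega, rfl⟩,
      ⟨k, ((b : ℤ) ^ k + r) / 2, by omega, by omega, rfl⟩⟩, ?_⟩
  ext n
  simp only [Set.mem_ofPred_eq]
  obtain ⟨m, hm | hm⟩ := Int.even_or_odd' n
  · subst hm
    have e1 : 2 * m / 2 = m := by omega
    have e2 : ((b : ℤ) ^ k * (2 * m) + r) / 2 = (b : ℤ) ^ k * m + r / 2 := by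
      have : (b : ℤ) ^ k * (2 * m) = 2 * ((b : ℤ) ^ k * m) := by ring
      omega
    have e3 : 2 * m % 2 = 0 := by omega
    rw [e1, e2, e3]
    simp
  · subst hm
    have e1 : (2 * m + 1) / 2 = m := by omega
    have e2 : ((b : ℤ) ^ k * (2 * m + 1) + r) / 2
        = (b : ℤ) ^ k * m + ((b : ℤ) ^ k + r) / 2 := by
      have : (b : ℤ) ^ k * (2 * m + 1) = 2 * ((b : ℤ) ^ k * m) + (b : ℤ) ^ k := by ring
      omega
    have e3 : (2 * m + 1) % 2 = 1 := by omega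
    rw [e1, e2, e3]
    simp

/-- A kernel set is the preimage of a subset of `ZMod q`. -/
theorem auto_dvd (b : ℕ) {q : ℕ} (hq : 0 < q) (c : ℤ) : Automatic b {n | (q : ℤ) ∣ n + c} := by
  have : NeZero q := ⟨hq.ne'⟩
  refine (Set.finite_range fun B : Set (ZMod q) => {n : ℤ | (n : ZMod q) ∈ B}).subset ?_
  rintro _ ⟨k, r, -, -, rfl⟩
  refine ⟨{z | (b : ZMod q) ^ k * z + r + c = 0}, ?_⟩
  ext n
  simp only [Set.mem_ofPred_eq]
  rw [← ZMod.intCast_zmod_eq_zero_iff_dvd]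
  push_cast
  rfl

/-- `T x ∈ S` iff `x` is even and `x / 2 ∈ S`, or odd and `a (x / 2) + (a + 1) / 2 ∈ S`. -/
theorem auto_D {a : ℕ} (ha : a = 3 ∨ a = 5) (h : Automatic b S) : Automatic b (Dset a S) := by
  have ha0 : 0 < a := by omega
  have h1 := auto_compl (auto_dvd b ha0 0)
  have h2 := auto_inter (auto_dvd b two_pos 0) (auto_half h)
  have h3 := auto_inter (auto_compl (auto_dvd b two_pos 0))
    (auto_half (auto_aff h a (((a : ℤ) + 1) / 2)))
  have h4 := auto_inter h1 (auto_inter (auto_union h2 h3) (auto_compl h))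
  convert h4 using 1
  ext x
  simp only [Dset, Set.mem_inter_iff, Set.mem_union, Set.mem_compl_iff, Set.mem_ofPred_eq,
    add_zero, Nat.cast_ofNat]
  obtain ⟨m, hm | hm⟩ := Int.even_or_odd' x
  · subst hm
    have e1 : 2 * m / 2 = m := by omega
    have e2 : (2 : ℤ) ∣ 2 * m := by omega
    rw [T_even, e1]
    simp only [e2, true_and, not_true_eq_false, false_and, or_false]
  · subst hm
    have e1 : (2 * m + 1) / 2 = m := by omega
    have e2 : ¬ (2 : ℤ) ∣ 2 * m + 1 := by omega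
    rw [T_odd ha, e1]
    simp only [e2, true_and, not_false_eq_true, false_and, false_or]

theorem auto_E {a : ℕ} (ha : a = 3 ∨ a = 5) (h : Automatic b S) (d : ℤ) :
    Automatic b (Eset a S d) := by
  have ha0 : 0 < a := by omega
  have h1 := auto_compl (auto_dvd b ha0 0)
  have h2 := auto_compl (auto_dvd b ha0 d)
  have h3 := auto_aff h 1 d
  have h4 := auto_union (auto_inter h3 (auto_compl h)) (auto_inter (auto_compl h3) h)
  have h5 := auto_inter h1 (auto_inter h2 h4)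
  convert h5 using 1
  ext x
  simp only [Eset, Set.mem_inter_iff, Set.mem_union, Set.mem_compl_iff, Set.mem_ofPred_eq,
    add_zero, Nat.cast_one, one_mul]
  tauto

end Pool.Agent.Lib.MP_dee342_nt.Au
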