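import Pool.Agent.Lib.MP_dee342_nt.Au.GBall
import Pool.Agent.Lib.MP_dee342_nt.Au.GAuto

/-!
Two-sided invariance almost everywhere, by telescoping.
-/

set_option autoImplicit false

namespace Pool.Agent.Lib.MP_dee342_nt.Au

open Filter Finset

/-- Enlarge `k₀` by one; then `r` is a unit, since the class `a ^ (k₀ + 1) n + r` meets `D`. Take
`(j, w)` from `anc` for `r` with `k₀ + 1` odd steps and `ρ` with
`a ^ κ ρ + c = 2 ^ j t + w`; `T^j (a ^ κ (2 ^ j n + ρ) + c) = a ^ (k₀ + 1) (a ^ κ n + t) + r`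
(`iter_aff`); `Mean.Inv.part` with `q = 2 ^ j`; `η = δ / 2 ^ j`. -/
theorem low_one {a : ℕ} (ha : a = 3 ∨ a = 5) {e : ℤ} (m : Mean a e) {D : Set ℤ}
    (hD : ∀ x ∈ D, ¬ (a : ℤ) ∣ x) (h : Ball m a D) : ∃ (j : ℕ) (η : ℝ), 0 < η ∧
      ∀ (κ : ℕ) (c : ℤ), η ≤ m.μ {n | (T a)^[j] ((a : ℤ) ^ κ * n + c) ∈ D} := by
  obtain ⟨k, r, δ, hδ, hb⟩ := h
  have hr : ¬ (a : ℤ) ∣ r := fun hr => by
    have h1 := hb (k + 1) r k.le_succ (by simp)
    have h2 : {n | (a : ℤ) ^ (k + 1) * n + r ∈ D} = ∅ :=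
      Set.eq_empty_of_forall_notMem fun n hn =>
        hD _ hn (((dvd_pow_self _ k.succ_ne_zero).mul_right n).add hr)
    rw [h2, m.empty] at h1
    linarith
  obtain ⟨j, w, h1, h2, -⟩ := anc ha hr k
  refine ⟨j, δ / 2 ^ j, by positivity, fun κ c => ?_⟩
  have cop : IsCoprime ((2 : ℤ) ^ j) ((a : ℤ) ^ κ) := by
    refine IsCoprime.pow ?_
    rcases ha with rfl | rfl
    · exact ⟨-1, 1, by norm_num⟩
    · exact ⟨-2, 1, by norm_num⟩
  obtain ⟨u, v, huv⟩ := cop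
  have h3 := (Mean.Inv.pow two_pos m.inv_two j).part (pow_pos two_pos j)
    {n | (T a)^[j] ((a : ℤ) ^ κ * n + c) ∈ D} (v * (w - c))
  have h4 := hb (k + κ) ((a : ℤ) ^ k * -(u * (w - c)) + r) (Nat.le_add_right k κ) (by simp)
  have h5 : ∀ n : ℤ, (T a)^[j] ((a : ℤ) ^ κ * (((2 ^ j : ℕ) : ℤ) * n + v * (w - c)) + c) =
      (a : ℤ) ^ (k + κ) * n + ((a : ℤ) ^ k * -(u * (w - c)) + r) := fun n => by
    rw [show (a : ℤ) ^ κ * (((2 ^ j : ℕ) : ℤ) * n + v * (w - c)) + c =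
      2 ^ j * ((a : ℤ) ^ κ * n - u * (w - c)) + w by
        push_cast
        linear_combination (w - c) * huv, iter_aff ha, h1, h2]
    ring
  simp only [Set.mem_ofPred_eq, h5] at h3
  rw [div_le_iff₀' (by positivity)]
  exact_mod_cast h4.trans h3

/-- Induction on `k` with `x1_two`, `x1_T`. -/
theorem low_all {a : ℕ} {e : ℤ} (m : Mean a e) {A : Set ℤ} {η : ℝ}
    (h : ∀ (κ : ℕ) (c : ℤ), η ≤ m.μ {n | (a : ℤ) ^ κ * n + c ∈ A}) (k κ : ℕ) (c : ℤ) :
    η ≤ m.μ {n | (T a)^[k] ((a : ℤ) ^ κ * n + c) ∈ A} := by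
  induction k generalizing κ c with
  | zero => simpa only [Function.iterate_zero, id_eq] using h κ c
  | succ k ih =>
    have key : ∀ ρ : ℤ,
        η ≤ m.μ {n | (T a)^[k] (T a (2 * (a : ℤ) ^ κ * n + ρ)) ∈ A} := fun ρ => by
      simp only [x1_T]
      split_ifs
      · exact ih κ (T a ρ)
      · have h1 := ih (κ + 1) (T a ρ)
        rw [pow_succ'] at h1
        exact h1
    simp only [Function.iterate_succ_apply]
    have t := x1_two m (fun x => (T a)^[k] (T a x) ∈ A) ((a : ℤ) ^ κ) c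
    have h0 := key c
    have h1 := key (c + (a : ℤ) ^ κ)
    linarith

/-- If `μ (Dset a S) > 0`: the sets `A i = {n | T^i n ∈ S}` increase and
`A (i + 1) \ A i ⊇ {n | T^i n ∈ Dset a S}` has mean at least `η` for `i = k + j` (`low_all` with
`κ = 0`, `c = 0`), so the means are unbounded, but at most `1`. -/
theorem abG {a : ℕ} (ha : a = 3 ∨ a = 5) {e : ℤ} (m : Mean a e) {S : Set ℤ}
    (hT : ∀ x ∈ S, T a x ∈ S) (h : 0 < m.μ (Dset a S) → Ball m a (Dset a S)) : AB a m.ae S := by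
  refine m.eventually_ae.2 ?_
  have e0 : {x : ℤ | ¬ (¬ (a : ℤ) ∣ x → (T a x ∈ S ↔ x ∈ S))} = Dset a S := by
    ext x
    have := hT x
    simp only [Dset, Set.mem_ofPred_eq]
    tauto
  rw [e0]
  by_contra c
  obtain ⟨j, η, hη, hj⟩ :=
    low_one ha m (fun x hx => hx.1) (h (lt_of_le_of_ne (m.nonneg _) (Ne.symm c)))
  have low : ∀ k : ℕ, η ≤ m.μ {n | (T a)^[j + k] n ∈ Dset a S} := fun k => by
    have h1 := low_all m (A := {y | (T a)^[j] y ∈ Dset a S}) hj k 0 0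
    simpa only [pow_zero, one_mul, add_zero, Set.mem_ofPred_eq, Function.iterate_add_apply]
      using h1
  have step : ∀ i : ℕ, m.μ {n | (T a)^[i] n ∈ S} + m.μ {n | (T a)^[i] n ∈ Dset a S} ≤
      m.μ {n | (T a)^[i + 1] n ∈ S} := fun i => by
    rw [← m.add _ _ (Set.disjoint_left.2 fun n h1 h2 => h2.2.2 h1)]
    refine m.mono fun n hn => ?_
    simp only [Set.mem_ofPred_eq, Function.iterate_succ_apply']
    rcases hn with hn | hn
    · exact hT _ hn
    · exact hn.2.1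
  have grow : ∀ k : ℕ, k * η ≤ m.μ {n | (T a)^[j + k] n ∈ S} := fun k => by
    induction k with
    | zero => simpa using m.nonneg _
    | succ k ih =>
      have h1 := step (j + k)
      have h2 := low k
      rw [← add_assoc]
      push_cast
      linarith
  obtain ⟨k, hk⟩ := exists_nat_gt (1 / η)
  have h1 := grow k
  have h2 : m.μ {n | (T a)^[j + k] n ∈ S} ≤ 1 := m.univ ▸ m.mono (Set.subset_univ _)
  rw [div_lt_iff₀ hη] at hk
  linarith

end Pool.Agent.Lib.MP_dee342_nt.Au
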