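import Pool.Agent.Lib.MP_dee342_nt.Au.GFlat

/-!
An automatic set of positive mean is uniformly present in a p-adic ball.
-/

set_option autoImplicit false

namespace Pool.Agent.Lib.MP_dee342_nt.Au

open Filter Finset

/-- All classes modulo powers of `p` inside one class have mean at least `δ > 0`. -/
def Ball {a : ℕ} {e : ℤ} (m : Mean a e) (p : ℕ) (D : Set ℤ) : Prop :=
  ∃ (k₀ : ℕ) (r : ℤ) (δ : ℝ), 0 < δ ∧ ∀ (κ : ℕ) (c : ℤ), k₀ ≤ κ → (p : ℤ) ^ k₀ ∣ c - r →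
    δ ≤ m.μ {n | (p : ℤ) ^ κ * n + c ∈ D}

/-- By `equiG` and `Inv p` (as in `equi`), for `κ ≥ k₀` the mean of `{n | p ^ (κ + 1) n + c ∈ D}`
is that of `{n | p ^ κ n + c ∈ D}`; some class modulo `p ^ k₀` has positive mean
(`Mean.Inv.le_of` with `M = 0`); `shift_int`. -/
theorem ball_cop {a : ℕ} {e : ℤ} (m : Mean a e) {b p : ℕ} (hb : 2 ≤ b) (hI : m.Inv b)
    (hp : p.Prime) (hIp : m.Inv p) (hpb : ¬ p ∣ b) {D : Set ℤ} (hD : Automatic b D)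
    (h : 0 < m.μ D) : Ball m p D := by
  obtain ⟨k₀, hk⟩ := equiG m hb hI hp hpb hD
  have step : ∀ k, k₀ ≤ k → ∀ r : ℤ, m.μ {n | (p : ℤ) ^ (k + 1) * n + r ∈ D} =
      m.μ {n | (p : ℤ) ^ k * n + r ∈ D} := fun k hk' r => by
    have h2 : ∀ i : ℕ, m.μ {n | (p : ℤ) ^ (k + 1) * n + (r + i * (p : ℤ) ^ k) ∈ D} =
        m.μ {n | (p : ℤ) ^ (k + 1) * n + r ∈ D} := fun i => by
      induction i with
      | zero => simp only [Nat.cast_zero, zero_mul, add_zero]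
      | succ i ih =>
        rw [← ih, ← hk k hk' (r + i * (p : ℤ) ^ k), Nat.cast_succ, add_mul, one_mul, add_assoc]
    have h3 : ∀ i ∈ range p, m.μ {n | (p : ℤ) * n + i ∈ {n | (p : ℤ) ^ k * n + r ∈ D}} =
        m.μ {n | (p : ℤ) ^ (k + 1) * n + r ∈ D} := fun i _ => by
      refine Eq.trans (congrArg m.μ (Set.ext fun n => ?_)) (h2 i)
      simp only [Set.mem_ofPred_eq]
      rw [show (p : ℤ) ^ k * (p * n + i) + r = (p : ℤ) ^ (k + 1) * n + (r + i * (p : ℤ) ^ k) by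
        ring]
    have h4 : (p : ℝ) ≠ 0 := Nat.cast_ne_zero.2 hp.ne_zero
    rw [hIp {n | (p : ℤ) ^ k * n + r ∈ D}, sum_congr rfl h3, sum_const, card_range, nsmul_eq_mul,
      mul_div_cancel_left₀ _ h4]
  have all : ∀ k, k₀ ≤ k → ∀ r : ℤ, m.μ {n | (p : ℤ) ^ k * n + r ∈ D} =
      m.μ {n | (p : ℤ) ^ k₀ * n + r ∈ D} := fun k hk' r => by
    induction k, hk' using Nat.le_induction with
    | base => rfl
    | succ k hk' ih => exact (step k hk' r).trans ih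
  obtain ⟨r, hr⟩ : ∃ r : ℤ, 0 < m.μ {n | (p : ℤ) ^ k₀ * n + r ∈ D} := by
    by_contra hn
    push Not at hn
    refine h.not_ge ((hIp.pow hp.pos k₀).le_of (pow_pos hp.pos _) fun r => ?_)
    simpa only [Nat.cast_pow] using hn r
  refine ⟨k₀, r, _, hr, fun κ c hκ ⟨t, ht⟩ => ?_⟩
  rw [all κ hκ, ← m.shift_int {n | (p : ℤ) ^ k₀ * n + r ∈ D} t]
  refine (congrArg m.μ (Set.ext fun n => ?_)).le
  simp only [Set.mem_ofPred_eq]
  rw [show (p : ℤ) ^ k₀ * (n + t) + r = (p : ℤ) ^ k₀ * n + c by linear_combination -ht]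

/-- The values `μ {n | b ^ k n + r ∈ D}` are finitely many (any integer `r`, by `shift_int`). -/
theorem kernel_max {a : ℕ} {e : ℤ} (m : Mean a e) {b : ℕ} (hb : 0 < b) {D : Set ℤ}
    (hD : Automatic b D) : ∃ (k : ℕ) (r : ℤ), ∀ (k' : ℕ) (r' : ℤ),
      m.μ {n | (b : ℤ) ^ k' * n + r' ∈ D} ≤ m.μ {n | (b : ℤ) ^ k * n + r ∈ D} := by
  obtain ⟨_, ⟨k, r, -, -, rfl⟩, hmax⟩ := Set.exists_max_image _ m.μ hD
    ⟨_, 0, 0, le_rfl, by simp, rfl⟩
  refine ⟨k, r, fun k' r' => ?_⟩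
  have q0 : (0 : ℤ) < (b : ℤ) ^ k' := by positivity
  rw [b2_mod]
  exact hmax _ ⟨k', _, Int.emod_nonneg _ q0.ne', Int.emod_lt_of_pos _ q0, rfl⟩

/-- `b = p ^ v b'`, `v ≥ 1`, `M > 0` the maximum of `kernel_max` at `(k, r)`. Every class of
modulus `p ^ i b' ^ j` has mean at most `M` (it divides a power of `b`; `le_of`, `pow`, `mul`). For
`κ ≥ v k` the classes of modulus `p ^ κ b' ^ k` inside `b ^ k n + r` have mean `M` (`eq_of` with
`q = p ^ (κ - v k)`). Given `c ≡ r` modulo `p ^ (v k)` take `ρ` with `p ^ κ ρ + c ≡ r` modulo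
`b' ^ k`; `part` with `q = b' ^ k` gives `δ = M / b' ^ k`. -/
theorem ball_dvd {a : ℕ} {e : ℤ} (m : Mean a e) {p v b' : ℕ} (hp : p.Prime) (hv : 0 < v)
    (hb' : ¬ p ∣ b') (hIp : m.Inv p) (hI : m.Inv b') {D : Set ℤ} (hD : Automatic (p ^ v * b') D)
    (h : 0 < m.μ D) : Ball m p D := by
  have h0 : 0 < b' := Nat.pos_of_ne_zero (by rintro rfl; simp at hb')
  obtain ⟨k, r, hM⟩ := kernel_max m (Nat.mul_pos (pow_pos hp.pos v) h0) hD
  have bd : ∀ (i j : ℕ) (c : ℤ), m.μ {n | (p : ℤ) ^ i * (b' : ℤ) ^ j * n + c ∈ D} ≤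
      m.μ {n | ((p ^ v * b' : ℕ) : ℤ) ^ k * n + r ∈ D} := fun i j c => by
    obtain ⟨t, ht⟩ := Nat.exists_eq_add_of_le
      ((Nat.le_add_right i j).trans (Nat.le_mul_of_pos_left (i + j) hv))
    refine ((hIp.pow hp.pos t).mul (pow_pos hp.pos t) (pow_pos h0 i) (hI.pow h0 i)).le_of
      (Nat.mul_pos (pow_pos hp.pos t) (pow_pos h0 i)) fun ρ => ?_
    refine le_of_eq_of_le ?_ (hM (i + j) ((p : ℤ) ^ i * (b' : ℤ) ^ j * ρ + c))
    congr 1
    ext n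
    simp only [Set.mem_ofPred_eq]
    push_cast
    rw [mul_pow, ← pow_mul, ht]
    congr! 1
    ring
  have M0 : 0 < m.μ {n | ((p ^ v * b' : ℕ) : ℤ) ^ k * n + r ∈ D} :=
    h.trans_le (by simpa using bd 0 0 0)
  have b0 : (0 : ℝ) < (b' ^ k : ℕ) := Nat.cast_pos.2 (pow_pos h0 k)
  refine ⟨v * k, r, _, div_pos M0 b0, fun κ c hκ ⟨s, hs⟩ => ?_⟩
  obtain ⟨t, rfl⟩ := Nat.exists_eq_add_of_le hκ
  obtain ⟨x, y, hxy⟩ : IsCoprime ((p : ℤ) ^ t) ((b' : ℤ) ^ k) :=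
    (Nat.isCoprime_iff_coprime.2 ((Nat.Prime.coprime_iff_not_dvd hp).2 hb')).pow
  have e := (hIp.pow hp.pos t).eq_of (pow_pos hp.pos t)
    (A := {n | ((p ^ v * b' : ℕ) : ℤ) ^ k * n + r ∈ D}) (fun ρ => by
      refine le_of_eq_of_le ?_ (bd (v * k + t) k (((p : ℤ) ^ v * b') ^ k * ρ + r))
      congr 1
      ext n
      simp only [Set.mem_ofPred_eq]
      push_cast
      congr! 1
      ring) rfl (s * y)
  rw [div_le_iff₀' b0, ← e]
  refine le_of_eq_of_le ?_ ((hI.pow h0 k).part (pow_pos h0 k) _ (-(s * x)))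
  congr 1
  ext n
  simp only [Set.mem_ofPred_eq]
  push_cast
  congr! 1
  rw [mul_pow, ← pow_mul, pow_add]
  linear_combination (p : ℤ) ^ (v * k) * s * hxy - hs

theorem ball {a : ℕ} {e : ℤ} (m : Mean a e) {b p : ℕ} (hb : 2 ≤ b)
    (hI : ∀ q, 0 < q → q ≤ b → m.Inv q) (hp : p.Prime) (hIp : m.Inv p) {D : Set ℤ}
    (hD : Automatic b D) (h : 0 < m.μ D) : Ball m p D := by
  obtain ⟨v, b', hb', rfl⟩ := Nat.exists_eq_pow_mul_and_not_dvd (by omega : b ≠ 0) p hp.ne_one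
  rcases Nat.eq_zero_or_pos v with rfl | hv
  · exact ball_cop m hb (hI _ (by omega) le_rfl) hp hIp (by simpa using hb') hD h
  · have h0 : 0 < b' := Nat.pos_of_ne_zero (by rintro rfl; simp at hb')
    exact ball_dvd m hp hv hb' hIp
      (hI _ h0 (Nat.le_mul_of_pos_left _ (pow_pos hp.pos _))) hD h

end Pool.Agent.Lib.MP_dee342_nt.Au
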