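import Pool.Agent.Lib.MP_dee342_nt.Au.GBall
import Pool.Agent.Lib.MP_dee342_nt.Au.GAuto

/-!
Coalescence of neighbouring orbits.
-/

set_option autoImplicit false

namespace Pool.Agent.Lib.MP_dee342_nt.Au

open Filter Finset

/-- Some `x` and `a ^ s x + c` meet after the same number of steps, on a whole class. -/
def Co (a s : ℕ) (c : ℤ) : Prop :=
  ∃ (n : ℕ) (x : ℤ), (T a)^[n] ((a : ℤ) ^ s * x + c) = (T a)^[n] x ∧
    s + odds a n ((a : ℤ) ^ s * x + c) = odds a n x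

variable {a : ℕ}

/-- For `i < n` the terms differ by an even number (`iter_aff`). -/
theorem odds_aff (ha : a = 3 ∨ a = 5) (n : ℕ) (t w : ℤ) :
    odds a n (2 ^ n * t + w) = odds a n w := by
  induction n generalizing t with
  | zero => rw [odds_zero, odds_zero]
  | succ n ih =>
    rw [odds_succ, odds_succ, pow_succ, mul_assoc, ih, iter_aff ha, mul_left_comm,
      Int.mul_add_emod_self_left]

theorem odds_succ' (a : ℤ) (n : ℕ) (x : ℤ) :
    odds a (n + 1) x = odds a n (T a x) + if x % 2 = 1 then 1 else 0 := by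
  have h := odds_succ a 0 x
  rw [odds_zero, zero_add, zero_add, Function.iterate_zero_apply] at h
  rw [add_comm n 1, odds_add, h, Function.iterate_one, add_comm]

/-- `iter_aff`, `odds_aff`. -/
theorem Co.all (ha : a = 3 ∨ a = 5) {s : ℕ} {c : ℤ} (h : Co a s c) : ∃ (n : ℕ) (x : ℤ), ∀ u : ℤ,
    (T a)^[n] ((a : ℤ) ^ s * (2 ^ n * u + x) + c) = (T a)^[n] (2 ^ n * u + x) ∧
      s + odds a n ((a : ℤ) ^ s * (2 ^ n * u + x) + c) = odds a n (2 ^ n * u + x) := by
  obtain ⟨n, x, h1, h2⟩ := h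
  refine ⟨n, x, fun u => ?_⟩
  rw [show (a : ℤ) ^ s * (2 ^ n * u + x) + c =
    2 ^ n * ((a : ℤ) ^ s * u) + ((a : ℤ) ^ s * x + c) by ring, iter_aff ha, iter_aff ha,
    odds_aff ha, odds_aff ha, h1, ← h2]
  exact ⟨by ring, rfl⟩

/-- The witness can be taken of the form `T x` with `x` odd: move it by a multiple of `2 ^ n` into
the class with `a ∣ 2 x' - 1`. -/
theorem Co.odd_pre (ha : a = 3 ∨ a = 5) {s : ℕ} {c : ℤ} (h : Co a s c) : ∃ (n : ℕ) (x x' : ℤ),
    a * x + 1 = 2 * x' ∧ (T a)^[n] ((a : ℤ) ^ s * x' + c) = (T a)^[n] x' ∧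
      s + odds a n ((a : ℤ) ^ s * x' + c) = odds a n x' := by
  obtain ⟨n, x, h1⟩ := h.all ha
  have h2 : IsCoprime (2 : ℤ) (a : ℤ) := by
    rcases ha with rfl | rfl
    exacts [⟨-1, 1, by norm_num⟩, ⟨-2, 1, by norm_num⟩]
  obtain ⟨p, q, h3⟩ := h2.pow_left (m := n + 1)
  exact ⟨n, -(q * (1 - 2 * x)), _, by linear_combination (2 * x - 1) * h3,
    h1 (p * (1 - 2 * x))⟩

theorem g6_odd (ha : a = 3 ∨ a = 5) (s : ℕ) : (a : ℤ) ^ s % 2 = 1 := by
  have h : Odd (a : ℤ) := by rcases ha with rfl | rfl <;> decide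
  exact Int.odd_iff.1 h.pow

theorem g6_ev {b z w : ℤ} (h : z = 2 * w) (n : ℕ) :
    (T b)^[n + 1] z = (T b)^[n] w ∧ odds b (n + 1) z = odds b n w := by
  subst h
  rw [Function.iterate_succ_apply, odds_succ', T_even, if_neg (by omega), add_zero]
  exact ⟨rfl, rfl⟩

theorem g6_od {b z w : ℤ} (hz : z % 2 = 1) (h : b * z + 1 = 2 * w) (n : ℕ) :
    (T b)^[n + 1] z = (T b)^[n] w ∧ odds b (n + 1) z = odds b n w + 1 := by
  have e : T b z = w := by
    unfold T
    rw [if_neg (by omega), h]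
    omega
  rw [Function.iterate_succ_apply, odds_succ', e, if_pos hz]
  exact ⟨rfl, rfl⟩

theorem g6_par {u v : ℤ} (hu : u % 2 = 1) : (u * v) % 2 = v % 2 := by
  rw [Int.mul_emod, hu, one_mul, Int.emod_emod_of_dvd _ (dvd_refl _)]

theorem g6_a (ha : a = 3 ∨ a = 5) (v : ℤ) : ((a : ℤ) * v) % 2 = v % 2 :=
  g6_par (by rcases ha with rfl | rfl <;> decide)

/-- Both even: `x = 2 x'`. -/
theorem co_even (ha : a = 3 ∨ a = 5) {s : ℕ} {c : ℤ} (h : Co a s c) : Co a s (2 * c) := by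
  obtain ⟨n, x, h1, h2⟩ := h
  have _ := ha
  obtain ⟨e1, e2⟩ := g6_ev (b := a) (z := (a : ℤ) ^ s * (2 * x) + 2 * c)
    (w := (a : ℤ) ^ s * x + c) (by ring) n
  obtain ⟨e3, e4⟩ := g6_ev (b := a) (z := 2 * x) (w := x) rfl n
  exact ⟨n + 1, 2 * x, by rw [e1, e3, h1], by rw [e2, e4, h2]⟩

/-- Both odd. -/
theorem co_odd (ha : a = 3 ∨ a = 5) {s : ℕ} {c c' : ℤ} (hc : c % 2 = 0)
    (h' : 2 * c' = a * c + 1 - (a : ℤ) ^ s) (h : Co a s c') : Co a s c := by
  obtain ⟨n, x, x', hx, h1, h2⟩ := h.odd_pre ha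
  have p1 := g6_a ha x
  have p2 : x % 2 = 1 := by omega
  have p3 := g6_par (v := x) (g6_odd ha s)
  obtain ⟨e1, e2⟩ := g6_od (b := a) (z := (a : ℤ) ^ s * x + c)
    (w := (a : ℤ) ^ s * x' + c') (by omega) (by linear_combination (a : ℤ) ^ s * hx - h') n
  obtain ⟨e3, e4⟩ := g6_od (b := a) p2 hx n
  exact ⟨n + 1, x, by rw [e1, e3, h1], by rw [e2, e4, ← h2, add_assoc]⟩

/-- `x = 2 x'` even, `a ^ s x + c` odd. -/
theorem co_up (ha : a = 3 ∨ a = 5) {s : ℕ} {c c' : ℤ} (h' : 2 * c' = a * c + 1)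
    (h : Co a (s + 1) c') : Co a s c := by
  obtain ⟨n, x, h1, h2⟩ := h
  have p1 := g6_a ha c
  have p3 := g6_par (v := 2 * x) (g6_odd ha s)
  obtain ⟨e1, e2⟩ := g6_od (b := a) (z := (a : ℤ) ^ s * (2 * x) + c)
    (w := (a : ℤ) ^ (s + 1) * x + c') (by omega) (by linear_combination -h') n
  obtain ⟨e3, e4⟩ := g6_ev (b := a) (z := 2 * x) (w := x) rfl n
  exact ⟨n + 1, 2 * x, by rw [e1, e3, h1], by rw [e2, e4, ← h2]; omega⟩

/-- `x` odd, `a ^ (s + 1) x + c` even. -/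
theorem co_down (ha : a = 3 ∨ a = 5) {s : ℕ} {c c' : ℤ} (h' : 2 * c' = c - (a : ℤ) ^ s)
    (h : Co a s c') : Co a (s + 1) c := by
  obtain ⟨n, x, x', hx, h1, h2⟩ := h.odd_pre ha
  have p1 := g6_a ha x
  have p2 : x % 2 = 1 := by omega
  obtain ⟨e1, e2⟩ := g6_ev (b := a) (z := (a : ℤ) ^ (s + 1) * x + c)
    (w := (a : ℤ) ^ s * x' + c') (by linear_combination (a : ℤ) ^ s * hx - h') n
  obtain ⟨e3, e4⟩ := g6_od (b := a) p2 hx n
  exact ⟨n + 1, x, by rw [e1, e3, h1], by rw [e2, e4, ← h2]; omega⟩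

theorem co_swap {c : ℤ} (h : Co a 0 c) : Co a 0 (-c) := by
  obtain ⟨n, x, h1, h2⟩ := h
  rw [pow_zero, one_mul] at h1 h2
  refine ⟨n, x + c, ?_, ?_⟩
  · rw [pow_zero, one_mul, add_neg_cancel_right, h1]
  · rw [pow_zero, one_mul, add_neg_cancel_right, ← h2, zero_add, zero_add]

/-- `n = 3`, `x = 4` for `a = 3`; `n = 11`, `x = 909` for `a = 5` (`decide`). -/
theorem co_one (ha : a = 3 ∨ a = 5) : Co a 0 1 := by
  rcases ha with rfl | rfl
  · exact ⟨3, 4, by decide, by decide⟩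
  · exact ⟨11, 909, by decide, by decide⟩

theorem g7_red (ha : a = 3 ∨ a = 5) {s : ℕ} (N : ℕ)
    (h : ∀ c : ℤ, c % 2 = 1 → c.natAbs ≤ N → Co a s c) :
    ∀ (n : ℕ) (c : ℤ), c.natAbs = n → c ≠ 0 → c.natAbs ≤ N → Co a s c := by
  intro n
  induction n using Nat.strong_induction_on with
  | _ n ih =>
    intro c hn hc hN
    rcases Int.emod_two_eq_zero_or_one c with h0 | h1
    · have e : c = 2 * (c / 2) := by omega
      rw [e]
      exact co_even ha (ih (c / 2).natAbs (by omega) _ rfl (by omega) (by omega))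
    · exact h c h1 hN

theorem g7_step (ha : a = 3 ∨ a = 5) {c d : ℤ} (hd : 4 * d = a * c + 1) (h3 : 3 ≤ c.natAbs)
    (ih : ∀ c' : ℤ, c'.natAbs < c.natAbs → Co a 0 c') : Co a 0 c := by
  have h1 : Co a (0 + 1) d := by
    refine g7_red ha d.natAbs (fun c₂ ho hle => ?_) _ d rfl ?_ le_rfl
    · refine co_down ha (c' := (c₂ - 1) / 2) (by rw [pow_zero]; omega) (ih _ ?_)
      rcases ha with rfl | rfl <;> push_cast at hd <;> omega
    · rcases ha with rfl | rfl <;> push_cast at hd <;> omega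
  exact co_up ha (c' := 2 * d) (by linarith) (co_even ha h1)

/-- Strong induction on `|c|`. `c = 0`: `n = 0`. Even: `co_even`. `|c| = 1`: `co_one`, `co_swap`.
Odd, `|c| ≥ 3`: replace `c` by `-c` so that `c₁ = (a c + 1) / 2` is even (the two values add up to
`1`); write `c₁ = 2 ^ i c₂`, `c₂` odd, `i ≥ 1`; `c₃ = (c₂ - 1) / 2` has `|c₃| < |c|`; `co_down`,
`co_even` repeatedly, `co_up`. -/
theorem co_zero (ha : a = 3 ∨ a = 5) (c : ℤ) : Co a 0 c := by
  have key : ∀ (n : ℕ) (c : ℤ), c.natAbs = n → Co a 0 c := by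
    intro n
    induction n using Nat.strong_induction_on with
    | _ n ih =>
      intro c hn
      have ih' : ∀ c' : ℤ, c'.natAbs < c.natAbs → Co a 0 c' :=
        fun c' h => ih _ (by omega) c' rfl
      by_cases hc0 : c = 0
      · subst hc0
        exact ⟨0, 0, by simp, by simp⟩
      rcases Int.emod_two_eq_zero_or_one c with h0 | h1
      · have e : c = 2 * (c / 2) := by omega
        rw [e]
        exact co_even ha (ih' _ (by omega))
      by_cases hc1 : c = 1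
      · subst hc1
        exact co_one ha
      by_cases hc2 : c = -1
      · subst hc2
        exact co_swap (co_one ha)
      have h3 : 3 ≤ c.natAbs := by omega
      by_cases h4 : ((a : ℤ) * c + 1) % 4 = 0
      · exact g7_step ha (d := ((a : ℤ) * c + 1) / 4) (by omega) h3 ih'
      · have h5 : ((a : ℤ) * (-c) + 1) % 4 = 0 := by
          rcases ha with rfl | rfl <;> push_cast at h4 ⊢ <;> omega
        have h6 : Co a 0 (-c) :=
          g7_step ha (d := ((a : ℤ) * (-c) + 1) / 4) (by omega) (by omega)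
            (fun c' h => ih' c' (by omega))
        simpa using co_swap h6
  exact key _ c rfl

/-- Induction on `s`. Odd `c`: `co_down`. Even `c ≠ 0`: `c = 2 ^ i c'`, `co_even`. `c = 0`:
`co_odd` with `c' = (1 - a ^ (s + 1)) / 2 ≠ 0`. -/
theorem co_all (ha : a = 3 ∨ a = 5) (s : ℕ) (c : ℤ) : Co a s c := by
  have hodd : ∀ k : ℕ, (a : ℤ) ^ k % 2 = 1 := by
    intro k
    have : Odd ((a : ℤ) ^ k) := Odd.pow (by rcases ha with rfl | rfl <;> decide)
    exact Int.odd_iff.mp this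
  induction s generalizing c with
  | zero => exact co_zero ha c
  | succ s ih =>
    have hne : ∀ c : ℤ, c ≠ 0 → Co a (s + 1) c := by
      intro c hc
      refine g7_red ha c.natAbs (fun c₂ ho _ => ?_) _ c rfl hc le_rfl
      have := hodd s
      exact co_down ha (c' := (c₂ - (a : ℤ) ^ s) / 2) (by omega) (ih _)
    by_cases hc : c = 0
    · subst hc
      have h1 := hodd (s + 1)
      have h2 : (1 : ℤ) < (a : ℤ) ^ (s + 1) :=
        one_lt_pow₀ (by rcases ha with rfl | rfl <;> norm_num) (by omega)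
      exact co_odd ha (c' := (1 - (a : ℤ) ^ (s + 1)) / 2) (by norm_num)
        (by rw [mul_zero]; omega) (hne _ (by omega))
    · exact hne c hc

theorem g8_core (ha : a = 3 ∨ a = 5) (k : ℕ) (r r' : ℤ) (h : odds a k r ≤ odds a k r') :
    ∃ (κ : ℕ) (t : ℤ), k ≤ κ ∧ odds a κ (2 ^ k * t + r') = odds a κ (2 ^ k * t + r) ∧
      (T a)^[κ] (2 ^ k * t + r') = (T a)^[κ] (2 ^ k * t + r) := by
  obtain ⟨s, hs⟩ := Nat.exists_eq_add_of_le h
  obtain ⟨n, x, hx⟩ := (co_all ha s ((T a)^[k] r' - (a : ℤ) ^ s * (T a)^[k] r)).all ha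
  have hc : IsCoprime (a : ℤ) 2 := by
    rcases ha with rfl | rfl
    · exact ⟨1, -1, by norm_num⟩
    · exact ⟨1, -2, by norm_num⟩
  obtain ⟨α, β, e⟩ := hc.pow (m := odds a k r) (n := n)
  obtain ⟨h1, h2⟩ := hx (-β * (x - (T a)^[k] r))
  have e1 : (T a)^[k] (2 ^ k * (α * (x - (T a)^[k] r)) + r) =
      2 ^ n * (-β * (x - (T a)^[k] r)) + x := by
    rw [iter_aff ha]
    linear_combination (x - (T a)^[k] r) * e
  have e2 : (T a)^[k] (2 ^ k * (α * (x - (T a)^[k] r)) + r') =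
      (a : ℤ) ^ s * (2 ^ n * (-β * (x - (T a)^[k] r)) + x) +
        ((T a)^[k] r' - (a : ℤ) ^ s * (T a)^[k] r) := by
    rw [iter_aff ha, hs, pow_add]
    linear_combination (a : ℤ) ^ s * (x - (T a)^[k] r) * e
  refine ⟨k + n, α * (x - (T a)^[k] r), Nat.le_add_right _ _, ?_, ?_⟩
  · rw [odds_add, odds_add, odds_aff ha, odds_aff ha, e1, e2, hs, add_assoc, h2]
  · rw [add_comm k n, Function.iterate_add_apply, Function.iterate_add_apply, e1, e2, h1]

/-- With `i = odds k r ≤ i' = odds k r'` (else swap), `c = 2 ^ k t + r`: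
`T^k c = a ^ i t + T^k r = x'` and `T^k (c + (r' - r)) = a ^ s x' + C`, `s = i' - i`,
`C = T^k r' - a ^ s T^k r`; `Co.all` for `(s, C)` gives `n, x`; choose `t` with
`2 ^ n ∣ x' - x`; `κ = k + n`, `odds_add`, `odds_aff`. -/
theorem coal (ha : a = 3 ∨ a = 5) (k : ℕ) (r d : ℤ) : ∃ (κ : ℕ) (c : ℤ), k ≤ κ ∧
    (2 : ℤ) ^ k ∣ c - r ∧ odds a κ (c + d) = odds a κ c ∧ (T a)^[κ] (c + d) = (T a)^[κ] c := by
  rcases le_total (odds a k r) (odds a k (r + d)) with h | h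
  · obtain ⟨κ, t, h0, h1, h2⟩ := g8_core ha k r (r + d) h
    exact ⟨κ, 2 ^ k * t + r, h0, ⟨t, by ring⟩, by rw [add_assoc, h1], by rw [add_assoc, h2]⟩
  · obtain ⟨κ, t, h0, h1, h2⟩ := g8_core ha k (r + d) r h
    exact ⟨κ, 2 ^ k * t + r, h0, ⟨t, by ring⟩, by rw [add_assoc, h1], by rw [add_assoc, h2]⟩

/-- If `μ (Eset a S d) > 0` take the ball, then `coal`; for almost all `t` the point
`2 ^ κ t + c` is not in `Eset` (`b8_it` or its proof at `c` and `c + d`, `iter_aff`), so this class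
has mean zero. -/
theorem relG (ha : a = 3 ∨ a = 5) {e : ℤ} (m : Mean a e) {S : Set ℤ} (hAB : AB a m.ae S) (d : ℤ)
    (h : 0 < m.μ (Eset a S d) → Ball m 2 (Eset a S d)) : ∀ᶠ x in m.ae, x ∉ Eset a S d := by
  have hF := m.fil (by rcases ha with rfl | rfl <;> norm_num)
  by_contra hn
  have h0 : 0 < m.μ (Eset a S d) := lt_of_le_of_ne (m.nonneg _) fun c =>
    hn (m.eventually_ae.2 (by simpa only [not_not, Set.ofPred_mem_eq] using c.symm))
  obtain ⟨k, r, δ, hδ, hb⟩ := h h0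
  obtain ⟨κ, c, h1, h2, h3, h4⟩ := coal ha k r d
  have h5 : ∀ᶠ t in m.ae, ¬ (((2 : ℕ) : ℤ) ^ κ * t + c ∈ Eset a S d) := by
    filter_upwards [(hF.aff κ 0 c).eventually (b8_it ha hF hAB κ),
      (hF.aff κ 0 (c + d)).eventually (b8_it ha hF hAB κ)] with t e1 e2 ht
    obtain ⟨u1, u2, u3⟩ := ht
    simp only [pow_zero, mul_one] at e1 e2
    simp only [Nat.cast_ofNat, add_assoc] at u1 u2 u3
    have e3 := e1 u1
    have e4 := e2 u2
    rw [iter_aff ha] at e3 e4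
    rw [h3, h4, e3] at e4
    exact u3 ⟨fun v => (e4.2 ⟨v, u2⟩).1, fun v => (e4.1 ⟨v, u1⟩).1⟩
  have h6 := m.eventually_ae.1 h5
  simp only [not_not] at h6
  have h7 := hb κ c h1 (by simpa using h2)
  rw [h6] at h7
  exact absurd hδ (not_lt.2 h7)

end Pool.Agent.Lib.MP_dee342_nt.Au
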