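import Pool.Agent.Lib.MP_dee342_nt.Au.BEnd

/-!
Long runs of halvings in an infinite closed automatic set.
-/

set_option autoImplicit false

namespace Pool.Agent.Lib.MP_dee342_nt.Au

open Filter Finset

theorem h1_abs {a : ℕ} (ha : a = 3 ∨ a = 5) (x : ℤ) : |x| ≤ 2 * |T a x| := by
  unfold T
  rcases ha with rfl | rfl <;> split_ifs with h <;> push_cast <;>
    rw [abs_le] <;> constructor <;> rcases abs_cases (_ : ℤ) with h' | h' <;>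
    rw [h'.1] <;> omega

theorem abs_iter {a : ℕ} (ha : a = 3 ∨ a = 5) (n : ℕ) (x : ℤ) : |x| ≤ 2 ^ n * |(T a)^[n] x| := by
  induction n with
  | zero => simp
  | succ n ih =>
    rw [Function.iterate_succ_apply', pow_succ, mul_assoc]
    exact ih.trans (mul_le_mul_of_nonneg_left (h1_abs ha _) (by positivity))

/-- `b ^ (k + 1) n + r = 2 ^ α (b₁ b ^ k n) + r`, `iter_aff` with `α` steps, `m = a ^ κ b₁`,
`c = T^α r / b ^ k`, `r' = T^α r % b ^ k`; `iter_ub` with `C = b₁ b ^ k`. -/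
theorem fam_step {a : ℕ} (ha : a = 3 ∨ a = 5) {α b₁ : ℕ} (h3 : 3 ≤ b₁) (hodd : b₁ % 2 = 1)
    {S : Set ℤ} (hT : ∀ x ∈ S, T a x ∈ S) (k : ℕ) {r : ℤ} (h0 : 0 ≤ r)
    (h1 : r < ((2 ^ α * b₁ : ℕ) : ℤ) ^ (k + 1)) :
    ∃ m c r' : ℤ, m % 2 = 1 ∧ 3 ≤ m ∧ 0 ≤ c ∧ c < m ∧ 0 ≤ r' ∧ r' < ((2 ^ α * b₁ : ℕ) : ℤ) ^ k ∧
      ∀ n, ((2 ^ α * b₁ : ℕ) : ℤ) ^ (k + 1) * n + r ∈ S →
        ((2 ^ α * b₁ : ℕ) : ℤ) ^ k * (m * n + c) + r' ∈ S := by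
  obtain ⟨B, hB⟩ : ∃ B : ℤ, B = ((2 ^ α * b₁ : ℕ) : ℤ) ^ k := ⟨_, rfl⟩
  have hb3 : (3 : ℤ) ≤ b₁ := by exact_mod_cast h3
  have hB0 : 0 < B := by
    rw [hB]
    have : 0 < 2 ^ α * b₁ := Nat.mul_pos (by positivity) (by omega)
    positivity
  have hk : ((2 ^ α * b₁ : ℕ) : ℤ) ^ (k + 1) = b₁ * B * 2 ^ α := by
    rw [pow_succ, ← hB]
    push_cast
    ring
  rw [hk] at h1 ⊢
  rw [← hB]
  obtain ⟨hz0, hz1⟩ := iter_ub ha α h0 h1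
  have ha1 : (1 : ℤ) ≤ (a : ℤ) ^ odds a α r :=
    one_le_pow₀ (by rcases ha with rfl | rfl <;> norm_num)
  have hao : Odd ((a : ℤ) ^ odds a α r) :=
    Odd.pow (by rcases ha with rfl | rfl <;> decide)
  have hbo : Odd (b₁ : ℤ) := by
    rw [Int.odd_iff]
    omega
  refine ⟨(a : ℤ) ^ odds a α r * b₁, (T a)^[α] r / B, (T a)^[α] r % B,
    Int.odd_iff.1 (hao.mul hbo), by nlinarith, Int.ediv_nonneg hz0 hB0.le,
    Int.ediv_lt_of_lt_mul hB0 (by linarith), Int.emod_nonneg _ hB0.ne',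
    Int.emod_lt_of_pos _ hB0, fun n hn => ?_⟩
  have hm : Set.MapsTo (T a) S S := fun x hx => hT x hx
  have h2 := hm.iterate α hn
  have h4 : (b₁ : ℤ) * B * 2 ^ α * n + r = 2 ^ α * (b₁ * B * n) + r := by ring
  rw [h4, iter_aff ha] at h2
  have h5 := Int.mul_ediv_add_emod ((T a)^[α] r) B
  convert h2 using 1
  linear_combination h5

/-- An affine map `n ↦ m n + c` with `m` odd, `3 ≤ m`, `0 ≤ c < m` sends `A` into `B`. -/
def h2_Mp (A B : Set ℤ) : Prop :=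
  ∃ m c : ℤ, m % 2 = 1 ∧ 3 ≤ m ∧ 0 ≤ c ∧ c < m ∧ ∀ n ∈ A, m * n + c ∈ B

theorem h2_trans {A B C : Set ℤ} (h : h2_Mp A B) (h' : h2_Mp B C) : h2_Mp A C := by
  obtain ⟨m, c, a1, a2, a3, a4, a5⟩ := h
  obtain ⟨m', c', b1, b2, b3, b4, b5⟩ := h'
  refine ⟨m' * m, m' * c + c', ?_, by nlinarith, by positivity, by nlinarith, fun n hn => ?_⟩
  · rw [Int.mul_emod, a1, b1]
    rfl
  · have := b5 _ (a5 n hn)
    rwa [show m' * (m * n + c) + c' = m' * m * n + (m' * c + c') by ring] at this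

theorem h2_good {e : ℤ} (he : e = 1 ∨ e = -1) {A B : Set ℤ} (h : h2_Mp A B)
    (hA : ∃ n ∈ A, 2 ≤ e * n) : ∃ n ∈ B, 2 ≤ e * n := by
  obtain ⟨m, c, -, a2, a3, a4, a5⟩ := h
  obtain ⟨n, hn, h2⟩ := hA
  refine ⟨m * n + c, a5 n hn, ?_⟩
  rcases he with rfl | rfl <;> nlinarith

theorem h2_loop {e : ℤ} (he : e = 1 ∨ e = -1) {K : Set (Set ℤ)} (hK : K.Finite)
    (P : ℕ → Set ℤ → Prop) (hP : ∀ k A, P k A → A ∈ K)
    (hs : ∀ k A, P (k + 1) A → ∃ B, P k B ∧ h2_Mp A B)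
    (h0 : ∀ k, ∃ A, P k A ∧ ∃ n ∈ A, 2 ≤ e * n) :
    ∃ B ∈ K, (∃ n ∈ B, 2 ≤ e * n) ∧ h2_Mp B B := by
  by_contra hc
  have key : ∀ k A, P k A → (∃ n ∈ A, 2 ≤ e * n) → k ≤ {B | B ∈ K ∧ h2_Mp A B}.ncard := by
    intro k
    induction k with
    | zero => exact fun _ _ _ => Nat.zero_le _
    | succ k ih =>
      intro A hA hg
      obtain ⟨B, hB, hm⟩ := hs k A hA
      have hg' := h2_good he hm hg
      refine Nat.succ_le_of_lt (lt_of_le_of_lt (ih B hB hg') (Set.ncard_lt_ncard ?_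
        (hK.subset fun _ h => h.1)))
      refine ⟨fun C hC => ⟨hC.1, h2_trans hm hC.2⟩, fun h => hc ⟨B, hP k B hB, hg', ?_⟩⟩
      exact (h ⟨hP k B hB, hm⟩).2
  obtain ⟨A, hA, hg⟩ := h0 (K.ncard + 1)
  have h1 := key _ A hA hg
  have h2 : {B | B ∈ K ∧ h2_Mp A B}.ncard ≤ K.ncard := Set.ncard_le_ncard (fun _ h => h.1) hK
  omega

/-- `N` the number of kernel sets, `x ∈ S` with `e x ≥ 2 b ^ N`, `n₀ = x / b ^ N`, `r₀ = x % b ^ N`.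
By `fam_step` build `r j`, `m j`, `c j`, `n (j + 1) = m j * n j + c j` in
`A j = {n | b ^ (N - j) n + r j ∈ S}`, `j ≤ N`; these maps keep `2 ≤ e n`. Pigeonhole gives
`j₁ < j₂` with `A j₁ = A j₂`; the composite is again `n ↦ m n + c` with `m` odd, `3 ≤ m`,
`0 ≤ c < m` and maps `A j₁` to itself. -/
theorem fam {a : ℕ} (ha : a = 3 ∨ a = 5) {e : ℤ} (he : e = 1 ∨ e = -1) {α b₁ : ℕ} (h3 : 3 ≤ b₁)
    (hodd : b₁ % 2 = 1) {S : Set ℤ} (hS : Automatic (2 ^ α * b₁) S) (hT : ∀ x ∈ S, T a x ∈ S)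
    (hinf : ∀ M : ℤ, ∃ x ∈ S, M ≤ e * x) :
    ∃ q r m c n₀ : ℤ, 0 < q ∧ 0 ≤ r ∧ r < q ∧ m % 2 = 1 ∧ 3 ≤ m ∧ 0 ≤ c ∧ c < m ∧ 2 ≤ e * n₀ ∧
      ∀ i : ℕ, q * (fun n => m * n + c)^[i] n₀ + r ∈ S := by
  have hb : (0 : ℤ) < ((2 ^ α * b₁ : ℕ) : ℤ) := by
    have : 0 < 2 ^ α * b₁ := Nat.mul_pos (by positivity) (by omega)
    exact_mod_cast this
  obtain ⟨B, ⟨k, r, r0, r1, rfl⟩, ⟨n₀, hn, h2⟩, m, c, a1, a2, a3, a4, a5⟩ := h2_loop he hS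
    (fun k A => ∃ r : ℤ, 0 ≤ r ∧ r < ((2 ^ α * b₁ : ℕ) : ℤ) ^ k ∧
      A = {n | ((2 ^ α * b₁ : ℕ) : ℤ) ^ k * n + r ∈ S})
    (fun k A ⟨r, h⟩ => ⟨k, r, h⟩)
    (by
      rintro k A ⟨r, r0, r1, rfl⟩
      obtain ⟨m, c, r', a1, a2, a3, a4, a5, a6, a7⟩ := fam_step ha h3 hodd hT k r0 r1
      exact ⟨_, ⟨r', a5, a6, rfl⟩, m, c, a1, a2, a3, a4, a7⟩)
    (by
      intro k
      have hq := pow_pos hb k
      generalize ((2 ^ α * b₁ : ℕ) : ℤ) ^ k = q at hq ⊢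
      obtain ⟨x, hx, h⟩ := hinf (3 * q)
      have h1 := Int.emod_nonneg x hq.ne'
      have h2 := Int.emod_lt_of_pos x hq
      have h4 := Int.mul_ediv_add_emod x q
      refine ⟨_, ⟨x % q, h1, h2, rfl⟩, x / q, ?_, ?_⟩
      · show q * (x / q) + x % q ∈ S
        rwa [h4]
      · by_contra h5
        rcases he with rfl | rfl <;> nlinarith)
  refine ⟨_, r, m, c, n₀, pow_pos hb k, r0, r1, a1, a2, a3, a4, h2, fun i => ?_⟩
  induction i with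
  | zero => exact hn
  | succ i ih =>
    rw [Function.iterate_succ_apply']
    exact a5 _ ih

theorem h3_sq {m : ℤ} {k : ℕ} {u : ℤ} (hu : Odd u) (h : m ^ 2 = 1 + 2 ^ (k + 2) * u) (n : ℕ) :
    ∃ N : ℕ, 0 < N ∧ ∃ u' : ℤ, Odd u' ∧ m ^ N = 1 + 2 ^ (k + 2 + n) * u' := by
  induction n with
  | zero => exact ⟨2, two_pos, u, hu, h⟩
  | succ n ih =>
    obtain ⟨N, hN, w, hw, e⟩ := ih
    refine ⟨N * 2, by omega, w + 2 * (2 ^ (k + n) * w ^ 2), hw.add_even (even_two_mul _), ?_⟩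
    rw [pow_mul, e]
    ring

theorem h3_hit {m : ℤ} (hm : Odd m) {k : ℕ} {u : ℤ} (hu : Odd u)
    (h : m ^ 2 = 1 + 2 ^ (k + 2) * u) (t : ℤ) (n : ℕ) :
    ∃ i : ℕ, (2 : ℤ) ^ (k + 2 + n) ∣ m ^ i - (1 + 2 ^ (k + 2) * t) := by
  induction n with
  | zero => exact ⟨0, -t, by ring⟩
  | succ n ih =>
    obtain ⟨i, z, hz⟩ := ih
    rcases Int.even_or_odd z with ⟨y, rfl⟩ | h1
    · exact ⟨i, y, by rw [hz]; ring⟩
    · obtain ⟨N, -, w, hw, e⟩ := h3_sq hu h n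
      obtain ⟨y, hy⟩ : Even (z + m ^ i * w) := h1.add_odd (hm.pow.mul hw)
      refine ⟨i + N, y, ?_⟩
      rw [pow_add, e]
      linear_combination hz + 2 ^ (k + 2 + n) * hy

/-- `m ^ 2 = 1 + 2 ^ τ u`, `τ ≥ 2`, `u` odd. For `j ≥ τ` there are `N > 0` and odd `u'` with
`m ^ N = 1 + 2 ^ j u'` (square). Induction on `J` as in `prim`: add `0` or `N` to `i`; finally add
a multiple of an `N` for `j ≥ J` to make `i ≥ L`. -/
theorem pow2 {m : ℤ} (hm : m % 2 = 1) (h3 : 3 ≤ m) : ∃ τ : ℕ, ∀ (J L : ℕ) (t : ℤ),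
    ∃ i : ℕ, L ≤ i ∧ (2 : ℤ) ^ J ∣ m ^ i - (1 + 2 ^ τ * t) := by
  have ho : Odd m := Int.odd_iff.2 hm
  obtain ⟨y, hy⟩ := ho
  have h1 : 0 < y * (y + 1) := mul_pos (by omega) (by omega)
  obtain ⟨k, u, hu, e⟩ := Nat.exists_eq_two_pow_mul_odd (n := (y * (y + 1)).toNat) (by omega)
  have e1 : y * (y + 1) = 2 ^ k * (u : ℤ) := by
    rw [← Int.toNat_of_nonneg h1.le, e]
    push_cast
    rfl
  have h2 : m ^ 2 = 1 + 2 ^ (k + 2) * (u : ℤ) := by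
    rw [hy]
    linear_combination 4 * e1
  have hu' : Odd (u : ℤ) := hu.natCast
  refine ⟨k + 2, fun J L t => ?_⟩
  obtain ⟨i, hi⟩ := h3_hit ⟨y, hy⟩ hu' h2 t J
  obtain ⟨N, hN, w, -, hw⟩ := h3_sq hu' h2 J
  have h4 : (2 : ℤ) ^ (k + 2 + J) ∣ (m ^ N) ^ L - 1 ^ L :=
    Dvd.dvd.trans ⟨w, by rw [hw]; ring⟩ (sub_dvd_pow_sub_pow (m ^ N) 1 L)
  refine ⟨i + N * L, le_add_left (Nat.le_mul_of_pos_left L hN),
    (pow_dvd_pow 2 (by omega : J ≤ k + 2 + J)).trans ?_⟩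
  have h5 := (h4.mul_left (m ^ i)).add hi
  rwa [show m ^ i * ((m ^ N) ^ L - 1 ^ L) + (m ^ i - (1 + 2 ^ (k + 2) * t)) =
    m ^ (i + N * L) - (1 + 2 ^ (k + 2) * t) by ring] at h5

theorem h4_closed (m c n₀ : ℤ) (i : ℕ) :
    (m - 1) * (fun n => m * n + c)^[i] n₀ + c = m ^ i * ((m - 1) * n₀ + c) := by
  induction i with
  | zero => simp
  | succ i ih =>
    rw [Function.iterate_succ_apply', pow_succ]
    linear_combination m * ih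

theorem h4_size {e : ℤ} (he : e = 1 ∨ e = -1) {m c n₀ : ℤ} (h3 : 3 ≤ m) (hc : 0 ≤ c)
    (hc' : c < m) (hn : 2 ≤ e * n₀) (i : ℕ) :
    (i : ℤ) + 2 ≤ e * (fun n => m * n + c)^[i] n₀ := by
  induction i with
  | zero => simpa using hn
  | succ i ih =>
    rw [Function.iterate_succ_apply']
    generalize (fun n => m * n + c)^[i] n₀ = y at ih
    have hi : (0 : ℤ) ≤ i := Int.natCast_nonneg i
    push_cast
    rcases he with rfl | rfl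
    · nlinarith
    · nlinarith

/-- `x i = q g^i n₀ + r`, `(m - 1) (x i - x 0) = V (m ^ i - 1)`, `V = q ((m - 1) n₀ + c) ≠ 0`,
`V = 2 ^ v V'`, `m - 1 = 2 ^ μ m'` with `V'`, `m'` odd, `s = v + τ`. Given `t` take `t'` with
`2 ^ (J + μ) ∣ V' t' - (m - 1) t` and `i` from `pow2` for `J + μ`, `t'`. Size: `i ≤ e * x i`. -/
theorem fam_dense {e : ℤ} (he : e = 1 ∨ e = -1) {q r m c n₀ : ℤ} (hq : 0 < q) (h0 : 0 ≤ r)
    (h1 : r < q) (hm : m % 2 = 1) (h3 : 3 ≤ m) (hc : 0 ≤ c) (hc' : c < m) (hn : 2 ≤ e * n₀) :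
    ∃ s : ℕ, ∀ (J : ℕ) (M t : ℤ), ∃ i : ℕ, M ≤ e * (q * (fun n => m * n + c)^[i] n₀ + r) ∧
      (2 : ℤ) ^ J ∣ q * (fun n => m * n + c)^[i] n₀ + r - (2 ^ s * t + (q * n₀ + r)) := by
  obtain ⟨τ, hτ⟩ := pow2 hm h3
  have hV : q * ((m - 1) * n₀ + c) ≠ 0 := by
    refine mul_ne_zero hq.ne' ?_
    rcases he with rfl | rfl
    · exact ne_of_gt (by nlinarith)
    · exact ne_of_lt (by nlinarith)
  obtain ⟨v, V', hV', eV⟩ := WfDvdMonoid.max_power_factor hV Int.prime_two.irreducible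
  obtain ⟨μ, m', hm', em⟩ := WfDvdMonoid.max_power_factor (a₀ := m - 1) (by omega)
    Int.prime_two.irreducible
  refine ⟨v + τ, fun J M t => ?_⟩
  obtain ⟨a, b, hab⟩ := (Int.prime_two.coprime_iff_not_dvd.2 hV').pow_left (m := J + μ)
  obtain ⟨i, hi, w, hw⟩ := hτ (J + μ) M.toNat (b * (m - 1) * t)
  have h2 := h4_closed m c n₀ i
  have h4 := h4_size he h3 hc hc' hn i
  refine ⟨i, ?_, ?_⟩
  · generalize (fun n => m * n + c)^[i] n₀ = y at h4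
    have h5 : M ≤ i := by omega
    have h6 : (0 : ℤ) ≤ i := Int.natCast_nonneg i
    rcases he with rfl | rfl
    · nlinarith
    · nlinarith
  · generalize (fun n => m * n + c)^[i] n₀ = y at h2
    refine ((Int.prime_two.coprime_iff_not_dvd.2 hm').pow_left (m := J)).dvd_of_dvd_mul_left ?_
    refine (mul_dvd_mul_iff_left (a := (2 : ℤ) ^ μ) (by positivity)).1 ?_
    refine ⟨2 ^ v * V' * w - 2 ^ (v + τ) * a * (m - 1) * t, ?_⟩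
    rw [← mul_assoc, ← em, mul_comm ((2 : ℤ) ^ μ), ← pow_add, pow_add 2 v τ]
    linear_combination q * h2 + (m ^ i - 1) * eV + 2 ^ v * V' * hw +
      2 ^ v * 2 ^ τ * (m - 1) * t * hab

theorem h5_solve {u : ℤ} (hu : Odd u) (n : ℕ) (c : ℤ) : ∃ t : ℤ, (2 : ℤ) ^ n ∣ u * t + c := by
  obtain ⟨k, rfl⟩ := hu
  have h1 : IsCoprime ((2 : ℤ) ^ n) (2 * k + 1) :=
    IsCoprime.pow_left ⟨-k, 1, by ring⟩
  obtain ⟨p, q, h2⟩ := h1
  exact ⟨-(q * c), p * c, by linear_combination (-c) * h2⟩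

theorem h5_iter {S : Set ℤ} {a : ℤ} (hT : ∀ x ∈ S, T a x ∈ S) (n : ℕ) {x : ℤ} (hx : x ∈ S) :
    (T a)^[n] x ∈ S := by
  induction n with
  | zero => exact hx
  | succ n ih => rw [Function.iterate_succ_apply']; exact hT _ ih

theorem h5_sign {a : ℕ} (ha : a = 3 ∨ a = 5) {e : ℤ} (he : e = 1 ∨ e = -1) (n : ℕ) {x : ℤ}
    (hx : 0 < e * x) : 0 < e * (T a)^[n] x := by
  induction n with
  | zero => exact hx
  | succ n ih => rw [Function.iterate_succ_apply']; exact (T_sign ha he _).2 ih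

/-- Choose `t` with `2 ^ (J + 1) ∣ a T^s (2 ^ s t + x₀) + 1` (`iter_aff`; `a ^ (κ + 1)` is odd),
then `x ∈ S` congruent to `2 ^ s t + x₀` modulo `2 ^ (s + J + 1)` and large; `y = T^s x` is odd and
`T y = 2 ^ J w`; `T_unit_of_odd`, `abs_iter`, `n3_sign`. -/
theorem runs {a : ℕ} (ha : a = 3 ∨ a = 5) {e : ℤ} (he : e = 1 ∨ e = -1) {S : Set ℤ}
    (hT : ∀ x ∈ S, T a x ∈ S) {s : ℕ} {x₀ : ℤ} (h : ∀ (J : ℕ) (M t : ℤ), ∃ x ∈ S, M ≤ e * x ∧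
      (2 : ℤ) ^ J ∣ x - (2 ^ s * t + x₀)) (J : ℕ) (M : ℤ) :
    ∃ w : ℤ, ¬ (a : ℤ) ∣ w ∧ M ≤ e * w ∧ 2 ^ J * w ∈ S := by
  have ho : Odd (a : ℤ) := by rcases ha with rfl | rfl <;> decide
  obtain ⟨t, z, hz⟩ := h5_solve (ho.mul (ho.pow (n := odds a s x₀))) (J + 1)
    (a * (T a)^[s] x₀ + 1)
  obtain ⟨x, hx, hM, d, hd⟩ := h (s + (J + 1)) (2 ^ (s + 1) * 2 ^ J * (|M| + 1)) t
  have e1 : x = 2 ^ s * (t + 2 ^ (J + 1) * d) + x₀ := by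
    rw [pow_add] at hd
    linear_combination hd
  have e2 : (a : ℤ) * (T a)^[s] x + 1 =
      2 * (2 ^ J * (z + a * (a : ℤ) ^ odds a s x₀ * d)) := by
    rw [e1, iter_aff ha]
    linear_combination hz
  obtain ⟨w, hw⟩ : ∃ w, z + a * (a : ℤ) ^ odds a s x₀ * d = w := ⟨_, rfl⟩
  rw [hw] at e2
  have e3 : (T a)^[s] x % 2 = 1 := by
    generalize (T a)^[s] x = y at e2
    generalize 2 ^ J * w = u at e2
    rcases ha with rfl | rfl <;> push_cast at e2 <;> omega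
  have e4 : (T a)^[s + 1] x = 2 ^ J * w := by
    rw [Function.iterate_succ_apply', T, if_neg (by omega), e2]
    omega
  have p1 : (0 : ℤ) < 2 ^ (s + 1) * 2 ^ J := by positivity
  have p2 : (0 : ℤ) < |M| + 1 := by positivity
  have p3 : 0 < e * x := (mul_pos p1 p2).trans_le hM
  have p4 := h5_sign ha he (s + 1) p3
  have p5 := abs_iter ha (s + 1) x
  rw [e4] at p4 p5
  refine ⟨w, fun hv => ?_, ?_, e4 ▸ h5_iter hT (s + 1) hx⟩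
  · refine T_unit_of_odd ha e3 ?_
    rw [← Function.iterate_succ_apply' (T a), e4]
    exact hv.mul_left _
  · have q1 : 0 < e * w := by
      rw [mul_left_comm] at p4
      exact (mul_pos_iff_of_pos_left (by positivity)).1 p4
    have q2 : |w| = e * w := by
      rcases he with rfl | rfl
      · rw [one_mul] at q1 ⊢; exact abs_of_pos q1
      · rw [neg_one_mul] at q1 ⊢; exact abs_of_neg (neg_pos.1 q1)
    have q3 : e * x ≤ |x| := by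
      rcases he with rfl | rfl
      · rw [one_mul]; exact le_abs_self x
      · rw [neg_one_mul]; exact neg_le_abs x
    rw [abs_mul, abs_of_pos (by positivity : (0 : ℤ) < 2 ^ J), q2, ← mul_assoc] at p5
    have q4 := le_of_mul_le_mul_left (hM.trans (q3.trans p5)) p1
    have q5 := le_abs_self M
    omega

/-- As `approx` (`t1_add`); `b ^ k = 2 ^ n` would make `b` a power of `2`
(`Nat.dvd_prime_pow`). -/
theorem approxG {b : ℕ} (hb : 2 ≤ b) (h2 : ∀ i, b ≠ 2 ^ i) {ε : ℝ} (hε : 0 < ε) :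
    ∃ m n : ℕ, (2 : ℝ) ^ n < (b : ℝ) ^ m ∧ (b : ℝ) ^ m < (1 + ε) * 2 ^ n := by
  have h0 : (2 : ℝ) ≤ b := by exact_mod_cast hb
  have h1 : ∀ m : ℕ, (2 : ℝ) ^ ((m : ℝ) * Real.logb 2 b) = (b : ℝ) ^ m := fun m => by
    rw [mul_comm, Real.rpow_mul_natCast two_pos.le,
      Real.rpow_logb two_pos (by norm_num) (by linarith)]
  obtain ⟨m, n, -, h4, h5⟩ := t1_add (θ := Real.logb 2 b) (δ := Real.logb 2 (1 + ε))
    (by rw [Real.le_logb_iff_rpow_le one_lt_two (by linarith), Real.rpow_one]; exact h0)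
    (Real.logb_pos one_lt_two (by linarith)) fun k n hk _ e => by
      have h6 := h1 k
      rw [e, Real.rpow_natCast] at h6
      have h7 : 2 ^ n = b ^ k := by exact_mod_cast h6
      obtain ⟨i, -, h8⟩ := (Nat.dvd_prime_pow Nat.prime_two).1 (h7 ▸ dvd_pow_self b hk.ne')
      exact h2 i h8
  refine ⟨m, n, ?_, ?_⟩
  · rw [← h1, ← Real.rpow_natCast]
    exact Real.rpow_lt_rpow_of_exponent_lt one_lt_two h4
  · have h6 := Real.rpow_lt_rpow_of_exponent_lt one_lt_two h5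
    rwa [h1, Real.rpow_add two_pos, Real.rpow_natCast,
      Real.rpow_logb two_pos (by norm_num) (by linarith), mul_comm] at h6

/-- `ρ = b ^ m / 2 ^ n ∈ (1, 1 + 1 / (4 v))`, `b ≤ ρ ^ I`, `J = n I`, `M = b ^ L (v + 1)`; `rotB`
for `y = 2 ^ J |w|` and `v + 1 / 2`; `j = J - n t`; the exponent `-l - m t` is at least `L` because
`2 ^ j |w| ≥ M`. -/
theorem mantG {b : ℕ} (hb : 2 ≤ b) (h2 : ∀ i, b ≠ 2 ^ i) {v : ℤ} (hv : 1 ≤ v) :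
    ∃ J : ℕ, ∀ L : ℕ, ∃ M : ℤ, ∀ w : ℤ, M ≤ |w| → ∃ j l : ℕ, j ≤ J ∧ L ≤ l ∧
      (b : ℤ) ^ l * v < 2 ^ j * |w| ∧ 2 ^ j * |w| < (b : ℤ) ^ l * (v + 1) := by
  have hV : (1 : ℝ) ≤ v := by exact_mod_cast hv
  have hB2 : (2 : ℝ) ≤ b := by exact_mod_cast hb
  have hB1 : (1 : ℝ) < b := by linarith
  have hB0 : (0 : ℝ) < b := by linarith
  obtain ⟨η, hη⟩ : ∃ η : ℝ, η = 1 / (8 * (v + 1)) := ⟨_, rfl⟩
  have hη0 : 0 < η := by rw [hη]; positivity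
  have hη1 : η * (8 * (v + 1)) = 1 := by rw [hη]; field_simp
  obtain ⟨m, n, h1, h3⟩ := approxG hb h2 hη0
  have hn : (0 : ℝ) < 2 ^ n := by positivity
  obtain ⟨ρ, hρ⟩ : ∃ ρ : ℝ, ρ = (b : ℝ) ^ m / 2 ^ n := ⟨_, rfl⟩
  have hρ1 : 1 < ρ := by rw [hρ, one_lt_div hn]; exact h1
  have hρ2 : ρ < 1 + η := by rw [hρ, div_lt_iff₀ hn]; exact h3
  obtain ⟨I, hI⟩ := pow_unbounded_of_one_lt (b : ℝ) hρ1
  refine ⟨n * I, fun L => ⟨(b : ℤ) ^ L * (v + 1), fun w hw => ?_⟩⟩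
  have hw' : (b : ℝ) ^ L * ((v : ℝ) + 1) ≤ |(w : ℝ)| := by exact_mod_cast hw
  have hw0 : (0 : ℝ) < |(w : ℝ)| := lt_of_lt_of_le (by positivity) hw'
  obtain ⟨t, l, ht, h4, h5⟩ := rotB (y := 2 ^ (n * I) * |(w : ℝ)|) (v := v + 1 / 2) hB1 hρ1 hI.le
    (by positivity) (by positivity)
  obtain ⟨q1, q2⟩ := t3_num hV hη1 hη0 hρ1 hρ2 h4 h5
  obtain ⟨j, hj⟩ := Nat.exists_eq_add_of_le (Nat.mul_le_mul_left n ht)
  obtain ⟨Y, hY⟩ : ∃ Y : ℝ, Y = 2 ^ (n * I) * |(w : ℝ)| * ρ ^ t * (b : ℝ) ^ l := ⟨_, rfl⟩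
  rw [← hY] at q1 q2 h4 h5
  have hY0 : 0 < Y := lt_trans (by positivity) h4
  have hηY := mul_pos hη0 hY0
  obtain ⟨e, he⟩ : ∃ e : ℤ, e = -l - (m * t : ℕ) := ⟨_, rfl⟩
  have hE : (0 : ℝ) < (b : ℝ) ^ e := zpow_pos hB0 e
  have key : (2 : ℝ) ^ j * |(w : ℝ)| = (b : ℝ) ^ e * Y := by
    have hl : (b : ℝ) ^ l ≠ 0 := (zpow_pos hB0 l).ne'
    rw [he, hY, hj, zpow_sub₀ hB0.ne', zpow_neg, zpow_natCast, hρ, div_pow, ← pow_mul, ← pow_mul,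
      pow_add]
    field_simp
  have s1 : (b : ℝ) ^ e * v < 2 ^ j * |(w : ℝ)| := by
    rw [key]
    exact mul_lt_mul_of_pos_left (by linarith) hE
  have s2 : 2 ^ j * |(w : ℝ)| < (b : ℝ) ^ e * (v + 1) := by
    rw [key]
    exact mul_lt_mul_of_pos_left (by linarith) hE
  have heL : (L : ℤ) ≤ e := by
    have c1 : |(w : ℝ)| ≤ 2 ^ j * |(w : ℝ)| :=
      le_mul_of_one_le_left hw0.le (one_le_pow₀ one_le_two)
    have c2 : (b : ℝ) ^ L < (b : ℝ) ^ e :=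
      lt_of_mul_lt_mul_right ((hw'.trans c1).trans_lt s2) (by linarith)
    rw [← zpow_natCast] at c2
    exact ((zpow_lt_zpow_iff_right₀ hB1).1 c2).le
  obtain ⟨k, rfl⟩ := Int.eq_ofNat_of_zero_le ((Int.natCast_nonneg L).trans heL)
  rw [zpow_natCast] at s1 s2
  exact ⟨j, k, by omega, by exact_mod_cast heL, by exact_mod_cast s1, by exact_mod_cast s2⟩

end Pool.Agent.Lib.MP_dee342_nt.Au
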