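import Pool.Agent.Lib.MP_dee342_nt.Au.GAB
import Pool.Agent.Lib.MP_dee342_nt.Au.GCo
import Pool.Agent.Lib.MP_dee342_nt.Au.GRun

/-!
The theorem for every base.
-/

set_option autoImplicit false

namespace Pool.Agent.Lib.MP_dee342_nt.Au

open Filter Finset

/-- As `missB`, with `σ` from `exists_autB` for `E` (`AutB.win` with `C = 1`, `AutB.mem`);
`x ↦ b ^ j x + w` tends to `F` by `hb` iterated and `Fil.add`. -/
theorem missG {a : ℕ} (ha : a = 3 ∨ a = 5) {e : ℤ} (he : e = 1 ∨ e = -1) {F : Filter ℤ}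
    (hF : Fil a e F) {b : ℕ} (hb0 : 0 < b) (hb : Tendsto (fun x => (b : ℤ) * x) F F) {E : Set ℤ}
    (hE : Automatic b E) (h : ∀ᶠ x in F, x ∉ E) :
    ∃ u : ℤ, 2 ≤ e * u ∧ ∀ (l : ℕ) (x : ℤ), (b : ℤ) ^ l * u ≤ x → x < (b : ℤ) ^ l * (u + 1) →
      x ∉ E := by
  obtain ⟨Q, _, σ, hσ⟩ := exists_autB ha hE
  have hp : ∀ j : ℕ, Tendsto (fun x => (b : ℤ) ^ j * x) F F := by
    intro j
    induction j with
    | zero => exact tendsto_id.congr fun x => by rw [pow_zero, one_mul, id]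
    | succ j ih => exact (ih.comp hb).congr fun x => by rw [pow_succ, mul_assoc]; rfl
  by_contra hno
  have h1 : ∀ᶠ x in F, ∀ q : Q, 2 ≤ e * x → σ x ≠ q := by
    rw [eventually_all]
    intro q
    by_cases hq : ∃ u, 2 ≤ e * u ∧ σ u = q
    · obtain ⟨u, hu, rfl⟩ := hq
      obtain ⟨j, y, h2, h3, h4⟩ : ∃ (j : ℕ) (y : ℤ), (b : ℤ) ^ j * u ≤ y ∧
          y < (b : ℤ) ^ j * (u + 1) ∧ y ∈ E := by
        by_contra hc
        exact hno ⟨u, hu, fun j y h2 h3 h4 => hc ⟨j, y, h2, h3, h4⟩⟩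
      refine (((hF.add (y - (b : ℤ) ^ j * u)).comp (hp j)).eventually h).mono
        fun x hx _ h5 => hx ?_
      have h6 := hσ.win hb0 (C := 1) (x := u) (y := x)
        (fun p p0 p1 => by rw [show p = 0 by omega, add_zero, add_zero, h5]) j
        (y - (b : ℤ) ^ j * u) (sub_nonneg.2 h2) (by linarith)
      exact hσ.mem _ _ h6 (by rwa [add_sub_cancel])
    · exact Eventually.of_forall fun x hx h2 => hq ⟨x, hx, h2⟩
  have := hF.ne
  obtain ⟨x, h2, h3⟩ := (h1.and (hF.large he 2)).exists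
  exact h2 _ h3 rfl

/-- `v` as in `n3_lev`; `X₀` from `anc_dense`, `J` from `mantG`, `L` with `X₀ ≤ 2 ^ L`, `M`, then
`w` from `hrun`; `2 ^ j w ∈ S` (`iter_two_pow`, `n3_iter`) is a unit in an interval of level
`l ≥ L`; `anc_dense` with `X = b ^ l v` gives a unit `z` of sign `e` in it whose orbit contains
`m`; on the interval membership of units is constant (`c4_chain` or induction on the distance). -/
theorem fullG {a : ℕ} (ha : a = 3 ∨ a = 5) {e : ℤ} (he : e = 1 ∨ e = -1) {S : Set ℤ}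
    (hT : ∀ x ∈ S, T a x ∈ S) {b : ℕ} (hb : 2 ≤ b) (h2 : ∀ i, b ≠ 2 ^ i) {u : ℤ}
    (hu : 2 ≤ e * u) (hc : ∀ (l : ℕ) (x : ℤ), (b : ℤ) ^ l * u ≤ x → x < (b : ℤ) ^ l * (u + 1) →
      x ∉ Eset a S 1 ∪ Eset a S 2)
    (hrun : ∀ (J : ℕ) (M : ℤ), ∃ w : ℤ, ¬ (a : ℤ) ∣ w ∧ M ≤ e * w ∧ 2 ^ J * w ∈ S)
    {m : ℤ} (hm : 0 < e * m) (hma : ¬ (a : ℤ) ∣ m) : m ∈ S := by
  obtain ⟨v, hv, hlev⟩ := n3_lev he hu
  obtain ⟨X₀, hX⟩ := anc_dense ha hma hv
  obtain ⟨L, hL⟩ := pow_unbounded_of_one_lt X₀ (one_lt_two (α := ℤ))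
  obtain ⟨J, h1⟩ := mantG hb h2 hv
  obtain ⟨M, h1⟩ := h1 L
  obtain ⟨w, c1, c2, c3⟩ := hrun J (max M 1)
  have c4 : 0 < e * w := (le_max_right M 1).trans c2
  have c5 : M ≤ |w| := by
    have c6 := (le_max_left M 1).trans c2
    have c7 := le_abs_self w
    have c8 := neg_le_abs w
    rcases he with rfl | rfl <;> omega
  obtain ⟨j, l, e1, e4, e5, e6⟩ := h1 w c5
  have hp : (0 : ℤ) < 2 ^ j := by positivity
  have d5 := n3_iter hT (J - j) c3
  rw [← Nat.sub_add_cancel e1, pow_add, mul_assoc, Nat.add_sub_cancel, iter_two_pow] at d5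
  have d6 : 0 < e * (2 ^ j * w) := by
    rw [mul_left_comm]
    exact mul_pos hp c4
  have d7 := n3_unit ha j c1
  rw [← abs_of_pos hp, ← abs_mul] at e5 e6
  generalize 2 ^ j * w = y at e5 e6 d5 d6 d7
  have hP : 2 ^ L ≤ (b : ℤ) ^ l := (pow_le_pow_right₀ one_le_two e4).trans
    (pow_le_pow_left₀ zero_le_two (by exact_mod_cast hb) l)
  replace hc := hc l
  generalize (b : ℤ) ^ l = P at e5 e6 hP hc
  have hd : ∀ x y, P * u ≤ x → x ≤ y → y < P * (u + 1) → ¬ (a : ℤ) ∣ x → ¬ (a : ℤ) ∣ y →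
      (x ∈ S ↔ y ∈ S) := fun x y g1 g2 g3 => by
    refine c4_chain ha (fun z d k1 k2 k3 k4 k5 => ?_) g1 g2
    by_contra k6
    have k7 : z ∈ Eset a S d := ⟨k4, k5, fun k => k6 k.symm⟩
    rcases k3 with rfl | rfl
    · exact hc z k1 (k2.trans_lt g3) (Or.inl k7)
    · exact hc z k1 (k2.trans_lt g3) (Or.inr k7)
  have hP0 : 0 < P := (pow_pos two_pos L).trans_le hP
  obtain ⟨z, n, f1, f2, f3, f4⟩ := hX (P * v)
    ((hL.le.trans hP).trans (le_mul_of_one_le_right hP0.le hv))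
  have g1 := hlev P y d6 e5 e6
  have g2 := hlev P z ((n3_sign ha he n z).1 (f1.symm ▸ hm)) f3
    (lt_of_mul_lt_mul_left (a := v) (f4.trans_eq (by ring)) (by omega))
  have g3 : z ∈ S := by
    rcases le_total y z with h | h
    · exact (hd _ _ g1.1 h g2.2 d7 f2).1 d5
    · exact (hd _ _ g2.1 h g1.2 f2 d7).2 d5
  exact f1 ▸ n3_iter hT n g3

theorem mainG {a : ℕ} (ha : a = 3 ∨ a = 5) {b : ℕ} (hb : 2 ≤ b) {S : Set ℤ}
    (hS : Automatic b S) (hT : ∀ x ∈ S, T a x ∈ S) {e : ℤ} (he : e = 1 ∨ e = -1) :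
    (∀ m : ℤ, 0 < e * m → ¬ (a : ℤ) ∣ m → m ∈ S) ∨
      ({x | x ∈ S ∧ 0 < e * x ∧ x ∈ Function.periodicPts (T a)}.Finite ∧
        (∃ K : ℕ, ∀ x ∈ S, 0 < e * x →
          ∃ j, (T a)^[j] x ∈ Function.periodicPts (T a) ∧ odds a j x ≤ K) ∧
        ((∀ i, b ≠ 2 ^ i) → {x | x ∈ S ∧ 0 < e * x}.Finite)) := by
  by_cases h2 : ∀ i, b ≠ 2 ^ i
  swap
  · push Not at h2
    obtain ⟨i, rfl⟩ := h2
    refine (main2 ha (auto2_of (Nat.pos_of_ne_zero ?_) hS) hT he).imp id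
      fun h => ⟨h.1, h.2, fun h' => absurd rfl (h' i)⟩
    rintro rfl
    simp at hb
  have ha0 : 0 < a := by omega
  have hap : a.Prime := by rcases ha with rfl | rfl <;> norm_num
  by_cases hinf : ∀ M : ℤ, ∃ x ∈ S, M ≤ e * x
  · obtain ⟨α, b₁, hb₁, hbb⟩ := Nat.exists_eq_pow_mul_and_not_dvd (by omega : b ≠ 0) 2 (by norm_num)
    have h3 : 3 ≤ b₁ := by
      have : b₁ ≠ 1 := fun h => h2 α (by rw [hbb, h, mul_one])
      omega
    obtain ⟨q, r, m', c, n₀, hq, h0, h1, hm', h3', hc, hc', hn, hfam⟩ :=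
      fam ha he h3 (by omega) (hbb ▸ hS) hT hinf
    obtain ⟨s, hs⟩ := fam_dense he hq h0 h1 hm' h3' hc hc' hn
    have hrun := runs ha he hT (s := s) (x₀ := q * n₀ + r) fun J M t => by
      obtain ⟨i, h4, h5⟩ := hs J M t
      exact ⟨_, hfam i, h4, h5⟩
    obtain ⟨m, hI⟩ := exists_meanG ha0 he b
    have hab := abG ha m hT (ball m hb hI hap m.inv_a (auto_D ha hS))
    have hE := fun d => relG ha m hab d (ball m hb hI Nat.prime_two m.inv_two (auto_E ha hS d))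
    obtain ⟨u, hu, hc⟩ := missG ha he (m.fil ha0) (by omega)
      ((hI b (by omega) le_rfl).tendsto (by omega)) (auto_union (auto_E ha hS 1) (auto_E ha hS 2))
      (((hE 1).and (hE 2)).mono fun x hx h => h.elim hx.1 hx.2)
    exact Or.inl fun y hy hya => fullG ha he hT hb h2 hu hc hrun hy hya
  · push Not at hinf
    obtain ⟨M, h⟩ := hinf
    have h1 : ∀ x ∈ S, 0 < e * x → |x| < M := fun x hx hx' => by
      have := h x hx
      rcases he with rfl | rfl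
      · simpa [abs_of_pos (by simpa using hx' : 0 < x)] using this
      · simpa [abs_of_neg (by simpa using hx' : x < 0)] using this
    have h3 := bounded ha he hT (K := 0) (M := M) fun x hx hx' =>
      ⟨0, h1 x hx hx', by simp [odds_zero]⟩
    exact Or.inr ⟨h3.1, h3.2, fun _ => (Set.finite_Ioo (-M) M).subset fun x hx =>
      abs_lt.1 (h1 x hx.1 hx.2)⟩

end Pool.Agent.Lib.MP_dee342_nt.Au
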