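import Pool.Agent.Lib.MP_dee342_nt.Au.GMean

/-!
Equidistribution modulo powers of a prime not dividing the base.
-/

set_option autoImplicit false

namespace Pool.Agent.Lib.MP_dee342_nt.Au

open Filter Finset

theorem d6_sum {G : Type} [CommRing G] [Fintype G] (h u : G) (hh : u * h = 1) (t : G)
    (F : G × G → ℝ) : ∑ p : G × G, F (h * (p.1 - t), h * p.2) = ∑ p, F p := by
  refine Fintype.sum_equiv ⟨fun p => (h * (p.1 - t), h * p.2),
    fun q => (u * q.1 + t, u * q.2), fun p => ?_, fun q => ?_⟩ _ _ fun p => rfl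
  · refine Prod.ext ?_ ?_
    · show u * (h * (p.1 - t)) + t = p.1
      linear_combination (p.1 - t) * hh
    · show u * (h * p.2) = p.2
      linear_combination p.2 * hh
  · refine Prod.ext ?_ ?_
    · show h * (u * q.1 + t - t) = q.1
      linear_combination q.1 * hh
    · show h * (u * q.2) = q.2
      linear_combination q.2 * hh

theorem d6_var {b : ℕ} (x : ℕ → ℝ) (y : ℝ) (hy : ∑ j ∈ range b, x j = b * y) :
    ∑ j ∈ range b, (x j - y) ^ 2 = ∑ j ∈ range b, x j ^ 2 - b * y ^ 2 := by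
  have h1 : ∀ j, (x j - y) ^ 2 = x j ^ 2 - 2 * y * x j + y ^ 2 := fun j => by ring
  simp only [h1, sum_add_distrib, sum_sub_distrib, ← mul_sum, sum_const, card_range,
    nsmul_eq_mul, hy]
  ring

/-- As `flat_step`, with `b` terms: with `y` the average of the `x i`,
`∑ y ^ 2 = (∑ i, ∑ x i ^ 2) / b - (∑ i, ∑ (x i - y) ^ 2) / b`. -/
theorem flat_stepG {G K : Type} [CommRing G] [Fintype G] {b : ℕ} (act : K → ℕ → K)
    (V : K → G → ℝ) (h c : G) (hh : (b : G) * h = 1)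
    (hV : ∀ A r, V A r = (∑ i ∈ range b, V (act A i) (h * (r - i))) / b) (A : K)
    (hA : ∀ B, ∑ p : G × G, (V B (p.1 + c * p.2) - V B p.1) ^ 2 ≤
      ∑ p : G × G, (V A (p.1 + c * p.2) - V A p.1) ^ 2) (i : ℕ) (hi : i < b) :
    (∑ p : G × G, (V (act A i) (p.1 + c * p.2) - V (act A i) p.1) ^ 2 =
      ∑ p : G × G, (V A (p.1 + c * p.2) - V A p.1) ^ 2) ∧
    ∀ r d, V A (r + c * d) - V A r =
      V (act A i) (h * (r - i) + c * (h * d)) - V (act A i) (h * (r - i)) := by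
  obtain ⟨x, hx⟩ : ∃ x : ℕ → G × G → ℝ, ∀ j p, x j p =
      V (act A j) (h * (p.1 - j) + c * (h * p.2)) - V (act A j) (h * (p.1 - j)) :=
    ⟨_, fun _ _ => rfl⟩
  obtain ⟨y, hy⟩ : ∃ y : G × G → ℝ, ∀ p, y p = V A (p.1 + c * p.2) - V A p.1 := ⟨_, fun _ => rfl⟩
  obtain ⟨E, hE⟩ : ∃ E : K → ℝ, ∀ B, E B = ∑ p : G × G, (V B (p.1 + c * p.2) - V B p.1) ^ 2 :=
    ⟨_, fun _ => rfl⟩
  have hb : (0 : ℝ) < b := by exact_mod_cast (Nat.zero_le i).trans_lt hi
  have hU : ∀ p : G × G, ∑ j ∈ range b, x j p = b * y p := fun p => by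
    rw [hy, hV A (p.1 + c * p.2), hV A p.1, ← sub_div, mul_div_cancel₀ _ hb.ne', ← sum_sub_distrib]
    refine sum_congr rfl fun j _ => ?_
    rw [hx, show h * (p.1 - j) + c * (h * p.2) = h * (p.1 + c * p.2 - j) by ring]
  have e0 : ∀ j, ∑ p, x j p ^ 2 = E (act A j) := fun j => by
    simp only [hx, hE]
    exact d6_sum h b hh j fun p => (V (act A j) (p.1 + c * p.2) - V (act A j) p.1) ^ 2
  have e1 : ∑ p, y p ^ 2 = E A := by simp only [hy, hE]
  have e2 : ∑ p, ∑ j ∈ range b, (x j p - y p) ^ 2 = ∑ j ∈ range b, E (act A j) - b * E A := by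
    rw [sum_congr rfl fun p _ => d6_var (fun j => x j p) (y p) (hU p), sum_sub_distrib, ← mul_sum,
      e1, sum_comm]
    simp only [e0]
  have h0 : ∑ j ∈ range b, E (act A j) ≤ b * E A := by
    have h1 := sum_le_sum (s := range b) (f := fun j => E (act A j)) (g := fun _ => E A)
      fun j _ => by rw [hE, hE]; exact hA _
    rwa [sum_const, card_range, nsmul_eq_mul] at h1
  have h2 : ∀ p ∈ (univ : Finset (G × G)), 0 ≤ ∑ j ∈ range b, (x j p - y p) ^ 2 :=
    fun p _ => sum_nonneg fun j _ => sq_nonneg _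
  have h3 : ∑ p, ∑ j ∈ range b, (x j p - y p) ^ 2 = 0 :=
    le_antisymm (by linarith) (sum_nonneg h2)
  have h4 : ∀ p, x i p = y p := fun p => sub_eq_zero.1 (pow_eq_zero_iff two_ne_zero |>.1
    ((sum_eq_zero_iff_of_nonneg fun j _ => sq_nonneg _).1
      ((sum_eq_zero_iff_of_nonneg h2).1 h3 p (mem_univ p)) i (mem_range.2 hi)))
  refine ⟨?_, fun r d => ?_⟩
  · rw [← hE, ← hE, ← e0, ← e1]
    simp only [h4]
  · have h5 := h4 (r, d)
    rw [hx, hy] at h5
    exact h5.symm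

/-- As `per_pow`. -/
theorem per_powG {p k s : ℕ} (hp : p.Prime) (hs : 0 < s) (hlt : s < p ^ (k + 1))
    (u : ZMod (p ^ (k + 1)) → ℝ) (hu : ∀ r, u (r + s) = u r) (r d : ZMod (p ^ (k + 1))) :
    u (r + (p : ZMod (p ^ (k + 1))) ^ k * d) = u r := by
  have : NeZero (p ^ (k + 1)) := ⟨pow_ne_zero _ hp.ne_zero⟩
  have h1 : ∀ (m : ℕ) r, u (r + m * s) = u r := fun m r => by
    induction m with
    | zero => simp
    | succ m ih => rw [Nat.cast_succ, add_mul, one_mul, ← add_assoc, hu, ih]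
  obtain ⟨i, f, hf, rfl⟩ := Nat.exists_eq_pow_mul_and_not_dvd hs.ne' p hp.ne_one
  have hi : i < k + 1 := (Nat.pow_lt_pow_iff_right hp.one_lt).1
    ((Nat.le_mul_of_pos_right _ (Nat.pos_of_mul_pos_left hs)).trans_lt hlt)
  obtain ⟨l, rfl⟩ := Nat.exists_eq_add_of_le (Nat.lt_succ_iff.1 hi)
  obtain ⟨g, hg⟩ := ((ZMod.isUnit_iff_coprime f (p ^ (i + l + 1))).2
    (Nat.Coprime.pow_right _ ((Nat.Prime.coprime_iff_not_dvd hp).2 hf).symm)).exists_right_inv
  have h2 := h1 ((p : ZMod (p ^ (i + l + 1))) ^ l * d * g).val r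
  rw [ZMod.natCast_zmod_val] at h2
  rw [← h2]
  congr 2
  push_cast
  linear_combination (-(p : ZMod (p ^ (i + l + 1))) ^ (i + l) * d) * hg

/-- As `flat`, with `b ^ j` for `2 ^ j`. -/
theorem flatG {p k b : ℕ} (hp : p.Prime) (hb : 2 ≤ b) {K : Type} [Fintype K]
    (hK : Fintype.card K < p ^ (k + 1)) (act : K → ℕ → K) (V : K → ZMod (p ^ (k + 1)) → ℝ)
    (h : ZMod (p ^ (k + 1))) (hh : (b : ZMod (p ^ (k + 1))) * h = 1)
    (hV : ∀ A r, V A r = (∑ i ∈ range b, V (act A i) (h * (r - i))) / b) (A : K)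
    (r : ZMod (p ^ (k + 1))) : V A (r + (p : ZMod (p ^ (k + 1))) ^ k) = V A r := by
  have : NeZero (p ^ (k + 1)) := ⟨pow_ne_zero _ hp.ne_zero⟩
  have : Nonempty K := ⟨A⟩
  have hc : (p : ZMod (p ^ (k + 1))) ^ k * p = 0 := by
    rw [← pow_succ, ← Nat.cast_pow, ZMod.natCast_self]
  have hper := fun s hs hlt u hu r d => per_powG (k := k) (s := s) hp hs hlt u hu r d
  generalize (p : ZMod (p ^ (k + 1))) ^ k = c at hc hper ⊢
  obtain ⟨A₀, h0⟩ := Finite.exists_max fun B => ∑ q : ZMod (p ^ (k + 1)) × ZMod (p ^ (k + 1)),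
    (V B (q.1 + c * q.2) - V B q.1) ^ 2
  have h1 : ∀ j : ℕ, ∀ w < b ^ j, ∃ B, (∀ B', ∑ q : ZMod (p ^ (k + 1)) × ZMod (p ^ (k + 1)),
      (V B' (q.1 + c * q.2) - V B' q.1) ^ 2 ≤ ∑ q : ZMod (p ^ (k + 1)) × ZMod (p ^ (k + 1)),
      (V B (q.1 + c * q.2) - V B q.1) ^ 2) ∧ ∀ r d, V A₀ (r + c * d) - V A₀ r =
        V B (h ^ j * (r - (w : ℕ)) + c * (h ^ j * d)) - V B (h ^ j * (r - (w : ℕ))) := fun j => by
    induction j with
    | zero =>
      intro w hw
      obtain rfl : w = 0 := by simpa using hw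
      exact ⟨A₀, h0, fun r d => by simp⟩
    | succ j ih =>
      intro w hw
      obtain ⟨B, b1, b2⟩ := ih (w % b ^ j) (Nat.mod_lt _ (by positivity))
      obtain ⟨b3, b4⟩ := flat_stepG act V h c hh hV B b1 (w / b ^ j)
        (Nat.div_lt_of_lt_mul (by rwa [← pow_succ]))
      refine ⟨_, fun B' => (b1 B').trans b3.ge, fun r d => ?_⟩
      have e1 : (w : ZMod (p ^ (k + 1))) = b ^ j * (w / b ^ j : ℕ) + (w % b ^ j : ℕ) := by
        conv_lhs => rw [← Nat.div_add_mod w (b ^ j)]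
        push_cast
        rfl
      have e2 : (b : ZMod (p ^ (k + 1))) ^ j * h ^ j = 1 := by rw [← mul_pow, hh, one_pow]
      have e3 : h * (h ^ j * (r - (w % b ^ j : ℕ)) - (w / b ^ j : ℕ)) = h ^ (j + 1) * (r - w) := by
        linear_combination (h ^ (j + 1)) * e1 + (h * (w / b ^ j : ℕ)) * e2
      rw [b2, b4, e3, ← mul_assoc h, ← pow_succ']
  choose B b1 b2 using fun w : Fin (Fintype.card K + 1) =>
    h1 (Fintype.card K) w ((Nat.lt_succ_iff.1 w.2).trans_lt (Nat.lt_pow_self hb))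
  obtain ⟨x, y, hxy, e⟩ : ∃ x y, x < y ∧ B x = B y := by
    obtain ⟨x, y, h2, h3⟩ := Fintype.exists_ne_map_eq_of_card_lt B (by simp)
    exact h2.lt_or_gt.elim (fun h => ⟨x, y, h, h3⟩) fun h => ⟨y, x, h, h3.symm⟩
  have h2 : ∀ r d, V A₀ (r + c * d) - V A₀ r = 0 := fun r d => by
    have h3 := hper (y - x) (Nat.sub_pos_of_lt hxy) (by omega)
      (fun r => V A₀ (r + c * d) - V A₀ r) (fun r => by
        rw [b2 y, b2 x, e, Nat.cast_sub (le_of_lt hxy), show ∀ u v : ZMod (p ^ (k + 1)),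
          r + (u - v) - u = r - v from fun u v => by ring]) r
    have h4 : ∀ i : ℕ, V A₀ (r + c * (i * d)) - V A₀ r = i * (V A₀ (r + c * d) - V A₀ r) :=
      fun i => by
        induction i with
        | zero => simp
        | succ i ih =>
          have h5 := h3 (i * d)
          rw [show r + c * ((i + 1 : ℕ) * d) = r + c * (i * d) + c * d by push_cast; ring]
          push_cast
          linarith
    have h5 := h4 p
    rw [← mul_assoc, hc, zero_mul, add_zero, sub_self, zero_eq_mul] at h5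
    exact h5.resolve_left (Nat.cast_ne_zero.2 hp.ne_zero)
  have h3 := h0 A
  simp only [h2, ne_eq, OfNat.ofNat_ne_zero, not_false_eq_true, zero_pow, sum_const_zero] at h3
  have h4 := (single_le_sum (f := fun q : ZMod (p ^ (k + 1)) × ZMod (p ^ (k + 1)) =>
    (V A (q.1 + c * q.2) - V A q.1) ^ 2) (fun q _ => sq_nonneg _) (mem_univ (r, 1))).trans h3
  rw [mul_one] at h4
  exact sub_eq_zero.1 (pow_eq_zero_iff two_ne_zero |>.1 (le_antisymm h4 (sq_nonneg _)))

/-- For `q` prime to `b`, `ρ ↦ (q ρ + r) % b` permutes `range b` and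
`q (b n + ρ) + r = b (q n + (q ρ + r) / b) + (q ρ + r) % b`. -/
theorem split_cop {a : ℕ} {e : ℤ} (m : Mean a e) {b q : ℕ} (hb : 0 < b) (hI : m.Inv b)
    (hq : Nat.Coprime q b) (A : Set ℤ) (r : ℤ) (s : ℕ → ℤ)
    (hs : ∀ i, (q : ℤ) ∣ b * s i + i - r) :
    m.μ {n | (q : ℤ) * n + r ∈ A} =
      (∑ i ∈ range b, m.μ {n | (b : ℤ) * (q * n + s i) + i ∈ A}) / b := by
  choose t ht using hs
  have hb' : (0 : ℤ) < b := by exact_mod_cast hb
  have h0 : ∀ i, (((t i % b).toNat : ℕ) : ℤ) = t i % b := fun i =>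
    Int.toNat_of_nonneg (Int.emod_nonneg _ hb'.ne')
  have hinj : Set.InjOn (fun i => (t i % b).toNat) (range b : Set ℕ) := by
    intro i hi j hj hij
    have h1 : t i % b = t j % b := by rw [← h0 i, ← h0 j]; exact congrArg _ hij
    obtain ⟨c, hc⟩ := Int.ModEq.dvd h1
    have h2 : (b : ℤ) ∣ (j : ℤ) - i :=
      ⟨q * c - s j + s i, by linear_combination ht j - ht i + (q : ℤ) * hc⟩
    have hi' : i < b := by simpa using hi
    have hj' : j < b := by simpa using hj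
    have h3 := Int.eq_zero_of_abs_lt_dvd h2 (by rw [abs_lt]; constructor <;> omega)
    omega
  have himg : (range b).image (fun i => (t i % b).toNat) = range b := by
    refine eq_of_subset_of_card_le (fun x hx => ?_) (card_image_of_injOn hinj).ge
    obtain ⟨i, -, rfl⟩ := mem_image.1 hx
    have := Int.emod_lt_of_pos (t i) hb'
    rw [← h0] at this
    exact mem_range.2 (by exact_mod_cast this)
  rw [hI]
  congr 1
  conv_lhs => rw [← himg, sum_image hinj]
  refine sum_congr rfl fun i _ => ?_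
  rw [← m.shift_int {n | (b : ℤ) * (q * n + s i) + i ∈ A} (-(t i / b))]
  congr 1
  ext n
  have e : (q : ℤ) * (b * n + t i % b) + r = b * (q * (n + -(t i / b)) + s i) + i := by
    linear_combination (q : ℤ) * Int.emod_add_mul_ediv (t i) b - ht i
  simp only [Set.mem_ofPred_eq, h0, e]

/-- The kernel is closed under reading one more digit. -/
theorem d9_cl {b : ℕ} {D A : Set ℤ}
    (hA : A ∈ {A : Set ℤ | ∃ (k : ℕ) (r : ℤ), 0 ≤ r ∧ r < (b : ℤ) ^ k ∧
      A = {n | (b : ℤ) ^ k * n + r ∈ D}}) {i : ℕ} (hi : i < b) :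
    {n | (b : ℤ) * n + i ∈ A} ∈ {A : Set ℤ | ∃ (k : ℕ) (r : ℤ), 0 ≤ r ∧ r < (b : ℤ) ^ k ∧
      A = {n | (b : ℤ) ^ k * n + r ∈ D}} := by
  obtain ⟨k, r, h0, h1, rfl⟩ := hA
  have h2 : (i : ℤ) + 1 ≤ b := by exact_mod_cast hi
  have h3 : (0 : ℤ) ≤ (b : ℤ) ^ k := by positivity
  refine ⟨k + 1, (b : ℤ) ^ k * i + r, by positivity, ?_, Set.ext fun n => ?_⟩
  · have h4 := mul_le_mul_of_nonneg_left h2 h3
    rw [pow_succ]
    linarith
  · simp only [Set.mem_ofPred_eq]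
    rw [show (b : ℤ) ^ (k + 1) * n + ((b : ℤ) ^ k * i + r) = (b : ℤ) ^ k * (b * n + i) + r by ring]

/-- `flatG` for the kernel `K` of `D` as a finite type (`act A i = {n | b n + i ∈ A}` for `i < b`,
see `exists_autB`; `A` otherwise), `V A r = μ {n | q n + r.cast ∈ A}`, `q = p ^ (k + 1)`,
`k₀ = card K`; `hV` is `split_cop`; compare `equi_step`. -/
theorem equiG {a : ℕ} {e : ℤ} (m : Mean a e) {b p : ℕ} (hb : 2 ≤ b) (hI : m.Inv b) (hp : p.Prime)
    (hpb : ¬ p ∣ b) {D : Set ℤ} (hD : Automatic b D) : ∃ k₀ : ℕ, ∀ k, k₀ ≤ k → ∀ r : ℤ,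
      m.μ {n | (p : ℤ) ^ (k + 1) * n + (r + (p : ℤ) ^ k) ∈ D} =
        m.μ {n | (p : ℤ) ^ (k + 1) * n + r ∈ D} := by
  classical
  let K : Set (Set ℤ) := {A : Set ℤ | ∃ (k : ℕ) (r : ℤ), 0 ≤ r ∧ r < (b : ℤ) ^ k ∧
    A = {n | (b : ℤ) ^ k * n + r ∈ D}}
  have hfin : K.Finite := hD
  have : Fintype K := hfin.fintype
  refine ⟨Fintype.card K, fun k hk r => ?_⟩
  have : NeZero (p ^ (k + 1)) := ⟨pow_ne_zero _ hp.ne_zero⟩
  have hcop : Nat.Coprime (p ^ (k + 1)) b :=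
    Nat.Coprime.pow_left _ ((Nat.Prime.coprime_iff_not_dvd hp).2 hpb)
  obtain ⟨h, hh⟩ := ((ZMod.isUnit_iff_coprime b (p ^ (k + 1))).2 hcop.symm).exists_right_inv
  let W : Set ℤ → ℤ → ℝ := fun A x => m.μ {n | (p : ℤ) ^ (k + 1) * n + x ∈ A}
  have hW : ∀ A (x y : ℤ), (x : ZMod (p ^ (k + 1))) = y → W A x = W A y := fun A x y e => by
    obtain ⟨t, ht⟩ := (ZMod.intCast_eq_intCast_iff_dvd_sub x y _).1 e
    refine (m.shift_int _ t).symm.trans (congrArg m.μ (Set.ext fun n => ?_))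
    push_cast at ht
    simp only [Set.mem_ofPred_eq]
    rw [show (p : ℤ) ^ (k + 1) * (n + t) + x = (p : ℤ) ^ (k + 1) * n + y by linarith]
  let act : K → ℕ → K := fun A i =>
    if hi : i < b then ⟨{n | (b : ℤ) * n + i ∈ A.1}, d9_cl A.2 hi⟩ else A
  have hK : Fintype.card K < p ^ (k + 1) :=
    (Nat.lt_succ_of_le hk).trans (Nat.lt_pow_self hp.one_lt)
  have key := flatG hp hb (K := K) hK act (fun A x => W A.1 x.val) h hh (fun A x => by
      have h1 := split_cop m (by omega) hI hcop A.1 (x.val : ℤ)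
        (fun i => ((h * (x - i)).val : ℤ)) fun i => by
          refine (ZMod.intCast_zmod_eq_zero_iff_dvd _ _).1 ?_
          push_cast
          simp only [ZMod.natCast_zmod_val]
          linear_combination (x - i) * hh
      rw [Nat.cast_pow] at h1
      refine h1.trans (congrArg (· / (b : ℝ)) (sum_congr rfl fun i hi => ?_))
      simp only [act, dif_pos (mem_range.1 hi)]
      rfl) ⟨D, 0, 0, le_rfl, by simp, by simp⟩ r
  exact (hW D _ _ (by simp)).trans (key.trans (hW D _ _ (by simp)))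

end Pool.Agent.Lib.MP_dee342_nt.Au
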