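import Pool.Agent.Lib.MP_dee342_nt.Au.BEnd

/-!
Means invariant under averaging over the last digit in further bases.
-/

set_option autoImplicit false

namespace Pool.Agent.Lib.MP_dee342_nt.Au

open Filter Finset

/-- Invariance under averaging over the last digit in base `q`. -/
def Mean.Inv {a : ℕ} {e : ℤ} (m : Mean a e) (q : ℕ) : Prop :=
  ∀ A, m.μ A = (∑ r ∈ range q, m.μ {n | (q : ℤ) * n + r ∈ A}) / q

variable {a : ℕ} {e : ℤ}

theorem Mean.inv_one (m : Mean a e) : m.Inv 1 := by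
  intro A
  simp

theorem Mean.inv_two (m : Mean a e) : m.Inv 2 := by
  intro A
  rw [m.two A]
  simp [sum_range_succ]

theorem Mean.inv_a (m : Mean a e) : m.Inv a := m.mula

/-- Reindex `range (q * q')` as in `Wf_mul`: `q (q' n + s) + r = q q' n + (q s + r)`. -/
theorem Mean.Inv.mul {m : Mean a e} {q q' : ℕ} (hq : 0 < q) (hq' : 0 < q') (h : m.Inv q)
    (h' : m.Inv q') : m.Inv (q * q') := by
  intro A
  have h1 := w1_sum 0 q' q fun x => m.μ {n | ((q * q' : ℕ) : ℤ) * n + x ∈ A}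
  simp only [mul_zero, zero_add] at h1
  have h2 : ∀ (r s : ℕ) (n : ℤ), ((q * q' : ℕ) : ℤ) * n + (q * s + r) = q * (q' * n + s) + r :=
    fun r s n => by
      push_cast
      ring
  rw [show range (q * q') = range (q' * q) by rw [mul_comm], h1, sum_comm, h A,
    sum_congr rfl fun r _ => h' _, ← sum_div, div_div, Nat.cast_mul (α := ℝ) q q',
    mul_comm (q : ℝ)]
  simp only [h2, Set.mem_ofPred_eq]

theorem Mean.Inv.pow {m : Mean a e} {q : ℕ} (hq : 0 < q) (h : m.Inv q) (k : ℕ) :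
    m.Inv (q ^ k) := by
  induction k with
  | zero => exact m.inv_one
  | succ k ih => exact ih.mul (pow_pos hq k) hq h

theorem Mean.Inv.le_of {m : Mean a e} {q : ℕ} (hq : 0 < q) (h : m.Inv q) {A : Set ℤ} {M : ℝ}
    (hM : ∀ r : ℤ, m.μ {n | (q : ℤ) * n + r ∈ A} ≤ M) : m.μ A ≤ M := by
  rw [h A, div_le_iff₀' (Nat.cast_pos.2 hq)]
  simpa using sum_le_card_nsmul (range q) (fun r : ℕ => m.μ {n | (q : ℤ) * n + r ∈ A}) M
    fun r _ => hM r

theorem d1_mod (m : Mean a e) {q : ℕ} (hq : 0 < q) (A : Set ℤ) (r : ℤ) :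
    ∃ s ∈ range q, m.μ {n | (q : ℤ) * n + r ∈ A} = m.μ {n | (q : ℤ) * n + s ∈ A} := by
  have h0 : (0 : ℤ) < q := Nat.cast_pos.2 hq
  have h1 := Int.emod_nonneg r h0.ne'
  have h2 := Int.emod_lt_of_pos r h0
  refine ⟨(r % q).toNat, mem_range.2 (by omega), ?_⟩
  rw [Int.toNat_of_nonneg h1, ← m.shift_int {n | (q : ℤ) * n + r % q ∈ A} (r / q)]
  simp only [Set.mem_ofPred_eq, mul_add, add_assoc, Int.mul_ediv_add_emod]

/-- An average of terms at most `M` that equals `M`; any integer `r` by `shift_int` and `r % q`. -/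
theorem Mean.Inv.eq_of {m : Mean a e} {q : ℕ} (hq : 0 < q) (h : m.Inv q) {A : Set ℤ} {M : ℝ}
    (hM : ∀ r : ℤ, m.μ {n | (q : ℤ) * n + r ∈ A} ≤ M) (hA : m.μ A = M) (r : ℤ) :
    m.μ {n | (q : ℤ) * n + r ∈ A} = M := by
  obtain ⟨s, hs, e⟩ := d1_mod m hq A r
  rw [h A, div_eq_iff (Nat.cast_pos.2 hq).ne'] at hA
  rw [e]
  exact (sum_eq_sum_iff_of_le (g := fun _ => M) fun (i : ℕ) _ => hM i).1
    (by rw [hA, sum_const, card_range, nsmul_eq_mul, mul_comm]) s hs

theorem Mean.Inv.part {m : Mean a e} {q : ℕ} (hq : 0 < q) (h : m.Inv q) (A : Set ℤ) (r : ℤ) :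
    m.μ {n | (q : ℤ) * n + r ∈ A} ≤ q * m.μ A := by
  obtain ⟨s, hs, e⟩ := d1_mod m hq A r
  rw [e, h A, mul_div_cancel₀ _ (Nat.cast_pos.2 hq).ne']
  exact single_le_sum (f := fun r : ℕ => m.μ {n | (q : ℤ) * n + r ∈ A})
    (fun i _ => m.nonneg _) hs

theorem Mean.Inv.tendsto {m : Mean a e} {q : ℕ} (hq : 0 < q) (h : m.Inv q) :
    Tendsto (fun x => (q : ℤ) * x) m.ae m.ae := by
  refine f1_tendsto m fun A hA => le_antisymm ?_ (m.nonneg _)
  simpa [hA] using h.part hq A 0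

theorem d2_sum (g : ℤ → ℝ) (q s : ℕ) : ∑ k ∈ range (q * s), g k =
    ∑ t ∈ range q, ∑ r ∈ range s, g ((s : ℤ) * t + r) := by
  induction q with
  | zero => simp
  | succ q ih =>
    rw [Nat.succ_mul, sum_range_add, ih, sum_range_succ]
    congr 1
    exact sum_congr rfl fun r _ => by rw [Nat.cast_add, Nat.cast_mul, mul_comm]

theorem d2_inv (μ : Set ℤ → ℝ) (s q : ℕ)
    (h : ∀ A, μ A = (∑ r ∈ range q, μ {n | (q : ℤ) * n + r ∈ A}) / q) (A : Set ℤ) :
    (∑ r ∈ range s, μ {n | (s : ℤ) * n + r ∈ A}) / s = (∑ t ∈ range q,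
      (∑ r ∈ range s, μ {n | (q : ℤ) * ((s : ℤ) * n + r) + t ∈ A}) / s) / q := by
  have h1 := d2_sum (fun k => μ {n | (q : ℤ) * s * n + k ∈ A}) q s
  have h2 := d2_sum (fun k => μ {n | (q : ℤ) * s * n + k ∈ A}) s q
  rw [mul_comm s q, h1, sum_comm, sum_comm (s := range s) (t := range q)
    (f := fun t r => μ {n | (q : ℤ) * s * n + ((q : ℤ) * t + r) ∈ A})] at h2
  have h3 : ∀ r : ℕ, μ {n | (s : ℤ) * n + r ∈ A} =
      (∑ t ∈ range q, μ {n | (q : ℤ) * s * n + ((s : ℤ) * t + r) ∈ A}) / q := fun r => by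
    rw [h]
    congr 1
    refine sum_congr rfl fun t _ => congrArg μ (Set.ext fun n => ?_)
    simp only [Set.mem_ofPred_eq]
    rw [show (s : ℤ) * (q * n + t) + r = q * s * n + (s * t + r) by ring]
  simp only [h3]
  rw [← sum_div, ← sum_div, h2, div_right_comm]
  congr 2
  refine sum_congr rfl fun t _ => sum_congr rfl fun r _ => congrArg μ (Set.ext fun n => ?_)
  simp only [Set.mem_ofPred_eq]
  rw [show (q : ℤ) * (s * n + r) + t = q * s * n + (q * r + t) by ring]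

/-- The average over the last digit in base `s` is again a mean. `count`: `m.count` for each `r`;
`shift`: the term `r = s` is the term `r = 0` by `m.shift`; `sgn`: the set lies in
`{n | e n ≤ 0}`; `two` and `mula` are the cases `q = 2`, `q = a` of the last clause, which compares
two double sums with the sum over `range (q * s)` of `μ {n | q s n + r ∈ A}`. -/
theorem Mean.lift (ha : 0 < a) (m : Mean a e) {s : ℕ} (hs : 0 < s) :
    ∃ m' : Mean a e, (∀ A, m'.μ A = (∑ r ∈ range s, m.μ {n | (s : ℤ) * n + r ∈ A}) / s) ∧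
      ∀ q, 0 < q → m.Inv q → m'.Inv q := by
  have hs0 : (0 : ℝ) < s := by exact_mod_cast hs
  refine ⟨⟨fun A => (∑ r ∈ range s, m.μ {n | (s : ℤ) * n + r ∈ A}) / s,
    fun A => div_nonneg (sum_nonneg fun r _ => m.nonneg _) hs0.le, ?_, fun A B h => ?_,
    fun H N A B h => ?_, fun A => ?_, fun A => d2_inv m.μ s a m.mula A, fun A => ?_, ?_⟩,
    fun _ => rfl, fun q _ h A => d2_inv m.μ s q h A⟩
  · simp [m.univ, hs0.ne']
  · rw [← add_div, ← sum_add_distrib]
    congr 1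
    exact sum_congr rfl fun r _ => m.add {n | (s : ℤ) * n + r ∈ A} {n | (s : ℤ) * n + r ∈ B}
      (h.preimage fun n => (s : ℤ) * n + r)
  · have h1 := sum_le_sum fun (r : ℕ) (_ : r ∈ range s) => m.count H N
      (fun i => {n | (s : ℤ) * n + r ∈ A i}) {n | (s : ℤ) * n + r ∈ B} fun x hx => h _ hx
    rw [sum_comm, sum_add_distrib, ← mul_sum, sum_const, card_range, nsmul_eq_mul] at h1
    rw [← sum_div, div_le_iff₀ hs0, add_mul, mul_assoc, div_mul_cancel₀ _ hs0.ne', mul_comm]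
    exact h1
  · have h1 := d2_inv m.μ s 2 m.inv_two A
    rw [sum_range_succ, sum_range_one] at h1
    simpa using h1
  · have h1 := sum_range_succ (fun r : ℕ => m.μ {n | (s : ℤ) * n + r ∈ A}) s
    have h2 : m.μ {n | (s : ℤ) * n + s ∈ A} = m.μ {n | (s : ℤ) * n + (0 : ℕ) ∈ A} := by
      rw [← m.shift {n | (s : ℤ) * n + (0 : ℕ) ∈ A}]
      simp [mul_add]
    rw [sum_range_succ', h2, add_left_inj] at h1
    rw [← h1]
    simp [add_assoc]
  · rw [sum_eq_zero, zero_div]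
    intro r hr
    have h1 : (r : ℤ) < s := by exact_mod_cast mem_range.1 hr
    have h0 : (0 : ℤ) ≤ r := Int.natCast_nonneg r
    have h2 := m.shift_int {n | e * n ≤ 0} (if 0 ≤ e then 0 else 1)
    refine le_antisymm (m.sgn ▸ h2 ▸ m.mono fun n hn => ?_) (m.nonneg _)
    simp only [Set.mem_ofPred_eq] at hn ⊢
    split_ifs with he
    · by_contra hc
      nlinarith [mul_nonneg he h0]
    · by_contra hc
      have h3 : n + 1 < 0 := by nlinarith
      have h4 : (s : ℤ) * n + r < 0 := by nlinarith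
      nlinarith

/-- The Cesàro mean of a sequence. -/
noncomputable def d3_c (u : ℕ → ℝ) (L : ℕ) : ℝ := (∑ l ∈ range (L + 1), u l) / ((L + 1 : ℕ) : ℝ)

theorem d3_const (c : ℝ) (L : ℕ) : d3_c (fun _ => c) L = c := by
  rw [d3_c, sum_const, card_range, nsmul_eq_mul, mul_div_cancel_left₀ _ (by positivity)]

theorem d3_mono {u v : ℕ → ℝ} (h : ∀ l, u l ≤ v l) (L : ℕ) : d3_c u L ≤ d3_c v L :=
  div_le_div_of_nonneg_right (sum_le_sum fun l _ => h l) (Nat.cast_nonneg _)

theorem d3_add (u v : ℕ → ℝ) (L : ℕ) : d3_c (fun l => u l + v l) L = d3_c u L + d3_c v L := by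
  simp only [d3_c, sum_add_distrib, add_div]

theorem d3_mul (c : ℝ) (u : ℕ → ℝ) (L : ℕ) : d3_c (fun l => c * u l) L = c * d3_c u L := by
  simp only [d3_c, ← mul_sum, mul_div_assoc]

theorem d3_div (c : ℝ) (u : ℕ → ℝ) (L : ℕ) : d3_c (fun l => u l / c) L = d3_c u L / c := by
  simp only [d3_c, ← sum_div, div_right_comm]

theorem d3_sum (s : Finset ℕ) (u : ℕ → ℕ → ℝ) (L : ℕ) :
    d3_c (fun l => ∑ i ∈ s, u i l) L = ∑ i ∈ s, d3_c (u i) L := by
  simp only [d3_c, ← sum_div]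
  rw [sum_comm]

theorem d3_shift {u : ℕ → ℝ} (h : ∀ l, u l ∈ Set.Icc (0 : ℝ) 1) (L : ℕ) :
    |d3_c (fun l => u (l + 1)) L - d3_c u L| ≤ 2 / ((L + 1 : ℕ) : ℝ) := by
  rw [d3_c, d3_c, ← sub_div, ← sum_sub_distrib, sum_range_sub, abs_div, Nat.abs_cast]
  refine div_le_div_of_nonneg_right (abs_le.2 ⟨?_, ?_⟩) (Nat.cast_nonneg _) <;>
    linarith [(h 0).1, (h 0).2, (h (L + 1)).1, (h (L + 1)).2]

/-- `μ A` is the limit of `(∑ l < L, (M l).μ A) / L` along `hyperfilter ℕ`, as in `exists_mean`;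
the first clause telescopes. -/
theorem Mean.limit (M : ℕ → Mean a e) {t : ℕ}
    (h : ∀ l A, (M (l + 1)).μ A = (∑ r ∈ range t, (M l).μ {n | (t : ℤ) * n + r ∈ A}) / t) :
    ∃ m' : Mean a e, m'.Inv t ∧ ∀ q, (∀ l, (M l).Inv q) → m'.Inv q := by
  have h0 : ∀ A l, (M l).μ A ∈ Set.Icc (0 : ℝ) 1 := fun A l =>
    ⟨(M l).nonneg A, ((M l).mono (Set.subset_univ A)).trans (M l).univ.le⟩
  have h01 : ∀ A L, d3_c (fun l => (M l).μ A) L ∈ Set.Icc (0 : ℝ) 1 := fun A L =>
    ⟨(d3_const 0 L).ge.trans (d3_mono (fun l => (h0 A l).1) L),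
      (d3_mono (fun l => (h0 A l).2) L).trans (d3_const 1 L).le⟩
  choose μ hμ using fun A => m2_lim (fun L => d3_c (fun l => (M l).μ A) L) (h01 A)
  have hq : ∀ q : ℕ, (∀ l, (M l).Inv q) →
      ∀ A, μ A = (∑ r ∈ range q, μ {n | (q : ℤ) * n + r ∈ A}) / q := fun q hq A => by
    refine tendsto_nhds_unique (hμ A)
      (((tendsto_finsetSum _ fun r _ => hμ _).div_const (q : ℝ)).congr fun L => ?_)
    rw [← d3_sum, ← d3_div]
    exact congrArg (d3_c · L) (funext fun l => (hq l A).symm)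
  refine ⟨⟨μ, fun A => ge_of_tendsto' (hμ A) fun L => (h01 A L).1, ?_, fun A B hAB => ?_,
    fun H N A B h => ?_, fun A => ?_, hq a fun l => (M l).mula, fun A => ?_, ?_⟩, fun A => ?_, hq⟩
  · refine tendsto_nhds_unique (hμ _) (tendsto_const_nhds.congr fun L => ?_)
    simp only [Mean.univ, d3_const]
  · refine tendsto_nhds_unique (hμ _) (((hμ A).add (hμ B)).congr fun L => ?_)
    simp only [← d3_add, Mean.add _ A B hAB]
  · refine le_of_tendsto_of_tendsto' (tendsto_finsetSum _ fun i _ => hμ (A i))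
      (((hμ B).const_mul (H : ℝ)).const_add (N : ℝ)) fun L => ?_
    rw [← d3_sum, ← d3_mul, ← d3_const (N : ℝ) L, ← d3_add]
    exact d3_mono (fun l => (M l).count H N A B h) L
  · refine tendsto_nhds_unique (hμ A) ((((hμ _).add (hμ _)).div_const 2).congr fun L => ?_)
    rw [← d3_add, ← d3_div]
    exact congrArg (d3_c · L) (funext fun l => ((M l).two A).symm)
  · refine tendsto_nhds_unique (hμ _) ((hμ A).congr fun L => ?_)
    simp only [Mean.shift]
  · refine tendsto_nhds_unique (hμ _) (tendsto_const_nhds.congr fun L => ?_)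
    simp only [Mean.sgn, d3_const]
  · refine (m2_eq ((tendsto_finsetSum _ fun r _ => hμ _).div_const (t : ℝ)) (hμ A)
      fun L => ?_).symm
    rw [← d3_sum, ← d3_div]
    simpa only [h] using d3_shift (h0 A) L

theorem exists_meanG (ha : 0 < a) (he : e = 1 ∨ e = -1) (b : ℕ) :
    ∃ m : Mean a e, ∀ q, 0 < q → q ≤ b → m.Inv q := by
  induction b with
  | zero =>
    obtain ⟨m⟩ := exists_mean ha he
    exact ⟨m, fun q h0 h1 => by omega⟩
  | succ b ih =>
    obtain ⟨m, hm⟩ := ih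
    choose f hf hf' using fun m : Mean a e => m.lift ha b.succ_pos
    obtain ⟨m', h1, h2⟩ := Mean.limit (fun l => f^[l] m) (t := b + 1) fun l A => by
      rw [Function.iterate_succ_apply']
      exact hf _ A
    refine ⟨m', fun q h0 h3 => ?_⟩
    rcases Nat.lt_or_eq_of_le h3 with h4 | rfl
    · refine h2 q fun l => ?_
      induction l with
      | zero => exact hm q h0 (by omega)
      | succ l ih' =>
        rw [Function.iterate_succ_apply']
        exact hf' _ q h0 ih'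
    · exact h1

end Pool.Agent.Lib.MP_dee342_nt.Au
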