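import Pool.Agent.Lib.MP_dee342_nt.Au.ADefs

/-!
Automatic relations on the integers.
-/

set_option autoImplicit false

namespace Pool.Agent.Lib.MP_dee342_nt

/-- The relation `R` has a finite `b`-kernel: both arguments are read digit by digit in base `b`
at the same time. -/
def AutomaticRel (b : ℕ) (R : ℤ → ℤ → Prop) : Prop :=
  {A : Set (ℤ × ℤ) | ∃ (k : ℕ) (r s : ℤ), 0 ≤ r ∧ r < (b : ℤ) ^ k ∧ 0 ≤ s ∧ s < (b : ℤ) ^ k ∧
    A = {p | R ((b : ℤ) ^ k * p.1 + r) ((b : ℤ) ^ k * p.2 + s)}}.Finite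

end Pool.Agent.Lib.MP_dee342_nt
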