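import Pool.Agent.Lib.MP_dee342_nt.Au.ACor
import Pool.Agent.Lib.MP_dee342_nt.Au.RDefs

/-!
Automatic relations whose sections are closed under the map.
-/

set_option autoImplicit false

namespace Pool.Agent.Lib.MP_dee342_nt.Au

open Filter Function

theorem sec_auto {b : ℕ} (hb : 2 ≤ b) {R : ℤ → ℤ → Prop} (h : AutomaticRel b R) (z : ℤ) :
    Automatic b {y | R y z} := by
  refine ((Set.Finite.prod h (Set.finite_Icc (-|z|) |z|)).image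
    fun q => {n : ℤ | (n, q.2) ∈ q.1}).subset ?_
  rintro _ ⟨k, r, h0, h1, rfl⟩
  have hq : (0 : ℤ) < (b : ℤ) ^ k := by positivity
  refine ⟨(_, z / (b : ℤ) ^ k), ⟨⟨k, r, z % (b : ℤ) ^ k, h0, h1, Int.emod_nonneg _ hq.ne',
    Int.emod_lt_of_pos _ hq, rfl⟩, abs_le.1 (Int.abs_ediv_le_abs _ _)⟩, ?_⟩
  ext n
  show R _ ((b : ℤ) ^ k * (z / (b : ℤ) ^ k) + z % (b : ℤ) ^ k) ↔ R _ z
  rw [Int.mul_ediv_add_emod]

theorem prime_a {a : ℕ} (ha : a = 3 ∨ a = 5) : Prime (a : ℤ) := by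
  rcases ha with rfl | rfl
  · exact Int.prime_three
  · exact Nat.prime_iff_prime_int.1 Nat.prime_five

theorem lim_step {a : ℕ} (ha : a = 3 ∨ a = 5) (U : Ultrafilter ℤ) (hU : (U : Filter ℤ) ≤ cofinite)
    {G : Set ℤ} (hG : G.Finite) {K o h : ℕ} {c : ℤ} {x : ℤ → ℤ}
    (h1 : ∀ᶠ n in (U : Filter ℤ), 2 ^ h * x n = (a : ℤ) ^ o * n + c)
    (h2 : ∀ᶠ n in (U : Filter ℤ), ∃ j, (T a)^[j] (x n) ∈ G ∧ odds a j (x n) ≤ K) :
    (∀ M : ℕ, ∀ᶠ n in (U : Filter ℤ), (2 : ℤ) ^ M ∣ (a : ℤ) ^ o * n + c) ∨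
      ∃ (h' : ℕ) (c' : ℤ) (x' : ℤ → ℤ), ¬ (a : ℤ) ∣ c' ∧
        (∀ᶠ n in (U : Filter ℤ), 2 ^ h' * x' n = (a : ℤ) ^ (o + 1) * n + c') ∧
        ∀ᶠ n in (U : Filter ℤ), ∃ j, (T a)^[j] (x' n) ∈ G ∧ odds a j (x' n) + 1 ≤ K := by
  classical
  by_cases hc : ∀ M : ℕ, ∀ᶠ n in (U : Filter ℤ), (2 : ℤ) ^ M ∣ x n
  · exact Or.inl fun M => ((hc M).and h1).mono fun n hn => hn.2 ▸ hn.1.mul_left _
  right
  have ex : ∃ M : ℕ, ¬ ∀ᶠ n in (U : Filter ℤ), (2 : ℤ) ^ M ∣ x n := not_forall.1 hc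
  obtain ⟨M, e1, e2⟩ : ∃ M : ℕ, (∀ᶠ n in (U : Filter ℤ), (2 : ℤ) ^ M ∣ x n) ∧
      ∀ᶠ n in (U : Filter ℤ), ¬ (2 : ℤ) ^ (M + 1) ∣ x n := by
    have s1 := Nat.find_spec ex
    have s2 := fun i => Nat.find_min ex (m := i)
    generalize Nat.find ex = M at s1 s2
    cases M with
    | zero => exact absurd (Eventually.of_forall fun n => by simp) s1
    | succ M => exact ⟨M, not_not.1 (s2 M M.lt_succ_self), Ultrafilter.eventually_not.2 s1⟩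
  have ha0 : (a : ℤ) ^ o ≠ 0 := pow_ne_zero _ (by omega)
  have bad : {n : ℤ | ∃ i ≤ M, ∃ g ∈ G, (a : ℤ) ^ o * n + c = 2 ^ h * (2 ^ i * g)}.Finite := by
    have f1 : ((fun q : ℕ × ℤ => 2 ^ h * (2 ^ q.1 * q.2)) '' (Set.Iic M ×ˢ G)).Finite :=
      ((Set.finite_Iic M).prod hG).image _
    refine (f1.preimage (f := fun n : ℤ => (a : ℤ) ^ o * n + c) ?_).subset ?_
    · exact fun n _ n' _ e => mul_left_cancel₀ ha0 (add_right_cancel e)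
    · rintro n ⟨i, hi, g, hg, e⟩
      exact ⟨(i, g), ⟨hi, hg⟩, e.symm⟩
  have e3 := hU bad.compl_mem_cofinite
  refine ⟨h + M + 1, a * c + 2 ^ (h + M), fun n => (T a)^[M + 1] (x n), ?_, ?_, ?_⟩
  · intro hd
    have := (prime_a ha).dvd_of_dvd_pow ((dvd_add_right (dvd_mul_right _ _)).1 hd)
    rcases ha with rfl | rfl <;> omega
  · filter_upwards [h1, e1, e2] with n a1 ⟨w, hw⟩ a3
    have hodd : w % 2 = 1 := by
      by_contra hw2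
      exact a3 ⟨w / 2, by rw [hw, pow_succ, mul_assoc]; congr 1; omega⟩
    have t1 : 2 * T a w = a * w + 1 := by
      unfold T
      rw [if_neg (by omega)]
      rcases ha with rfl | rfl <;> push_cast <;> omega
    rw [iterate_succ_apply', hw, iter_two_pow]
    rw [hw] at a1
    linear_combination (2 : ℤ) ^ (h + M) * t1 + (a : ℤ) * a1
  · filter_upwards [h1, h2, e1, e2, e3] with n a1 ⟨j, a2, a2'⟩ ⟨w, hw⟩ a3 a4
    have hodd : w % 2 = 1 := by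
      by_contra hw2
      exact a3 ⟨w / 2, by rw [hw, pow_succ, mul_assoc]; congr 1; omega⟩
    have hj : M + 1 ≤ j := by
      by_contra hlt
      have hjM : j ≤ M := by omega
      refine a4 ⟨j, hjM, _, a2, ?_⟩
      rw [← a1, hw, p2_iter _ hjM, ← mul_assoc (2 ^ j : ℤ), ← pow_add, Nat.add_sub_cancel' hjM]
    obtain ⟨j', rfl⟩ := Nat.exists_eq_add_of_le hj
    refine ⟨j', ?_, ?_⟩
    · rwa [← iterate_add_apply, add_comm]
    · rw [odds_add, odds_succ, if_pos (by rw [hw, iter_two_pow]; exact hodd)] at a2'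
      omega

theorem lim_all {a : ℕ} (ha : a = 3 ∨ a = 5) (U : Ultrafilter ℤ) (hU : (U : Filter ℤ) ≤ cofinite)
    {G : Set ℤ} (hG : G.Finite) (K : ℕ) : ∀ (o h : ℕ) (c : ℤ) (x : ℤ → ℤ), ¬ (a : ℤ) ∣ c →
    (∀ᶠ n in (U : Filter ℤ), 2 ^ h * x n = (a : ℤ) ^ o * n + c) →
    (∀ᶠ n in (U : Filter ℤ), ∃ j, (T a)^[j] (x n) ∈ G ∧ odds a j (x n) ≤ K) →
    ∃ (o' : ℕ) (d : ℤ), o ≤ o' ∧ ¬ (a : ℤ) ∣ d ∧
      ∀ M : ℕ, ∀ᶠ n in (U : Filter ℤ), (2 : ℤ) ^ M ∣ (a : ℤ) ^ o' * n + d := by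
  induction K with
  | zero =>
    intro o h c x hc h1 h2
    rcases lim_step ha U hU hG h1 h2 with h3 | ⟨h', c', x', -, -, h3⟩
    · exact ⟨o, c, le_rfl, hc, h3⟩
    · obtain ⟨n, j, -, h4⟩ := h3.exists
      omega
  | succ K ih =>
    intro o h c x hc h1 h2
    rcases lim_step ha U hU hG h1 h2 with h3 | ⟨h', c', x', h3, h4, h5⟩
    · exact ⟨o, c, le_rfl, hc, h3⟩
    · obtain ⟨o', d, b1, b2, b3⟩ := ih (o + 1) h' c' x' h3 h4
        (h5.mono fun n ⟨j, b1, b2⟩ => ⟨j, b1, by omega⟩)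
      exact ⟨o', d, by omega, b2, b3⟩

theorem lim_uniq {a : ℕ} (U : Ultrafilter ℤ) {o o' : ℕ} {d d' : ℤ}
    (hd : ¬ (a : ℤ) ∣ d)
    (h : ∀ M : ℕ, ∀ᶠ n in (U : Filter ℤ), (2 : ℤ) ^ M ∣ (a : ℤ) ^ o * n + d)
    (h' : ∀ M : ℕ, ∀ᶠ n in (U : Filter ℤ), (2 : ℤ) ^ M ∣ (a : ℤ) ^ o' * n + d') : o ≤ o' := by
  by_contra hlt
  obtain ⟨t, rfl⟩ := Nat.exists_eq_add_of_lt (not_le.1 hlt)
  have key : ∀ M : ℕ, (2 : ℤ) ^ M ∣ d - (a : ℤ) ^ (t + 1) * d' := fun M => by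
    obtain ⟨n, b1, b2⟩ := ((h M).and (h' M)).exists
    have := b1.sub (b2.mul_left ((a : ℤ) ^ (t + 1)))
    rwa [show (a : ℤ) ^ (o' + t + 1) * n + d - (a : ℤ) ^ (t + 1) * ((a : ℤ) ^ o' * n + d') =
      d - (a : ℤ) ^ (t + 1) * d' by ring] at this
  obtain ⟨M, hM⟩ := pow_unbounded_of_one_lt |d - (a : ℤ) ^ (t + 1) * d'| (one_lt_two (α := ℤ))
  have h0 := Int.eq_zero_of_abs_lt_dvd (key M) hM
  exact hd ⟨(a : ℤ) ^ t * d', by linear_combination h0⟩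

theorem sec_bound {a : ℕ} (ha : a = 3 ∨ a = 5) (Y : Set ℤ) : ∃ B : ℕ,
    (Y.Finite → ∀ n ∈ Y, |n| ≤ B) ∧ (Y.Infinite → ∀ (G : Set ℤ) (K o : ℕ) (c : ℤ), G.Finite →
      ¬ (a : ℤ) ∣ c → (∀ n ∈ Y, ∃ j, (T a)^[j] ((a : ℤ) ^ o * n + c) ∈ G ∧
        odds a j ((a : ℤ) ^ o * n + c) ≤ K) → o ≤ B) := by
  by_cases hY : Y.Finite
  · obtain ⟨B, hB⟩ := (hY.image fun x => x.natAbs).bddAbove
    refine ⟨B, fun _ n hn => ?_, fun h => absurd hY h⟩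
    have : n.natAbs ≤ B := hB ⟨n, hn, rfl⟩
    rw [Int.abs_eq_natAbs]
    exact_mod_cast this
  have hne := Set.Infinite.cofinite_inf_principal_neBot hY
  obtain ⟨U, hU⟩ : ∃ U : Ultrafilter ℤ, (U : Filter ℤ) ≤ cofinite ⊓ principal Y :=
    ⟨_, Ultrafilter.of_le _⟩
  have hU1 := hU.trans inf_le_left
  have hU2 : ∀ᶠ n in (U : Filter ℤ), n ∈ Y := le_principal_iff.1 (hU.trans inf_le_right)
  have key : ∀ (G : Set ℤ) (K o : ℕ) (c : ℤ), G.Finite → ¬ (a : ℤ) ∣ c →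
      (∀ n ∈ Y, ∃ j, (T a)^[j] ((a : ℤ) ^ o * n + c) ∈ G ∧ odds a j ((a : ℤ) ^ o * n + c) ≤ K) →
      ∃ (o' : ℕ) (d : ℤ), o ≤ o' ∧ ¬ (a : ℤ) ∣ d ∧
        ∀ M : ℕ, ∀ᶠ n in (U : Filter ℤ), (2 : ℤ) ^ M ∣ (a : ℤ) ^ o' * n + d :=
    fun G K o c hG hc h => lim_all ha U hU1 hG K o 0 c (fun n => (a : ℤ) ^ o * n + c) hc
      (Eventually.of_forall fun n => by simp) (hU2.mono h)
  by_cases ex : ∃ (o' : ℕ) (d : ℤ),
      ∀ M : ℕ, ∀ᶠ n in (U : Filter ℤ), (2 : ℤ) ^ M ∣ (a : ℤ) ^ o' * n + d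
  · obtain ⟨B, d, hB⟩ := ex
    refine ⟨B, fun h => absurd h hY, fun _ G K o c hG hc h => ?_⟩
    obtain ⟨o', d', b1, b2, b3⟩ := key G K o c hG hc h
    exact b1.trans (lim_uniq U b2 b3 hB)
  · refine ⟨0, fun h => absurd h hY, fun _ G K o c hG hc h => ?_⟩
    obtain ⟨o', d', -, -, b3⟩ := key G K o c hG hc h
    exact absurd ⟨o', d', b3⟩ ex

theorem all_odd {a : ℕ} (ha : a = 3 ∨ a = 5) (i : ℕ) : ∀ (z t : ℤ),
    ((a : ℤ) - 2) * z + 1 = 2 ^ i * t →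
      ((a : ℤ) - 2) * (T a)^[i] z + 1 = (a : ℤ) ^ i * t ∧ odds a i z = i := by
  induction i with
  | zero => intro z t h; simpa [odds_zero] using h
  | succ i ih =>
    intro z t h
    obtain ⟨h1, h2⟩ := ih z (2 * t) (by rw [h]; ring)
    have h3 : (a : ℤ) ^ i * (2 * t) = 2 * ((a : ℤ) ^ i * t) := by ring
    have h4 : (a : ℤ) ^ (i + 1) * t = a * ((a : ℤ) ^ i * t) := by ring
    rw [h3] at h1
    rw [odds_succ, h2, iterate_succ_apply', h4]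
    generalize (a : ℤ) ^ i * t = v at h1
    generalize (T a)^[i] z = y at h1
    have hodd : y % 2 = 1 := by rcases ha with rfl | rfl <;> push_cast at h1 <;> omega
    refine ⟨?_, by rw [if_pos hodd]⟩
    unfold T
    rw [if_neg (by omega)]
    rcases ha with rfl | rfl <;> push_cast at h1 ⊢ <;> omega

theorem unit_of_odds {a : ℕ} (ha : a = 3 ∨ a = 5) {x : ℤ} {j : ℕ} (h : 1 ≤ odds a j x) :
    ¬ (a : ℤ) ∣ (T a)^[j] x := by
  obtain ⟨i, h1, -, h3⟩ := odds_hit ha x (j := j) (o := 1) le_rfl h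
  obtain ⟨t, rfl⟩ := Nat.exists_eq_add_of_le' h1
  rw [iterate_add_apply]
  exact k1_unit ha t h3

/-- A long excursion that ends with many odd steps forces the first alternative. -/
theorem rel_core {a : ℕ} (ha : a = 3 ∨ a = 5) {b : ℕ} (hb : 2 ≤ b) {R : ℤ → ℤ → Prop}
    (hR : AutomaticRel b R) {e : ℤ} (he : e = 1 ∨ e = -1)
    (hT : ∀ x y, R y x → R (T a y) x) : ∃ L : ℕ, ∀ z y : ℤ, (b : ℤ) ^ L ≤ e * z → R y z →
      (L + 1) * (e * z) ≤ e * y → odds a L y = L → ∀ m, 0 < e * m → ¬ (a : ℤ) ∣ m → R m z := by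
  choose B hB1 hB2 using sec_bound ha
  obtain ⟨B₀, hB₀⟩ := ((Set.Finite.prod hR (Set.finite_Icc (-(b : ℤ)) b)).image
    fun q => B {n : ℤ | (n, q.2) ∈ q.1 ∧ 0 < e * n}).bddAbove
  refine ⟨B₀ + 1, fun z y hz hy hzy hodd => ?_⟩
  have hb1 : (1 : ℤ) < b := by exact_mod_cast hb
  rcases mainG ha hb (sec_auto hb hR z) (fun y hy => hT z y hy) he with h | ⟨hG, ⟨K, hK⟩, hfin⟩
  · exact h
  exfalso
  have hz1 : 1 ≤ e * z := (one_le_pow₀ hb1.le).trans hz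
  obtain ⟨k, k1, k2⟩ := exists_nat_pow_near hz1 hb1
  have hk : B₀ + 1 ≤ k := Nat.lt_succ_iff.1 ((pow_lt_pow_iff_right₀ hb1).1 (hz.trans_lt k2))
  obtain ⟨q, hq⟩ : ∃ q : ℤ, q = (b : ℤ) ^ k := ⟨_, rfl⟩
  have q0 : 0 < q := by rw [hq]; positivity
  rw [pow_succ] at k2
  rw [← hq] at k1 k2
  obtain ⟨m, r, e1, r0, r1⟩ : ∃ m r, q * m + r = z ∧ 0 ≤ r ∧ r < q :=
    ⟨_, _, Int.mul_ediv_add_emod z q, Int.emod_nonneg _ q0.ne', Int.emod_lt_of_pos _ q0⟩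
  obtain ⟨n, s, e2, s0, s1⟩ : ∃ n s, q * n + s = y ∧ 0 ≤ s ∧ s < q :=
    ⟨_, _, Int.mul_ediv_add_emod y q, Int.emod_nonneg _ q0.ne', Int.emod_lt_of_pos _ q0⟩
  have hm : m ∈ Set.Icc (-(b : ℤ)) b := by
    constructor
    · by_contra hc
      have : q * m ≤ q * (-(b : ℤ) - 1) := mul_le_mul_of_nonneg_left (by omega) q0.le
      rcases he with rfl | rfl <;> nlinarith
    · by_contra hc
      have : q * ((b : ℤ) + 1) ≤ q * m := mul_le_mul_of_nonneg_left (by omega) q0.le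
      rcases he with rfl | rfl <;> nlinarith
  obtain ⟨Y, hY⟩ : ∃ Y : Set ℤ, Y = {n' : ℤ | R (q * n' + s) z ∧ 0 < e * n'} := ⟨_, rfl⟩
  have hBY : B Y ≤ B₀ := by
    refine hB₀ ⟨({p | R (q * p.1 + s) (q * p.2 + r)}, m),
      ⟨⟨k, s, r, s0, hq ▸ s1, r0, hq ▸ r1, by rw [hq]⟩, hm⟩, ?_⟩
    simp only [hY, Set.mem_ofPred_eq, e1]
  have hn : (B₀ : ℤ) < e * n := by
    by_contra hc
    have h1 : q * (e * n) ≤ q * B₀ := mul_le_mul_of_nonneg_left (not_lt.1 hc) q0.le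
    have h2 : ((B₀ : ℤ) + 1 + 1) * q ≤ ((B₀ : ℤ) + 1 + 1) * (e * z) :=
      mul_le_mul_of_nonneg_left k1 (by positivity)
    push_cast at hzy
    rcases he with rfl | rfl <;> nlinarith
  have hnY : n ∈ Y := by
    rw [hY]
    exact ⟨e2 ▸ hy, (Int.natCast_nonneg B₀).trans_lt hn⟩
  have hinf : Y.Infinite := fun hf => by
    have h1 := hB1 Y hf n hnY
    have h2 : (B Y : ℤ) ≤ B₀ := by exact_mod_cast hBY
    have h3 := le_abs_self n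
    have h4 := neg_le_abs n
    rcases he with rfl | rfl <;> omega
  have sgn : ∀ n' ∈ Y, 0 < e * (q * n' + s) := fun n' hn' => by
    rw [hY] at hn'
    have h1 : q * 1 ≤ q * (e * n') := mul_le_mul_of_nonneg_left hn'.2 q0.le
    rcases he with rfl | rfl <;> nlinarith
  have mem : ∀ n' ∈ Y, R (q * n' + s) z := fun n' hn' => by
    rw [hY] at hn'
    exact hn'.1
  by_cases h2 : ∀ i, b ≠ 2 ^ i
  · refine hinf (((hfin h2).preimage (f := fun n' : ℤ => q * n' + s) ?_).subset ?_)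
    · exact fun n _ n' _ e => mul_left_cancel₀ q0.ne' (add_right_cancel e)
    · intro n' hn'
      exact ⟨mem n' hn', sgn n' hn'⟩
  push Not at h2
  obtain ⟨α, hα⟩ := h2
  have hα0 : 1 ≤ α := by
    rcases Nat.eq_zero_or_pos α with rfl | h0
    · omega
    · exact h0
  have hq2 : q = 2 ^ (α * k) := by rw [hq, hα, pow_mul]; push_cast; rfl
  have hH : B₀ + 1 ≤ α * k := hk.trans (Nat.le_mul_of_pos_left k hα0)
  generalize α * k = H at hq2 hH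
  have o1 : B₀ + 1 ≤ odds a H s := by
    rw [← odds_aff ha H n s, ← hq2, e2, ← hodd]
    exact odds_mono a hH y
  have it : ∀ (j : ℕ) (x : ℤ), R x z → R ((T a)^[j] x) z := fun j x hx =>
    n3_iter (S := {y | R y z}) (fun y hy => hT z y hy) j hx
  have := hB2 Y hinf _ K (odds a H s) ((T a)^[H] s) hG (unit_of_odds ha (by omega))
    fun n' hn' => by
      rw [← iter_aff ha, ← hq2]
      have c1 := it H _ (mem n' hn')
      have c2 := (iter_sign ha he H _).2 (sgn n' hn')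
      obtain ⟨j, c3, c4⟩ := hK _ c1 c2
      exact ⟨j, ⟨it j _ c1, (iter_sign ha he j _).2 c2, c3⟩, c4⟩
  omega

theorem rel_main {a : ℕ} (ha : a = 3 ∨ a = 5) {b : ℕ} (hb : 2 ≤ b) {R : ℤ → ℤ → Prop}
    (hR : AutomaticRel b R) {e : ℤ} (he : e = 1 ∨ e = -1)
    (h1 : ∀ x, 0 < e * x → R (T a x) x) (hT : ∀ x y, R y x → R (T a y) x) :
    ∃ (n : ℕ) (M : ℤ), ∀ z : ℤ, M ≤ e * z → 2 ^ n ∣ ((a : ℤ) - 2) * z + 1 →
      ∀ m, 0 < e * m → ¬ (a : ℤ) ∣ m → R m z := by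
  obtain ⟨L, hL⟩ := rel_core ha hb hR he hT
  obtain ⟨j, hj⟩ : ∃ j : ℕ, 2 * ((L : ℤ) + 1) * 2 ^ (j + 1) ≤ (a : ℤ) ^ (j + 1) := by
    obtain ⟨j, hj⟩ := pow_unbounded_of_one_lt (2 * ((L : ℚ) + 1)) (show (1 : ℚ) < 3 / 2 by norm_num)
    refine ⟨j, ?_⟩
    have h3 : (3 : ℤ) ^ (j + 1) ≤ (a : ℤ) ^ (j + 1) := pow_le_pow_left₀ (by norm_num) (by omega) _
    rw [div_pow, lt_div_iff₀ (by positivity)] at hj
    have h4 : 2 * ((L : ℤ) + 1) * 2 ^ j < 3 ^ j := by exact_mod_cast hj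
    have h5 : (0 : ℤ) < 3 ^ j := by positivity
    rw [pow_succ (3 : ℤ)] at h3
    rw [pow_succ (2 : ℤ), ← mul_assoc]
    omega
  refine ⟨j + 1 + L, max ((b : ℤ) ^ L) 2, fun z hz ⟨t, ht⟩ => ?_⟩
  have z1 := (le_max_left _ _).trans hz
  have z2 := (le_max_right _ _).trans hz
  obtain ⟨c1, -⟩ := all_odd ha (j + 1) z (2 ^ L * t) (by rw [ht]; ring)
  obtain ⟨-, c2⟩ := all_odd ha L ((T a)^[j + 1] z) ((a : ℤ) ^ (j + 1) * t) (by rw [c1]; ring)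
  refine hL z _ z1 ?_ ?_ c2
  · rw [iterate_succ_apply]
    exact n3_iter (S := {y | R y z}) (fun y hy => hT z y hy) j (h1 z (by omega))
  · generalize (T a)^[j + 1] z = y at c1
    have c3 : ((a : ℤ) - 2) * z + 1 = 2 ^ (j + 1) * (2 ^ L * t) := by rw [ht]; ring
    generalize (2 : ℤ) ^ L * t = v at c1 c3
    have p0 : (0 : ℤ) < 2 ^ (j + 1) := by positivity
    generalize (2 : ℤ) ^ (j + 1) = P at hj c3 p0
    generalize (a : ℤ) ^ (j + 1) = A at hj c1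
    have v0 : 0 ≤ e * v := by
      by_contra hc
      have : P * (e * v) ≤ P * 0 := mul_le_mul_of_nonneg_left (not_le.1 hc).le p0.le
      rcases he with rfl | rfl <;> rcases ha with rfl | rfl <;> push_cast at c3 <;> nlinarith
    have c4 : 2 * ((L : ℤ) + 1) * P * (e * v) ≤ A * (e * v) := mul_le_mul_of_nonneg_right hj v0
    have c5 : (0 : ℤ) ≤ L := Int.natCast_nonneg L
    have c6 : (L : ℤ) * 2 ≤ L * (e * z) := mul_le_mul_of_nonneg_left z2 c5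
    have c7 : A * (e * v) = e * (((a : ℤ) - 2) * y + 1) := by rw [c1]; ring
    have c8 : 2 * ((L : ℤ) + 1) * P * (e * v) = 2 * ((L : ℤ) + 1) * (e * (((a : ℤ) - 2) * z + 1)) := by
      rw [c3]; ring
    rw [c7, c8] at c4
    rcases he with rfl | rfl <;> rcases ha with rfl | rfl <;> push_cast at c4 <;> nlinarith

theorem rel_diag {a : ℕ} (ha : a = 3 ∨ a = 5) {b : ℕ} (hb : 2 ≤ b) {R : ℤ → ℤ → Prop}
    (hR : AutomaticRel b R) {e : ℤ} (he : e = 1 ∨ e = -1)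
    (h1 : ∀ x, 0 < e * x → R (T a x) x) (hT : ∀ x y, R y x → R (T a y) x) :
    {x | R x x}.Infinite := by
  obtain ⟨n, M, h⟩ := rel_main ha hb hR he h1 hT
  intro hf
  obtain ⟨B, hB⟩ := (hf.image fun x => e * x).bddAbove
  have cop : IsCoprime ((a : ℤ) - 2) ((a : ℤ) * 2 ^ n) := by
    refine IsCoprime.mul_right ?_ (IsCoprime.pow_right ?_)
    · rcases ha with rfl | rfl
      · exact ⟨1, 0, by norm_num⟩
      · exact ⟨2, -1, by norm_num⟩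
    · rcases ha with rfl | rfl
      · exact ⟨1, 0, by norm_num⟩
      · exact ⟨1, -1, by norm_num⟩
  obtain ⟨u, v, huv⟩ := cop
  obtain ⟨t, ht⟩ : ∃ t : ℤ, t = |u| + |M| + |B| + 1 := ⟨_, rfl⟩
  obtain ⟨z, hz⟩ : ∃ z : ℤ, z = -u + e * ((a : ℤ) * 2 ^ n * t) := ⟨_, rfl⟩
  have d : (a : ℤ) * 2 ^ n ∣ ((a : ℤ) - 2) * z + 1 :=
    ⟨v + ((a : ℤ) - 2) * e * t, by rw [hz]; linear_combination -huv⟩
  have u1 := le_abs_self u
  have u2 := neg_le_abs u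
  have m1 := le_abs_self M
  have b1 := le_abs_self B
  have m0 := abs_nonneg M
  have b0 := abs_nonneg B
  have t1 : t ≤ (a : ℤ) * 2 ^ n * t := by
    refine le_mul_of_one_le_left (by omega) ?_
    have : (0 : ℤ) < (a : ℤ) * 2 ^ n := mul_pos (by omega) (by positivity)
    omega
  generalize (a : ℤ) * 2 ^ n * t = W at t1 hz
  have z1 : |M| + |B| + 1 ≤ e * z := by rcases he with rfl | rfl <;> omega
  have z2 : ¬ (a : ℤ) ∣ z := fun hd => by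
    have := (dvd_add_right (hd.mul_left _)).1 ((dvd_mul_right _ _).trans d)
    rcases ha with rfl | rfl <;> omega
  have := hB ⟨z, h z (by omega) ((dvd_mul_left _ _).trans d) z (by omega) z2, rfl⟩
  simp only at this
  omega

theorem n3_gen {f : ℤ → ℤ} {R : ℤ → ℤ → Prop} (h1 : ∀ x, R (f x) x)
    (h2 : ∀ x y, R y x → R (f y) x) (j : ℕ) (x : ℤ) : R (f^[j + 1] x) x := by
  induction j with
  | zero => exact h1 x
  | succ j ih => rw [iterate_succ_apply']; exact h2 _ _ ih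

theorem finite_iff_rel (f : ℤ → ℤ) : (periodicPts f).Finite ↔ ∃ R : ℤ → ℤ → Prop,
    (∀ x, R (f x) x) ∧ (∀ x y, R y x → R (f y) x) ∧ {x | R x x}.Finite := by
  constructor
  · refine fun h => ⟨fun y x => ∃ j, f^[j + 1] x = y, fun x => ⟨0, rfl⟩, ?_, h.subset ?_⟩
    · rintro x _ ⟨j, rfl⟩
      exact ⟨j + 1, iterate_succ_apply' f _ x⟩
    · rintro x ⟨j, hj⟩
      exact ⟨j + 1, j.succ_pos, hj⟩
  · rintro ⟨R, h1, h2, h3⟩
    refine h3.subset ?_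
    rintro x ⟨p, hp, hx⟩
    obtain ⟨j, rfl⟩ := Nat.exists_eq_succ_of_ne_zero hp.ne'
    have := n3_gen h1 h2 j x
    rwa [show f^[j + 1] x = x from hx] at this

end Pool.Agent.Lib.MP_dee342_nt.Au
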